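import Pool.Agent.CollatzOne.EntRec1

set_option autoImplicit false

/-!
The entropy recursion for block systems, part 2: telescoping sums, moments and the bound (A5).
-/

namespace CollatzOne

/-- Telescoping of the relative entropies for a compatible family of periodic functions. -/
lemma DD_tele {N r : ℕ} (hr : 1 ≤ r) {κ : ℝ} (hκ : 0 < κ) {f g : ℤ → ℝ} (hf : ∀ x, 0 ≤ f x)
    (hg : Per N g) (hfg : ∀ x, S r (fun h => f (x + N * h)) = κ * g x) :
    DD N r f = S (N * r) f * Real.log (r / κ) + S (N * r) (fun x => f x * Real.log (f x)) -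
      κ * S N (fun x => g x * Real.log (g x)) := by
  have hr' : (0 : ℝ) < r := by exact_mod_cast hr
  have h1 : ∀ x, f x * Real.log (r * f x / S r (fun h => f (x + N * h))) =
      f x * Real.log (r / κ) + f x * Real.log (f x) - f x * Real.log (g x) := by
    intro x
    rcases (hf x).eq_or_lt with h0 | h0
    · rw [← h0]; simp
    · have h2 : 0 < κ * g x := by
        rw [← hfg x]
        have h3 : f x ≤ S r (fun h => f (x + N * h)) := by
          unfold S
          have h4 : (0 : ℕ) ∈ Finset.range r := Finset.mem_range.2 hr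
          refine le_trans (le_of_eq ?_) (Finset.single_le_sum (f := fun u : ℕ => f (x + N * (u : ℤ)))
            (fun i _ => hf _) h4)
          simp
        exact lt_of_lt_of_le h0 h3
      have h3 : 0 < g x := (mul_pos_iff_of_pos_left hκ).1 h2
      rw [hfg x, show (r : ℝ) * f x / (κ * g x) = (r / κ) * (f x / g x) by field_simp,
        Real.log_mul (by positivity) (by positivity), Real.log_div h0.ne' h3.ne']
      ring
  have h5 : S (N * r) (fun x => f x * Real.log (g x)) = κ * S N (fun x => g x * Real.log (g x)) := by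
    rw [S_mul, ← S_mul_left]
    refine S_congr fun a => ?_
    have : ∀ u : ℤ, f (a + N * u) * Real.log (g (a + N * u)) = f (a + N * u) * Real.log (g a) := by
      intro u
      rw [hg.add_mul]
    rw [S_congr this, S_mul_right, hfg a]
    ring
  unfold DD
  rw [S_congr h1, S_sub, S_add, h5, S_mul_right]

namespace Sys
variable (A : Sys)

lemma S_nu_succ (c : ℤ) (n J k : ℕ) (x : ℤ) :
    S A.q (fun h => A.nu c n J (k + 1) (x + ((A.q ^ k : ℕ) : ℤ) * h)) = A.nu c n J k x := by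
  have hqk : ((A.q ^ k : ℕ) : ℤ) ≠ 0 := by
    have := A.q_pos'
    push_cast
    positivity
  have h1 : ∀ h : ℤ, A.nu c n J (k + 1) (x + ((A.q ^ k : ℕ) : ℤ) * h) =
      ∑ v ∈ A.lev c n J, if ((A.q ^ (k + 1) : ℕ) : ℤ) ∣ v - (x + ((A.q ^ k : ℕ) : ℤ) * h) then (1 : ℝ) else 0 := by
    intro h
    unfold nu
    rw [← Finset.sum_filter, Finset.sum_const, nsmul_eq_mul, mul_one]
  have h2 : A.nu c n J k x = ∑ v ∈ A.lev c n J, if ((A.q ^ k : ℕ) : ℤ) ∣ v - x then (1 : ℝ) else 0 := by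
    unfold nu
    rw [← Finset.sum_filter, Finset.sum_const, nsmul_eq_mul, mul_one]
  rw [S_congr h1, S_sum, h2]
  refine Finset.sum_congr rfl fun v _ => ?_
  by_cases hd : ((A.q ^ k : ℕ) : ℤ) ∣ v - x
  · rw [if_pos hd]
    obtain ⟨t, ht⟩ := hd
    have h3 : ∀ h : ℤ, (((A.q ^ (k + 1) : ℕ) : ℤ) ∣ v - (x + ((A.q ^ k : ℕ) : ℤ) * h)) ↔ (A.q : ℤ) ∣ t - h := by
      intro h
      rw [show v - (x + ((A.q ^ k : ℕ) : ℤ) * h) = ((A.q ^ k : ℕ) : ℤ) * (t - h) by linear_combination ht,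
        show ((A.q ^ (k + 1) : ℕ) : ℤ) = ((A.q ^ k : ℕ) : ℤ) * A.q by push_cast; ring]
      exact mul_dvd_mul_iff_left hqk
    have h4 : ∀ h : ℤ, (if ((A.q ^ (k + 1) : ℕ) : ℤ) ∣ v - (x + ((A.q ^ k : ℕ) : ℤ) * h) then (1 : ℝ) else 0) =
        (if (A.q : ℤ) ∣ t - h then (1 : ℝ) else 0) := by
      intro h
      exact if_congr (h3 h) rfl rfl
    rw [S_congr h4]
    exact S_dvd A.q_pos t (fun _ => 1) (fun _ => rfl)
  · rw [if_neg hd]
    have h4 : ∀ h : ℤ, (if ((A.q ^ (k + 1) : ℕ) : ℤ) ∣ v - (x + ((A.q ^ k : ℕ) : ℤ) * h) then (1 : ℝ) else 0) = 0 := by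
      intro h
      rw [if_neg]
      intro hd'
      apply hd
      have h5 : ((A.q ^ k : ℕ) : ℤ) ∣ ((A.q ^ (k + 1) : ℕ) : ℤ) := by
        push_cast
        exact pow_dvd_pow _ (Nat.le_succ k)
      have h6 := (dvd_trans h5 hd').add (Dvd.intro h rfl : ((A.q ^ k : ℕ) : ℤ) ∣ ((A.q ^ k : ℕ) : ℤ) * h)
      rwa [show v - (x + ((A.q ^ k : ℕ) : ℤ) * h) + ((A.q ^ k : ℕ) : ℤ) * h = v - x by ring] at h6
    rw [S_congr h4]
    simp [S]

/-- The entropy function of the counting function. -/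
noncomputable def HV (c : ℤ) (n J k : ℕ) : ℝ :=
  S (A.q ^ k) (fun x => A.nu c n J k x * Real.log (A.nu c n J k x))

lemma DD_nu (c : ℤ) (n J k : ℕ) : DD (A.q ^ k) A.q (A.nu c n J (k + 1)) =
    (A.lev c n J).card * Real.log A.q + A.HV c n J (k + 1) - A.HV c n J k := by
  have h := DD_tele (N := A.q ^ k) (r := A.q) A.q_pos one_pos (f := A.nu c n J (k + 1))
    (g := A.nu c n J k) (A.nu_nonneg _ _ _ _) (A.nu_per _ _ _ _) (fun x => by rw [one_mul]; exact A.S_nu_succ c n J k x)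
  rw [h, ← pow_succ, S_nu]
  simp only [div_one, one_mul]
  rfl

lemma sum_DD_nu (c : ℤ) (n J k : ℕ) : ∑ i ∈ Finset.range k, DD (A.q ^ i) A.q (A.nu c n J (i + 1)) =
    k * ((A.lev c n J).card * Real.log A.q) + A.HV c n J k - A.HV c n J 0 := by
  induction k with
  | zero => simp
  | succ k ih =>
    rw [Finset.sum_range_succ, ih, DD_nu]
    push_cast
    ring

lemma HV_zero (c : ℤ) (n J : ℕ) : A.HV c n J 0 = (A.lev c n J).card * Real.log (A.lev c n J).card := by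
  unfold HV nu S
  simp

lemma HV_eq_zero {c : ℤ} {n J k : ℕ} (h : ∀ v ∈ A.lev c n J, ∀ v' ∈ A.lev c n J,
    ((A.q ^ k : ℕ) : ℤ) ∣ v - v' → v = v') : A.HV c n J k = 0 := by
  unfold HV
  have h1 : ∀ x, A.nu c n J k x * Real.log (A.nu c n J k x) = 0 := by
    intro x
    have h2 : ((A.lev c n J).filter (fun v => ((A.q ^ k : ℕ) : ℤ) ∣ v - x)).card ≤ 1 := by
      rw [Finset.card_le_one]
      intro v hv v' hv'
      rw [Finset.mem_filter] at hv hv'
      refine h v hv.1 v' hv'.1 ?_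
      have := dvd_sub hv.2 hv'.2
      rwa [show v - x - (v' - x) = v - v' by ring] at this
    unfold nu
    interval_cases ((A.lev c n J).filter (fun v => ((A.q ^ k : ℕ) : ℤ) ∣ v - x)).card <;> simp
  rw [S_congr h1]
  simp [S]

lemma sum_DD_nu_le (c : ℤ) (n J k : ℕ) : ∑ i ∈ Finset.range k, DD (A.q ^ i) A.q (A.nu c n J (i + 1)) ≤
    (A.lev c n J).card * (k * Real.log A.q) := by
  have h1 : ∀ i ∈ Finset.range k, DD (A.q ^ i) A.q (A.nu c n J (i + 1)) ≤
      (A.lev c n J).card * Real.log A.q := by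
    intro i _
    have hper := A.nu_per c n J (i + 1)
    rw [pow_succ] at hper
    have := DD_le A.q_pos hper (A.nu_nonneg _ _ _ _)
    rwa [← pow_succ, S_nu] at this
  refine (Finset.sum_le_sum h1).trans (le_of_eq ?_)
  rw [Finset.sum_const, Finset.card_range, nsmul_eq_mul]
  ring

/-! ### Distinctness -/

/-- Constant in the distinctness lemma. -/
def KK : ℤ := 4 * ∑ w, |A.b w| + 1

lemma KK_pos : 0 < A.KK := by
  unfold KK
  have : 0 ≤ ∑ w, |A.b w| := Finset.sum_nonneg fun w _ => abs_nonneg _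
  omega

lemma abs_bsum_le (Ω : List A.ι) :
    |bsum (3 ^ A.l) A.J A.b Ω| ≤ 2 * (∑ w, |A.b w|) * 2 ^ jsum A.J Ω := by
  have hB : 0 ≤ ∑ w, |A.b w| := Finset.sum_nonneg fun w _ => abs_nonneg _
  induction Ω with
  | nil => simp [bsum, jsum]; exact hB
  | cons w Ω ih =>
    have h1 : |A.b w| ≤ ∑ w, |A.b w| :=
      Finset.single_le_sum (f := fun w => |A.b w|) (fun i _ => abs_nonneg _) (Finset.mem_univ w)
    have h2 : (2 : ℤ) * 3 ^ A.l ≤ 2 ^ A.J w := by exact_mod_cast A.two_le w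
    have h3 : jsum A.J (w :: Ω) = A.J w + jsum A.J Ω := by simp [jsum]
    have h3' : (1 : ℤ) ≤ 3 ^ A.l := one_le_pow₀ (by norm_num)
    rw [bsum, h3, pow_add]
    set X := bsum (3 ^ A.l) A.J A.b Ω
    set P : ℤ := 2 ^ jsum A.J Ω
    have hP : 0 < P := by positivity
    set B := ∑ w, |A.b w|
    calc |3 ^ A.l * X + P * A.b w| ≤ |3 ^ A.l * X| + |P * A.b w| := abs_add_le _ _
      _ = 3 ^ A.l * |X| + P * |A.b w| := by
          rw [abs_mul, abs_mul, abs_of_pos hP, abs_of_pos (by positivity : (0 : ℤ) < 3 ^ A.l)]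
      _ ≤ 3 ^ A.l * (2 * B * P) + P * B := by gcongr
      _ ≤ 3 ^ A.l * (2 * B * P) + 3 ^ A.l * (2 * B * P) := by
          have : P * B ≤ 3 ^ A.l * (2 * B * P) := by
            have h4 : 0 ≤ P * B := by positivity
            nlinarith
          linarith
      _ = (2 * 3 ^ A.l) * (2 * B * P) := by ring
      _ ≤ 2 ^ A.J w * (2 * B * P) := by gcongr
      _ = 2 * B * (2 ^ A.J w * P) := by ring

lemma lev_dist {c : ℤ} {n J : ℕ} {v v' : ℤ} (hv : v ∈ A.lev c n J) (hv' : v' ∈ A.lev c n J) :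
    |v - v'| * (A.q : ℤ) ^ n < A.KK * 2 ^ J := by
  obtain ⟨Ω, _, h2, h3⟩ := A.exists_word n _ (A.ent_mem_lev.1 hv)
  obtain ⟨Ω', _, h2', h3'⟩ := A.exists_word n _ (A.ent_mem_lev.1 hv')
  simp only at h2 h3 h2' h3'
  have hB := A.abs_bsum_le Ω
  have hB' := A.abs_bsum_le Ω'
  rw [h2, h3] at hB
  rw [h2', h3'] at hB'
  have hq : (0 : ℤ) < (A.q : ℤ) ^ n := pow_pos A.q_pos' n
  have h4 : |v - v'| * (A.q : ℤ) ^ n = |(2 ^ J * c - (A.q : ℤ) ^ n * v') - (2 ^ J * c - (A.q : ℤ) ^ n * v)| := by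
    rw [show (2 ^ J * c - (A.q : ℤ) ^ n * v') - (2 ^ J * c - (A.q : ℤ) ^ n * v) = (v - v') * (A.q : ℤ) ^ n by ring,
      abs_mul, abs_of_pos hq]
  rw [h4]
  have h5 := abs_sub (2 ^ J * c - (A.q : ℤ) ^ n * v') (2 ^ J * c - (A.q : ℤ) ^ n * v)
  have hP : (0 : ℤ) < 2 ^ J := by positivity
  unfold KK
  nlinarith

lemma lev_distinct {c : ℤ} {n J k : ℕ} (h : A.KK * 2 ^ J ≤ (A.q : ℤ) ^ (n + k)) :
    ∀ v ∈ A.lev c n J, ∀ v' ∈ A.lev c n J, ((A.q ^ k : ℕ) : ℤ) ∣ v - v' → v = v' := by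
  intro v hv v' hv' hd
  have h1 := A.lev_dist hv hv'
  have hq : (0 : ℤ) < (A.q : ℤ) ^ n := pow_pos A.q_pos' n
  have h2 : |v - v'| < ((A.q ^ k : ℕ) : ℤ) := by
    push_cast
    have h3 : |v - v'| * (A.q : ℤ) ^ n < (A.q : ℤ) ^ k * (A.q : ℤ) ^ n := by
      refine lt_of_lt_of_le h1 (h.trans (le_of_eq ?_))
      ring
    exact lt_of_mul_lt_mul_right h3 hq.le
  have := Int.eq_zero_of_abs_lt_dvd hd h2
  omega

end Sys

end CollatzOne
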