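import Pool.Agent.CollatzOne.EntRec2

set_option autoImplicit false

/-!
The entropy recursion for block systems, part 3: moments of the total exponent and the bound (A5).
-/

namespace CollatzOne
namespace Sys
variable (A : Sys)

/-- Expectation of a function of the total exponent. -/
noncomputable def EE (n : ℕ) (ψ : ℕ → ℝ) : ℝ :=
  S (A.q ^ n) (fun c => ∑ p ∈ A.nodes c n, A.wt 1 n p.1 / A.Z ^ n * ψ p.1) / (A.q : ℝ) ^ n

/-- Probability of a letter. -/
noncomputable def pr (w : A.ι) : ℝ := 1 / 2 ^ A.J w / A.Z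

lemma pr_nonneg (w : A.ι) : 0 ≤ A.pr w := by
  have := A.Z_pos
  unfold pr; positivity

/-- Each letter is valid at exactly one residue. -/
lemma S_valid (w : A.ι) (α β : ℤ) (hα : IsCoprime α (A.q : ℤ)) (x : ℝ) :
    S A.q (fun u => if A.valid w (α * u + β) then x else 0) = x := by
  have hper : Per A.q (fun y => if (A.q : ℤ) ∣ A.b w - y then x else 0) := by
    intro y
    dsimp only
    refine if_congr ?_ rfl rfl
    constructor
    · intro h
      have := dvd_add h (dvd_refl (A.q : ℤ))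
      rwa [show A.b w - (y + A.q) + A.q = A.b w - y by ring] at this
    · intro h
      have := dvd_sub h (dvd_refl (A.q : ℤ))
      rwa [show A.b w - y - A.q = A.b w - (y + A.q) by ring] at this
  have h1 : ∀ u : ℤ, (if A.valid w (α * u + β) then x else 0) =
      (fun y => if (A.q : ℤ) ∣ A.b w - y then x else 0) ((2 ^ A.J w * α) * u + 2 ^ A.J w * β) := by
    intro u
    refine if_congr ?_ rfl rfl
    unfold valid
    rw [← Int.dvd_neg, show -(2 ^ A.J w * (α * u + β) - A.b w) =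
      A.b w - (2 ^ A.J w * α * u + 2 ^ A.J w * β) by ring]
  have h2 : IsCoprime (2 ^ A.J w * α) (A.q : ℤ) := by
    have := A.coprime_two_pow (A.J w) 1
    rw [pow_one] at this
    exact IsCoprime.mul_left this hα
  rw [S_congr h1, S_affine hper h2]
  exact S_dvd A.q_pos (A.b w) (fun _ => x) (fun _ => rfl)

lemma ent_Z_eq : A.Z = ∑ w, 1 / (2 : ℝ) ^ A.J w := by
  have hq := A.q_posR
  unfold Z T
  rw [S_sum, Finset.sum_div]
  refine Finset.sum_congr rfl fun w _ => ?_
  have h1 : ∀ y : ℤ, (if A.valid w y then ((A.q : ℝ) / 2 ^ A.J w) ^ (1 : ℝ) * 1 else 0) =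
      (if A.valid w (1 * y + 0) then ((A.q : ℝ) / 2 ^ A.J w) else 0) := by
    intro y
    rw [Real.rpow_one, mul_one, one_mul, add_zero]
  rw [S_congr h1, A.S_valid w 1 0 isCoprime_one_left]
  field_simp

lemma ent_sum_pr : ∑ w, A.pr w = 1 := by
  have := A.Z_pos
  unfold pr
  rw [← Finset.sum_div, ← ent_Z_eq]
  field_simp

lemma EE_zero (ψ : ℕ → ℝ) : A.EE 0 ψ = ψ 0 := by
  unfold EE
  simp [S, nodes, wt]

lemma EE_succ (n : ℕ) (ψ : ℕ → ℝ) : A.EE (n + 1) ψ = ∑ w, A.pr w * A.EE n (fun j => ψ (j + A.J w)) := by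
  have hq := A.q_posR
  have hZ := A.Z_pos
  unfold EE
  rw [pow_succ A.q n, S_mul]
  have h1 : ∀ a : ℤ, S A.q (fun u => ∑ p ∈ A.nodes (a + ((A.q ^ n : ℕ) : ℤ) * u) (n + 1),
      A.wt 1 (n + 1) p.1 / A.Z ^ (n + 1) * ψ p.1) =
      ∑ w, A.q * A.pr w * ∑ p ∈ A.nodes a n, A.wt 1 n p.1 / A.Z ^ n * ψ (p.1 + A.J w) := by
    intro a
    have h2 : ∀ u : ℤ, ∑ p ∈ A.nodes (a + ((A.q ^ n : ℕ) : ℤ) * u) (n + 1),
        A.wt 1 (n + 1) p.1 / A.Z ^ (n + 1) * ψ p.1 =
        ∑ p ∈ A.nodes a n, ∑ w, if A.valid w (2 ^ p.1 * u + p.2) then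
          A.q * A.pr w * (A.wt 1 n p.1 / A.Z ^ n * ψ (p.1 + A.J w)) else 0 := by
      intro u
      rw [A.sum_nodes_succ]
      push_cast
      rw [A.sum_nodes_shift]
      refine Finset.sum_congr rfl fun p _ => Finset.sum_congr rfl fun w _ => ?_
      dsimp only
      rw [add_comm p.2]
      refine if_congr Iff.rfl ?_ rfl
      rw [wt_succ, Real.rpow_one]
      unfold pr
      field_simp
      ring
    rw [S_congr h2, S_sum]
    have h3 : ∀ p ∈ A.nodes a n, S A.q (fun u => ∑ w, if A.valid w (2 ^ p.1 * u + p.2) then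
          A.q * A.pr w * (A.wt 1 n p.1 / A.Z ^ n * ψ (p.1 + A.J w)) else 0) =
        ∑ w, A.q * A.pr w * (A.wt 1 n p.1 / A.Z ^ n * ψ (p.1 + A.J w)) := by
      intro p _
      rw [S_sum]
      refine Finset.sum_congr rfl fun w _ => ?_
      refine A.S_valid w (2 ^ p.1) p.2 ?_ _
      have := A.coprime_two_pow p.1 1
      rwa [pow_one] at this
    rw [Finset.sum_congr rfl h3, Finset.sum_comm]
    refine Finset.sum_congr rfl fun w _ => ?_
    rw [Finset.mul_sum]
  rw [S_congr h1, S_sum, Finset.sum_div]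
  refine Finset.sum_congr rfl fun w _ => ?_
  rw [S_mul_left]
  field_simp
  ring

lemma EE_add (n : ℕ) (ψ φ : ℕ → ℝ) : A.EE n (fun j => ψ j + φ j) = A.EE n ψ + A.EE n φ := by
  unfold EE
  rw [← add_div, ← S_add]
  congr 1
  refine S_congr fun c => ?_
  rw [← Finset.sum_add_distrib]
  refine Finset.sum_congr rfl fun p _ => ?_
  ring

lemma EE_mul (n : ℕ) (a : ℝ) (ψ : ℕ → ℝ) : A.EE n (fun j => a * ψ j) = a * A.EE n ψ := by
  unfold EE
  rw [← mul_div_assoc, ← S_mul_left]
  congr 1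
  refine S_congr fun c => ?_
  rw [Finset.mul_sum]
  refine Finset.sum_congr rfl fun p _ => ?_
  ring

lemma EE_one (n : ℕ) (a : ℝ) : A.EE n (fun _ => a) = a := by
  induction n with
  | zero => rw [EE_zero]
  | succ n ih => rw [EE_succ]; simp only [ih]; rw [← Finset.sum_mul, ent_sum_pr, one_mul]

/-- Mean of the exponent of a letter. -/
noncomputable def mu : ℝ := ∑ w, A.pr w * A.J w

/-- Variance of the exponent of a letter. -/
noncomputable def va : ℝ := ∑ w, A.pr w * (A.J w - A.mu) ^ 2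

lemma va_nonneg : 0 ≤ A.va := Finset.sum_nonneg fun w _ => mul_nonneg (A.pr_nonneg w) (sq_nonneg _)

lemma EE_id (n : ℕ) (a : ℝ) : A.EE n (fun j => (j : ℝ) - a) = n * A.mu - a := by
  induction n generalizing a with
  | zero => rw [EE_zero]; simp
  | succ n ih =>
    rw [EE_succ]
    have h1 : ∀ w, A.EE n (fun j => ((j + A.J w : ℕ) : ℝ) - a) = (n * A.mu - a) + A.J w := by
      intro w
      have h2 := ih (a - A.J w)
      have h3 : (fun j : ℕ => ((j + A.J w : ℕ) : ℝ) - a) = (fun j : ℕ => (j : ℝ) - (a - A.J w)) := by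
        funext j; push_cast; ring
      rw [h3, h2]; ring
    simp only [h1, mul_add, Finset.sum_add_distrib]
    rw [← Finset.sum_mul, ent_sum_pr]
    change _ + A.mu = _
    push_cast
    ring

lemma EE_var (n : ℕ) (a : ℝ) : A.EE n (fun j => ((j : ℝ) - a) ^ 2) = n * A.va + (n * A.mu - a) ^ 2 := by
  induction n generalizing a with
  | zero => rw [EE_zero]; simp
  | succ n ih =>
    rw [EE_succ]
    have h1 : ∀ w, A.EE n (fun j => (((j + A.J w : ℕ) : ℝ) - a) ^ 2) =
        (n * A.va + (n * A.mu + A.mu - a) ^ 2) + (2 * (n * A.mu + A.mu - a)) * (A.J w - A.mu) +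
          (A.J w - A.mu) ^ 2 := by
      intro w
      have h2 := ih (a - A.J w)
      have h3 : (fun j : ℕ => (((j + A.J w : ℕ) : ℝ) - a) ^ 2) = (fun j : ℕ => ((j : ℝ) - (a - A.J w)) ^ 2) := by
        funext j; push_cast; ring
      rw [h3, h2]; ring
    have h4 : ∑ w, A.pr w * ((A.J w : ℝ) - A.mu) = 0 := by
      simp only [mul_sub, Finset.sum_sub_distrib]
      rw [← Finset.sum_mul, ent_sum_pr]
      change A.mu - _ = 0
      ring
    have h5 : ∀ w, A.pr w * ((n * A.va + (n * A.mu + A.mu - a) ^ 2) + (2 * (n * A.mu + A.mu - a)) * (A.J w - A.mu) +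
          (A.J w - A.mu) ^ 2) = (n * A.va + (n * A.mu + A.mu - a) ^ 2) * A.pr w +
          (2 * (n * A.mu + A.mu - a)) * (A.pr w * (A.J w - A.mu)) + A.pr w * (A.J w - A.mu) ^ 2 := by
      intro w; ring
    simp only [h1, h5, Finset.sum_add_distrib]
    rw [← Finset.mul_sum, ← Finset.mul_sum, ent_sum_pr, h4]
    change _ + A.va = _
    push_cast
    ring

/-- The mass of a level. -/
noncomputable def mass (c : ℤ) (n J : ℕ) : ℝ := A.wt 1 n J / A.Z ^ n * (A.lev c n J).card

lemma mass_nonneg (c : ℤ) (n J : ℕ) : 0 ≤ A.mass c n J :=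
  mul_nonneg (A.wtZ_nonneg n J) (Nat.cast_nonneg _)

lemma EE_eq (n : ℕ) (ψ : ℕ → ℝ) : A.EE n ψ =
    S (A.q ^ n) (fun c => ∑ J ∈ Finset.range (A.Jmax n + 1), A.mass c n J * ψ J) / (A.q : ℝ) ^ n := by
  unfold EE
  congr 1
  refine S_congr fun c => ?_
  rw [A.sum_nodes_lev]
  refine Finset.sum_congr rfl fun J _ => ?_
  simp only [Finset.sum_const, nsmul_eq_mul]
  unfold mass
  ring

lemma ent_neg_mul_log_le {x M : ℝ} (hx : 0 ≤ x) (hM : 0 < M) : -(x * Real.log x) ≤ x * Real.log M + 1 / M := by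
  rcases hx.eq_or_lt with h0 | h0
  · rw [← h0]; simp; positivity
  · have h1 := Real.log_le_sub_one_of_pos (x := 1 / (x * M)) (by positivity)
    rw [Real.log_div one_ne_zero (by positivity), Real.log_one, Real.log_mul h0.ne' hM.ne'] at h1
    have h2 : x * (0 - (Real.log x + Real.log M)) ≤ x * (1 / (x * M) - 1) := by gcongr
    have h3 : x * (1 / (x * M) - 1) = 1 / M - x := by field_simp
    rw [h3] at h2
    nlinarith

/-- (A5), general form -/
lemma sum_tt_le {n k : ℕ} (hn : 1 ≤ n) {ε : ℝ} (hε : 0 < ε)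
    (hk : ∀ J : ℕ, (J : ℝ) ≤ n * (A.mu + ε) → A.KK * 2 ^ J ≤ (A.q : ℤ) ^ (n + k)) :
    ∑ i ∈ Finset.range k, A.tt n i ≤ k * Real.log A.q + n * (Real.log A.q - Real.log A.Z - A.mu * Real.log 2)
      + Real.log (A.Jmax n + 1) + (((∑ w, A.J w : ℕ) : ℝ) * Real.log 2 + |Real.log A.q - Real.log A.Z|) * A.va / ε ^ 2 + 1 := by
  have hq := A.q_posR
  have hq1 : (1 : ℝ) ≤ A.q := by exact_mod_cast A.q_pos
  have hZ := A.Z_pos
  have hn' : (0 : ℝ) < n := by exact_mod_cast hn
  have hlogq : 0 ≤ Real.log A.q := Real.log_nonneg hq1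
  have hlog2 : 0 ≤ Real.log 2 := Real.log_nonneg (by norm_num)
  set SJ : ℝ := ((∑ w, A.J w : ℕ) : ℝ) with hSJ
  set C1 : ℝ := SJ * Real.log 2 + |Real.log A.q - Real.log A.Z| with hC1
  have hSJ0 : 0 ≤ SJ := Nat.cast_nonneg _
  have hC10 : 0 ≤ C1 := by positivity
  set M : ℝ := A.Jmax n + 1 with hM
  have hM1 : 1 ≤ M := by rw [hM]; have : (0 : ℝ) ≤ A.Jmax n := Nat.cast_nonneg _; linarith
  have hlogM : 0 ≤ Real.log M := Real.log_nonneg hM1
  set ψ : ℕ → ℝ := fun J => (k * Real.log A.q + n * (Real.log A.q - Real.log A.Z) + Real.log M) +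
    (-Real.log 2 * ((J : ℝ) - 0) + C1 / (ε ^ 2 * n) * ((J : ℝ) - n * A.mu) ^ 2) with hψ
  have key : ∀ c : ℤ, ∀ J ∈ Finset.range (A.Jmax n + 1),
      A.wt 1 n J / A.Z ^ n * (∑ i ∈ Finset.range k, DD (A.q ^ i) A.q (A.nu c n J (i + 1))) ≤
        A.mass c n J * ψ J + 1 / M := by
    intro c J hJ
    have hJ' : J ≤ A.Jmax n := Nat.lt_succ_iff.1 (Finset.mem_range.1 hJ)
    have hJn : (J : ℝ) ≤ n * SJ := by
      have : (J : ℝ) ≤ (A.Jmax n : ℝ) := by exact_mod_cast hJ'
      refine this.trans (le_of_eq ?_)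
      unfold Jmax
      push_cast
      rw [hSJ]; push_cast; ring
    have hm := A.mass_nonneg c n J
    have hwz := A.wtZ_nonneg n J
    have h1M : 0 < 1 / M := by positivity
    by_cases hJk : (J : ℝ) ≤ n * (A.mu + ε)
    · -- distinct residues
      rw [sum_DD_nu, A.HV_eq_zero (A.lev_distinct (hk J hJk)), HV_zero]
      have h1 : A.wt 1 n J / A.Z ^ n * (↑k * (↑(A.lev c n J).card * Real.log ↑A.q) + 0 -
          ↑(A.lev c n J).card * Real.log ↑(A.lev c n J).card) =
          A.mass c n J * (k * Real.log A.q) - A.mass c n J * Real.log (A.lev c n J).card := by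
        unfold mass; ring
      rw [h1]
      have h2 : -(A.mass c n J * Real.log (A.lev c n J).card) =
          -(A.mass c n J * Real.log (A.mass c n J)) +
            A.mass c n J * (n * (Real.log A.q - Real.log A.Z) - Real.log 2 * J) := by
        rcases Nat.eq_zero_or_pos (A.lev c n J).card with h0 | h0
        · have : A.mass c n J = 0 := by unfold mass; rw [h0]; simp
          rw [this]; ring
        · have hc : (0 : ℝ) < (A.lev c n J).card := by exact_mod_cast h0
          have h3 : Real.log (A.mass c n J) = n * Real.log A.q - J * Real.log 2 - n * Real.log A.Z +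
              Real.log (A.lev c n J).card := by
            unfold mass wt
            rw [Real.rpow_one, Real.log_mul (by positivity) hc.ne', Real.log_div (by positivity) (by positivity),
              Real.log_div (by positivity) (by positivity), Real.log_pow, Real.log_pow, Real.log_pow]
          rw [h3]; ring
      have h4 := ent_neg_mul_log_le hm (lt_of_lt_of_le one_pos hM1)
      have h5 : 0 ≤ A.mass c n J * (C1 / (ε ^ 2 * n) * ((J : ℝ) - n * A.mu) ^ 2) := by positivity
      have h6 : A.mass c n J * ψ J = A.mass c n J * (k * Real.log A.q) +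
          A.mass c n J * (n * (Real.log A.q - Real.log A.Z) - Real.log 2 * J) +
          A.mass c n J * Real.log M + A.mass c n J * (C1 / (ε ^ 2 * n) * ((J : ℝ) - n * A.mu) ^ 2) := by
        rw [hψ]; ring
      rw [h6]
      linarith
    · push Not at hJk
      have h1 : A.wt 1 n J / A.Z ^ n * (∑ i ∈ Finset.range k, DD (A.q ^ i) A.q (A.nu c n J (i + 1))) ≤
          A.mass c n J * (k * Real.log A.q) := by
        refine (mul_le_mul_of_nonneg_left (A.sum_DD_nu_le c n J k) hwz).trans (le_of_eq ?_)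
        unfold mass; ring
      have h2 : k * Real.log A.q ≤ ψ J := by
        have h3 : ε * n ≤ (J : ℝ) - n * A.mu := by nlinarith
        have h4 : (ε * n) ^ 2 ≤ ((J : ℝ) - n * A.mu) ^ 2 := by
          have : 0 ≤ ε * n := by positivity
          gcongr
        have h5 : C1 * n ≤ C1 / (ε ^ 2 * n) * ((J : ℝ) - n * A.mu) ^ 2 := by
          calc C1 * n = C1 / (ε ^ 2 * n) * (ε * n) ^ 2 := by field_simp
            _ ≤ _ := by gcongr
        have h6 : -(|Real.log A.q - Real.log A.Z|) ≤ Real.log A.q - Real.log A.Z := neg_abs_le _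
        have h7 : Real.log 2 * J ≤ Real.log 2 * (n * SJ) := by gcongr
        have h8 : n * (-(|Real.log A.q - Real.log A.Z|)) ≤ n * (Real.log A.q - Real.log A.Z) := by gcongr
        rw [hψ]
        simp only
        have h9 : C1 * n = n * SJ * Real.log 2 + n * |Real.log A.q - Real.log A.Z| := by rw [hC1]; ring
        nlinarith
      refine h1.trans ?_
      have := mul_le_mul_of_nonneg_left h2 hm
      linarith
  have hsum : ∑ i ∈ Finset.range k, A.tt n i ≤ A.EE n ψ + 1 := by
    have h1 : ∑ i ∈ Finset.range k, A.tt n i = S (A.q ^ n) (fun c => ∑ J ∈ Finset.range (A.Jmax n + 1),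
        A.wt 1 n J / A.Z ^ n * (∑ i ∈ Finset.range k, DD (A.q ^ i) A.q (A.nu c n J (i + 1)))) / (A.q : ℝ) ^ n := by
      unfold tt
      rw [← Finset.sum_div, ← S_sum]
      congr 1
      refine S_congr fun c => ?_
      rw [Finset.sum_comm]
      refine Finset.sum_congr rfl fun J _ => ?_
      rw [Finset.mul_sum]
    rw [h1, EE_eq]
    have h2 : ∀ X : ℝ, X + 1 = X + S (A.q ^ n) (fun _ => 1) / (A.q : ℝ) ^ n := by
      intro X
      rw [S_const]; push_cast; field_simp
    rw [h2, ← add_div, ← S_add]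
    refine div_le_div_of_nonneg_right (S_mono fun c => ?_) (by positivity)
    refine (Finset.sum_le_sum (key c)).trans (le_of_eq ?_)
    rw [Finset.sum_add_distrib, Finset.sum_const, Finset.card_range, nsmul_eq_mul]
    congr 1
    rw [hM]
    push_cast
    field_simp
  have hE : A.EE n ψ = (k * Real.log A.q + n * (Real.log A.q - Real.log A.Z) + Real.log M) +
      (-Real.log 2 * (n * A.mu - 0) + C1 / (ε ^ 2 * n) * (n * A.va + (n * A.mu - n * A.mu) ^ 2)) := by
    rw [hψ, A.EE_add n (fun _ => k * Real.log A.q + n * (Real.log A.q - Real.log A.Z) + Real.log M)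
      (fun J : ℕ => -Real.log 2 * ((J : ℝ) - 0) + C1 / (ε ^ 2 * n) * ((J : ℝ) - n * A.mu) ^ 2),
      A.EE_add n (fun J : ℕ => -Real.log 2 * ((J : ℝ) - 0))
      (fun J : ℕ => C1 / (ε ^ 2 * n) * ((J : ℝ) - n * A.mu) ^ 2), A.EE_mul n _ (fun J : ℕ => (J : ℝ) - 0),
      A.EE_mul n _ (fun J : ℕ => ((J : ℝ) - n * A.mu) ^ 2), EE_one, EE_id, EE_var]
  refine hsum.trans (le_of_eq ?_)
  rw [hE]
  field_simp
  ring

end Sys

end CollatzOne
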