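import Pool.Agent.CollatzOne.Words

set_option autoImplicit false

/-!
The concrete block systems attached to the Collatz map.
-/

namespace CollatzOne

open Finset

/-! ### The elementary operator in the coordinate `y` -/

/-- The operator of one move, in the coordinate `y`. -/
noncomputable def L1 (E : ℕ) (γ : ℝ) (φ : ℤ → ℝ) (y : ℤ) : ℝ :=
  ∑ e ∈ Icc 1 E, if v1 e y then ((3 : ℝ) / 2 ^ e) ^ γ * φ (c1 e y) else 0

lemma valid_iff (e : ℕ) (y : ℤ) : CollatzExp.valid e (3 * y - 1) ↔ v1 e y := by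
  unfold CollatzExp.valid v1
  have h := three_cc e
  have h1 : 2 ^ e * (3 * y - 1) - CollatzExp.eps e = 3 * (2 ^ e * y - cc e - 1) := by
    linear_combination h
  rw [h1]
  generalize 2 ^ e * y - cc e = z
  omega

lemma child_eq {e : ℕ} {y : ℤ} (h : v1 e y) :
    CollatzExp.child e (3 * y - 1) = 3 * c1 e y - 1 := by
  unfold CollatzExp.child
  have h0 := three_cc e
  have h1 : 2 ^ e * (3 * y - 1) - CollatzExp.eps e = 3 * (2 ^ e * y - cc e - 1) := by
    linear_combination h0
  rw [h1, Int.mul_ediv_cancel_left _ (by norm_num), three_c1 h]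

lemma L_eq_L1 (E : ℕ) (γ : ℝ) (w : ℤ → ℝ) (y : ℤ) :
    CollatzExp.L E γ w (3 * y - 1) = L1 E γ (fun z => w (3 * z - 1)) y := by
  unfold CollatzExp.L L1
  refine sum_congr rfl fun e _ => ?_
  by_cases h : v1 e y
  · rw [if_pos ((valid_iff e y).2 h), if_pos h, child_eq h]
  · rw [if_neg (fun h' => h ((valid_iff e y).1 h')), if_neg h]

lemma L_iter_eq (E : ℕ) (γ : ℝ) (n : ℕ) : ∀ y : ℤ,
    (CollatzExp.L E γ)^[n] (fun _ => 1) (3 * y - 1) = (L1 E γ)^[n] (fun _ => 1) y := by
  induction n with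
  | zero => intro y; rfl
  | succ n ih =>
    intro y
    rw [Function.iterate_succ_apply', Function.iterate_succ_apply', L_eq_L1]
    congr 1
    funext z
    exact ih z

lemma L1_mono (E : ℕ) (γ : ℝ) {φ ψ : ℤ → ℝ} (h : ∀ y, φ y ≤ ψ y) (y : ℤ) :
    L1 E γ φ y ≤ L1 E γ ψ y := by
  unfold L1
  refine sum_le_sum fun e _ => ?_
  split_ifs
  · exact mul_le_mul_of_nonneg_left (h _) (by positivity)
  · exact le_rfl

lemma L1_nonneg (E : ℕ) (γ : ℝ) {φ : ℤ → ℝ} (h : ∀ y, 0 ≤ φ y) (y : ℤ) : 0 ≤ L1 E γ φ y := by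
  unfold L1
  refine sum_nonneg fun e _ => ?_
  split_ifs
  · exact mul_nonneg (by positivity) (h _)
  · exact le_rfl

lemma L1_iter (E : ℕ) (γ : ℝ) (φ : ℤ → ℝ) (l : ℕ) : ∀ y : ℤ, (L1 E γ)^[l] φ y =
    ∑ W ∈ words E l, if vd W y then ((3 : ℝ) ^ W.length / 2 ^ js W) ^ γ * φ (ch W y) else 0 := by
  induction l with
  | zero =>
    intro y
    simp [words, vd_nil, ch_nil, js_nil]
  | succ l ih =>
    intro y
    rw [Function.iterate_succ_apply', sum_words_succ]
    unfold L1
    refine sum_congr rfl fun e _ => ?_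
    by_cases h : v1 e y
    · rw [if_pos h]
      have := ih (c1 e y)
      unfold L1 at this
      rw [this, mul_sum]
      refine sum_congr rfl fun W _ => ?_
      by_cases h2 : vd W (c1 e y)
      · have h3 : vd (e :: W) y := vd_cons.2 ⟨h, h2⟩
        rw [if_pos h2, if_pos h3, ch_cons h3, ← mul_assoc,
          ← Real.mul_rpow (by positivity) (by positivity), js_cons, List.length_cons]
        congr 2
        rw [pow_succ, pow_add (2 : ℝ)]
        field_simp
      · rw [if_neg h2, if_neg (fun h' => h2 (vd_cons.1 h').2), mul_zero]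
    · rw [if_neg h]
      refine (sum_eq_zero fun W _ => ?_).symm
      rw [if_neg (fun h' => h (vd_cons.1 h').1)]

/-! ### The concrete systems -/

/-- The letters: words of length `l` with letters at most `E` and height at least `2`. -/
def lett (E l : ℕ) : Finset (List ℕ) := (words E l).filter (fun W => 2 * 3 ^ l ≤ 2 ^ js W)

lemma mem_lett {E l : ℕ} {W : List ℕ} :
    W ∈ lett E l ↔ (W.length = l ∧ ∀ e ∈ W, 1 ≤ e ∧ e ≤ E) ∧ 2 * 3 ^ l ≤ 2 ^ js W := by
  unfold lett
  rw [mem_filter, mem_words]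

lemma five_mem {E l : ℕ} (hl : 1 ≤ l) (hE : 10 ≤ E) {W : List ℕ} (h1 : W.length = l)
    (h2 : ∀ e ∈ W, 5 ≤ e ∧ e ≤ 10) : W ∈ lett E l := by
  rw [mem_lett]
  refine ⟨⟨h1, fun e he => ?_⟩, ?_⟩
  · have := h2 e he
    omega
  · have h3 := js_ge (k := 5) (fun e he => (h2 e he).1)
    rw [h1] at h3
    calc 2 * 3 ^ l ≤ 32 ^ l := by
          obtain ⟨m, rfl⟩ : ∃ m, l = m + 1 := ⟨l - 1, by omega⟩
          have h4 : (3 : ℕ) ^ m ≤ 32 ^ m := Nat.pow_le_pow_left (by norm_num) m
          rw [pow_succ, pow_succ]; omega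
      _ = 2 ^ (5 * l) := by rw [pow_mul]; norm_num
      _ ≤ 2 ^ js W := Nat.pow_le_pow_right (by norm_num) h3

lemma jsum_flat {E l : ℕ} (Ω : List {W // W ∈ lett E l}) :
    jsum (fun w : {W // W ∈ lett E l} => js w.1) Ω = js ((Ω.map Subtype.val).flatten) := by
  induction Ω with
  | nil => rfl
  | cons w Ω ih =>
    rw [List.map_cons, List.flatten_cons, js_append, ← ih]
    simp [jsum]

lemma bsum_flat {E l : ℕ} (Ω : List {W // W ∈ lett E l}) :
    bsum (3 ^ l) (fun w : {W // W ∈ lett E l} => js w.1) (fun w => bs w.1) Ω =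
      bs ((Ω.map Subtype.val).flatten) := by
  induction Ω with
  | nil => rfl
  | cons w Ω ih =>
    rw [List.map_cons, List.flatten_cons, bs_append, ← ih, bsum, jsum_flat,
      (mem_lett.1 w.2).1.1]

lemma flat_inj {E l : ℕ} (Ω : List {W // W ∈ lett E l}) : ∀ Ω' : List {W // W ∈ lett E l},
    Ω.length = Ω'.length →
    (Ω.map Subtype.val).flatten = (Ω'.map Subtype.val).flatten → Ω = Ω' := by
  induction Ω with
  | nil =>
    intro Ω' h _
    exact (List.length_eq_zero_iff.1 h.symm).symm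
  | cons w Ω ih =>
    intro Ω' h hf
    cases Ω' with
    | nil => simp at h
    | cons w' Ω' =>
      rw [List.map_cons, List.flatten_cons, List.map_cons, List.flatten_cons] at hf
      have h1 := List.append_inj hf (by rw [(mem_lett.1 w.2).1.1, (mem_lett.1 w'.2).1.1])
      rw [Subtype.ext h1.1, ih Ω' (by simpa using h) h1.2]

lemma flat_length {E l : ℕ} (Ω : List {W // W ∈ lett E l}) :
    ((Ω.map Subtype.val).flatten).length = l * Ω.length := by
  induction Ω with
  | nil => simp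
  | cons w Ω ih =>
    rw [List.map_cons, List.flatten_cons, List.length_append, ih, (mem_lett.1 w.2).1.1,
      List.length_cons]
    ring

lemma flat_one_le {E l : ℕ} (Ω : List {W // W ∈ lett E l}) :
    ∀ e ∈ (Ω.map Subtype.val).flatten, 1 ≤ e := by
  intro e he
  rw [List.mem_flatten] at he
  obtain ⟨W, hW, he⟩ := he
  rw [List.mem_map] at hW
  obtain ⟨w, -, rfl⟩ := hW
  exact ((mem_lett.1 w.2).1.2 e he).1

/-- The concrete block system. -/
def conc (E l : ℕ) (hl : 1 ≤ l) (hE : 10 ≤ E) : Sys where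
  l := l
  hl := hl
  ι := {W // W ∈ lett E l}
  fin := inferInstance
  J := fun w => js w.1
  b := fun w => bs w.1
  two_le := fun w => (mem_lett.1 w.2).2
  inj := by
    intro Ω Ω' h1 h2 h3
    rw [jsum_flat, jsum_flat] at h2
    rw [bsum_flat, bsum_flat] at h3
    exact flat_inj Ω Ω' h1 (word_unique _ _ (flat_one_le Ω) (flat_one_le Ω')
      (by rw [flat_length, flat_length, h1]) h2 h3)
  deg := by
    intro y
    obtain ⟨W, W', h0, h1, h1', h2, h2', h3, h3'⟩ := exists_two_valid hl y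
    refine ⟨⟨W, five_mem hl hE h1 h2⟩, ⟨W', five_mem hl hE h1' h2'⟩, ?_, ?_, ?_⟩
    · intro h
      exact h0 (congrArg Subtype.val h)
    · have := h3
      unfold vd at this
      rwa [h1] at this
    · have := h3'
      unfold vd at this
      rwa [h1'] at this

section
variable {E l : ℕ} (hl : 1 ≤ l) (hE : 10 ≤ E)

lemma conc_T_le {γ : ℝ} {φ ψ : ℤ → ℝ} (hφ : ∀ y, φ y ≤ ψ y) (hψ : ∀ y, 0 ≤ ψ y) (y : ℤ) :
    (conc E l hl hE).T γ φ y ≤ (L1 E γ)^[l] ψ y := by
  rw [L1_iter]
  unfold Sys.T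
  have h1 : ∀ w : (conc E l hl hE).ι,
      (if (conc E l hl hE).valid w y then
        (((conc E l hl hE).q : ℝ) / 2 ^ (conc E l hl hE).J w) ^ γ * φ ((conc E l hl hE).child w y)
        else 0) ≤ (fun W : List ℕ => if vd W y then
          ((3 : ℝ) ^ W.length / 2 ^ js W) ^ γ * ψ (ch W y) else 0)
            (w : {W // W ∈ lett E l}).1 := by
    intro w
    change {W // W ∈ lett E l} at w
    have hlen : (w.1).length = l := (mem_lett.1 w.2).1.1
    have hq : ((conc E l hl hE).q : ℤ) = 3 ^ l := by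
      unfold Sys.q; push_cast; rfl
    have hv : (conc E l hl hE).valid w y ↔ vd w.1 y := by
      unfold Sys.valid vd
      rw [hq, hlen]; rfl
    have hc : (conc E l hl hE).child w y = ch w.1 y := by
      unfold Sys.child ch
      rw [hq, hlen]; rfl
    have hqr : ((conc E l hl hE).q : ℝ) = 3 ^ l := by exact_mod_cast hq
    dsimp only
    by_cases h : vd w.1 y
    · rw [if_pos (hv.2 h), if_pos h, hc, hqr, hlen]
      exact mul_le_mul_of_nonneg_left (hφ _) (by positivity)
    · rw [if_neg (fun h' => h (hv.1 h')), if_neg h]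
  calc _ ≤ ∑ w : {W // W ∈ lett E l}, (fun W : List ℕ => if vd W y then
          ((3 : ℝ) ^ W.length / 2 ^ js W) ^ γ * ψ (ch W y) else 0) w.1 := sum_le_sum fun w _ => h1 w
    _ = ∑ W ∈ lett E l, if vd W y then
          ((3 : ℝ) ^ W.length / 2 ^ js W) ^ γ * ψ (ch W y) else 0 :=
        Finset.sum_coe_sort (lett E l) (fun W : List ℕ => if vd W y then
          ((3 : ℝ) ^ W.length / 2 ^ js W) ^ γ * ψ (ch W y) else 0)
    _ ≤ _ := by
        refine sum_le_sum_of_subset_of_nonneg (filter_subset _ _) fun W _ _ => ?_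
        split_ifs
        · exact mul_nonneg (by positivity) (hψ _)
        · exact le_rfl

lemma L1_iter_nonneg (E : ℕ) (γ : ℝ) (n : ℕ) : ∀ y, 0 ≤ (L1 E γ)^[n] (fun _ => 1) y := by
  induction n with
  | zero => intro y; exact zero_le_one
  | succ n ih =>
    intro y
    rw [Function.iterate_succ_apply']
    exact L1_nonneg E γ ih y

lemma conc_iter_le (γ : ℝ) (n : ℕ) : ∀ y : ℤ,
    ((conc E l hl hE).T γ)^[n] (fun _ => 1) y ≤ (L1 E γ)^[l * n] (fun _ => 1) y := by
  induction n with
  | zero => intro y; exact le_rfl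
  | succ n ih =>
    intro y
    rw [Function.iterate_succ_apply', Nat.mul_succ, Nat.add_comm, Function.iterate_add_apply]
    exact conc_T_le hl hE ih (L1_iter_nonneg E γ _) y

/-- The total mass of the letters. -/
lemma conc_Z : (conc E l hl hE).Z = ∑ W ∈ lett E l, (1 / 2 : ℝ) ^ js W := by
  set A := conc E l hl hE with hA
  have hq0 := A.q_posR
  have hq1 := A.q_pos'
  have hcount : ∀ w : A.ι, S A.q (fun y => if A.valid w y then (1 : ℝ) else 0) = 1 := by
    intro w
    -- the class `y ≡ 2^{-J} b mod q`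
    have h1 : ∀ y : ℤ, (if A.valid w y then (1 : ℝ) else 0)
        = (fun z : ℤ => if (A.q : ℤ) ∣ z then (1 : ℝ) else 0) (2 ^ A.J w * y + -A.b w) := fun y => by
      dsimp only [Sys.valid]; rw [← sub_eq_add_neg]
    have hper : Per A.q (fun z : ℤ => if (A.q : ℤ) ∣ z then (1 : ℝ) else 0) := by
      intro z
      dsimp only
      congr 1
      rw [eq_iff_iff]
      exact dvd_add_self_right
    rw [S_congr h1, S_affine hper (by simpa using A.coprime_two_pow (A.J w) 1)]
    unfold S
    rw [sum_eq_single 0]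
    · simp
    · intro x hx hx0
      dsimp only
      rw [if_neg]
      intro hd
      have h2 := Int.le_of_dvd (by omega) hd
      have h3 := mem_range.1 hx
      omega
    · intro h
      exact absurd (mem_range.2 A.q_pos) h
  have hT : ∀ y : ℤ, A.T 1 (fun _ => 1) y
      = ∑ w : A.ι, (A.q : ℝ) / 2 ^ A.J w * (if A.valid w y then (1 : ℝ) else 0) := by
    intro y
    unfold Sys.T
    refine sum_congr rfl fun w _ => ?_
    rw [Real.rpow_one]
    split_ifs <;> ring
  unfold Sys.Z
  rw [S_congr hT, S_sum]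
  have h2 : ∀ w : A.ι, S A.q (fun y => (A.q : ℝ) / 2 ^ A.J w * (if A.valid w y then (1 : ℝ) else 0))
      = A.q * (1 / 2 : ℝ) ^ A.J w := by
    intro w
    rw [S_mul_left, hcount w, mul_one, one_div, inv_pow, div_eq_mul_inv]
  rw [sum_congr rfl fun w _ => h2 w, ← mul_sum, mul_div_cancel_left₀ _ hq0.ne']
  exact Finset.sum_coe_sort (lett E l) (fun W : List ℕ => (1 / 2 : ℝ) ^ js W)

end

end CollatzOne
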