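import Pool.Agent.CollatzOne.Concrete

set_option autoImplicit false

/-!
Existence of good block systems; from iterates of the block operator to `Good γ`.
-/

namespace CollatzOne

open Finset Filter Topology

lemma prod_half (W : List ℕ) : (W.map (fun e => (1 / 2 : ℝ) ^ e)).prod = (1 / 2 : ℝ) ^ js W := by
  induction W with
  | nil => simp [js_nil]
  | cons e W ih => rw [List.map_cons, List.prod_cons, ih, js_cons, pow_add]

lemma prod_gen (b x : ℝ) (W : List ℕ) :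
    (W.map (fun e => b * x ^ e)).prod = b ^ W.length * x ^ js W := by
  induction W with
  | nil => simp [js_nil]
  | cons e W ih =>
    rw [List.map_cons, List.prod_cons, ih, js_cons, pow_add, List.length_cons, pow_succ]; ring

lemma geom_Icc (x : ℝ) (E : ℕ) : (1 - x) * ∑ e ∈ Icc 1 E, x ^ e = x - x ^ (E + 1) := by
  induction E with
  | zero => simp
  | succ E ih =>
    rw [sum_Icc_succ_top (by omega : 1 ≤ E + 1), mul_add, ih]
    ring

lemma sum_half_words (E l : ℕ) :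
    ∑ W ∈ words E l, (1 / 2 : ℝ) ^ js W = (1 - (1 / 2 : ℝ) ^ E) ^ l := by
  have h1 := sum_words_prod E l (fun e => (1 / 2 : ℝ) ^ e)
  have h2 := geom_Icc (1 / 2 : ℝ) E
  rw [sum_congr rfl fun W _ => prod_half W] at h1
  rw [h1]
  congr 1
  rw [pow_succ] at h2
  linarith

lemma sqrt_aux : Real.sqrt 3 * (Real.sqrt 2 / 4) / (1 - Real.sqrt 2 / 4) ≤ 19 / 20 := by
  have h2 : Real.sqrt 2 < 1.41422 := by rw [Real.sqrt_lt' (by norm_num)]; norm_num
  have h3 : Real.sqrt 3 < 1.73206 := by rw [Real.sqrt_lt' (by norm_num)]; norm_num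
  have h20 : 0 < Real.sqrt 2 := by positivity
  have h30 : 0 < Real.sqrt 3 := by positivity
  rw [div_le_iff₀ (by linarith)]
  nlinarith

/-- The mass of the words of height less than `2`. -/
lemma bad_le (E l : ℕ) :
    ∑ W ∈ (words E l).filter (fun W => ¬ 2 * 3 ^ l ≤ 2 ^ js W), (1 / 2 : ℝ) ^ js W
      ≤ 2 * (19 / 20 : ℝ) ^ l := by
  set a := Real.sqrt 2 with ha
  set b := Real.sqrt 3 with hb
  have ha0 : 0 < a := by positivity
  have hb0 : 0 < b := by positivity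
  have ha2 : a ^ 2 = 2 := Real.sq_sqrt (by norm_num)
  have hb2 : b ^ 2 = 3 := Real.sq_sqrt (by norm_num)
  have haub : a < 1.41422 := by rw [ha, Real.sqrt_lt' (by norm_num)]; norm_num
  have h1 : ∀ W ∈ (words E l).filter (fun W => ¬ 2 * 3 ^ l ≤ 2 ^ js W),
      (1 / 2 : ℝ) ^ js W ≤ a * (b ^ W.length * (a / 4) ^ js W) := by
    intro W hW
    rw [mem_filter, mem_words] at hW
    obtain ⟨⟨hlen, -⟩, hbad⟩ := hW
    rw [hlen]
    have h2 : (2 : ℝ) ^ js W < 2 * 3 ^ l := by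
      have : 2 ^ js W < 2 * 3 ^ l := by omega
      exact_mod_cast this
    have h3 : a ^ js W ≤ a * b ^ l := by
      apply le_of_lt
      apply lt_of_pow_lt_pow_left₀ 2 (by positivity)
      rw [mul_pow, ← pow_mul, ← pow_mul, mul_comm (js W), mul_comm l, pow_mul, pow_mul, ha2, hb2]
      exact h2
    have h4 : (a / 4 : ℝ) ^ js W * a ^ js W = (1 / 2) ^ js W := by
      rw [← mul_pow]; congr 1
      rw [div_mul_eq_mul_div, ← pow_two, ha2]; norm_num
    calc (1 / 2 : ℝ) ^ js W = (a / 4) ^ js W * a ^ js W := h4.symm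
      _ ≤ (a / 4) ^ js W * (a * b ^ l) := by gcongr
      _ = _ := by ring
  calc _ ≤ ∑ W ∈ (words E l).filter (fun W => ¬ 2 * 3 ^ l ≤ 2 ^ js W),
        a * (b ^ W.length * (a / 4) ^ js W) := sum_le_sum h1
    _ ≤ ∑ W ∈ words E l, a * (b ^ W.length * (a / 4) ^ js W) :=
        sum_le_sum_of_subset_of_nonneg (filter_subset _ _) fun _ _ _ => by positivity
    _ = a * (∑ e ∈ Icc 1 E, b * (a / 4) ^ e) ^ l := by
        rw [← sum_words_prod, mul_sum]
        refine sum_congr rfl fun W _ => ?_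
        rw [prod_gen]
    _ ≤ a * (19 / 20) ^ l := by
        have h5 : ∑ e ∈ Icc 1 E, b * (a / 4) ^ e ≤ 19 / 20 := by
          rw [← mul_sum]
          have h6 := geom_Icc (a / 4) E
          have h7 : 0 < 1 - a / 4 := by linarith
          have h8 : ∑ e ∈ Icc 1 E, (a / 4) ^ e ≤ (a / 4) / (1 - a / 4) := by
            rw [le_div_iff₀ h7]
            have : 0 < (a / 4) ^ (E + 1) := by positivity
            linarith
          calc b * ∑ e ∈ Icc 1 E, (a / 4) ^ e ≤ b * ((a / 4) / (1 - a / 4)) := by gcongr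
            _ = b * (a / 4) / (1 - a / 4) := by ring
            _ ≤ _ := sqrt_aux
        have h9 : 0 ≤ ∑ e ∈ Icc 1 E, b * (a / 4) ^ e := sum_nonneg fun _ _ => by positivity
        gcongr
    _ ≤ 2 * (19 / 20) ^ l := by gcongr; linarith

lemma conc_Z_ge {l : ℕ} (hl : 1 ≤ l) (hE : 10 ≤ l) :
    1 - (l * (1 / 2 : ℝ) ^ l + 2 * (19 / 20 : ℝ) ^ l) ≤ (conc l l hl hE).Z := by
  rw [conc_Z]
  have h1 := sum_half_words l l
  have h2 := bad_le l l
  have h3 := sum_filter_add_sum_filter_not (words l l) (fun W => 2 * 3 ^ l ≤ 2 ^ js W)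
    (fun W => (1 / 2 : ℝ) ^ js W)
  have h4 : 1 - l * (1 / 2 : ℝ) ^ l ≤ (1 - (1 / 2 : ℝ) ^ l) ^ l := by
    have h5 := one_add_mul_le_pow (a := -(1 / 2 : ℝ) ^ l) (by
      have : (1 / 2 : ℝ) ^ l ≤ 1 := pow_le_one₀ (by norm_num) (by norm_num)
      linarith) l
    rw [← sub_eq_add_neg] at h5
    linarith
  have h6 : ∑ W ∈ lett l l, (1 / 2 : ℝ) ^ js W
      = ∑ W ∈ (words l l).filter (fun W => 2 * 3 ^ l ≤ 2 ^ js W), (1 / 2 : ℝ) ^ js W := rfl
  rw [h6]
  linarith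

/-- Block systems with the required properties exist. -/
theorem exists_sys {γ : ℝ} (h1 : γ < 1) : ∃ (A : Sys) (E : ℕ),
    1 < 2 ^ (1 - γ) * A.Z ∧ 256 * (A.l : ℝ) * (4 * A.l + 3) * (-Real.log A.Z) < 1 ∧
    ∀ (n : ℕ) (y : ℤ), (A.T γ)^[n] (fun _ => 1) y ≤
      (CollatzExp.L E γ)^[A.l * n] (fun _ => 1) (3 * y - 1) := by
  set u : ℕ → ℝ := fun l => l * (1 / 2 : ℝ) ^ l + 2 * (19 / 20 : ℝ) ^ l with hu
  have hlim : ∀ (k : ℕ) (r : ℝ), |r| < 1 → Tendsto (fun n : ℕ => (n : ℝ) ^ k * r ^ n) atTop (𝓝 0) :=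
    fun k r hr => tendsto_pow_const_mul_const_pow_of_abs_lt_one k hr
  have hh : |(1 / 2 : ℝ)| < 1 := by rw [abs_of_pos (by norm_num)]; norm_num
  have hr : |(19 / 20 : ℝ)| < 1 := by rw [abs_of_pos (by norm_num)]; norm_num
  have hu0 : Tendsto u atTop (𝓝 0) := by
    have h := (hlim 1 _ hh).add ((hlim 0 _ hr).const_mul 2)
    simpa [hu] using h
  have hu1 : Tendsto (fun l : ℕ => 256 * (l : ℝ) * (4 * l + 3) * (2 * u l)) atTop (𝓝 0) := by
    have h := ((((hlim 3 _ hh).const_mul 2048).add ((hlim 2 _ hh).const_mul 1536)).add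
      ((hlim 2 _ hr).const_mul 4096)).add ((hlim 1 _ hr).const_mul 3072)
    simp only [mul_zero, add_zero] at h
    refine h.congr fun l => ?_
    simp only [hu]
    ring
  have hu2 : Tendsto (fun l : ℕ => (2 : ℝ) ^ (1 - γ) * (1 - u l)) atTop (𝓝 (2 ^ (1 - γ))) := by
    have h := ((tendsto_const_nhds (x := (1 : ℝ))).sub hu0).const_mul ((2 : ℝ) ^ (1 - γ))
    simpa using h
  have hgt : (1 : ℝ) < 2 ^ (1 - γ) := Real.one_lt_rpow (by norm_num) (by linarith)
  obtain ⟨l, hl10, h2, h3, h4⟩ := ((eventually_ge_atTop 10).and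
    ((hu0.eventually_lt_const (show (0 : ℝ) < 1 / 2 by norm_num)).and
      ((hu1.eventually_lt_const one_pos).and (hu2.eventually_const_lt hgt)))).exists
  have hl : 1 ≤ l := by omega
  have hZ := conc_Z_ge hl hl10
  change 1 - u l ≤ _ at hZ
  have hul0 : 0 ≤ u l := by simp only [hu]; positivity
  have hZ0 : 0 < (conc l l hl hl10).Z := by linarith
  refine ⟨conc l l hl hl10, l, ?_, ?_, ?_⟩
  · calc (1 : ℝ) < 2 ^ (1 - γ) * (1 - u l) := h4
      _ ≤ _ := by gcongr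
  · have h5 : -Real.log (conc l l hl hl10).Z ≤ 2 * u l := by
      have h6 := Real.one_sub_inv_le_log_of_pos hZ0
      have h7 : ((conc l l hl hl10).Z)⁻¹ ≤ (1 - u l)⁻¹ := inv_anti₀ (by linarith) hZ
      have h8 : (1 - u l)⁻¹ ≤ 1 + 2 * u l := by
        rw [inv_le_iff_one_le_mul₀ (by linarith)]
        nlinarith
      linarith
    calc _ ≤ 256 * (l : ℝ) * (4 * l + 3) * (2 * u l) := by
          show 256 * (l : ℝ) * (4 * l + 3) * (-Real.log (conc l l hl hl10).Z) ≤ _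
          gcongr
      _ < 1 := h3
  · intro n y
    rw [L_iter_eq]
    exact conc_iter_le hl hl10 γ n y

/-! ### From iterates to potentials -/

lemma child_mod {e : ℕ} {a : ℤ} (h : CollatzExp.valid e a) : CollatzExp.child e a % 3 = 2 := by
  unfold CollatzExp.valid at h
  unfold CollatzExp.child
  omega

lemma L_mono (E : ℕ) (γ : ℝ) {φ ψ : ℤ → ℝ} (h : ∀ a : ℤ, a % 3 = 2 → φ a ≤ ψ a) (a : ℤ) :
    CollatzExp.L E γ φ a ≤ CollatzExp.L E γ ψ a := by
  unfold CollatzExp.L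
  refine sum_le_sum fun e _ => ?_
  split_ifs with hv
  · exact mul_le_mul_of_nonneg_left (h _ (child_mod hv)) (by positivity)
  · exact le_rfl

lemma L_const_le (E : ℕ) (γ : ℝ) {M : ℝ} (hM : 0 ≤ M) (a : ℤ) :
    CollatzExp.L E γ (fun _ => M) a ≤ (∑ e ∈ Icc 1 E, ((3 : ℝ) / 2 ^ e) ^ γ) * M := by
  unfold CollatzExp.L
  rw [sum_mul]
  refine sum_le_sum fun e _ => ?_
  split_ifs with hv
  · exact le_rfl
  · positivity

/-- Running maximum of the iterates. -/
noncomputable def runmax (E : ℕ) (γ : ℝ) : ℕ → ℤ → ℝ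
  | 0 => fun _ => 1
  | n + 1 => fun a => max (runmax E γ n a) ((CollatzExp.L E γ)^[n + 1] (fun _ => 1) a)

lemma iter_le_runmax (E : ℕ) (γ : ℝ) (n : ℕ) (a : ℤ) :
    (CollatzExp.L E γ)^[n] (fun _ => 1) a ≤ runmax E γ n a := by
  cases n with
  | zero => exact le_rfl
  | succ n => exact le_max_right _ _

lemma one_le_runmax (E : ℕ) (γ : ℝ) (n : ℕ) (a : ℤ) : 1 ≤ runmax E γ n a := by
  induction n with
  | zero => exact le_rfl
  | succ n ih => exact ih.trans (le_max_left _ _)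

lemma iter_bdd (E : ℕ) (γ : ℝ) (n : ℕ) : ∃ B : ℝ, 0 ≤ B ∧ ∀ a : ℤ, a % 3 = 2 →
    (CollatzExp.L E γ)^[n] (fun _ => 1) a ≤ B := by
  induction n with
  | zero => exact ⟨1, zero_le_one, fun _ _ => le_rfl⟩
  | succ n ih =>
    obtain ⟨B, hB, h⟩ := ih
    refine ⟨(∑ e ∈ Icc 1 E, ((3 : ℝ) / 2 ^ e) ^ γ) * B, by positivity, fun a ha => ?_⟩
    rw [Function.iterate_succ_apply']
    exact (L_mono E γ h a).trans (L_const_le E γ hB a)

lemma runmax_bdd (E : ℕ) (γ : ℝ) (n : ℕ) : ∃ B : ℝ, ∀ a : ℤ, a % 3 = 2 → runmax E γ n a ≤ B := by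
  induction n with
  | zero => exact ⟨1, fun _ _ => le_rfl⟩
  | succ n ih =>
    obtain ⟨B, h⟩ := ih
    obtain ⟨B', -, h'⟩ := iter_bdd E γ (n + 1)
    exact ⟨max B B', fun a ha => max_le_max (h a ha) (h' a ha)⟩

lemma runmax_le_L (E : ℕ) (γ : ℝ) (n : ℕ) (a : ℤ) :
    runmax E γ n a ≤ max 1 (CollatzExp.L E γ (runmax E γ n) a) := by
  induction n with
  | zero => exact le_max_left _ _
  | succ n ih =>
    have hmono : CollatzExp.L E γ (runmax E γ n) a ≤ CollatzExp.L E γ (runmax E γ (n + 1)) a :=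
      L_mono E γ (fun b _ => le_max_left _ _) a
    refine max_le (ih.trans (max_le_max le_rfl hmono)) ?_
    refine le_trans ?_ (le_max_right _ _)
    refine le_trans ?_ hmono
    rw [Function.iterate_succ_apply']
    exact L_mono E γ (fun b _ => iter_le_runmax E γ n b) a

theorem good_of_iter {E n : ℕ} {γ : ℝ} (hn : 1 ≤ n)
    (h : ∀ a : ℤ, a % 3 = 2 → 1 ≤ (CollatzExp.L E γ)^[n] (fun _ => 1) a) : CollatzExp.Good γ := by
  obtain ⟨m, rfl⟩ : ∃ m, n = m + 1 := ⟨n - 1, by omega⟩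
  obtain ⟨B, hB⟩ := runmax_bdd E γ m
  refine ⟨E, B, runmax E γ m, fun a ha => ⟨one_le_runmax E γ m a, hB a ha⟩, fun a ha => ?_⟩
  refine (runmax_le_L E γ m a).trans (max_le ?_ le_rfl)
  refine (h a ha).trans ?_
  rw [Function.iterate_succ_apply']
  exact L_mono E γ (fun b _ => iter_le_runmax E γ m b) a

/-- The counting theorem, given that all exponents below `1` are good. -/
theorem collatz_count_of (hgood : ∀ γ : ℝ, 0 < γ → γ < 1 → CollatzExp.Good γ)
    (a : ℤ) (ha : ¬ (3 : ℤ) ∣ a) (ε : ℝ) (hε : 0 < ε) :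
    ∃ c : ℝ, 0 < c ∧ ∀ x : ℝ, |(a : ℝ)| ≤ x →
      c * x ^ (1 - ε) ≤ ({n : ℤ | |(n : ℝ)| ≤ x ∧ ∃ k : ℕ, CollatzExp.C^[k] n = a}.ncard : ℝ) := by
  set γ' : ℝ := max (1 - ε) (1 / 2) with hγ'
  have h1 : γ' < 1 := max_lt (by linarith) (by norm_num)
  have h2 : (1 / 2 : ℝ) ≤ γ' := le_max_right _ _
  obtain ⟨c, hc, hcx⟩ := CollatzExp.count_of_good (γ := (1 + γ') / 2) (γ' := γ') (by linarith)
    (by linarith) (by linarith) (hgood _ (by linarith) (by linarith)) a ha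
  refine ⟨c, hc, fun x hx => le_trans ?_ (hcx x hx)⟩
  have ha0 : a ≠ 0 := by rintro rfl; simp at ha
  have h3 : (1 : ℝ) ≤ x := by
    refine le_trans ?_ hx
    have := Int.one_le_abs ha0
    exact_mod_cast this
  gcongr
  exact le_max_left _ _

end CollatzOne
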