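import Pool.Agent.CollatzOne.Defs

set_option autoImplicit false

/-!
Averages over lists and values of digit trees.
-/

namespace CollatzOne

variable {B : Type} [Fintype B]

lemma av_zero (F : List B → ℝ) : av 0 F = F [] := rfl

lemma av_succ (m : ℕ) (F : List B → ℝ) :
    av (m + 1) F = (∑ β : B, av m (fun u => F (β :: u))) / Fintype.card B := rfl

lemma av_mono {m : ℕ} {F G : List B → ℝ} (h : ∀ U : List B, U.length = m → F U ≤ G U) :
    av m F ≤ av m G := by
  induction m generalizing F G with
  | zero => exact h [] rfl
  | succ m ih =>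
    rw [av_succ, av_succ]
    refine div_le_div_of_nonneg_right (Finset.sum_le_sum fun β _ => ih fun U hU => ?_) (Nat.cast_nonneg _)
    exact h (β :: U) (by simp [hU])

lemma av_congr {m : ℕ} {F G : List B → ℝ} (h : ∀ U : List B, U.length = m → F U = G U) :
    av m F = av m G :=
  le_antisymm (av_mono fun U hU => (h U hU).le) (av_mono fun U hU => (h U hU).ge)

lemma av_append (k m : ℕ) (F : List B → ℝ) :
    av (k + m) F = av k (fun V => av m (fun U => F (V ++ U))) := by
  induction k generalizing F with
  | zero => simp [av_zero]
  | succ k ih =>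
    rw [show k + 1 + m = k + m + 1 by ring, av_succ, av_succ]
    congr 1
    refine Finset.sum_congr rfl fun β _ => ?_
    rw [ih]
    rfl

lemma av_mul_left (m : ℕ) (c : ℝ) (F : List B → ℝ) : av m (fun U => c * F U) = c * av m F := by
  induction m generalizing F with
  | zero => rfl
  | succ m ih =>
    rw [av_succ, av_succ, mul_div_assoc', Finset.mul_sum]
    congr 1
    refine Finset.sum_congr rfl fun β _ => ?_
    rw [ih]

lemma av_mul_right (m : ℕ) (c : ℝ) (F : List B → ℝ) : av m (fun U => F U * c) = av m F * c := by
  have := av_mul_left m c F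
  rw [mul_comm (av m F) c, ← this]
  exact av_congr fun U _ => mul_comm _ _

lemma av_sum {κ : Type*} (s : Finset κ) (m : ℕ) (F : κ → List B → ℝ) :
    av m (fun U => ∑ i ∈ s, F i U) = ∑ i ∈ s, av m (F i) := by
  induction m generalizing F with
  | zero => rfl
  | succ m ih =>
    simp only [av_succ]
    rw [← Finset.sum_div, Finset.sum_comm]
    congr 1
    refine Finset.sum_congr rfl fun β _ => ?_
    rw [ih]

lemma av_S (N m : ℕ) (F : List B → ℤ → ℝ) :
    av m (fun U => S N (F U)) = S N (fun x => av m (fun U => F U x)) := by
  unfold S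
  rw [av_sum]

lemma av_const [Nonempty B] (m : ℕ) (c : ℝ) : av m (fun _ : List B => c) = c := by
  induction m with
  | zero => rfl
  | succ m ih =>
    have : (Fintype.card B : ℝ) ≠ 0 := by
      exact_mod_cast Fintype.card_ne_zero
    rw [av_succ, ih, Finset.sum_const, Finset.card_univ, nsmul_eq_mul]
    field_simp

lemma av_nonneg {m : ℕ} {F : List B → ℝ} (h : ∀ U : List B, U.length = m → 0 ≤ F U) : 0 ≤ av m F := by
  induction m generalizing F with
  | zero => exact h [] rfl
  | succ m ih =>
    rw [av_succ]
    refine div_nonneg (Finset.sum_nonneg fun β _ => ih fun U hU => ?_) (Nat.cast_nonneg _)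
    exact h (β :: U) (by simp [hU])

lemma av_av_comm {B' : Type} [Fintype B'] (m k : ℕ) (F : List B → List B' → ℝ) :
    av m (fun U => av k (fun V => F U V)) = av k (fun V => av m (fun U => F U V)) := by
  induction m generalizing F with
  | zero => rfl
  | succ m ih =>
    simp only [av_succ]
    have h1 : ∀ β : B, av m (fun u => av k (fun V => F (β :: u) V)) =
        av k (fun V => av m (fun u => F (β :: u) V)) := fun β => ih _
    rw [Finset.sum_congr rfl fun β _ => h1 β, ← av_sum]
    simp only [div_eq_mul_inv]
    rw [← av_mul_right]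

lemma av_equiv {B' : Type} [Fintype B'] (e : B ≃ B') (m : ℕ) (F : List B' → ℝ) :
    av m (fun U : List B => F (U.map e)) = av m F := by
  induction m generalizing F with
  | zero => rfl
  | succ m ih =>
    rw [av_succ, av_succ, Fintype.card_congr e]
    congr 1
    rw [← e.sum_comp (fun β => av m (fun u => F (β :: u)))]
    refine Finset.sum_congr rfl fun β _ => ?_
    rw [← ih]
    rfl

lemma av_prod {B' : Type} [Fintype B'] (m : ℕ) (G : List B → List B' → ℝ) :
    av m (fun U : List (B × B') => G (U.map Prod.fst) (U.map Prod.snd)) =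
      av m (fun U => av m (fun V => G U V)) := by
  induction m generalizing G with
  | zero => rfl
  | succ m ih =>
    rw [av_succ, av_succ, Fintype.card_prod, Fintype.sum_prod_type, Finset.sum_div, Finset.sum_div]
    refine Finset.sum_congr rfl fun β _ => ?_
    have h1 : ∀ β' : B', av m (fun u : List (B × B') => G (((β, β') :: u).map Prod.fst) (((β, β') :: u).map Prod.snd))
        = av m (fun U => av m (fun V => G (β :: U) (β' :: V))) := by
      intro β'
      rw [← ih]
      rfl
    rw [Finset.sum_congr rfl fun β' _ => h1 β', ← av_sum]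
    simp only [av_succ, div_eq_mul_inv]
    rw [av_mul_right]
    push_cast
    rw [mul_inv]
    ring

/-! ### Values of trees -/

lemma tv_nil {B : Type} (q : ℤ) (D : List B → ℤ) : tv q D [] = 0 := rfl

lemma tv_cons {B : Type} (q : ℤ) (D : List B → ℤ) (β : B) (U : List B) :
    tv q D (β :: U) = D [β] + q * tv q (fun u => D (β :: u)) U := rfl

lemma tv_append {B : Type} (q : ℤ) (D : List B → ℤ) (V U : List B) :
    tv q D (V ++ U) = tv q D V + q ^ V.length * tv q (fun u => D (V ++ u)) U := by
  induction V generalizing D with
  | nil => simp [tv_nil]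
  | cons β V ih =>
    rw [List.cons_append, tv_cons, ih, tv_cons, List.length_cons]
    simp only [List.cons_append]
    ring

lemma tv_add {B : Type} (q : ℤ) (D D' : List B → ℤ) (U : List B) :
    tv q (fun u => D u + D' u) U = tv q D U + tv q D' U := by
  induction U generalizing D D' with
  | nil => simp [tv_nil]
  | cons β U ih =>
    rw [tv_cons, tv_cons, tv_cons, ih]
    ring

lemma tv_mul {B : Type} (q c : ℤ) (D : List B → ℤ) (U : List B) :
    tv q (fun u => c * D u) U = c * tv q D U := by
  induction U generalizing D with
  | nil => simp [tv_nil]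
  | cons β U ih =>
    rw [tv_cons, tv_cons, ih]
    ring

lemma tv_zero {B : Type} (q : ℤ) (U : List B) : tv q (fun _ => 0) U = 0 := by
  have := tv_mul q 0 (fun _ : List B => 0) U
  simpa using this

lemma tv_map {B B' : Type} (q : ℤ) (f : B → B') (D : List B' → ℤ) (U : List B) :
    tv q (fun u => D (u.map f)) U = tv q D (U.map f) := by
  induction U generalizing D with
  | nil => rfl
  | cons β U ih =>
    have h1 : List.map f (β :: U) = f β :: List.map f U := rfl
    rw [tv_cons, h1, tv_cons, ← ih]
    rfl

end CollatzOne
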