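import Mathlib

/-!
# From single integers to cycles

The map is written out, so that this file does not depend on the rest of the library.
-/

set_option autoImplicit false

namespace CollatzOne

/-- The Collatz map on the integers. -/
abbrev Cz (y : ℤ) : ℤ := if Even y then y / 2 else 3 * y + 1

theorem Cz_pos {y : ℤ} (h : 0 < y) : 0 < Cz y := by
  unfold Cz
  split_ifs with he
  · obtain ⟨k, rfl⟩ := he
    omega
  · omega

theorem Cz_neg {y : ℤ} (h : y < 0) : Cz y < 0 := by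
  unfold Cz
  split_ifs with he
  · obtain ⟨k, rfl⟩ := he
    omega
  · omega

theorem Cz_zero : Cz 0 = 0 := by simp [Cz]

theorem Cz_iter_pos (k : ℕ) {y : ℤ} (h : 0 < y) : 0 < Cz^[k] y := by
  induction k generalizing y with
  | zero => exact h
  | succ k ih => rw [Function.iterate_succ_apply]; exact ih (Cz_pos h)

theorem Cz_iter_neg (k : ℕ) {y : ℤ} (h : y < 0) : Cz^[k] y < 0 := by
  induction k generalizing y with
  | zero => exact h
  | succ k ih => rw [Function.iterate_succ_apply]; exact ih (Cz_neg h)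

theorem Cz_iter_zero (k : ℕ) : Cz^[k] 0 = 0 := by
  induction k with
  | zero => rfl
  | succ k ih => rw [Function.iterate_succ_apply, Cz_zero, ih]

theorem pos_of_reach {n a : ℤ} (ha : 0 < a) (h : ∃ k : ℕ, Cz^[k] n = a) : 0 < n := by
  obtain ⟨k, hk⟩ := h
  rcases lt_trichotomy n 0 with h0 | h0 | h0
  · have := Cz_iter_neg k h0
    omega
  · subst h0
    rw [Cz_iter_zero] at hk
    omega
  · exact h0

theorem neg_of_reach {n a : ℤ} (ha : a < 0) (h : ∃ k : ℕ, Cz^[k] n = a) : n < 0 := by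
  obtain ⟨k, hk⟩ := h
  rcases lt_trichotomy n 0 with h0 | h0 | h0
  · exact h0
  · subst h0
    rw [Cz_iter_zero] at hk
    omega
  · have := Cz_iter_pos k h0
    omega

theorem fin_abs (x : ℝ) (p : ℤ → Prop) : {n : ℤ | |(n : ℝ)| ≤ x ∧ p n}.Finite := by
  apply Set.Finite.subset (Set.finite_Icc (-⌊x⌋) ⌊x⌋)
  rintro n ⟨hn, -⟩
  rw [abs_le] at hn
  constructor
  · have : -n ≤ ⌊x⌋ := Int.le_floor.2 (by push_cast; linarith)
    omega
  · exact Int.le_floor.2 hn.2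

/-- Positive integers reaching a set that contains the positive integer `a`. -/
theorem count_pos {γ : ℝ} {a : ℤ} (ha : 0 < a) (Z : Finset ℤ) (haZ : a ∈ Z)
    (h : ∃ c : ℝ, 0 < c ∧ ∀ x : ℝ, |(a : ℝ)| ≤ x →
      c * x ^ γ ≤ ({n : ℤ | |(n : ℝ)| ≤ x ∧ ∃ k : ℕ, Cz^[k] n = a}.ncard : ℝ)) :
    ∃ c : ℝ, 0 < c ∧ ∀ x : ℝ, (a : ℝ) ≤ x →
      c * x ^ γ ≤ ({n : ℤ | 1 ≤ n ∧ (n : ℝ) ≤ x ∧ ∃ k : ℕ, Cz^[k] n ∈ Z}.ncard : ℝ) := by
  obtain ⟨c, hc, h⟩ := h
  refine ⟨c, hc, fun x hx => (h x ?_).trans ?_⟩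
  · rw [abs_of_pos (by exact_mod_cast ha)]
    exact hx
  · refine Nat.cast_le.2 (Set.ncard_le_ncard ?_ ?_)
    · rintro n ⟨hn, hk⟩
      have h0 := pos_of_reach ha hk
      obtain ⟨k, hk⟩ := hk
      exact ⟨by omega, (le_abs_self _).trans hn, k, by rw [hk]; exact haZ⟩
    · apply (fin_abs x (fun n => ∃ k : ℕ, Cz^[k] n ∈ Z)).subset
      rintro n ⟨h1, h2, h3⟩
      refine ⟨?_, h3⟩
      rw [abs_of_pos (by exact_mod_cast (by omega : 0 < n))]
      exact h2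

/-- Negative integers reaching a set that contains the negative integer `a`. -/
theorem count_neg {γ : ℝ} {a : ℤ} (ha : a < 0) (Z : Finset ℤ) (haZ : a ∈ Z)
    (h : ∃ c : ℝ, 0 < c ∧ ∀ x : ℝ, |(a : ℝ)| ≤ x →
      c * x ^ γ ≤ ({n : ℤ | |(n : ℝ)| ≤ x ∧ ∃ k : ℕ, Cz^[k] n = a}.ncard : ℝ)) :
    ∃ c : ℝ, 0 < c ∧ ∀ x : ℝ, -(a : ℝ) ≤ x →
      c * x ^ γ ≤ ({n : ℤ | n ≤ -1 ∧ -x ≤ (n : ℝ) ∧ ∃ k : ℕ, Cz^[k] n ∈ Z}.ncard : ℝ) := by
  obtain ⟨c, hc, h⟩ := h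
  refine ⟨c, hc, fun x hx => (h x ?_).trans ?_⟩
  · rw [abs_of_neg (by exact_mod_cast ha)]
    exact hx
  · refine Nat.cast_le.2 (Set.ncard_le_ncard ?_ ?_)
    · rintro n ⟨hn, hk⟩
      have h0 := neg_of_reach ha hk
      obtain ⟨k, hk⟩ := hk
      refine ⟨by omega, ?_, k, by rw [hk]; exact haZ⟩
      rw [abs_le] at hn
      exact hn.1
    · apply (fin_abs x (fun n => ∃ k : ℕ, Cz^[k] n ∈ Z)).subset
      rintro n ⟨h1, h2, h3⟩
      refine ⟨?_, h3⟩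
      rw [abs_of_neg (by exact_mod_cast (by omega : n < 0))]
      linarith

end CollatzOne
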