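import Pool.Agent.CollatzOne.Sys

set_option autoImplicit false

/-!
Definitions shared by the parts of the proof.
-/

namespace CollatzOne

/-- Relative entropy of the top digits (modulus `r`) given the digits below (modulus `N`). -/
noncomputable def DD (N r : ℕ) (f : ℤ → ℝ) : ℝ :=
  S (N * r) (fun x => f x * Real.log (r * f x / S r (fun h => f (x + N * h))))

/-- Correlation. -/
noncomputable def corr (M : ℕ) (f g : ℤ → ℝ) (u : ℤ) : ℝ := S M (fun x => f x * g (x + u))

namespace Sys
variable (A : Sys)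

/-- Total mass of the letters. -/
noncomputable def Z : ℝ := S A.q (A.T 1 (fun _ => 1)) / A.q

/-- The normalised density. -/
noncomputable def F (n : ℕ) (y : ℤ) : ℝ := (A.T 1)^[n] (fun _ => 1) y / A.Z ^ n

/-- Block entropy deficit. -/
noncomputable def ent (k : ℕ) : ℝ := DD (A.q ^ k) A.q (A.F (k + 1)) / (A.q : ℝ) ^ (k + 1)

/-- The second coordinates of the nodes with total exponent `J`. -/
def lev (y : ℤ) (n J : ℕ) : Finset ℤ := ((A.nodes y n).filter (fun p => p.1 = J)).image Prod.snd

/-- Counting function of the residues of the nodes. -/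
noncomputable def nu (y : ℤ) (n J k : ℕ) (x : ℤ) : ℝ :=
  (((A.lev y n J).filter (fun v => ((A.q ^ k : ℕ) : ℤ) ∣ v - x)).card : ℝ)

/-- Bound for the total exponents of `n` letters. -/
def Jmax (n : ℕ) : ℕ := n * ∑ w, A.J w

/-- `T_{n,k}`. -/
noncomputable def tt (n k : ℕ) : ℝ :=
  S (A.q ^ n) (fun c => ∑ J ∈ Finset.range (A.Jmax n + 1),
    A.wt 1 n J / A.Z ^ n * DD (A.q ^ k) A.q (A.nu c n J (k + 1))) / (A.q : ℝ) ^ n

/-- Negative moments of the iterates. -/
noncomputable def AA (γ s : ℝ) (m : ℕ) : ℝ :=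
  S (A.q ^ m) (fun y => ((A.T γ)^[m] (fun _ => 1) y) ^ (-s))

end Sys

/-- Value of a digit tree along a branch. -/
def tv {B : Type} (q : ℤ) : (List B → ℤ) → List B → ℤ
  | _, [] => 0
  | D, β :: U => D [β] + q * tv q (fun u => D (β :: u)) U

/-- Average over all lists of length `m`. -/
noncomputable def av {B : Type} [Fintype B] : ℕ → (List B → ℝ) → ℝ
  | 0, F => F []
  | m + 1, F => (∑ β : B, av m (fun u => F (β :: u))) / Fintype.card B

/-- `D` branches (with different digits modulo `q`) at all levels `i` with `Λ i = true`. -/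
def Aligned (q : ℤ) (Λ : ℕ → Bool) (D : List Bool → ℤ) : Prop :=
  ∀ u : List Bool, Λ u.length = true → ¬ q ∣ D (u ++ [true]) - D (u ++ [false])

/-- The joint tree of `n` signed copies of `D`. -/
def comb {n : ℕ} (σ : Fin n → ℤ) (D : List Bool → ℤ) (U : List (Fin n → Bool)) : ℤ :=
  ∑ i, σ i * D (U.map (fun β => β i))

end CollatzOne
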