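import Pool.Agent.CollatzOne.EntropyAlg

set_option autoImplicit false

/-!
The entropy recursion for block systems, part 1: expansion, monotonicity and the
submultiplicative inequality (A3), (A4).
-/

namespace CollatzOne

/-- Splitting the modulus in `DD`. -/
lemma DD_split (N₀ N r : ℕ) (f : ℤ → ℝ) :
    DD (N₀ * N) r f = S N₀ (fun y => DD N r (fun U => f (y + N₀ * U))) := by
  unfold DD
  rw [mul_assoc, S_mul]
  refine S_congr fun a => S_congr fun u => ?_
  have : S r (fun h => f (a + N₀ * u + ((N₀ * N : ℕ) : ℤ) * h)) =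
      S r (fun h => f (a + N₀ * (u + N * h))) := by
    refine S_congr fun h => ?_
    congr 1
    push_cast
    ring
  rw [this]

lemma DD_congr {N r : ℕ} {f g : ℤ → ℝ} (h : ∀ x, f x = g x) : DD N r f = DD N r g := by
  have : f = g := funext h
  rw [this]

lemma S_dvd {N : ℕ} (hN : 0 < N) (v : ℤ) (φ : ℤ → ℝ) (hφ : Per N φ) :
    S N (fun x => if (N : ℤ) ∣ v - x then φ x else 0) = φ v := by
  have hN' : (0 : ℤ) < N := by exact_mod_cast hN
  have h1 := Int.emod_nonneg v hN'.ne'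
  have h2 := Int.emod_lt_of_pos v hN'
  have h3 : (((v % N).toNat : ℕ) : ℤ) = v % N := Int.toNat_of_nonneg h1
  have hd : (N : ℤ) ∣ v - v % N := Int.dvd_self_sub_emod
  unfold S
  rw [Finset.sum_eq_single (v % N).toNat]
  · show (if (N : ℤ) ∣ v - (((v % N).toNat : ℕ) : ℤ) then φ (((v % N).toNat : ℕ) : ℤ) else 0) = φ v
    rw [h3, if_pos hd]
    apply hφ.congr
    have h4 := (Int.dvd_neg.2 hd)
    rwa [neg_sub] at h4
  · intro x hx hne
    rw [Finset.mem_range] at hx
    show (if (N : ℤ) ∣ v - (x : ℤ) then φ (x : ℤ) else 0) = 0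
    rw [if_neg]
    intro hdx
    apply hne
    have h5 : (N : ℤ) ∣ v % N - (x : ℤ) := by
      have := dvd_sub hdx hd
      rwa [show v - (x : ℤ) - (v - v % N) = v % N - x by ring] at this
    have h7 : |v % N - (x : ℤ)| < N := by
      rw [abs_lt]; constructor <;> omega
    have h8 := Int.eq_zero_of_abs_lt_dvd h5 h7
    omega
  · intro h
    exfalso
    apply h
    rw [Finset.mem_range]
    omega

namespace Sys
variable (A : Sys)

/-- Sums over the nodes of a shifted root. -/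
lemma sum_nodes_shift (y : ℤ) (n : ℕ) (U : ℤ) (G : ℕ × ℤ → ℝ) :
    ∑ p ∈ A.nodes (y + (A.q : ℤ) ^ n * U) n, G p =
      ∑ p ∈ A.nodes y n, G (p.1, p.2 + 2 ^ p.1 * U) := by
  induction n generalizing G U with
  | zero => simp [nodes]
  | succ n ih =>
    rw [show y + (A.q : ℤ) ^ (n + 1) * U = y + (A.q : ℤ) ^ n * (A.q * U) by ring,
      sum_nodes_succ, sum_nodes_succ, ih]
    refine Finset.sum_congr rfl fun p _ => ?_
    refine Finset.sum_congr rfl fun w _ => ?_
    dsimp only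
    rw [show p.2 + 2 ^ p.1 * ((A.q : ℤ) * U) = p.2 + A.q * (2 ^ p.1 * U) by ring]
    by_cases h : A.valid w p.2
    · rw [if_pos ((A.valid_add _ _ _).2 h), if_pos h, A.child_add h]
      congr 2
      rw [pow_add]
      ring
    · rw [if_neg (fun h' => h ((A.valid_add _ _ _).1 h')), if_neg h]

/-! ### The density -/

lemma ent_exists_valid (y : ℤ) : ∃ w, A.valid w y := by
  obtain ⟨w, _, _, h, _⟩ := A.deg y
  refine ⟨w, ?_⟩
  unfold valid q
  push_cast
  exact h

lemma entT_pos {γ : ℝ} {φ : ℤ → ℝ} (h : ∀ y, 0 < φ y) (y : ℤ) : 0 < A.T γ φ y := by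
  obtain ⟨w, hw⟩ := A.ent_exists_valid y
  have hq := A.q_posR
  unfold T
  have hterm : ∀ w', 0 ≤ (if A.valid w' y then ((A.q : ℝ) / 2 ^ A.J w') ^ γ * φ (A.child w' y) else 0) := by
    intro w'
    split_ifs
    · have := h (A.child w' y)
      positivity
    · exact le_rfl
  refine lt_of_lt_of_le ?_ (Finset.single_le_sum (fun i _ => hterm i) (Finset.mem_univ w))
  rw [if_pos hw]
  have := h (A.child w y)
  positivity

lemma ent_iter_pos (γ : ℝ) (n : ℕ) {φ : ℤ → ℝ} (h : ∀ y, 0 < φ y) (y : ℤ) : 0 < (A.T γ)^[n] φ y := by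
  induction n generalizing φ with
  | zero => exact h y
  | succ n ih =>
    rw [Function.iterate_succ_apply]
    exact ih (fun z => A.entT_pos h z)

lemma iter_one_pos (γ : ℝ) (n : ℕ) (y : ℤ) : 0 < (A.T γ)^[n] (fun _ => 1) y :=
  A.ent_iter_pos γ n (fun _ => one_pos) y

lemma Z_pos : 0 < A.Z := by
  unfold Z
  refine div_pos ?_ A.q_posR
  unfold S
  refine Finset.sum_pos (fun x _ => A.entT_pos (fun _ => one_pos) _) ?_
  exact Finset.nonempty_range_iff.2 A.q_pos.ne'

lemma F_pos (n : ℕ) (y : ℤ) : 0 < A.F n y :=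
  div_pos (A.iter_one_pos 1 n y) (pow_pos A.Z_pos n)

lemma F_nonneg (n : ℕ) (y : ℤ) : 0 ≤ A.F n y := (A.F_pos n y).le

lemma F_per (n : ℕ) : Per (A.q ^ n) (A.F n) := by
  intro y
  unfold F
  rw [A.iter_one_per 1 n y]

lemma S_T_one : S A.q (A.T 1 (fun _ => 1)) = A.q * A.Z := by
  have := A.q_posR
  unfold Z
  field_simp

lemma S_iter_one (n : ℕ) : S (A.q ^ n) ((A.T 1)^[n] (fun _ => 1)) = (A.q * A.Z) ^ n := by
  induction n with
  | zero => simp [S]
  | succ n ih =>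
    have h1 : Per (A.q ^ 1) (A.T 1 (fun _ => 1)) := A.iter_one_per 1 1
    have h2 := A.S_iter 1 n 1 h1
    rw [Function.iterate_succ_apply, h2, ih, pow_one, A.S_T_one, pow_succ]

lemma S_F (n : ℕ) : S (A.q ^ n) (A.F n) = (A.q : ℝ) ^ n := by
  have hZ := A.Z_pos
  have h : ∀ y, A.F n y = (A.Z ^ n)⁻¹ * (A.T 1)^[n] (fun _ => 1) y := fun y => by
    unfold F; rw [div_eq_inv_mul]
  rw [S_congr h, S_mul_left, A.S_iter_one, mul_pow]
  field_simp

/-- Expansion of the density. -/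
lemma F_expand (y : ℤ) (n m : ℕ) (U : ℤ) :
    A.F (n + m) (y + (A.q : ℤ) ^ n * U) =
      ∑ p ∈ A.nodes y n, A.wt 1 n p.1 / A.Z ^ n * A.F m (p.2 + 2 ^ p.1 * U) := by
  have hZ := A.Z_pos
  unfold F
  rw [Function.iterate_add_apply, A.iter_eq, pow_add, Finset.sum_div]
  refine Finset.sum_congr rfl fun p _ => ?_
  field_simp

lemma F_zero (y : ℤ) : A.F 0 y = 1 := by simp [F]

lemma F_eq_sum (y : ℤ) (n : ℕ) : A.F n y = ∑ p ∈ A.nodes y n, A.wt 1 n p.1 / A.Z ^ n := by
  have := A.F_expand y n 0 0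
  simpa [F_zero] using this

/-- The martingale property. -/
lemma S_F_succ (x : ℤ) (n : ℕ) :
    S A.q (fun h => A.F (n + 1) (x + ((A.q ^ n : ℕ) : ℤ) * h)) = A.q * A.F n x := by
  have h1 : ∀ h : ℤ, A.F (n + 1) (x + ((A.q ^ n : ℕ) : ℤ) * h) =
      ∑ p ∈ A.nodes x n, A.wt 1 n p.1 / A.Z ^ n * A.F 1 (2 ^ p.1 * h + p.2) := by
    intro h
    push_cast
    rw [A.F_expand]
    refine Finset.sum_congr rfl fun p _ => ?_
    rw [add_comm]
  rw [S_congr h1, S_sum, F_eq_sum, Finset.mul_sum]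
  refine Finset.sum_congr rfl fun p _ => ?_
  have h2 : Per A.q (A.F 1) := by simpa using A.F_per 1
  have h3 : S A.q (A.F 1) = A.q := by simpa using A.S_F 1
  have h4 : IsCoprime ((2 : ℤ) ^ p.1) (A.q : ℤ) := by simpa using A.coprime_two_pow p.1 1
  rw [S_mul_left, S_affine h2 h4, h3, mul_comm]

lemma ent_nonneg (k : ℕ) : 0 ≤ A.ent k := by
  unfold ent
  refine div_nonneg (DD_nonneg A.q_pos ?_ (A.F_nonneg _)) (by have := A.q_posR; positivity)
  have := A.F_per (k + 1)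
  rwa [pow_succ] at this

lemma wtZ_nonneg (n J : ℕ) : 0 ≤ A.wt 1 n J / A.Z ^ n :=
  div_nonneg (A.wt_pos _ _ _).le (pow_pos A.Z_pos n).le

/-- (A3) -/
theorem ent_anti (k : ℕ) : A.ent (k + 1) ≤ A.ent k := by
  have hq := A.q_posR
  have hper := A.F_per (k + 1)
  have hper' : Per (A.q ^ k * A.q) (A.F (k + 1)) := by rwa [pow_succ] at hper
  have key : DD (A.q ^ (k + 1)) A.q (A.F (k + 2)) ≤ A.q * DD (A.q ^ k) A.q (A.F (k + 1)) := by
    rw [pow_succ', DD_split]
    calc S A.q (fun y => DD (A.q ^ k) A.q (fun U => A.F (k + 2) (y + A.q * U)))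
        ≤ S A.q (fun y => A.F 1 y * DD (A.q ^ k) A.q (A.F (k + 1))) := by
          refine S_mono fun y => ?_
          have h1 : ∀ U : ℤ, A.F (k + 2) (y + A.q * U) =
              ∑ p ∈ A.nodes y 1, A.wt 1 1 p.1 / A.Z ^ 1 * A.F (k + 1) (2 ^ p.1 * U + p.2) := by
            intro U
            have := A.F_expand y 1 (k + 1) U
            rw [show 1 + (k + 1) = k + 2 by ring, pow_one] at this
            rw [this]
            refine Finset.sum_congr rfl fun p _ => ?_
            rw [add_comm p.2]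
          rw [DD_congr h1]
          refine (DD_sum_le A.q_pos (A.nodes y 1) (fun p => A.wt 1 1 p.1 / A.Z ^ 1)
            (fun p _ => A.wtZ_nonneg 1 p.1) (fun p U => A.F (k + 1) (2 ^ p.1 * U + p.2))
            (fun p _ x => A.F_nonneg _ _)).trans (le_of_eq ?_)
          rw [A.F_eq_sum y 1, Finset.sum_mul]
          refine Finset.sum_congr rfl fun p _ => ?_
          congr 1
          refine DD_affine hper' ?_ _
          rw [← pow_succ]
          exact A.coprime_two_pow _ _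
      _ = A.q * DD (A.q ^ k) A.q (A.F (k + 1)) := by
          rw [S_mul_right]
          have h3 : S A.q (A.F 1) = A.q := by simpa using A.S_F 1
          rw [h3]
  unfold ent
  rw [div_le_div_iff₀ (by positivity) (by positivity)]
  have e : (A.q : ℝ) ^ (k + 1 + 1) = A.q * A.q ^ (k + 1) := by ring
  rw [e, show A.q * (A.q : ℝ) ^ (k + 1) = (A.q : ℝ) * A.q ^ (k + 1) from rfl]
  have h5 : 0 ≤ (A.q : ℝ) ^ (k + 1) := by positivity
  calc DD (A.q ^ (k + 1)) A.q (A.F (k + 1 + 1)) * (A.q : ℝ) ^ (k + 1)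
      ≤ (A.q * DD (A.q ^ k) A.q (A.F (k + 1))) * (A.q : ℝ) ^ (k + 1) := by gcongr
    _ = DD (A.q ^ k) A.q (A.F (k + 1)) * (A.q * (A.q : ℝ) ^ (k + 1)) := by ring

/-! ### Levels -/

lemma ent_mem_lev {y : ℤ} {n J : ℕ} {v : ℤ} : v ∈ A.lev y n J ↔ (J, v) ∈ A.nodes y n := by
  unfold lev
  simp only [Finset.mem_image, Finset.mem_filter]
  constructor
  · rintro ⟨⟨a, b⟩, ⟨h1, h2⟩, h3⟩
    simp only at h2 h3
    subst h2 h3
    exact h1
  · intro h
    exact ⟨(J, v), ⟨h, rfl⟩, rfl⟩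

lemma J_le_Jmax {y : ℤ} {n : ℕ} : ∀ p ∈ A.nodes y n, p.1 ≤ A.Jmax n := by
  induction n with
  | zero =>
    intro p hp
    simp only [nodes, Finset.mem_singleton] at hp
    subst hp
    simp
  | succ n ih =>
    intro p hp
    obtain ⟨r, hr, w, _, rfl⟩ := A.mem_nodes_succ.1 hp
    have h1 := ih r hr
    have h2 : A.J w ≤ ∑ w, A.J w := Finset.single_le_sum (fun i _ => Nat.zero_le _) (Finset.mem_univ w)
    unfold Jmax at *
    simp only
    nlinarith

/-- Group the nodes according to the total exponent. -/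
lemma sum_nodes_lev (y : ℤ) (n : ℕ) (G : ℕ × ℤ → ℝ) :
    ∑ p ∈ A.nodes y n, G p = ∑ J ∈ Finset.range (A.Jmax n + 1), ∑ v ∈ A.lev y n J, G (J, v) := by
  rw [← Finset.sum_fiberwise_of_maps_to (t := Finset.range (A.Jmax n + 1)) (g := fun p : ℕ × ℤ => p.1)
    (fun p hp => by rw [Finset.mem_range]; exact Nat.lt_succ_of_le (A.J_le_Jmax p hp))]
  refine Finset.sum_congr rfl fun J _ => ?_
  unfold lev
  rw [Finset.sum_image]
  · refine Finset.sum_congr rfl fun p hp => ?_
    rw [Finset.mem_filter] at hp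
    rw [← hp.2]
  · intro p hp r hr h
    simp only [Finset.coe_filter, Set.mem_ofPred_eq] at hp hr
    exact Prod.ext (hp.2.trans hr.2.symm) h

lemma corr_nu (c : ℤ) (n J k : ℕ) {g : ℤ → ℝ} (hg : Per (A.q ^ k) g) (u : ℤ) :
    corr (A.q ^ k) (A.nu c n J k) g u = ∑ v ∈ A.lev c n J, g (v + u) := by
  have hq : 0 < A.q ^ k := pow_pos A.q_pos k
  unfold corr
  have h1 : ∀ x : ℤ, A.nu c n J k x * g (x + u) =
      ∑ v ∈ A.lev c n J, if ((A.q ^ k : ℕ) : ℤ) ∣ v - x then g (x + u) else 0 := by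
    intro x
    unfold nu
    rw [← Finset.sum_filter, Finset.sum_const, nsmul_eq_mul]
  rw [S_congr h1, S_sum]
  refine Finset.sum_congr rfl fun v _ => ?_
  exact S_dvd hq v (fun x => g (x + u)) (hg.comp_add u)

lemma nu_nonneg (c : ℤ) (n J k : ℕ) (x : ℤ) : 0 ≤ A.nu c n J k x := by
  unfold nu; positivity

lemma nu_per (c : ℤ) (n J k : ℕ) : Per (A.q ^ k) (A.nu c n J k) := by
  intro x
  unfold nu
  congr 2
  refine Finset.filter_congr fun v _ => ?_
  constructor
  · intro h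
    have := dvd_add h (dvd_refl ((A.q ^ k : ℕ) : ℤ))
    rwa [show v - (x + ((A.q ^ k : ℕ) : ℤ)) + ((A.q ^ k : ℕ) : ℤ) = v - x by ring] at this
  · intro h
    have := dvd_sub h (dvd_refl ((A.q ^ k : ℕ) : ℤ))
    rwa [show v - x - ((A.q ^ k : ℕ) : ℤ) = v - (x + ((A.q ^ k : ℕ) : ℤ)) by ring] at this

lemma S_nu (c : ℤ) (n J k : ℕ) : S (A.q ^ k) (A.nu c n J k) = (A.lev c n J).card := by
  have h := A.corr_nu c n J k (g := fun _ => 1) (fun _ => rfl) 0
  unfold corr at h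
  simp only [mul_one, Finset.sum_const, nsmul_eq_mul] at h
  exact h

lemma tt_nonneg (n k : ℕ) : 0 ≤ A.tt n k := by
  have hq := A.q_posR
  unfold tt
  refine div_nonneg (S_nonneg fun c => Finset.sum_nonneg fun J _ =>
    mul_nonneg (A.wtZ_nonneg n J) (DD_nonneg A.q_pos ?_ (A.nu_nonneg _ _ _ _))) (by positivity)
  have := A.nu_per c n J (k + 1)
  rwa [pow_succ] at this

/-- (A4) -/
theorem ent_mul (n k : ℕ) : A.ent (n + k) ≤ 64 * A.tt n k * A.ent k := by
  have hq := A.q_posR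
  have hper' : Per (A.q ^ k * A.q) (A.F (k + 1)) := by
    have := A.F_per (k + 1); rwa [pow_succ] at this
  have hq3 : A.q ^ k = 3 ^ (A.l * k) := by unfold q; rw [pow_mul]
  have hq3' : A.q = 3 ^ A.l := rfl
  have key : DD (A.q ^ (n + k)) A.q (A.F (n + k + 1)) ≤
      64 * (A.tt n k * (A.q : ℝ) ^ n) * DD (A.q ^ k) A.q (A.F (k + 1)) := by
    rw [pow_add, DD_split]
    have htt : A.tt n k * (A.q : ℝ) ^ n = S (A.q ^ n) (fun c => ∑ J ∈ Finset.range (A.Jmax n + 1),
        A.wt 1 n J / A.Z ^ n * DD (A.q ^ k) A.q (A.nu c n J (k + 1))) := by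
      unfold tt; field_simp
    rw [htt, ← S_mul_left, ← S_mul_right]
    refine S_mono fun c => ?_
    have h1 : ∀ U : ℤ, A.F (n + k + 1) (c + ((A.q ^ n : ℕ) : ℤ) * U) =
        ∑ J ∈ Finset.range (A.Jmax n + 1), A.wt 1 n J / A.Z ^ n *
          corr (A.q ^ k * A.q) (A.nu c n J (k + 1)) (A.F (k + 1)) (2 ^ J * U + 0) := by
      intro U
      have := A.F_expand c n (k + 1) U
      push_cast
      rw [show n + k + 1 = n + (k + 1) by ring, this, A.sum_nodes_lev]
      refine Finset.sum_congr rfl fun J _ => ?_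
      rw [← pow_succ, A.corr_nu _ _ _ _ (A.F_per (k + 1)), Finset.mul_sum]
      simp only [add_zero]
    rw [DD_congr h1]
    refine (DD_sum_le A.q_pos (Finset.range (A.Jmax n + 1)) (fun J => A.wt 1 n J / A.Z ^ n)
      (fun J _ => A.wtZ_nonneg n J)
      (fun J U => corr (A.q ^ k * A.q) (A.nu c n J (k + 1)) (A.F (k + 1)) (2 ^ J * U + 0))
      (fun J _ x => S_nonneg fun z => mul_nonneg (A.nu_nonneg _ _ _ _ _) (A.F_nonneg _ _))).trans ?_
    rw [Finset.mul_sum, Finset.sum_mul]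
    refine Finset.sum_le_sum fun J _ => ?_
    have hnuper : Per (A.q ^ k * A.q) (A.nu c n J (k + 1)) := by
      have := A.nu_per c n J (k + 1); rwa [pow_succ] at this
    have hcp : Per (A.q ^ k * A.q) (corr (A.q ^ k * A.q) (A.nu c n J (k + 1)) (A.F (k + 1))) := by
      intro u
      unfold corr
      refine S_congr fun x => ?_
      rw [← add_assoc, hper' (x + u)]
    have h2 : DD (A.q ^ k) A.q (fun U => corr (A.q ^ k * A.q) (A.nu c n J (k + 1)) (A.F (k + 1))
        (2 ^ J * U + 0)) = DD (A.q ^ k) A.q (corr (A.q ^ k * A.q) (A.nu c n J (k + 1)) (A.F (k + 1))) := by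
      refine DD_affine hcp ?_ 0
      rw [← pow_succ]
      exact A.coprime_two_pow _ _
    rw [h2]
    have h3 : DD (A.q ^ k) A.q (corr (A.q ^ k * A.q) (A.nu c n J (k + 1)) (A.F (k + 1))) ≤
        64 * DD (A.q ^ k) A.q (A.nu c n J (k + 1)) * DD (A.q ^ k) A.q (A.F (k + 1)) := by
      rw [hq3, hq3'] at hnuper hper' ⊢
      exact DD_corr (A.l * k) A.l hnuper hper' (A.nu_nonneg _ _ _ _) (A.F_nonneg _)
    have h4 := A.wtZ_nonneg n J
    calc A.wt 1 n J / A.Z ^ n * DD (A.q ^ k) A.q (corr (A.q ^ k * A.q) (A.nu c n J (k + 1)) (A.F (k + 1)))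
        ≤ A.wt 1 n J / A.Z ^ n * (64 * DD (A.q ^ k) A.q (A.nu c n J (k + 1)) *
          DD (A.q ^ k) A.q (A.F (k + 1))) := by gcongr
      _ = _ := by ring
  unfold ent
  rw [div_le_iff₀ (by positivity)]
  refine key.trans (le_of_eq ?_)
  have : (A.q : ℝ) ^ (n + k + 1) = A.q ^ n * A.q ^ (k + 1) := by ring
  rw [this]
  field_simp

end Sys

end CollatzOne
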