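import Pool.Agent.CollatzOne.EntRec3

set_option autoImplicit false

/-!
The entropy recursion for block systems, part 4: the sum of the entropies is bounded (A6),
and the densities do not degenerate (A7).
-/

namespace CollatzOne

/-- The summation lemma. -/
lemma sum_bdd_of_rec {a : ℕ → ℝ} (ha : ∀ n, 0 ≤ a n) {η : ℝ} (hη : 0 ≤ η) {b : ℕ} (hb : 1 ≤ b)
    (hηb : η * b < 1) {N₀ : ℕ} (h : ∀ N ≥ N₀, a N ≤ η * a (N / b)) :
    ∃ C : ℝ, ∀ n : ℕ, ∑ k ∈ Finset.range n, a k ≤ C := by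
  refine ⟨(∑ k ∈ Finset.range N₀, a k) / (1 - η * b), fun n => ?_⟩
  have h1 : ∀ k ∈ Finset.range n, a k ≤ (if k < N₀ then a k else 0) + η * a (k / b) := by
    intro k _
    have := ha (k / b)
    split_ifs with hk
    · have : 0 ≤ η * a (k / b) := by positivity
      linarith
    · rw [zero_add]
      exact h k (not_lt.1 hk)
  have h2 : ∑ k ∈ Finset.range n, (if k < N₀ then a k else 0) ≤ ∑ k ∈ Finset.range N₀, a k := by
    rw [← Finset.sum_filter]
    refine Finset.sum_le_sum_of_subset_of_nonneg ?_ (fun i _ _ => ha i)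
    intro k hk
    rw [Finset.mem_filter] at hk
    exact Finset.mem_range.2 hk.2
  have h3 : ∀ m : ℕ, ∑ k ∈ Finset.range (b * m), a (k / b) = b * ∑ k ∈ Finset.range m, a k := by
    intro m
    induction m with
    | zero => simp
    | succ m ih =>
      rw [Nat.mul_succ, Finset.sum_range_add, ih, Finset.sum_range_succ, mul_add]
      congr 1
      have : ∀ x ∈ Finset.range b, a ((b * m + x) / b) = a m := by
        intro x hx
        congr 1
        rw [Nat.mul_add_div (by omega), Nat.div_eq_of_lt (Finset.mem_range.1 hx), add_zero]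
      rw [Finset.sum_congr rfl this, Finset.sum_const, Finset.card_range, nsmul_eq_mul]
  have h4 : ∑ k ∈ Finset.range n, a (k / b) ≤ b * ∑ k ∈ Finset.range n, a k := by
    rw [← h3 n]
    refine Finset.sum_le_sum_of_subset_of_nonneg ?_ (fun i _ _ => ha _)
    intro k hk
    rw [Finset.mem_range] at hk ⊢
    calc k < n := hk
      _ ≤ b * n := Nat.le_mul_of_pos_left n hb
  have h5 := Finset.sum_le_sum h1
  rw [Finset.sum_add_distrib, ← Finset.mul_sum] at h5
  have h6 : η * ∑ k ∈ Finset.range n, a (k / b) ≤ η * (b * ∑ k ∈ Finset.range n, a k) := by gcongr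
  rw [le_div_iff₀ (by linarith)]
  nlinarith

/-- Passing from the pairs `(n, k n)` to all large `N`. -/
lemma rec_of_step {a : ℕ → ℝ} (ha : Antitone a) {l : ℕ} {η κ c1 : ℝ} (hη0 : 0 ≤ η)
    (hκ0 : 0 < κ) (hκl : 1 < 2 * (l : ℝ) * κ) (_hc10 : 0 < c1) (k : ℕ → ℕ)
    (hkκ : ∀ n : ℕ, (k n : ℝ) ≤ n * κ + c1) (hkκ' : ∀ n : ℕ, n * κ ≤ (k n : ℝ)) (n₁ : ℝ)
    (hstep : ∀ n : ℕ, 1 ≤ n → n₁ ≤ n → a (n + k n) ≤ η * a (k n / 2)) :
    ∃ N₀ : ℕ, ∀ N ≥ N₀, a N ≤ η * a (N / (4 * l + 3)) := by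
  have hb0 : (0 : ℝ) < 4 * l + 3 := by positivity
  set ρ : ℝ := κ / (2 * (1 + κ)) - 1 / (4 * l + 3) with hρ
  have hρ0 : 0 < ρ := by
    rw [hρ, sub_pos, div_lt_div_iff₀ (by positivity) (by positivity)]
    nlinarith
  obtain ⟨N₀, hN₀⟩ := exists_nat_gt (max ((κ * c1 / (2 * (1 + κ)) + κ / 2 + 1 / 2) / ρ)
    (c1 + (1 + κ) * (max 1 n₁ + 1)))
  refine ⟨N₀, fun N hN => ?_⟩
  have hNR : (N₀ : ℝ) ≤ N := by exact_mod_cast hN
  have hN1 : (κ * c1 / (2 * (1 + κ)) + κ / 2 + 1 / 2) / ρ < N :=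
    lt_of_le_of_lt (le_max_left _ _) (lt_of_lt_of_le hN₀ hNR)
  have hN2 : c1 + (1 + κ) * (max 1 n₁ + 1) < N :=
    lt_of_le_of_lt (le_max_right _ _) (lt_of_lt_of_le hN₀ hNR)
  set n : ℕ := ⌊((N : ℝ) - c1) / (1 + κ)⌋₊ with hn
  have hmax : (1 : ℝ) ≤ max 1 n₁ := le_max_left _ _
  have hx0 : 0 ≤ ((N : ℝ) - c1) / (1 + κ) := by
    apply div_nonneg _ (by positivity)
    nlinarith
  have hn1 : (n : ℝ) * (1 + κ) ≤ N - c1 := by
    have := Nat.floor_le hx0
    rw [le_div_iff₀ (by positivity)] at this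
    exact this
  have hn2 : ((N : ℝ) - c1) / (1 + κ) - 1 < n := by
    have := Nat.lt_floor_add_one (((N : ℝ) - c1) / (1 + κ))
    rw [← hn] at this
    linarith
  have hn3 : max 1 n₁ < n := by
    refine lt_trans ?_ hn2
    rw [lt_sub_iff_add_lt, lt_div_iff₀ (by positivity)]
    nlinarith
  have hn4 : 1 ≤ n := by
    have : (1 : ℝ) < n := lt_of_le_of_lt (le_max_left _ _) hn3
    have : 1 < n := by exact_mod_cast this
    omega
  have hn5 : n₁ ≤ n := le_trans (le_max_right _ _) hn3.le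
  have h1 := hstep n hn4 hn5
  have h2 : n + k n ≤ N := by
    have h3 : ((n + k n : ℕ) : ℝ) ≤ N := by
      push_cast
      have := hkκ n
      nlinarith
    exact_mod_cast h3
  have h3 : a N ≤ a (n + k n) := ha h2
  have h4 : a (k n / 2) ≤ a (N / (4 * l + 3)) := by
    refine ha ?_
    have h5 : ((N / (4 * l + 3) : ℕ) : ℝ) ≤ ((k n / 2 : ℕ) : ℝ) := by
      have h6 : ((N / (4 * l + 3) : ℕ) : ℝ) ≤ (N : ℝ) / (4 * l + 3) := by
        have := Nat.cast_div_le (α := ℝ) (m := N) (n := 4 * l + 3)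
        push_cast at this
        exact this
      have h7 : (k n : ℝ) / 2 - 1 / 2 ≤ ((k n / 2 : ℕ) : ℝ) := by
        have : k n ≤ 2 * (k n / 2) + 1 := by omega
        have h8 : (k n : ℝ) ≤ 2 * ((k n / 2 : ℕ) : ℝ) + 1 := by exact_mod_cast this
        linarith
      have h8 := hkκ' n
      have h9 : (N : ℝ) / (4 * l + 3) ≤ (n * κ) / 2 - 1 / 2 := by
        rw [div_lt_iff₀ hρ0] at hN1
        have h10 : κ * (((N : ℝ) - c1) / (1 + κ) - 1) ≤ κ * n := by gcongr
        have h11 : (N : ℝ) * ρ = κ * N / (2 * (1 + κ)) - N / (4 * l + 3) := by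
          rw [hρ]; field_simp
        have h12 : κ * (((N : ℝ) - c1) / (1 + κ) - 1) = 2 * (κ * N / (2 * (1 + κ))) -
            2 * (κ * c1 / (2 * (1 + κ))) - κ := by
          field_simp
        rw [h11] at hN1
        rw [h12] at h10
        linarith
      linarith
    exact_mod_cast h5
  calc a N ≤ a (n + k n) := h3
    _ ≤ η * a (k n / 2) := h1
    _ ≤ η * a (N / (4 * l + 3)) := by gcongr

namespace Sys
variable (A : Sys)

lemma ent_antitone : Antitone A.ent := antitone_nat_of_succ_le A.ent_anti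

/-- (A6), one step. -/
lemma ent_step (n k : ℕ) : (k : ℝ) * A.ent (n + k) ≤ 128 * (∑ i ∈ Finset.range k, A.tt n i) * A.ent (k / 2) := by
  have h1 : ∀ i ∈ Finset.Ico (k / 2) k, A.ent (n + k) ≤ 64 * A.tt n i * A.ent (k / 2) := by
    intro i hi
    rw [Finset.mem_Ico] at hi
    have h2 : A.ent (n + k) ≤ A.ent (n + i) := A.ent_antitone (by omega)
    have h3 := A.ent_mul n i
    have h4 : A.ent i ≤ A.ent (k / 2) := A.ent_antitone hi.1
    have h5 := A.tt_nonneg n i
    calc A.ent (n + k) ≤ A.ent (n + i) := h2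
      _ ≤ 64 * A.tt n i * A.ent i := h3
      _ ≤ 64 * A.tt n i * A.ent (k / 2) := by gcongr
  have h2 := Finset.sum_le_sum h1
  rw [Finset.sum_const, Nat.card_Ico, nsmul_eq_mul, ← Finset.sum_mul, ← Finset.mul_sum] at h2
  have h3 : ∑ i ∈ Finset.Ico (k / 2) k, A.tt n i ≤ ∑ i ∈ Finset.range k, A.tt n i := by
    refine Finset.sum_le_sum_of_subset_of_nonneg ?_ (fun i _ _ => A.tt_nonneg n i)
    intro i hi
    rw [Finset.mem_Ico] at hi
    exact Finset.mem_range.2 hi.2
  have h4 : (k : ℝ) ≤ 2 * ((k - k / 2 : ℕ) : ℝ) := by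
    have : k ≤ 2 * (k - k / 2) := by omega
    exact_mod_cast this
  have h5 := A.ent_nonneg (n + k)
  have h6 := A.ent_nonneg (k / 2)
  calc (k : ℝ) * A.ent (n + k) ≤ 2 * ((k - k / 2 : ℕ) : ℝ) * A.ent (n + k) := by gcongr
    _ ≤ 2 * (64 * (∑ i ∈ Finset.Ico (k / 2) k, A.tt n i) * A.ent (k / 2)) := by linarith
    _ ≤ 2 * (64 * (∑ i ∈ Finset.range k, A.tt n i) * A.ent (k / 2)) := by gcongr
    _ = _ := by ring

lemma ent_log_q : Real.log A.q = A.l * Real.log 3 := by
  unfold q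
  push_cast
  rw [Real.log_pow]

lemma ent_log_three_lt : Real.log 3 < 2 * Real.log 2 := by
  have : (2 : ℝ) * Real.log 2 = Real.log 4 := by
    rw [show (4 : ℝ) = 2 ^ 2 by norm_num, Real.log_pow]; norm_num
  rw [this]
  exact Real.log_lt_log (by norm_num) (by norm_num)

lemma ent_mu_ge : Real.log 2 + Real.log A.q ≤ A.mu * Real.log 2 := by
  have hq := A.q_posR
  have h1 : ∀ w, Real.log 2 + Real.log A.q ≤ A.J w * Real.log 2 := by
    intro w
    rw [← Real.log_mul (by norm_num) hq.ne', ← Real.log_pow]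
    refine Real.log_le_log (by positivity) ?_
    have := A.two_le w
    unfold q
    exact_mod_cast this
  unfold mu
  rw [Finset.sum_mul]
  calc Real.log 2 + Real.log A.q = ∑ w, A.pr w * (Real.log 2 + Real.log A.q) := by
        rw [← Finset.sum_mul, ent_sum_pr, one_mul]
    _ ≤ ∑ w, A.pr w * A.J w * Real.log 2 := by
        refine Finset.sum_le_sum fun w _ => ?_
        rw [mul_assoc]
        exact mul_le_mul_of_nonneg_left (h1 w) (A.pr_nonneg w)

/-- The choice of the parameters. -/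
lemma exists_params (hZ : 256 * (A.l : ℝ) * (4 * A.l + 3) * (-Real.log A.Z) < 1) :
    ∃ θ κ c1 n₁ : ℝ, ∃ k : ℕ → ℕ, 0 ≤ θ ∧ 256 * A.l * θ * ((4 * A.l + 3 : ℕ) : ℝ) < 1 ∧
      0 < κ ∧ 1 < 2 * (A.l : ℝ) * κ ∧ 0 < c1 ∧ (∀ n : ℕ, (k n : ℝ) ≤ n * κ + c1) ∧
      (∀ n : ℕ, n * κ ≤ (k n : ℝ)) ∧
      ∀ n : ℕ, 1 ≤ n → n₁ ≤ n → ∑ i ∈ Finset.range (k n), A.tt n i ≤ n * θ := by
  have hq := A.q_posR
  have hl : (1 : ℝ) ≤ A.l := by exact_mod_cast A.hl
  have hl0 : (0 : ℝ) < A.l := by linarith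
  have hlog2 : 0 < Real.log 2 := Real.log_pos (by norm_num)
  have hlog3 : 0 < Real.log 3 := Real.log_pos (by norm_num)
  set L : ℝ := Real.log A.q with hL
  have hLq : L = A.l * Real.log 3 := A.ent_log_q
  have hL0 : 0 < L := by rw [hLq]; positivity
  have hL2 : L < 2 * A.l * Real.log 2 := by
    rw [hLq]
    have := ent_log_three_lt
    nlinarith
  set lam : ℝ := max (-Real.log A.Z) 0 with hlam
  have hlam0 : 0 ≤ lam := le_max_right _ _
  have hlam1 : -Real.log A.Z ≤ lam := le_max_left _ _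
  set B : ℝ := 256 * (A.l : ℝ) * (4 * A.l + 3) with hB
  have hB0 : 0 < B := by positivity
  have hlamB : B * lam < 1 := by
    rw [hlam]
    rcases le_total (-Real.log A.Z) 0 with h | h
    · rw [max_eq_right h]; linarith
    · rw [max_eq_left h]; exact hZ
  set δ : ℝ := (1 - B * lam) / (4 * B) with hδ
  have hδ0 : 0 < δ := by
    rw [hδ]
    apply div_pos <;> linarith
  have hδB : B * (lam + 2 * δ) < 1 := by
    have : B * δ = (1 - B * lam) / 4 := by rw [hδ]; field_simp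
    nlinarith
  set ε : ℝ := δ / Real.log 2 with hε
  have hε0 : 0 < ε := by positivity
  have hεδ : ε * Real.log 2 = δ := by rw [hε]; field_simp
  set mh : ℝ := A.mu * Real.log 2 - L + δ with hmh
  have hmhge : Real.log 2 + δ ≤ mh := by have := A.ent_mu_ge; rw [hmh]; linarith
  have hmh0 : 0 < mh := by linarith
  set K : ℝ := (A.KK : ℝ) with hK
  have hK1 : 1 ≤ K := by rw [hK]; exact_mod_cast A.KK_pos
  have hlogK : 0 ≤ Real.log K := Real.log_nonneg hK1
  -- the choice of `k`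
  set k : ℕ → ℕ := fun n => ⌊(n * mh + Real.log K) / L⌋₊ + 1 with hk
  have hk1 : ∀ n : ℕ, n * mh + Real.log K < k n * L := by
    intro n
    have h1 := Nat.lt_floor_add_one ((n * mh + Real.log K) / L)
    rw [div_lt_iff₀ hL0] at h1
    rw [hk]
    push_cast
    exact h1
  have hk2 : ∀ n : ℕ, k n * L ≤ n * mh + Real.log K + L := by
    intro n
    have h0 : 0 ≤ (n * mh + Real.log K) / L := by positivity
    have h1 := Nat.floor_le h0
    rw [le_div_iff₀ hL0] at h1
    rw [hk]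
    push_cast
    linarith
  have hkd : ∀ n : ℕ, ∀ J : ℕ, (J : ℝ) ≤ n * (A.mu + ε) → A.KK * 2 ^ J ≤ (A.q : ℤ) ^ (n + k n) := by
    intro n J hJ
    have h1 : K * 2 ^ J ≤ (A.q : ℝ) ^ (n + k n) := by
      rw [← Real.log_le_log_iff (by positivity) (by positivity), Real.log_mul (by positivity) (by positivity),
        Real.log_pow, Real.log_pow, ← hL]
      have h2 : (J : ℝ) * Real.log 2 ≤ n * (A.mu + ε) * Real.log 2 := by gcongr
      have h3 := hk1 n
      have h4 : (n : ℝ) * (A.mu + ε) * Real.log 2 = n * mh + n * L := by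
        rw [hmh, ← hεδ]; ring
      push_cast
      linarith
    rw [hK] at h1
    exact_mod_cast h1
  -- the bound for the sum of `tt`
  set SJ : ℝ := ((∑ w, A.J w : ℕ) : ℝ) with hSJ
  have hSJ0 : 0 ≤ SJ := Nat.cast_nonneg _
  set C : ℝ := (SJ * Real.log 2 + |L - Real.log A.Z|) * A.va / ε ^ 2 + 1 + Real.log K + L with hC
  have hT : ∀ n : ℕ, 1 ≤ n → ∑ i ∈ Finset.range (k n), A.tt n i ≤
      n * (lam + δ) + (Real.log (SJ + 1) + Real.log n) + C := by
    intro n hn
    have hn' : (1 : ℝ) ≤ n := by exact_mod_cast hn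
    have h1 := A.sum_tt_le hn hε0 (hkd n)
    rw [← hL, ← hSJ] at h1
    have h2 := hk2 n
    have h3 : Real.log (A.Jmax n + 1) ≤ Real.log (SJ + 1) + Real.log n := by
      rw [← Real.log_mul (by positivity) (by positivity)]
      refine Real.log_le_log (by positivity) ?_
      unfold Jmax
      push_cast
      rw [hSJ]
      push_cast
      nlinarith
    have h4 : (n : ℝ) * mh + n * (L - Real.log A.Z - A.mu * Real.log 2) ≤ n * (lam + δ) := by
      have : (n : ℝ) * mh + n * (L - Real.log A.Z - A.mu * Real.log 2) = n * (-Real.log A.Z + δ) := by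
        rw [hmh]; ring
      rw [this]
      gcongr
    rw [hC]
    linarith
  set C2 : ℝ := Real.log (SJ + 1) + Real.log (2 / δ) + C with hC2
  have hT2 : ∀ n : ℕ, 1 ≤ n → 2 * C2 / δ ≤ n → ∑ i ∈ Finset.range (k n), A.tt n i ≤ n * (lam + 2 * δ) := by
    intro n hn hn2
    have hn' : (1 : ℝ) ≤ n := by exact_mod_cast hn
    have h1 := hT n hn
    have h2 : Real.log n ≤ δ / 2 * n + Real.log (2 / δ) := by
      have h3 : Real.log n = Real.log (δ / 2 * n) + Real.log (2 / δ) := by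
        rw [← Real.log_mul (by positivity) (by positivity)]
        congr 1
        field_simp
      have h4 := Real.log_le_sub_one_of_pos (x := δ / 2 * n) (by positivity)
      linarith
    rw [div_le_iff₀ hδ0] at hn2
    rw [hC2] at hn2
    have h5 : (n : ℝ) * (lam + 2 * δ) = n * (lam + δ) + n * δ := by ring
    linarith
  refine ⟨lam + 2 * δ, mh / L, Real.log K / L + 1, 2 * C2 / δ, k, by positivity, ?_, by positivity, ?_,
    by positivity, fun n => ?_, fun n => ?_, hT2⟩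
  · push_cast
    calc 256 * A.l * (lam + 2 * δ) * (4 * A.l + 3) = B * (lam + 2 * δ) := by rw [hB]; ring
      _ < 1 := hδB
  · rw [mul_div_assoc', lt_div_iff₀ hL0, one_mul]
    have h1 : Real.log 2 ≤ mh := by linarith
    have h2 : 2 * (A.l : ℝ) * Real.log 2 ≤ 2 * A.l * mh := by gcongr
    linarith
  · have h1 : (k n : ℝ) * L ≤ (n * (mh / L) + (Real.log K / L + 1)) * L := by
      have : (n * (mh / L) + (Real.log K / L + 1)) * L = n * mh + Real.log K + L := by
        field_simp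
        ring
      rw [this]
      exact hk2 n
    exact le_of_mul_le_mul_right h1 hL0
  · have h1 : (n * (mh / L)) * L ≤ (k n : ℝ) * L := by
      have : (n * (mh / L)) * L = n * mh := by field_simp
      rw [this]
      have := hk1 n
      linarith
    exact le_of_mul_le_mul_right h1 hL0

/-- The recursion for the entropies. -/
lemma ent_rec (hZ : 256 * (A.l : ℝ) * (4 * A.l + 3) * (-Real.log A.Z) < 1) :
    ∃ η : ℝ, 0 ≤ η ∧ η * ((4 * A.l + 3 : ℕ) : ℝ) < 1 ∧ ∃ N₀ : ℕ, ∀ N ≥ N₀,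
      A.ent N ≤ η * A.ent (N / (4 * A.l + 3)) := by
  obtain ⟨θ, κ, c1, n₁, k, hθ0, hθ1, hκ0, hκl, hc10, hk1, hk2, hT⟩ := A.exists_params hZ
  have hl0 : (0 : ℝ) < A.l := by exact_mod_cast A.hl
  refine ⟨256 * A.l * θ, by positivity, hθ1, ?_⟩
  refine rec_of_step A.ent_antitone (by positivity) hκ0 hκl hc10 k hk1 hk2 n₁ fun n hn hn2 => ?_
  have hn' : (1 : ℝ) ≤ n := by exact_mod_cast hn
  have h1 := A.ent_step n (k n)
  have h2 := hT n hn hn2
  have h3 := A.ent_nonneg (k n / 2)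
  have h5 := hk2 n
  have h4 : (n : ℝ) ≤ 2 * A.l * k n := by
    have : (n : ℝ) * 1 ≤ n * (2 * A.l * κ) := by gcongr
    nlinarith
  have hkpos : (0 : ℝ) < k n := by
    have : 0 < n * κ := by positivity
    linarith
  have h6 : (k n : ℝ) * A.ent (n + k n) ≤ k n * (256 * A.l * θ * A.ent (k n / 2)) := by
    calc (k n : ℝ) * A.ent (n + k n) ≤ 128 * (∑ i ∈ Finset.range (k n), A.tt n i) * A.ent (k n / 2) := h1
      _ ≤ 128 * (n * θ) * A.ent (k n / 2) := by gcongr
      _ ≤ 128 * ((2 * A.l * k n) * θ) * A.ent (k n / 2) := by gcongr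
      _ = _ := by ring
  exact le_of_mul_le_mul_left h6 hkpos

/-- (A5), (A6) -/
theorem ent_bdd (hZ : 256 * (A.l : ℝ) * (4 * A.l + 3) * (-Real.log A.Z) < 1) :
    ∃ C : ℝ, ∀ n : ℕ, ∑ k ∈ Finset.range n, A.ent k ≤ C := by
  obtain ⟨η, h1, h2, N₀, h3⟩ := A.ent_rec hZ
  exact sum_bdd_of_rec A.ent_nonneg h1 (by omega) h2 h3

/-- The entropy of the density. -/
noncomputable def HF (n : ℕ) : ℝ := S (A.q ^ n) (fun x => A.F n x * Real.log (A.F n x))

lemma ent_eq (k : ℕ) : A.ent k = A.HF (k + 1) / (A.q : ℝ) ^ (k + 1) - A.HF k / (A.q : ℝ) ^ k := by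
  have hq := A.q_posR
  have h := DD_tele (N := A.q ^ k) (r := A.q) A.q_pos hq (f := A.F (k + 1)) (g := A.F k)
    (A.F_nonneg _) (A.F_per _) (fun x => A.S_F_succ x k)
  unfold ent
  rw [h, div_self hq.ne', Real.log_one, mul_zero, zero_add, ← pow_succ]
  unfold HF
  field_simp
  ring

lemma sum_ent (n : ℕ) : ∑ k ∈ Finset.range n, A.ent k = A.HF n / (A.q : ℝ) ^ n := by
  have h1 : ∀ k ∈ Finset.range n, A.ent k =
      (fun k => A.HF k / (A.q : ℝ) ^ k) (k + 1) - (fun k => A.HF k / (A.q : ℝ) ^ k) k := fun k _ => A.ent_eq k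
  rw [Finset.sum_congr rfl h1, Finset.sum_range_sub (fun k => A.HF k / (A.q : ℝ) ^ k)]
  have h2 : A.HF 0 = 0 := by
    unfold HF
    simp [F_zero, S]
  simp [h2]

/-- (A7) -/
theorem nondeg (hZ : 256 * (A.l : ℝ) * (4 * A.l + 3) * (-Real.log A.Z) < 1) :
    ∃ c₀ : ℝ, 0 < c₀ ∧ ∃ c₁ : ℝ, 0 < c₁ ∧ ∀ n : ℕ, c₁ * (A.q : ℝ) ^ n ≤
      (((Finset.range (A.q ^ n)).filter (fun y : ℕ => c₀ ≤ A.F n y)).card : ℝ) := by
  obtain ⟨C, hC⟩ := A.ent_bdd hZ
  have hq := A.q_posR
  have hC0 : 0 ≤ C := by simpa using hC 0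
  set M : ℝ := Real.exp (4 * (C + 1)) with hM
  have hM0 : 0 < M := Real.exp_pos _
  have hlogM : Real.log M = 4 * (C + 1) := by rw [hM, Real.log_exp]
  have hM1 : 1 ≤ M := by
    rw [hM]; exact Real.one_le_exp (by linarith)
  refine ⟨1 / 4, by norm_num, 1 / (2 * M), by positivity, fun n => ?_⟩
  have hH : A.HF n ≤ C * (A.q : ℝ) ^ n := by
    have := hC n
    rw [sum_ent, div_le_iff₀ (by positivity)] at this
    exact this
  have hxlog : ∀ x : ℝ, 0 < x → -1 ≤ x * Real.log x := by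
    intro x hx
    have h1 := Real.log_le_sub_one_of_pos (x := 1 / x) (by positivity)
    rw [Real.log_div one_ne_zero hx.ne', Real.log_one] at h1
    have h2 : x * (0 - Real.log x) ≤ x * (1 / x - 1) := by gcongr
    have h3 : x * (1 / x - 1) = 1 - x := by field_simp
    rw [h3] at h2
    nlinarith
  have hpt : ∀ y : ℤ, A.F n y ≤ (1 / 4 + 1 / (4 * (C + 1))) +
      (1 / (4 * (C + 1)) * (A.F n y * Real.log (A.F n y)) + M * (if 1 / 4 ≤ A.F n y then 1 else 0)) := by
    intro y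
    have hF := A.F_pos n y
    set x := A.F n y
    have h1 := hxlog x hF
    have hc : 0 < 1 / (4 * (C + 1)) := by positivity
    have h2 : 0 ≤ 1 / (4 * (C + 1)) * (x * Real.log x) + 1 / (4 * (C + 1)) := by
      have : 1 / (4 * (C + 1)) * (-1) ≤ 1 / (4 * (C + 1)) * (x * Real.log x) := by gcongr
      linarith
    split_ifs with h3
    · by_cases h4 : x ≤ M
      · linarith
      · push Not at h4
        have h5 : Real.log M ≤ Real.log x := Real.log_le_log hM0 h4.le
        rw [hlogM] at h5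
        have h6 : x ≤ 1 / (4 * (C + 1)) * (x * Real.log x) := by
          calc x = 1 / (4 * (C + 1)) * (x * (4 * (C + 1))) := by field_simp
            _ ≤ _ := by gcongr
        linarith
    · push Not at h3
      linarith
  have hsum := S_mono (N := A.q ^ n) hpt
  rw [S_F, S_add _ (fun _ => 1 / 4 + 1 / (4 * (C + 1))) (fun y => 1 / (4 * (C + 1)) * (A.F n y * Real.log (A.F n y)) +
    M * (if 1 / 4 ≤ A.F n y then 1 else 0)), S_add _ (fun y => 1 / (4 * (C + 1)) * (A.F n y * Real.log (A.F n y)))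
    (fun y => M * (if 1 / 4 ≤ A.F n y then 1 else 0)), S_const, S_mul_left, S_mul_left] at hsum
  have hcard : S (A.q ^ n) (fun y => if 1 / 4 ≤ A.F n y then (1 : ℝ) else 0) =
      (((Finset.range (A.q ^ n)).filter (fun y : ℕ => 1 / 4 ≤ A.F n y)).card : ℝ) := by
    unfold S
    rw [← Finset.sum_filter, Finset.sum_const, nsmul_eq_mul, mul_one]
  rw [hcard] at hsum
  change _ ≤ _ + (1 / (4 * (C + 1)) * A.HF n + _) at hsum
  set X : ℝ := (((Finset.range (A.q ^ n)).filter (fun y : ℕ => 1 / 4 ≤ A.F n y)).card : ℝ)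
  set Q : ℝ := (A.q : ℝ) ^ n with hQ
  have hQ0 : 0 < Q := by positivity
  have h7 : 1 / (4 * (C + 1)) * A.HF n ≤ 1 / (4 * (C + 1)) * (C * Q) := by gcongr
  have h8 : ((A.q ^ n : ℕ) : ℝ) = Q := by rw [hQ]; push_cast; rfl
  rw [h8] at hsum
  have h9 : Q * (1 / 4 + 1 / (4 * (C + 1))) + 1 / (4 * (C + 1)) * (C * Q) = Q / 2 := by
    field_simp
    ring
  have h10 : Q / 2 ≤ M * X := by linarith
  rw [div_mul_eq_mul_div, one_mul, div_le_iff₀ (by positivity)]
  linarith

end Sys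

end CollatzOne
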