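import Pool.Agent.CollatzOne.Defs

set_option autoImplicit false

/-!
Entropy algebra: convexity, invariance and the product inequality for `DD`.
-/

namespace CollatzOne

/-! ### The log-sum inequality -/

lemma mul_log_ge {a b ρ : ℝ} (ha : 0 ≤ a) (hb : 0 ≤ b) (hab : b = 0 → a = 0) (hρ : 0 < ρ) :
    a * Real.log ρ + a - b * ρ ≤ a * Real.log (a / b) := by
  rcases eq_or_lt_of_le ha with rfl | ha'
  · simp only [zero_mul, zero_add]
    nlinarith
  · have hb' : 0 < b := by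
      rcases eq_or_lt_of_le hb with h | h
      · exact absurd (hab h.symm) ha'.ne'
      · exact h
    have h1 : a / b = ρ * (a / (b * ρ)) := by
      field_simp
    have h2 : 0 < a / (b * ρ) := by positivity
    rw [h1, Real.log_mul hρ.ne' h2.ne']
    have h3 := Real.one_sub_inv_le_log_of_pos h2
    have h4 : a * (1 - (a / (b * ρ))⁻¹) = a - b * ρ := by
      field_simp
    nlinarith [mul_le_mul_of_nonneg_left h3 ha]

lemma log_sum_le {κ : Type*} (s : Finset κ) (a b : κ → ℝ) (ha : ∀ i ∈ s, 0 ≤ a i)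
    (hb : ∀ i ∈ s, 0 ≤ b i) (hab : ∀ i ∈ s, b i = 0 → a i = 0) :
    (∑ i ∈ s, a i) * Real.log ((∑ i ∈ s, a i) / ∑ i ∈ s, b i) ≤
      ∑ i ∈ s, a i * Real.log (a i / b i) := by
  rcases eq_or_lt_of_le (Finset.sum_nonneg ha) with h | h
  · rw [← h, zero_mul]
    have h0 := (Finset.sum_eq_zero_iff_of_nonneg ha).1 h.symm
    refine (Finset.sum_eq_zero fun i hi => ?_).ge
    rw [h0 i hi, zero_mul]
  · have hB : 0 < ∑ i ∈ s, b i := by
      rcases eq_or_lt_of_le (Finset.sum_nonneg hb) with h' | h'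
      · exfalso
        have h0 := (Finset.sum_eq_zero_iff_of_nonneg hb).1 h'.symm
        exact h.ne' (Finset.sum_eq_zero fun i hi => hab i hi (h0 i hi))
      · exact h'
    set A := ∑ i ∈ s, a i with hA
    set B := ∑ i ∈ s, b i with hB'
    have hρ : 0 < A / B := by positivity
    have h1 : ∀ i ∈ s, a i * Real.log (A / B) + a i - b i * (A / B) ≤ a i * Real.log (a i / b i) :=
      fun i hi => mul_log_ge (ha i hi) (hb i hi) (hab i hi) hρ
    have h2 := Finset.sum_le_sum h1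
    rw [Finset.sum_sub_distrib, Finset.sum_add_distrib, ← Finset.sum_mul, ← Finset.sum_mul, ← hA,
      ← hB'] at h2
    have h3 : B * (A / B) = A := by field_simp
    linarith

/-- The value at a point is at most the sum over the fibre. -/
lemma le_S_fibre {N r : ℕ} (hr : 1 ≤ r) {f : ℤ → ℝ} (hf : ∀ x, 0 ≤ f x) (x : ℤ) :
    f x ≤ S r (fun h => f (x + N * h)) := by
  unfold S
  have h0 : (0 : ℕ) ∈ Finset.range r := Finset.mem_range.2 hr
  have := Finset.single_le_sum (f := fun h : ℕ => f (x + N * (h : ℤ))) (fun i _ => hf _) h0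
  simpa using this

/-! ### `dd` -/

/-- Entropy deficit on `Z / r`. -/
noncomputable def dd (r : ℕ) (p : ℤ → ℝ) : ℝ :=
  S r (fun h => p h * Real.log (r * p h / S r p))

lemma dd_congr {r : ℕ} {p p' : ℤ → ℝ} (h : ∀ x, p x = p' x) : dd r p = dd r p' := by
  have : p = p' := funext h
  rw [this]

lemma dd_zero_fun (r : ℕ) : dd r (fun _ => 0) = 0 := by
  unfold dd
  rw [S_const]
  simp [S]

lemma dd_sum_le {κ : Type*} {r : ℕ} (s : Finset κ) (f : κ → ℤ → ℝ)
    (hf : ∀ i ∈ s, ∀ x, 0 ≤ f i x) :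
    dd r (fun x => ∑ i ∈ s, f i x) ≤ ∑ i ∈ s, dd r (f i) := by
  unfold dd
  rw [← S_sum]
  unfold S
  refine Finset.sum_le_sum fun x hx => ?_
  have hr : 1 ≤ r := by
    have := Finset.mem_range.1 hx
    omega
  have hr0 : (0 : ℝ) < r := by exact_mod_cast hr
  have key := log_sum_le s (fun i => f i x) (fun i => (∑ y ∈ Finset.range r, f i y) / r)
    (fun i hi => hf i hi x)
    (fun i hi => div_nonneg (Finset.sum_nonneg fun y _ => hf i hi y) hr0.le)
    (fun i hi h => by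
      have h1 : ∑ y ∈ Finset.range r, f i y = 0 := by
        rcases div_eq_zero_iff.1 h with h | h
        · exact h
        · exact absurd h hr0.ne'
      exact (Finset.sum_eq_zero_iff_of_nonneg (f := fun y : ℕ => f i (y : ℤ))
        (fun y _ => hf i hi y)).1 h1 x hx)
  have e1 : ∀ A B : ℝ, (r : ℝ) * A / B = A / (B / r) := by
    intro A B
    rw [div_div_eq_mul_div, mul_comm]
  have e2 : ∑ y ∈ Finset.range r, ∑ i ∈ s, f i (y : ℤ) = ∑ i ∈ s, ∑ y ∈ Finset.range r, f i (y : ℤ) :=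
    Finset.sum_comm
  simp only [e1]
  rw [e2]
  rw [← Finset.sum_div] at key
  exact key

lemma dd_nonneg {r : ℕ} {p : ℤ → ℝ} (hp : ∀ x, 0 ≤ p x) : 0 ≤ dd r p := by
  unfold dd S
  rcases Nat.eq_zero_or_pos r with rfl | hr
  · simp
  have hr0 : (0 : ℝ) < r := by exact_mod_cast hr
  set P := ∑ x ∈ Finset.range r, p (x : ℤ) with hP
  have hP0 : 0 ≤ P := Finset.sum_nonneg fun x _ => hp x
  have key := log_sum_le (Finset.range r) (fun i => p i) (fun _ => P / r)
    (fun i _ => hp i) (fun i _ => div_nonneg hP0 hr0.le)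
    (fun i hi h => by
      have h1 : P = 0 := by
        rcases div_eq_zero_iff.1 h with h | h
        · exact h
        · exact absurd h hr0.ne'
      exact (Finset.sum_eq_zero_iff_of_nonneg (f := fun y : ℕ => p (y : ℤ))
        (fun y _ => hp y)).1 h1 i hi)
  have e1 : ∀ A B : ℝ, (r : ℝ) * A / B = A / (B / r) := by
    intro A B
    rw [div_div_eq_mul_div, mul_comm]
  simp only [e1]
  refine le_trans ?_ key
  rw [← hP, Finset.sum_const, Finset.card_range, nsmul_eq_mul, mul_div_cancel₀ _ hr0.ne']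
  rcases eq_or_lt_of_le hP0 with h | h
  · rw [← h]; simp
  · rw [div_self h.ne', Real.log_one, mul_zero]

lemma Per.fibre {N r : ℕ} {f : ℤ → ℝ} (h : Per (N * r) f) (x : ℤ) :
    Per r (fun k => f (x + N * k)) := fun k => by
  show f (x + N * (k + r)) = f (x + N * k)
  have := h (x + N * k)
  push_cast at this
  rw [show x + (N : ℤ) * (k + r) = x + N * k + N * r by ring, this]

/-- The sum over a fibre. -/
noncomputable def bar (N r : ℕ) (f : ℤ → ℝ) (x : ℤ) : ℝ := S r (fun h => f (x + N * h))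

lemma bar_nonneg {N r : ℕ} {f : ℤ → ℝ} (hf : ∀ x, 0 ≤ f x) (x : ℤ) : 0 ≤ bar N r f x :=
  S_nonneg fun _ => hf _

lemma bar_add {N r : ℕ} {f : ℤ → ℝ} (h : Per (N * r) f) (x k : ℤ) :
    bar N r f (x + N * k) = bar N r f x := by
  unfold bar
  have := S_shift (h.fibre x) k
  rw [← this]
  refine S_congr fun y => ?_
  congr 1
  ring

lemma bar_per {N r : ℕ} {f : ℤ → ℝ} (h : Per (N * r) f) : Per N (bar N r f) := fun x => by
  have := bar_add h x 1
  simpa using this

lemma S_bar (N r : ℕ) (f : ℤ → ℝ) : S N (bar N r f) = S (N * r) f := by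
  rw [S_mul]; rfl

lemma dd_shift {r : ℕ} {p : ℤ → ℝ} (h : Per r p) (k : ℤ) : dd r (fun x => p (x + k)) = dd r p := by
  unfold dd
  rw [S_shift h k]
  refine S_shift (f := fun x => p x * Real.log (r * p x / S r p)) ?_ k
  intro x
  simp only [h x]

/-- `dd` of the fibre through `x`. -/
noncomputable def df (N r : ℕ) (f : ℤ → ℝ) (x : ℤ) : ℝ := dd r (fun h => f (x + N * h))

lemma df_nonneg {N r : ℕ} {f : ℤ → ℝ} (hf : ∀ x, 0 ≤ f x) (x : ℤ) : 0 ≤ df N r f x :=
  dd_nonneg fun _ => hf _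

lemma df_per {N r : ℕ} {f : ℤ → ℝ} (h : Per (N * r) f) : Per N (df N r f) := fun x => by
  unfold df
  rw [← dd_shift (h.fibre x) 1]
  refine dd_congr fun y => ?_
  congr 1
  ring

lemma DD_eq {N r : ℕ} {f : ℤ → ℝ} (h : Per (N * r) f) : DD N r f = S N (df N r f) := by
  unfold DD
  rw [S_mul]
  refine S_congr fun a => ?_
  unfold df dd
  refine S_congr fun u => ?_
  have := bar_add h a u
  unfold bar at this
  rw [this]

/-! ### Main statements, first part -/

theorem DD_sum_le {κ : Type*} {N r : ℕ} (hr : 1 ≤ r) (s : Finset κ) (c : κ → ℝ) (hc : ∀ i ∈ s, 0 ≤ c i)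
    (f : κ → ℤ → ℝ) (hf : ∀ i ∈ s, ∀ x, 0 ≤ f i x) :
    DD N r (fun x => ∑ i ∈ s, c i * f i x) ≤ ∑ i ∈ s, c i * DD N r (f i) := by
  have hr0 : (0 : ℝ) < r := by exact_mod_cast hr
  have e1 : ∀ A B : ℝ, (r : ℝ) * A / B = A / (B / r) := by
    intro A B
    rw [div_div_eq_mul_div, mul_comm]
  unfold DD
  rw [show ∑ i ∈ s, c i * S (N * r) (fun x => f i x * Real.log (r * f i x / S r (fun h => f i (x + N * h)))) =
    S (N * r) (fun x => ∑ i ∈ s, c i * (f i x * Real.log (r * f i x / S r (fun h => f i (x + N * h))))) by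
    rw [S_sum]
    exact Finset.sum_congr rfl fun i _ => (S_mul_left _ _ _).symm]
  refine S_mono fun x => ?_
  have key := log_sum_le s (fun i => c i * f i x)
    (fun i => c i * (S r (fun h => f i (x + N * h)) / r))
    (fun i hi => mul_nonneg (hc i hi) (hf i hi x))
    (fun i hi => mul_nonneg (hc i hi) (div_nonneg (S_nonneg fun _ => hf i hi _) hr0.le))
    (fun i hi h => by
      rcases mul_eq_zero.1 h with h | h
      · rw [h, zero_mul]
      · have h1 : S r (fun h => f i (x + N * h)) = 0 := by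
          rcases div_eq_zero_iff.1 h with h | h
          · exact h
          · exact absurd h hr0.ne'
        have h2 := le_S_fibre (N := N) hr (hf i hi) x
        rw [h1] at h2
        rw [le_antisymm h2 (hf i hi x), mul_zero])
  simp only [e1]
  refine le_trans (le_of_eq ?_) (le_trans key (le_of_eq ?_))
  · congr 3
    rw [S_sum, Finset.sum_div]
    refine Finset.sum_congr rfl fun i _ => ?_
    rw [S_mul_left, mul_div_assoc]
  · refine Finset.sum_congr rfl fun i hi => ?_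
    rcases eq_or_ne (c i) 0 with h | h
    · rw [h]; ring
    · rw [mul_div_mul_left _ _ h]; ring

theorem DD_affine {N r : ℕ} {f : ℤ → ℝ} (h : Per (N * r) f) {α : ℤ}
    (hα : IsCoprime α ((N * r : ℕ) : ℤ)) (β : ℤ) :
    DD N r (fun x => f (α * x + β)) = DD N r f := by
  have hr : IsCoprime α (r : ℤ) := by
    rw [Nat.cast_mul] at hα
    exact hα.of_mul_right_right
  unfold DD
  have h1 : ∀ x : ℤ, S r (fun h => f (α * (x + N * h) + β)) = bar N r f (α * x + β) := by
    intro x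
    unfold bar
    rw [← S_affine (h.fibre (α * x + β)) hr 0]
    refine S_congr fun y => ?_
    congr 1
    ring
  have hG : Per (N * r) (fun x => f x * Real.log (r * f x / bar N r f x)) := by
    intro x
    have h2 := h x
    have h3 := (bar_per h).mul_right (M := r) x
    simp only [h2, h3]
  have h4 := S_affine hG hα β
  simp only [h1]
  exact h4

theorem DD_nonneg {N r : ℕ} (hr : 1 ≤ r) {f : ℤ → ℝ} (h : Per (N * r) f) (hf : ∀ x, 0 ≤ f x) :
    0 ≤ DD N r f := by
  have _ := hr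
  rw [DD_eq h]
  exact S_nonneg fun x => df_nonneg hf x

theorem DD_le {N r : ℕ} (hr : 1 ≤ r) {f : ℤ → ℝ} (h : Per (N * r) f) (hf : ∀ x, 0 ≤ f x) :
    DD N r f ≤ S (N * r) f * Real.log r := by
  have _ := h
  have hr0 : (0 : ℝ) < r := by exact_mod_cast hr
  unfold DD
  rw [← S_mul_right]
  refine S_mono fun x => ?_
  rcases eq_or_lt_of_le (hf x) with h0 | h0
  · rw [← h0]; simp
  · refine mul_le_mul_of_nonneg_left ?_ (hf x)
    have h1 := le_S_fibre (N := N) hr hf x
    have h2 : 0 < S r (fun h => f (x + N * h)) := lt_of_lt_of_le h0 h1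
    refine Real.log_le_log (by positivity) ?_
    rw [div_le_iff₀ h2]
    exact mul_le_mul_of_nonneg_left h1 hr0.le

/-! ### The product inequality -/

lemma corr_per {M : ℕ} (f : ℤ → ℝ) {g : ℤ → ℝ} (hg : Per M g) : Per M (corr M f g) := by
  intro u
  unfold corr
  refine S_congr fun x => ?_
  rw [← add_assoc, hg]

lemma corr_nonneg {M : ℕ} {f g : ℤ → ℝ} (hf : ∀ x, 0 ≤ f x) (hg : ∀ x, 0 ≤ g x) (u : ℤ) :
    0 ≤ corr M f g u := S_nonneg fun x => mul_nonneg (hf x) (hg _)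

lemma corr_fibre (N r : ℕ) (f g : ℤ → ℝ) (u k : ℤ) :
    corr (N * r) f g (u + N * k) =
      ∑ a ∈ Finset.range N, corr r (fun h => f ((a : ℤ) + N * h)) (fun h => g (((a : ℤ) + u) + N * h)) k := by
  unfold corr
  rw [S_mul]
  unfold S
  refine Finset.sum_congr rfl fun a _ => Finset.sum_congr rfl fun h _ => ?_
  show f ((a : ℤ) + N * h) * g ((a : ℤ) + N * h + (u + N * k)) =
    f ((a : ℤ) + N * h) * g ((a : ℤ) + u + N * (h + k))
  congr 2
  ring

/-- Averaging: a product inequality on fibres gives one for `DD`. -/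
lemma DD_corr_of_dd {N r : ℕ} {C : ℝ} (_hC : 0 ≤ C)
    (H : ∀ p z : ℤ → ℝ, Per r p → Per r z → (∀ x, 0 ≤ p x) → (∀ x, 0 ≤ z x) →
      dd r (corr r p z) ≤ C * dd r p * dd r z)
    {f g : ℤ → ℝ} (hf : Per (N * r) f) (hg : Per (N * r) g)
    (hf0 : ∀ x, 0 ≤ f x) (hg0 : ∀ x, 0 ≤ g x) :
    DD N r (corr (N * r) f g) ≤ C * DD N r f * DD N r g := by
  rw [DD_eq (corr_per f hg), DD_eq hf, DD_eq hg]
  have h1 : ∀ u : ℤ, df N r (corr (N * r) f g) u ≤
      S N (fun a => C * df N r f a * df N r g (a + u)) := by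
    intro u
    have e : df N r (corr (N * r) f g) u = dd r (fun k => ∑ a ∈ Finset.range N,
        corr r (fun h => f ((a : ℤ) + N * h)) (fun h => g (((a : ℤ) + u) + N * h)) k) :=
      dd_congr fun k => corr_fibre N r f g u k
    rw [e]
    refine (dd_sum_le _ _ fun i _ x => corr_nonneg (fun _ => hf0 _) (fun _ => hg0 _) x).trans ?_
    unfold S
    refine Finset.sum_le_sum fun a _ => ?_
    exact H _ _ (hf.fibre _) (hg.fibre _) (fun _ => hf0 _) (fun _ => hg0 _)
  refine (S_mono h1).trans (le_of_eq ?_)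
  rw [S_S_comm]
  have h2 : ∀ a : ℤ, S N (fun u => C * df N r f a * df N r g (a + u)) =
      C * df N r f a * S N (df N r g) := by
    intro a
    rw [S_mul_left]
    congr 1
    have := S_shift (df_per hg) a
    rw [← this]
    refine S_congr fun u => ?_
    rw [add_comm]
  rw [S_congr h2, S_mul_right, S_mul_left]

/-! ### `r = 3` -/

lemma phi_ge {x : ℝ} (h0 : 0 ≤ x) (h3 : x ≤ 3) : (x - 1) ^ 2 / 8 ≤ x * Real.log x - x + 1 := by
  have hs : Real.sqrt x * Real.sqrt x = x := Real.mul_self_sqrt h0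
  have hs0 : 0 ≤ Real.sqrt x := Real.sqrt_nonneg x
  set t := Real.sqrt x with ht
  have ht2 : t ≤ 7 / 4 := by
    rw [ht]
    rw [Real.sqrt_le_left (by norm_num)]
    linarith
  have h1 : (t - 1) ^ 2 ≤ x * Real.log x - x + 1 := by
    rcases eq_or_lt_of_le hs0 with h | h
    · have hx : x = 0 := by rw [← hs, ← h]; ring
      rw [← h, hx]; norm_num
    · have h2 : Real.log x = 2 * Real.log t := by
        rw [← hs, Real.log_mul h.ne' h.ne']; ring
      have h4 := Real.one_sub_inv_le_log_of_pos h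
      have h5 : t * t * (1 - t⁻¹) = t * t - t := by field_simp
      rw [h2, ← hs]
      nlinarith [mul_le_mul_of_nonneg_left h4 (mul_nonneg hs0 hs0)]
  refine le_trans ?_ h1
  rw [← hs]
  have h6 : (t * t - 1) ^ 2 = (t - 1) ^ 2 * (t + 1) ^ 2 := by ring
  rw [h6]
  have h7 : (t + 1) ^ 2 ≤ 8 := by nlinarith
  have h8 : 0 ≤ (t - 1) ^ 2 := sq_nonneg _
  nlinarith [mul_le_mul_of_nonneg_left h7 h8]

lemma phi_le {x : ℝ} (h0 : 0 ≤ x) : x * Real.log x - x + 1 ≤ (x - 1) ^ 2 := by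
  rcases eq_or_lt_of_le h0 with h | h
  · rw [← h]; norm_num
  · have h1 := Real.log_le_sub_one_of_pos h
    nlinarith [mul_le_mul_of_nonneg_left h1 h0]

lemma S_three (f : ℤ → ℝ) : S 3 f = f 0 + f 1 + f 2 := by
  simp [S, Finset.sum_range_succ]

/-- Cauchy-Schwarz in the form needed for `r = 3`. -/
lemma cs3 (a0 a1 a2 b0 b1 b2 : ℝ) :
    (a0 * b0 + a1 * b1 + a2 * b2) ^ 2 ≤ (a0 ^ 2 + a1 ^ 2 + a2 ^ 2) * (b0 ^ 2 + b1 ^ 2 + b2 ^ 2) := by
  nlinarith [sq_nonneg (a0 * b1 - a1 * b0), sq_nonneg (a0 * b2 - a2 * b0), sq_nonneg (a1 * b2 - a2 * b1)]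

/-- `dd 3` in normalised form. -/
lemma dd_three {p : ℤ → ℝ} (hP : S 3 p ≠ 0) :
    dd 3 p = S 3 p / 3 * S 3 (fun h => (3 * p h / S 3 p) * Real.log (3 * p h / S 3 p) - 3 * p h / S 3 p + 1) := by
  have h1 : S 3 (fun h => (3 * p h / S 3 p) * Real.log (3 * p h / S 3 p) - 3 * p h / S 3 p + 1) =
      3 / S 3 p * dd 3 p := by
    unfold dd
    rw [S_add, S_sub, S_const, ← S_mul_left]
    have h2 : S 3 (fun h => 3 * p h / S 3 p) = 3 := by
      have : S 3 (fun h => 3 * p h / S 3 p) = 3 / S 3 p * S 3 p := by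
        rw [← S_mul_left]
        refine S_congr fun x => ?_
        ring
      rw [this]
      field_simp
    rw [h2]
    have h3 : S 3 (fun h => 3 * p h / S 3 p * Real.log (3 * p h / S 3 p)) =
        S 3 (fun x => 3 / S 3 p * (p x * Real.log (((3 : ℕ) : ℝ) * p x / S 3 p))) := by
      refine S_congr fun x => ?_
      push_cast
      ring
    rw [h3]
    push_cast
    ring
  rw [h1]
  field_simp

lemma dd_three_ge {p : ℤ → ℝ} (hp : ∀ x, 0 ≤ p x) (hP : 0 < S 3 p) :
    S 3 p / 24 * S 3 (fun h => (3 * p h / S 3 p - 1) ^ 2) ≤ dd 3 p := by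
  rw [dd_three hP.ne']
  have h1 : S 3 (fun h => (3 * p h / S 3 p - 1) ^ 2 / 8) ≤
      S 3 (fun h => (3 * p h / S 3 p) * Real.log (3 * p h / S 3 p) - 3 * p h / S 3 p + 1) := by
    unfold S
    refine Finset.sum_le_sum fun x hx => ?_
    refine phi_ge (by have := hp x; unfold S at hP; positivity) ?_
    have h2 : p x ≤ ∑ x ∈ Finset.range 3, p (x : ℤ) :=
      Finset.single_le_sum (f := fun y : ℕ => p (y : ℤ)) (fun i _ => hp _) hx
    unfold S at hP
    rw [div_le_iff₀ hP]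
    linarith
  have h2 : S 3 (fun h => (3 * p h / S 3 p - 1) ^ 2 / 8) = S 3 (fun h => (3 * p h / S 3 p - 1) ^ 2) / 8 := by
    rw [div_eq_mul_inv, ← S_mul_right]
    rfl
  rw [h2] at h1
  have h3 := mul_le_mul_of_nonneg_left h1 (by positivity : 0 ≤ S 3 p / 3)
  refine le_trans (le_of_eq ?_) h3
  ring

lemma dd_three_le {p : ℤ → ℝ} (hp : ∀ x, 0 ≤ p x) (hP : 0 < S 3 p) :
    dd 3 p ≤ S 3 p / 3 * S 3 (fun h => (3 * p h / S 3 p - 1) ^ 2) := by
  rw [dd_three hP.ne']
  refine mul_le_mul_of_nonneg_left (S_mono fun x => ?_) (by positivity)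
  exact phi_le (by have := hp x; positivity)

lemma S_corr {M : ℕ} (f : ℤ → ℝ) {g : ℤ → ℝ} (hg : Per M g) : S M (corr M f g) = S M f * S M g := by
  unfold corr
  rw [S_S_comm, ← S_mul_right]
  refine S_congr fun x => ?_
  rw [S_mul_left]
  congr 1
  have := S_shift hg x
  rw [← this]
  refine S_congr fun u => ?_
  rw [add_comm]

lemma dd_three_corr {p z : ℤ → ℝ} (_hpp : Per 3 p) (hzz : Per 3 z) (hp : ∀ x, 0 ≤ p x)
    (hz : ∀ x, 0 ≤ z x) : dd 3 (corr 3 p z) ≤ 64 * dd 3 p * dd 3 z := by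
  have hP0 : 0 ≤ S 3 p := S_nonneg hp
  have hZ0 : 0 ≤ S 3 z := S_nonneg hz
  have hS := S_corr p hzz
  have hdp := dd_nonneg (r := 3) hp
  have hdz := dd_nonneg (r := 3) hz
  rcases eq_or_lt_of_le hP0 with h | hP
  · have hh : dd 3 (corr 3 p z) = 0 := by
      unfold dd
      rw [hS, ← h]
      simp [S]
    rw [hh]; positivity
  rcases eq_or_lt_of_le hZ0 with h | hZ
  · have hh : dd 3 (corr 3 p z) = 0 := by
      unfold dd
      rw [hS, ← h]
      simp [S]
    rw [hh]; positivity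
  have hPZ : 0 < S 3 (corr 3 p z) := by rw [hS]; positivity
  have h1 := dd_three_le (corr_nonneg (M := 3) hp hz) hPZ
  have h2 := dd_three_ge hp hP
  have h3 := dd_three_ge hz hZ
  -- the bilinear estimate
  have h4 : S 3 (fun h => (3 * corr 3 p z h / S 3 (corr 3 p z) - 1) ^ 2) ≤
      S 3 (fun h => (3 * p h / S 3 p - 1) ^ 2) * S 3 (fun h => (3 * z h / S 3 z - 1) ^ 2) / 3 := by
    rw [hS]
    have ez3 : z 3 = z 0 := by have := hzz 0; simpa using this
    have ez4 : z 4 = z 1 := by have := hzz 1; norm_num at this; exact this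
    have hPs := S_three p
    have hZs := S_three z
    have key : ∀ k : ℤ, 3 * corr 3 p z k / (S 3 p * S 3 z) =
        (3 * p 0 / S 3 p * (3 * z (0 + k) / S 3 z) + 3 * p 1 / S 3 p * (3 * z (1 + k) / S 3 z) +
          3 * p 2 / S 3 p * (3 * z (2 + k) / S 3 z)) / 3 := by
      intro k
      unfold corr
      rw [S_three]
      field_simp
    rw [S_three (fun h => (3 * corr 3 p z h / (S 3 p * S 3 z) - 1) ^ 2),
      S_three (fun h => (3 * p h / S 3 p - 1) ^ 2), S_three (fun h => (3 * z h / S 3 z - 1) ^ 2)]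
    simp only [key]
    norm_num only [zero_add, add_zero, Int.reduceAdd]
    rw [ez3, ez4]
    have hx : 3 * p 0 / S 3 p + 3 * p 1 / S 3 p + 3 * p 2 / S 3 p = 3 := by
      rw [← add_div, ← add_div, div_eq_iff hP.ne', hPs]; ring
    have hy : 3 * z 0 / S 3 z + 3 * z 1 / S 3 z + 3 * z 2 / S 3 z = 3 := by
      rw [← add_div, ← add_div, div_eq_iff hZ.ne', hZs]; ring
    generalize 3 * p 0 / S 3 p = x0 at *
    generalize 3 * p 1 / S 3 p = x1 at *
    generalize 3 * p 2 / S 3 p = x2 at *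
    generalize 3 * z 0 / S 3 z = y0 at *
    generalize 3 * z 1 / S 3 z = y1 at *
    generalize 3 * z 2 / S 3 z = y2 at *
    have c0 := cs3 (x0 - 1) (x1 - 1) (x2 - 1) (y0 - 1) (y1 - 1) (y2 - 1)
    have c1 := cs3 (x0 - 1) (x1 - 1) (x2 - 1) (y1 - 1) (y2 - 1) (y0 - 1)
    have c2 := cs3 (x0 - 1) (x1 - 1) (x2 - 1) (y2 - 1) (y0 - 1) (y1 - 1)
    have i0 : (x0 * y0 + x1 * y1 + x2 * y2) / 3 - 1 =
        ((x0 - 1) * (y0 - 1) + (x1 - 1) * (y1 - 1) + (x2 - 1) * (y2 - 1)) / 3 := by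
      linear_combination (1 / 3 : ℝ) * hx + (1 / 3 : ℝ) * hy
    have i1 : (x0 * y1 + x1 * y2 + x2 * y0) / 3 - 1 =
        ((x0 - 1) * (y1 - 1) + (x1 - 1) * (y2 - 1) + (x2 - 1) * (y0 - 1)) / 3 := by
      linear_combination (1 / 3 : ℝ) * hx + (1 / 3 : ℝ) * hy
    have i2 : (x0 * y2 + x1 * y0 + x2 * y1) / 3 - 1 =
        ((x0 - 1) * (y2 - 1) + (x1 - 1) * (y0 - 1) + (x2 - 1) * (y1 - 1)) / 3 := by
      linear_combination (1 / 3 : ℝ) * hx + (1 / 3 : ℝ) * hy
    rw [i0, i1, i2]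
    linarith
  have h5 : 0 ≤ S 3 (fun h => (3 * p h / S 3 p - 1) ^ 2) := S_nonneg fun _ => sq_nonneg _
  have h6 : 0 ≤ S 3 (fun h => (3 * z h / S 3 z - 1) ^ 2) := S_nonneg fun _ => sq_nonneg _
  set X := S 3 (fun h => (3 * p h / S 3 p - 1) ^ 2)
  set Y := S 3 (fun h => (3 * z h / S 3 z - 1) ^ 2)
  rw [hS] at h1
  calc dd 3 (corr 3 p z) ≤ S 3 p * S 3 z / 3 * (X * Y / 3) := by
        refine h1.trans (mul_le_mul_of_nonneg_left ?_ (by positivity))
        rw [← hS]; exact h4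
    _ = 64 * ((S 3 p / 24 * X) * (S 3 z / 24 * Y)) := by ring
    _ ≤ 64 * (dd 3 p * dd 3 z) := by
        refine mul_le_mul_of_nonneg_left (mul_le_mul h2 h3 (by positivity) hdp) (by norm_num)
    _ = 64 * dd 3 p * dd 3 z := by ring

/-! ### Chain rule -/

/-- Chain rule for `dd`. -/
lemma dd_chain {N r : ℕ} (hN : 1 ≤ N) (hr : 1 ≤ r) {p : ℤ → ℝ} (h : Per (N * r) p) (hp : ∀ x, 0 ≤ p x) :
    dd (N * r) p = dd N (bar N r p) + DD N r p := by
  have hN0 : (0 : ℝ) < N := by exact_mod_cast hN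
  have hr0 : (0 : ℝ) < r := by exact_mod_cast hr
  have h1 : dd N (bar N r p) =
      S (N * r) (fun x => p x * Real.log (N * bar N r p x / S (N * r) p)) := by
    unfold dd
    rw [S_mul N r (fun x => p x * Real.log (N * bar N r p x / S (N * r) p)), S_bar]
    refine S_congr fun a => ?_
    rw [show (fun u => p (a + N * u) * Real.log (N * bar N r p (a + N * u) / S (N * r) p)) =
      (fun u => p (a + N * u) * Real.log (N * bar N r p a / S (N * r) p)) from
      funext fun u => by rw [bar_add h a u], S_mul_right]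
    rfl
  rw [h1]
  unfold dd DD
  rw [← S_add]
  unfold S
  refine Finset.sum_congr rfl fun x hx => ?_
  have h2 := le_S_fibre (N := N) hr hp x
  have h3 : p x ≤ ∑ x ∈ Finset.range (N * r), p (x : ℤ) :=
    Finset.single_le_sum (f := fun y : ℕ => p (y : ℤ)) (fun i _ => hp _) hx
  dsimp only
  rcases eq_or_lt_of_le (hp x) with h4 | h4
  · rw [← h4]; ring
  · have h5 : 0 < bar N r p x := lt_of_lt_of_le h4 h2
    have h6 : 0 < ∑ x ∈ Finset.range (N * r), p (x : ℤ) := lt_of_lt_of_le h4 h3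
    have h7 : (∑ h ∈ Finset.range r, p ((x : ℤ) + N * h)) = bar N r p x := rfl
    simp only [h7]
    rw [← mul_add, ← Real.log_mul (by positivity) (by positivity)]
    congr 2
    push_cast
    field_simp

lemma bar_corr {N r : ℕ} (p : ℤ → ℝ) {z : ℤ → ℝ} (hz : Per (N * r) z) (u : ℤ) :
    bar N r (corr (N * r) p z) u = corr N (bar N r p) (bar N r z) u := by
  unfold bar
  rw [S_congr (fun k => corr_fibre N r p z u k)]
  rw [S_sum]
  unfold corr
  show _ = ∑ a ∈ Finset.range N, _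
  refine Finset.sum_congr rfl fun a _ => ?_
  rw [S_S_comm]
  dsimp only
  rw [← S_mul_right]
  refine S_congr fun h => ?_
  rw [S_mul_left]
  congr 1
  have := S_shift (hz.fibre ((a : ℤ) + u)) h
  rw [← this]
  refine S_congr fun x => ?_
  rw [add_comm h x]

lemma dd_pow_corr (b : ℕ) : ∀ p z : ℤ → ℝ, Per (3 ^ b) p → Per (3 ^ b) z → (∀ x, 0 ≤ p x) →
    (∀ x, 0 ≤ z x) → dd (3 ^ b) (corr (3 ^ b) p z) ≤ 64 * dd (3 ^ b) p * dd (3 ^ b) z := by
  induction b with
  | zero =>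
    intro p z _ _ hp hz
    have h1 : dd (3 ^ 0) (corr (3 ^ 0) p z) = 0 := by
      unfold dd S
      simp only [pow_zero, Finset.range_one, Finset.sum_singleton, Nat.cast_one, one_mul]
      rcases eq_or_ne (corr 1 p z ((0 : ℕ) : ℤ)) 0 with h | h
      · rw [h, zero_mul]
      · rw [div_self h, Real.log_one, mul_zero]
    rw [h1]
    have := dd_nonneg (r := 3 ^ 0) hp
    have := dd_nonneg (r := 3 ^ 0) hz
    positivity
  | succ b ih =>
    intro p z hpp hzz hp hz
    rw [pow_succ] at *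
    have hN : 1 ≤ 3 ^ b := Nat.one_le_pow _ _ (by norm_num)
    rw [dd_chain hN (by norm_num) (corr_per p hzz) (corr_nonneg hp hz),
      dd_chain hN (by norm_num) hpp hp, dd_chain hN (by norm_num) hzz hz]
    rw [dd_congr (bar_corr p hzz)]
    have h1 := ih (bar (3 ^ b) 3 p) (bar (3 ^ b) 3 z) (bar_per hpp) (bar_per hzz) (bar_nonneg hp)
      (bar_nonneg hz)
    have h2 := DD_corr_of_dd (N := 3 ^ b) (r := 3) (C := 64) (by norm_num)
      (fun p z a b c d => dd_three_corr a b c d) hpp hzz hp hz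
    have h3 := dd_nonneg (r := 3 ^ b) (bar_nonneg (N := 3 ^ b) (r := 3) hp)
    have h4 := dd_nonneg (r := 3 ^ b) (bar_nonneg (N := 3 ^ b) (r := 3) hz)
    have h5 := DD_nonneg (by norm_num) hpp hp
    have h6 := DD_nonneg (by norm_num) hzz hz
    nlinarith [mul_nonneg h3 h6, mul_nonneg h5 h4]

theorem DD_corr (a b : ℕ) {f g : ℤ → ℝ} (hf : Per (3 ^ a * 3 ^ b) f) (hg : Per (3 ^ a * 3 ^ b) g)
    (hf0 : ∀ x, 0 ≤ f x) (hg0 : ∀ x, 0 ≤ g x) :
    DD (3 ^ a) (3 ^ b) (corr (3 ^ a * 3 ^ b) f g) ≤ 64 * DD (3 ^ a) (3 ^ b) f * DD (3 ^ a) (3 ^ b) g :=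
  DD_corr_of_dd (by norm_num) (dd_pow_corr b) hf hg hf0 hg0

end CollatzOne
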