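import Pool.Agent.CollatzOne.Defs

set_option autoImplicit false

/-!
Negative moments of the iterates: Jensen's inequality and submultiplicativity.
-/

namespace CollatzOne

lemma jensen_neg {ι : Type*} (s : Finset ι) (p x : ι → ℝ) {σ : ℝ} (hσ : 0 ≤ σ)
    (hp : ∀ i ∈ s, 0 ≤ p i) (hp1 : ∑ i ∈ s, p i = 1) (hx : ∀ i ∈ s, 0 < x i) :
    (∑ i ∈ s, p i * x i) ^ (-σ) ≤ ∑ i ∈ s, p i * (x i) ^ (-σ) := by
  have h1 := Real.geom_mean_le_arith_mean_weighted s p x hp hp1 (fun i hi => (hx i hi).le)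
  have h2 := Real.geom_mean_le_arith_mean_weighted s p (fun i => (x i) ^ (-σ)) hp hp1
    (fun i hi => Real.rpow_nonneg (hx i hi).le _)
  have h3 : 0 < ∏ i ∈ s, x i ^ p i := Finset.prod_pos fun i hi => Real.rpow_pos_of_pos (hx i hi) _
  have h4 : (∑ i ∈ s, p i * x i) ^ (-σ) ≤ (∏ i ∈ s, x i ^ p i) ^ (-σ) :=
    Real.rpow_le_rpow_of_nonpos h3 h1 (by linarith)
  refine h4.trans (le_trans (le_of_eq ?_) h2)
  rw [← Real.finsetProd_rpow _ _ (fun i hi => Real.rpow_nonneg (hx i hi).le _)]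
  refine Finset.prod_congr rfl fun i hi => ?_
  rw [← Real.rpow_mul (hx i hi).le, ← Real.rpow_mul (hx i hi).le, mul_comm]

namespace Sys
variable (A : Sys)

/-- `T ^ n 1`. -/
noncomputable def P (γ : ℝ) (n : ℕ) (y : ℤ) : ℝ := (A.T γ)^[n] (fun _ => 1) y

lemma P_zero (γ : ℝ) (y : ℤ) : A.P γ 0 y = 1 := rfl

lemma T_pos {γ : ℝ} {φ : ℤ → ℝ} (h : ∀ y, 0 < φ y) (y : ℤ) : 0 < A.T γ φ y := by
  obtain ⟨w, w', -, hw, -⟩ := A.deg y
  have hq := A.q_posR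
  unfold T
  have hv : A.valid w y := by
    unfold valid q; push_cast; exact hw
  have h1 : (if A.valid w y then ((A.q : ℝ) / 2 ^ A.J w) ^ γ * φ (A.child w y) else 0) ≤
      ∑ w, if A.valid w y then ((A.q : ℝ) / 2 ^ A.J w) ^ γ * φ (A.child w y) else 0 := by
    refine Finset.single_le_sum (f := fun w => if A.valid w y then ((A.q : ℝ) / 2 ^ A.J w) ^ γ * φ (A.child w y) else 0)
      (fun i _ => ?_) (Finset.mem_univ w)
    split_ifs
    · exact mul_nonneg (by positivity) (h _).le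
    · exact le_rfl
  rw [if_pos hv] at h1
  refine lt_of_lt_of_le (mul_pos (by positivity) (h _)) h1

lemma iter_pos {γ : ℝ} (n : ℕ) {φ : ℤ → ℝ} (h : ∀ y, 0 < φ y) (y : ℤ) : 0 < (A.T γ)^[n] φ y := by
  induction n generalizing φ with
  | zero => exact h y
  | succ n ih =>
    rw [Function.iterate_succ_apply]
    exact ih fun y => A.T_pos h y

lemma P_pos (γ : ℝ) (n : ℕ) (y : ℤ) : 0 < A.P γ n y := A.iter_pos n (fun _ => one_pos) y

lemma P_per (γ : ℝ) (n : ℕ) : Per (A.q ^ n) (A.P γ n) := A.iter_one_per γ n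

lemma P_add (γ : ℝ) (k m : ℕ) (y U : ℤ) : A.P γ (k + m) (y + (A.q : ℤ) ^ k * U) =
    ∑ p ∈ A.nodes y k, A.wt γ k p.1 * A.P γ m (p.2 + 2 ^ p.1 * U) := by
  unfold P
  rw [Function.iterate_add_apply, iter_eq]

lemma P_eq_sum (γ : ℝ) (k : ℕ) (y : ℤ) : A.P γ k y = ∑ p ∈ A.nodes y k, A.wt γ k p.1 := by
  unfold P
  rw [iter_eq']
  simp

lemma sum_prob (γ : ℝ) (k : ℕ) (y : ℤ) : ∑ p ∈ A.nodes y k, A.wt γ k p.1 / A.P γ k y = 1 := by
  rw [← Finset.sum_div, ← P_eq_sum, div_self (A.P_pos γ k y).ne']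

/-- Jensen's inequality for the negative powers of the iterates. -/
lemma P_neg_le (γ : ℝ) {σ : ℝ} (hσ : 0 ≤ σ) (k m : ℕ) (y U : ℤ) :
    (A.P γ (k + m) (y + (A.q : ℤ) ^ k * U)) ^ (-σ) ≤ (A.P γ k y) ^ (-σ) *
      ∑ p ∈ A.nodes y k, A.wt γ k p.1 / A.P γ k y * (A.P γ m (p.2 + 2 ^ p.1 * U)) ^ (-σ) := by
  have hP := A.P_pos γ k y
  have h1 : A.P γ (k + m) (y + (A.q : ℤ) ^ k * U) = A.P γ k y *
      ∑ p ∈ A.nodes y k, A.wt γ k p.1 / A.P γ k y * A.P γ m (p.2 + 2 ^ p.1 * U) := by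
    rw [P_add, Finset.mul_sum]
    refine Finset.sum_congr rfl fun p _ => ?_
    field_simp
  rw [h1, Real.mul_rpow hP.le (Finset.sum_nonneg fun p _ =>
    mul_nonneg (div_nonneg (A.wt_pos _ _ _).le hP.le) (A.P_pos _ _ _).le)]
  refine mul_le_mul_of_nonneg_left ?_ (Real.rpow_nonneg hP.le _)
  exact jensen_neg _ _ _ hσ (fun p _ => div_nonneg (A.wt_pos _ _ _).le hP.le)
    (A.sum_prob γ k y) (fun p _ => A.P_pos _ _ _)

lemma neg_per (γ σ : ℝ) (n : ℕ) : Per (A.q ^ n) (fun y => (A.P γ n y) ^ (-σ)) := fun y => by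
  show (A.P γ n (y + _)) ^ (-σ) = _
  rw [A.P_per γ n]

lemma AA_eq (γ s : ℝ) (m : ℕ) : A.AA γ s m = S (A.q ^ m) (fun y => (A.P γ m y) ^ (-s)) := rfl

lemma AA_pos (γ s : ℝ) (m : ℕ) : 0 < A.AA γ s m := by
  rw [AA_eq]
  unfold S
  refine Finset.sum_pos (fun x _ => Real.rpow_pos_of_pos (A.P_pos _ _ _) _) ⟨0, ?_⟩
  rw [Finset.mem_range]
  exact pow_pos A.q_pos _

lemma AA_zero (γ s : ℝ) : A.AA γ s 0 = 1 := by
  rw [AA_eq]
  simp [S, P_zero]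

/-- `A_{k+m} ≤ A_k A_m`. -/
lemma AA_submul (γ : ℝ) {s : ℝ} (hs : 0 ≤ s) (k m : ℕ) :
    A.AA γ s (k + m) ≤ A.AA γ s k * A.AA γ s m := by
  rw [AA_eq, AA_eq, AA_eq, pow_add, S_mul, ← S_mul_right]
  refine S_mono fun y => ?_
  have h1 : ∀ U : ℤ, (A.P γ (k + m) (y + ((A.q ^ k : ℕ) : ℤ) * U)) ^ (-s) ≤ (A.P γ k y) ^ (-s) *
      ∑ p ∈ A.nodes y k, A.wt γ k p.1 / A.P γ k y * (A.P γ m (2 ^ p.1 * U + p.2)) ^ (-s) := by
    intro U
    have := A.P_neg_le γ hs k m y U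
    push_cast
    refine this.trans (le_of_eq ?_)
    congr 1
    refine Finset.sum_congr rfl fun p _ => ?_
    rw [add_comm]
  refine (S_mono h1).trans (le_of_eq ?_)
  rw [S_mul_left, S_sum]
  congr 1
  have h2 : ∀ p ∈ A.nodes y k, S (A.q ^ m) (fun U => A.wt γ k p.1 / A.P γ k y * (A.P γ m (2 ^ p.1 * U + p.2)) ^ (-s))
      = A.wt γ k p.1 / A.P γ k y * S (A.q ^ m) (fun y => (A.P γ m y) ^ (-s)) := by
    intro p _
    rw [S_mul_left, S_affine (A.neg_per γ s m) (A.coprime_two_pow _ _)]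
  rw [Finset.sum_congr rfl h2, ← Finset.sum_mul, sum_prob, one_mul]

end Sys

end CollatzOne
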