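import Pool.Agent.CollatzOne.Av
import Pool.Agent.CollatzOne.FlatA

set_option autoImplicit false

/-!
The bilinear chunk bound.
-/

namespace CollatzOne

/-- Cauchy-Schwarz for `S`. -/
lemma S_mul_sq_le (N : ℕ) (f g : ℤ → ℝ) :
    (S N (fun x => f x * g x)) ^ 2 ≤ S N (fun x => f x ^ 2) * S N (fun x => g x ^ 2) :=
  Finset.sum_mul_sq_le_sq_mul_sq _ _ _

namespace Sys
variable (A : Sys)

/-- `g_m = (T ^ m 1) ^ (-σ)`. -/
noncomputable def g (γ σ : ℝ) (m : ℕ) (y : ℤ) : ℝ := (A.P γ m y) ^ (-σ)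

lemma g_nonneg (γ σ : ℝ) (m : ℕ) (y : ℤ) : 0 ≤ A.g γ σ m y := Real.rpow_nonneg (A.P_pos _ _ _).le _

lemma g_pos (γ σ : ℝ) (m : ℕ) (y : ℤ) : 0 < A.g γ σ m y := Real.rpow_pos_of_pos (A.P_pos _ _ _) _

lemma g_per (γ σ : ℝ) (m : ℕ) : Per (A.q ^ m) (A.g γ σ m) := A.neg_per γ σ m

lemma g_sq (γ σ : ℝ) (m : ℕ) (y : ℤ) : (A.g γ σ m y) ^ 2 = (A.P γ m y) ^ (-(2 * σ)) := by
  unfold g
  rw [← Real.rpow_natCast, ← Real.rpow_mul (A.P_pos _ _ _).le]
  congr 1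
  push_cast
  ring

lemma S_g (γ σ : ℝ) (m : ℕ) : S (A.q ^ m) (A.g γ σ m) = A.AA γ σ m := rfl

lemma S_g_sq (γ σ : ℝ) (m : ℕ) : S (A.q ^ m) (fun y => (A.g γ σ m y) ^ 2) = A.AA γ (2 * σ) m := by
  rw [AA_eq]
  exact S_congr fun y => A.g_sq γ σ m y

/-- Cauchy-Schwarz bound of the bilinear form. -/
lemma bil_cs (γ σ : ℝ) (k : ℕ) {α α' : ℤ} (hα : IsCoprime α ((A.q ^ k : ℕ) : ℤ))
    (hα' : IsCoprime α' ((A.q ^ k : ℕ) : ℤ)) (a a' : ℤ) :
    S (A.q ^ k) (fun x => A.g γ σ k (a + α * x) * A.g γ σ k (a' + α' * x)) ≤ A.AA γ (2 * σ) k := by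
  have h1 := S_mul_sq_le (A.q ^ k) (fun x => A.g γ σ k (a + α * x)) (fun x => A.g γ σ k (a' + α' * x))
  have key : ∀ {α : ℤ}, IsCoprime α ((A.q ^ k : ℕ) : ℤ) → ∀ a : ℤ,
      S (A.q ^ k) (fun x => (A.g γ σ k (a + α * x)) ^ 2) = A.AA γ (2 * σ) k := by
    intro α hα a
    rw [← S_g_sq]
    have h2 : Per (A.q ^ k) (fun y => (A.g γ σ k y) ^ 2) := fun y => by
      show (A.g γ σ k (y + _)) ^ 2 = _
      rw [A.g_per γ σ k]
    rw [← S_affine h2 hα a]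
    refine S_congr fun x => ?_
    rw [add_comm]
  rw [key hα, key hα'] at h1
  have h0 : 0 ≤ S (A.q ^ k) (fun x => A.g γ σ k (a + α * x) * A.g γ σ k (a' + α' * x)) :=
    S_nonneg fun x => mul_nonneg (A.g_nonneg _ _ _ _) (A.g_nonneg _ _ _ _)
  have h3 := (A.AA_pos γ (2 * σ) k).le
  nlinarith

/-- The bilinear form. -/
noncomputable def bil (γ σ : ℝ) (m : ℕ) (a a' α α' t : ℤ) : ℝ :=
  S (A.q ^ m) (fun u => A.g γ σ m (a + α * u) * A.g γ σ m (a' + α' * (u + t)))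

lemma bil_nonneg (γ σ : ℝ) (m : ℕ) (a a' α α' t : ℤ) : 0 ≤ A.bil γ σ m a a' α α' t :=
  S_nonneg fun _ => mul_nonneg (A.g_nonneg _ _ _ _) (A.g_nonneg _ _ _ _)

/-- Splitting off the lowest `k` digits in the bilinear form. -/
lemma bil_split (γ : ℝ) {σ : ℝ} (hσ : 0 ≤ σ) (k m : ℕ) (a a' α α' z t : ℤ) :
    A.bil γ σ (k + m) a a' α α' (z + (A.q : ℤ) ^ k * t) ≤
      S (A.q ^ k) (fun x => A.g γ σ k (a + α * x) * A.g γ σ k (a' + α' * (x + z)) *
        ∑ p ∈ A.nodes (a + α * x) k, ∑ p' ∈ A.nodes (a' + α' * (x + z)) k,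
          (A.wt γ k p.1 / A.P γ k (a + α * x)) * (A.wt γ k p'.1 / A.P γ k (a' + α' * (x + z))) *
          A.bil γ σ m p.2 p'.2 (2 ^ p.1 * α) (2 ^ p'.1 * α') t) := by
  unfold bil
  rw [pow_add, S_mul]
  refine S_mono fun x => ?_
  have h1 : ∀ w : ℤ, A.g γ σ (k + m) (a + α * (x + ((A.q ^ k : ℕ) : ℤ) * w)) ≤ A.g γ σ k (a + α * x) *
      ∑ p ∈ A.nodes (a + α * x) k, A.wt γ k p.1 / A.P γ k (a + α * x) *
        A.g γ σ m (p.2 + 2 ^ p.1 * α * w) := by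
    intro w
    have := A.P_neg_le γ hσ k m (a + α * x) (α * w)
    unfold g
    push_cast
    rw [show a + α * (x + (A.q : ℤ) ^ k * w) = a + α * x + (A.q : ℤ) ^ k * (α * w) by ring]
    refine this.trans (le_of_eq ?_)
    congr 1
    refine Finset.sum_congr rfl fun p _ => ?_
    rw [mul_assoc]
  have h2 : ∀ w : ℤ, A.g γ σ (k + m) (a' + α' * (x + ((A.q ^ k : ℕ) : ℤ) * w + (z + (A.q : ℤ) ^ k * t))) ≤
      A.g γ σ k (a' + α' * (x + z)) *
      ∑ p' ∈ A.nodes (a' + α' * (x + z)) k, A.wt γ k p'.1 / A.P γ k (a' + α' * (x + z)) *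
        A.g γ σ m (p'.2 + 2 ^ p'.1 * α' * (w + t)) := by
    intro w
    have := A.P_neg_le γ hσ k m (a' + α' * (x + z)) (α' * (w + t))
    unfold g
    push_cast
    rw [show a' + α' * (x + (A.q : ℤ) ^ k * w + (z + (A.q : ℤ) ^ k * t)) =
      a' + α' * (x + z) + (A.q : ℤ) ^ k * (α' * (w + t)) by ring]
    refine this.trans (le_of_eq ?_)
    congr 1
    refine Finset.sum_congr rfl fun p _ => ?_
    rw [mul_assoc]
  have h3 : ∀ w : ℤ, A.g γ σ (k + m) (a + α * (x + ((A.q ^ k : ℕ) : ℤ) * w)) *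
      A.g γ σ (k + m) (a' + α' * (x + ((A.q ^ k : ℕ) : ℤ) * w + (z + (A.q : ℤ) ^ k * t))) ≤
      A.g γ σ k (a + α * x) * A.g γ σ k (a' + α' * (x + z)) *
        ∑ p ∈ A.nodes (a + α * x) k, ∑ p' ∈ A.nodes (a' + α' * (x + z)) k,
          (A.wt γ k p.1 / A.P γ k (a + α * x)) * (A.wt γ k p'.1 / A.P γ k (a' + α' * (x + z))) *
          (A.g γ σ m (p.2 + 2 ^ p.1 * α * w) * A.g γ σ m (p'.2 + 2 ^ p'.1 * α' * (w + t))) := by
    intro w
    refine (mul_le_mul (h1 w) (h2 w) (A.g_nonneg _ _ _ _) (mul_nonneg (A.g_nonneg _ _ _ _)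
      (Finset.sum_nonneg fun p _ => mul_nonneg (div_nonneg (A.wt_pos _ _ _).le (A.P_pos _ _ _).le)
        (A.g_nonneg _ _ _ _)))).trans (le_of_eq ?_)
    rw [mul_mul_mul_comm, Finset.sum_mul_sum]
    congr 1
    refine Finset.sum_congr rfl fun p _ => Finset.sum_congr rfl fun p' _ => ?_
    ring
  refine (S_mono h3).trans (le_of_eq ?_)
  rw [S_mul_left, S_sum]
  congr 1
  refine Finset.sum_congr rfl fun p _ => ?_
  rw [S_sum]
  refine Finset.sum_congr rfl fun p' _ => ?_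
  rw [S_mul_left]

end Sys

/-- Domination of the law of the values of `D` by the uniform law modulo `Q`. -/
def NU {B : Type} [Fintype B] (q : ℤ) (Cq : ℝ) (Q k : ℕ) (D : List B → ℤ) : Prop :=
  ∀ φ : ℤ → ℝ, (∀ x, 0 ≤ φ x) → Per Q φ → ∀ c : ℤ,
    av k (fun U => φ (c + tv q D U)) ≤ Cq / Q * S Q φ

namespace Sys
variable (A : Sys)

/-- uniform bound of the averaged bilinear form -/
def Bd {B : Type} [Fintype B] (γ σ : ℝ) (m : ℕ) (D : List B → ℤ) (F : ℝ) : Prop :=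
  ∀ a a' α α' : ℤ, IsCoprime α 3 → IsCoprime α' 3 →
    av m (fun U => A.bil γ σ m a a' α α' (tv A.q D U)) ≤ F

lemma coprime_q_pow {α : ℤ} (h : IsCoprime α 3) (k : ℕ) : IsCoprime α ((A.q ^ k : ℕ) : ℤ) := by
  unfold q
  push_cast
  exact (h.pow_right).pow_right

lemma coprime_mul {α : ℤ} (h : IsCoprime α 3) (J : ℕ) : IsCoprime (2 ^ J * α) 3 :=
  IsCoprime.mul_left (IsCoprime.pow_left (by norm_num : IsCoprime (2 : ℤ) 3)) h

variable {B : Type} [Fintype B]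

lemma bd_zero [Nonempty B] (γ σ : ℝ) (m : ℕ) (D : List B → ℤ) : A.Bd γ σ m D (A.AA γ (2 * σ) m) := by
  intro a a' α α' hα hα'
  have h1 : ∀ U : List B, U.length = m → A.bil γ σ m a a' α α' (tv A.q D U) ≤ A.AA γ (2 * σ) m := by
    intro U _
    have := A.bil_cs γ σ m (A.coprime_q_pow hα m) (A.coprime_q_pow hα' m) a (a' + α' * tv A.q D U)
    refine le_trans (le_of_eq ?_) this
    unfold bil
    refine S_congr fun u => ?_
    rw [mul_add, ← add_assoc, add_right_comm]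
  refine (av_mono h1).trans (le_of_eq (av_const m _))

/-- the common part of the two chunk steps -/
lemma bd_step_aux (γ : ℝ) {σ : ℝ} (hσ : 0 ≤ σ) (k m : ℕ) (D : List B → ℤ) {F : ℝ}
    (hF : ∀ V : List B, V.length = k → A.Bd γ σ m (fun u => D (V ++ u)) F)
    (a a' α α' : ℤ) (hα : IsCoprime α 3) (hα' : IsCoprime α' 3) :
    av (k + m) (fun U => A.bil γ σ (k + m) a a' α α' (tv A.q D U)) ≤
      av k (fun V => S (A.q ^ k) (fun x => A.g γ σ k (a + α * x) *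
        A.g γ σ k (a' + α' * (x + tv A.q D V)))) * F := by
  rw [av_append, ← av_mul_right]
  refine av_mono fun V hV => ?_
  have h1 : ∀ U : List B, U.length = m → A.bil γ σ (k + m) a a' α α' (tv A.q D (V ++ U)) ≤
      S (A.q ^ k) (fun x => A.g γ σ k (a + α * x) * A.g γ σ k (a' + α' * (x + tv A.q D V)) *
        ∑ p ∈ A.nodes (a + α * x) k, ∑ p' ∈ A.nodes (a' + α' * (x + tv A.q D V)) k,
          (A.wt γ k p.1 / A.P γ k (a + α * x)) * (A.wt γ k p'.1 / A.P γ k (a' + α' * (x + tv A.q D V))) *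
          A.bil γ σ m p.2 p'.2 (2 ^ p.1 * α) (2 ^ p'.1 * α') (tv A.q (fun u => D (V ++ u)) U)) := by
    intro U _
    rw [tv_append, hV]
    exact A.bil_split γ hσ k m a a' α α' _ _
  refine (av_mono h1).trans ?_
  rw [av_S, ← S_mul_right]
  refine S_mono fun x => ?_
  rw [av_mul_left]
  refine mul_le_mul_of_nonneg_left ?_ (mul_nonneg (A.g_nonneg _ _ _ _) (A.g_nonneg _ _ _ _))
  rw [av_sum]
  have h2 : ∀ p ∈ A.nodes (a + α * x) k, av m (fun U => ∑ p' ∈ A.nodes (a' + α' * (x + tv A.q D V)) k,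
          (A.wt γ k p.1 / A.P γ k (a + α * x)) * (A.wt γ k p'.1 / A.P γ k (a' + α' * (x + tv A.q D V))) *
          A.bil γ σ m p.2 p'.2 (2 ^ p.1 * α) (2 ^ p'.1 * α') (tv A.q (fun u => D (V ++ u)) U)) ≤
        (A.wt γ k p.1 / A.P γ k (a + α * x)) * F := by
    intro p _
    rw [av_sum]
    have h3 : ∀ p' ∈ A.nodes (a' + α' * (x + tv A.q D V)) k, av m (fun U =>
          (A.wt γ k p.1 / A.P γ k (a + α * x)) * (A.wt γ k p'.1 / A.P γ k (a' + α' * (x + tv A.q D V))) *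
          A.bil γ σ m p.2 p'.2 (2 ^ p.1 * α) (2 ^ p'.1 * α') (tv A.q (fun u => D (V ++ u)) U)) ≤
          (A.wt γ k p'.1 / A.P γ k (a' + α' * (x + tv A.q D V))) * ((A.wt γ k p.1 / A.P γ k (a + α * x)) * F) := by
      intro p' _
      rw [av_mul_left]
      have h4 := hF V hV p.2 p'.2 (2 ^ p.1 * α) (2 ^ p'.1 * α') (coprime_mul hα _) (coprime_mul hα' _)
      refine (mul_le_mul_of_nonneg_left h4 (mul_nonneg (div_nonneg (A.wt_pos _ _ _).le (A.P_pos _ _ _).le)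
        (div_nonneg (A.wt_pos _ _ _).le (A.P_pos _ _ _).le))).trans (le_of_eq ?_)
      ring
    refine (Finset.sum_le_sum h3).trans (le_of_eq ?_)
    rw [← Finset.sum_mul, sum_prob, one_mul]
  refine (Finset.sum_le_sum h2).trans (le_of_eq ?_)
  rw [← Finset.sum_mul, sum_prob, one_mul]

/-- ordinary chunk -/
lemma bd_gap [Nonempty B] (γ : ℝ) {σ : ℝ} (hσ : 0 ≤ σ) (k m : ℕ) (D : List B → ℤ) {F : ℝ} (hF0 : 0 ≤ F)
    (hF : ∀ V : List B, V.length = k → A.Bd γ σ m (fun u => D (V ++ u)) F) :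
    A.Bd γ σ (k + m) D (A.AA γ (2 * σ) k * F) := by
  intro a a' α α' hα hα'
  refine (A.bd_step_aux γ hσ k m D hF a a' α α' hα hα').trans ?_
  refine mul_le_mul_of_nonneg_right ?_ hF0
  exact A.bd_zero γ σ k D a a' α α' hα hα'

/-- near-uniform chunk -/
lemma bd_win [Nonempty B] (γ : ℝ) {σ : ℝ} (hσ : 0 ≤ σ) (k m : ℕ) (D : List B → ℤ) {F Cq : ℝ} (hF0 : 0 ≤ F)
    (hD : NU A.q Cq (A.q ^ k) k D)
    (hF : ∀ V : List B, V.length = k → A.Bd γ σ m (fun u => D (V ++ u)) F) :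
    A.Bd γ σ (k + m) D (Cq / (A.q : ℝ) ^ k * (A.AA γ σ k) ^ 2 * F) := by
  intro a a' α α' hα hα'
  refine (A.bd_step_aux γ hσ k m D hF a a' α α' hα hα').trans ?_
  refine mul_le_mul_of_nonneg_right ?_ hF0
  rw [av_S]
  have h1 : ∀ x : ℤ, av k (fun V => A.g γ σ k (a + α * x) * A.g γ σ k (a' + α' * (x + tv A.q D V))) ≤
      A.g γ σ k (a + α * x) * (Cq / (A.q : ℝ) ^ k * A.AA γ σ k) := by
    intro x
    rw [av_mul_left]
    refine mul_le_mul_of_nonneg_left ?_ (A.g_nonneg _ _ _ _)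
    have hper : Per (A.q ^ k) (fun z => A.g γ σ k (α' * z + (a' + α' * x))) :=
      (A.g_per γ σ k).comp_affine α' (a' + α' * x)
    have h2 := hD (fun z => A.g γ σ k (α' * z + (a' + α' * x))) (fun z => A.g_nonneg _ _ _ _) hper 0
    rw [S_affine (A.g_per γ σ k) (A.coprime_q_pow hα' k), S_g] at h2
    push_cast at h2
    refine le_trans (le_of_eq (av_congr fun V _ => ?_)) h2
    congr 1
    ring
  refine (S_mono h1).trans (le_of_eq ?_)
  rw [S_mul_right]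
  have h3 : S (A.q ^ k) (fun x => A.g γ σ k (a + α * x)) = A.AA γ σ k := by
    rw [← S_g, ← S_affine (A.g_per γ σ k) (A.coprime_q_pow hα k) a]
    exact S_congr fun x => by rw [add_comm]
  rw [h3]
  ring

/-- chunk property -/
def CP (Cq : ℝ) (k : ℕ) : List Bool → (List B → ℤ) → Prop
  | [], _ => True
  | c :: cs, D => (c = true → NU A.q Cq (A.q ^ k) k D) ∧
      ∀ V : List B, V.length = k → CP Cq k cs (fun u => D (V ++ u))

/-- product of the chunk factors -/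
noncomputable def fac (γ σ Cq : ℝ) (k r : ℕ) : List Bool → ℝ
  | [] => A.AA γ (2 * σ) r
  | c :: cs => (if c = true then Cq / (A.q : ℝ) ^ k * (A.AA γ σ k) ^ 2 else A.AA γ (2 * σ) k) *
      fac γ σ Cq k r cs

lemma fac_nonneg (γ σ : ℝ) {Cq : ℝ} (hC : 0 ≤ Cq) (k r : ℕ) (cs : List Bool) : 0 ≤ A.fac γ σ Cq k r cs := by
  induction cs with
  | nil => exact (A.AA_pos _ _ _).le
  | cons c cs ih =>
    unfold fac
    refine mul_nonneg ?_ ih
    split_ifs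
    · exact mul_nonneg (div_nonneg hC (pow_nonneg A.q_posR.le _)) (sq_nonneg _)
    · exact (A.AA_pos _ _ _).le

lemma bd_chunks [Nonempty B] (γ : ℝ) {σ : ℝ} (hσ : 0 ≤ σ) {Cq : ℝ} (hC : 0 ≤ Cq) (k r : ℕ) (cs : List Bool)
    (D : List B → ℤ) (h : A.CP Cq k cs D) : A.Bd γ σ (k * cs.length + r) D (A.fac γ σ Cq k r cs) := by
  induction cs generalizing D with
  | nil => simpa [fac] using A.bd_zero γ σ r D
  | cons c cs ih =>
    rw [show k * (c :: cs).length + r = k + (k * cs.length + r) by rw [List.length_cons]; ring]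
    unfold fac
    unfold CP at h
    have hF : ∀ V : List B, V.length = k → A.Bd γ σ (k * cs.length + r) (fun u => D (V ++ u))
        (A.fac γ σ Cq k r cs) := fun V hV => ih _ (h.2 V hV)
    by_cases hc : c = true
    · rw [if_pos hc]
      exact A.bd_win γ hσ k _ D (A.fac_nonneg γ σ hC k r cs) (h.1 hc) hF
    · rw [if_neg hc]
      exact A.bd_gap γ hσ k _ D (A.fac_nonneg γ σ hC k r cs) hF

end Sys

end CollatzOne
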