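import Pool.Agent.CollatzOne.FlatB

set_option autoImplicit false

/-!
The power trick.
-/

namespace CollatzOne

/-- averaging operator attached to a tree -/
noncomputable def Rop (q : ℤ) (m : ℕ) (D : List Bool → ℤ) (ε : ℤ) (h : ℤ → ℝ) : ℤ → ℝ :=
  fun u => av m (fun U => h (u + ε * tv q D U))

section
variable {q : ℤ} {m : ℕ} {D : List Bool → ℤ}

lemma Rop_per {N : ℕ} (ε : ℤ) {h : ℤ → ℝ} (hh : Per N h) : Per N (Rop q m D ε h) := fun u => by
  unfold Rop
  refine av_congr fun U _ => ?_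
  rw [show u + (N : ℤ) + ε * tv q D U = u + ε * tv q D U + N by ring, hh]

lemma Rop_iter_per {N : ℕ} (ε : ℤ) (j : ℕ) {h : ℤ → ℝ} (hh : Per N h) :
    Per N ((Rop q m D ε)^[j] h) := by
  induction j generalizing h with
  | zero => exact hh
  | succ j ih =>
    rw [Function.iterate_succ_apply]
    exact ih (Rop_per ε hh)

lemma Rop_adj {N : ℕ} (ε : ℤ) {g h : ℤ → ℝ} (hg : Per N g) (hh : Per N h) :
    S N (fun u => g u * Rop q m D ε h u) = S N (fun u => Rop q m D (-ε) g u * h u) := by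
  unfold Rop
  have h1 : S N (fun u => g u * av m (fun U => h (u + ε * tv q D U))) =
      av m (fun U => S N (fun u => g u * h (u + ε * tv q D U))) := by
    rw [av_S]
    refine S_congr fun u => ?_
    rw [av_mul_left]
  have h2 : S N (fun u => av m (fun U => g (u + -ε * tv q D U)) * h u) =
      av m (fun U => S N (fun u => g (u + -ε * tv q D U) * h u)) := by
    rw [av_S]
    refine S_congr fun u => ?_
    rw [av_mul_right]
  rw [h1, h2]
  refine av_congr fun U _ => ?_
  have hper : Per N (fun u => g (u + -ε * tv q D U) * h u) := fun u => by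
    show g (u + N + -ε * tv q D U) * h (u + N) = _
    rw [show u + (N : ℤ) + -ε * tv q D U = u + -ε * tv q D U + N by ring, hg, hh]
  rw [← S_shift hper (ε * tv q D U)]
  refine S_congr fun u => ?_
  rw [show u + ε * tv q D U + -ε * tv q D U = u by ring]

lemma Rop_iter_adj {N : ℕ} (ε : ℤ) (j : ℕ) {g h : ℤ → ℝ} (hg : Per N g) (hh : Per N h) :
    S N (fun u => g u * (Rop q m D ε)^[j] h u) = S N (fun u => (Rop q m D (-ε))^[j] g u * h u) := by
  induction j generalizing g h with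
  | zero => rfl
  | succ j ih =>
    rw [Function.iterate_succ_apply', Rop_adj ε hg (Rop_iter_per ε j hh), ih (Rop_per _ hg) hh,
      Function.iterate_succ_apply]

lemma Rop_comm (ε ε' : ℤ) (h : ℤ → ℝ) :
    Rop q m D ε (Rop q m D ε' h) = Rop q m D ε' (Rop q m D ε h) := by
  funext u
  unfold Rop
  rw [av_av_comm]
  refine av_congr fun U _ => av_congr fun V _ => ?_
  rw [add_right_comm]

lemma Rop_iter_comm (ε ε' : ℤ) (j k : ℕ) (h : ℤ → ℝ) :
    (Rop q m D ε)^[j] ((Rop q m D ε')^[k] h) = (Rop q m D ε')^[k] ((Rop q m D ε)^[j] h) := by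
  have h1 : Function.Commute (Rop q m D ε) (Rop q m D ε') := fun h => Rop_comm ε ε' h
  exact (h1.iterate_iterate j k) h

/-- the norms of the iterates -/
noncomputable def nrm (q : ℤ) (m : ℕ) (D : List Bool → ℤ) (N : ℕ) (g : ℤ → ℝ) (j : ℕ) : ℝ :=
  S N (fun u => ((Rop q m D 1)^[j] g u) ^ 2)

lemma nrm_nonneg {N : ℕ} {g : ℤ → ℝ} (j : ℕ) : 0 ≤ nrm q m D N g j :=
  S_nonneg fun _ => sq_nonneg _

/-- `|R^j g|² = ⟨g, R^{*j} R^j g⟩`. -/
lemma nrm_eq {N : ℕ} {g : ℤ → ℝ} (hg : Per N g) (j : ℕ) :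
    nrm q m D N g j = S N (fun u => g u * (Rop q m D (-1))^[j] ((Rop q m D 1)^[j] g) u) := by
  rw [Rop_iter_adj (-1) j hg (Rop_iter_per 1 j hg), neg_neg]
  unfold nrm
  exact S_congr fun u => sq _

lemma nrm_sq_le {N : ℕ} {g : ℤ → ℝ} (hg : Per N g) (j : ℕ) :
    nrm q m D N g j ^ 2 ≤ nrm q m D N g 0 * nrm q m D N g (j + j) := by
  have hG := Rop_iter_per (q := q) (m := m) (D := D) 1 j hg
  have hH := Rop_iter_per (q := q) (m := m) (D := D) (-1) j hG
  rw [nrm_eq hg j]
  refine (S_mul_sq_le _ _ _).trans ?_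
  have h0 : S N (fun x => g x ^ 2) = nrm q m D N g 0 := rfl
  rw [h0]
  refine mul_le_mul_of_nonneg_left (le_of_eq ?_) (nrm_nonneg 0)
  calc S N (fun x => ((Rop q m D (-1))^[j] ((Rop q m D 1)^[j] g) x) ^ 2)
      = S N (fun x => (Rop q m D (-1))^[j] ((Rop q m D 1)^[j] g) x *
          (Rop q m D (-1))^[j] ((Rop q m D 1)^[j] g) x) := S_congr fun u => sq _
    _ = S N (fun x => (Rop q m D 1)^[j] ((Rop q m D (-1))^[j] ((Rop q m D 1)^[j] g)) x *
          (Rop q m D 1)^[j] g x) := by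
        rw [Rop_iter_adj (-1) j hH hG, neg_neg]
    _ = S N (fun x => (Rop q m D (-1))^[j] ((Rop q m D 1)^[j] ((Rop q m D 1)^[j] g)) x *
          (Rop q m D 1)^[j] g x) := by
        rw [Rop_iter_comm 1 (-1)]
    _ = S N (fun x => (Rop q m D 1)^[j] ((Rop q m D 1)^[j] g) x * (Rop q m D 1)^[j] ((Rop q m D 1)^[j] g) x) := by
        rw [Rop_iter_adj 1 j (Rop_iter_per 1 j hG) hG]
    _ = nrm q m D N g (j + j) := by
        unfold nrm
        refine S_congr fun u => ?_
        rw [Function.iterate_add_apply, sq]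

lemma nrm_pow_le {N : ℕ} {g : ℤ → ℝ} (hg : Per N g) (i : ℕ) :
    nrm q m D N g 1 ^ (2 ^ i) ≤ nrm q m D N g 0 ^ (2 ^ i - 1) * nrm q m D N g (2 ^ i) := by
  have h0 := nrm_nonneg (q := q) (m := m) (D := D) (N := N) (g := g) 0
  induction i with
  | zero => simp
  | succ i ih =>
    have h1 := nrm_nonneg (q := q) (m := m) (D := D) (N := N) (g := g) 1
    have h2 := nrm_nonneg (q := q) (m := m) (D := D) (N := N) (g := g) (2 ^ i)
    have h3 := nrm_sq_le (q := q) (m := m) (D := D) hg (2 ^ i)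
    have hp : 1 ≤ 2 ^ i := Nat.one_le_two_pow
    calc nrm q m D N g 1 ^ (2 ^ (i + 1)) = (nrm q m D N g 1 ^ (2 ^ i)) ^ 2 := by
          rw [← pow_mul, pow_succ]
      _ ≤ (nrm q m D N g 0 ^ (2 ^ i - 1) * nrm q m D N g (2 ^ i)) ^ 2 :=
          pow_le_pow_left₀ (pow_nonneg h1 _) ih 2
      _ = nrm q m D N g 0 ^ (2 * (2 ^ i - 1)) * nrm q m D N g (2 ^ i) ^ 2 := by
          rw [mul_pow, ← pow_mul, mul_comm (2 ^ i - 1) 2]
      _ ≤ nrm q m D N g 0 ^ (2 * (2 ^ i - 1)) * (nrm q m D N g 0 * nrm q m D N g (2 ^ i + 2 ^ i)) :=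
          mul_le_mul_of_nonneg_left h3 (pow_nonneg h0 _)
      _ = nrm q m D N g 0 ^ (2 ^ (i + 1) - 1) * nrm q m D N g (2 ^ (i + 1)) := by
          rw [← mul_assoc, ← pow_succ, show 2 ^ i + 2 ^ i = 2 ^ (i + 1) by ring,
            show 2 * (2 ^ i - 1) + 1 = 2 ^ (i + 1) - 1 by rw [pow_succ]; omega]

/-- composition of the operators along a list of signs -/
noncomputable def RL (q : ℤ) (m : ℕ) (D : List Bool → ℤ) : List ℤ → (ℤ → ℝ) → ℤ → ℝ
  | [], h => h
  | ε :: s, h => Rop q m D ε (RL q m D s h)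

lemma RL_append (s s' : List ℤ) (h : ℤ → ℝ) : RL q m D (s ++ s') h = RL q m D s (RL q m D s' h) := by
  induction s with
  | nil => rfl
  | cons ε s ih => rw [List.cons_append, RL, ih, RL]

lemma RL_replicate (j : ℕ) (ε : ℤ) (h : ℤ → ℝ) :
    RL q m D (List.replicate j ε) h = (Rop q m D ε)^[j] h := by
  induction j with
  | zero => rfl
  | succ j ih => rw [List.replicate_succ, RL, ih, Function.iterate_succ_apply']

lemma comb_succ {n : ℕ} (σ : Fin (n + 1) → ℤ) (D : List Bool → ℤ) (U : List (Fin (n + 1) → Bool)) :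
    comb σ D U = σ 0 * D (U.map (fun β => β 0)) +
      comb (fun i => σ i.succ) D (U.map (fun β i => β i.succ)) := by
  unfold comb
  rw [Fin.sum_univ_succ]
  congr 1
  refine Finset.sum_congr rfl fun i _ => ?_
  rw [List.map_map]
  rfl

lemma tv_comb_succ {n : ℕ} (σ : Fin (n + 1) → ℤ) (D : List Bool → ℤ) (U : List (Fin (n + 1) → Bool)) :
    tv q (comb σ D) U = σ 0 * tv q D (U.map (fun β => β 0)) +
      tv q (comb (fun i => σ i.succ) D) (U.map (fun β i => β i.succ)) := by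
  have h1 : comb σ D = fun U => (fun U : List (Fin (n + 1) → Bool) => σ 0 * D (U.map (fun β => β 0))) U +
      (fun U : List (Fin (n + 1) → Bool) => comb (fun i => σ i.succ) D (U.map (fun β i => β i.succ))) U := by
    funext U; exact comb_succ σ D U
  rw [h1, tv_add, tv_mul, tv_map q (fun β : Fin (n + 1) → Bool => β 0) D,
    tv_map q (fun (β : Fin (n + 1) → Bool) (i : Fin n) => β i.succ) (comb (fun i => σ i.succ) D)]

lemma av_comb (n : ℕ) (σ : Fin n → ℤ) (h : ℤ → ℝ) (u : ℤ) :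
    av m (fun U => h (u + tv q (comb σ D) U)) = RL q m D (List.ofFn σ) h u := by
  induction n generalizing u with
  | zero =>
    have h1 : comb σ D = fun _ => 0 := by
      funext U; simp [comb]
    rw [h1]
    simp only [tv_zero, add_zero, List.ofFn_zero, RL]
    exact av_const m _
  | succ n ih =>
    rw [List.ofFn_succ, RL]
    unfold Rop
    have h2 : ∀ U : List Bool, RL q m D (List.ofFn fun i => σ i.succ) h (u + σ 0 * tv q D U) =
        av m (fun V => h (u + σ 0 * tv q D U + tv q (comb (fun i => σ i.succ) D) V)) :=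
      fun U => (ih _ _).symm
    rw [av_congr fun U _ => h2 U, ← av_prod, ← av_equiv (Fin.consEquiv (fun _ : Fin (n + 1) => Bool)).symm]
    refine av_congr fun U _ => ?_
    rw [tv_comb_succ, ← add_assoc, List.map_map, List.map_map]
    rfl

end

/-- the signs of the power trick -/
def sg (j : ℕ) : Fin (j + j) → ℤ := Fin.append (fun _ => -1) (fun _ => 1)

lemma sg_cases (j : ℕ) (i : Fin (j + j)) : sg j i = 1 ∨ sg j i = -1 := by
  unfold sg
  refine Fin.addCases (fun i => ?_) (fun i => ?_) i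
  · right; exact Fin.append_left _ _ i
  · left; exact Fin.append_right _ _ i

lemma RL_sg {q : ℤ} {m : ℕ} {D : List Bool → ℤ} (j : ℕ) (h : ℤ → ℝ) :
    RL q m D (List.ofFn (sg j)) h = (Rop q m D (-1))^[j] ((Rop q m D 1)^[j] h) := by
  unfold sg
  rw [List.ofFn_fin_append, List.ofFn_const, List.ofFn_const, RL_append, RL_replicate, RL_replicate]

/-- The norm of the iterates through the bilinear form. -/
lemma Sys.nrm_eq_bil (A : Sys) (γ σ : ℝ) (m : ℕ) (D : List Bool → ℤ) (j : ℕ) :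
    nrm A.q m D (A.q ^ m) (A.g γ σ m) j =
      av m (fun U => A.bil γ σ m 0 0 1 1 (tv A.q (comb (sg j) D) U)) := by
  rw [nrm_eq (A.g_per γ σ m)]
  unfold Sys.bil
  rw [av_S]
  refine S_congr fun u => ?_
  rw [← RL_sg, ← av_comb, ← av_mul_left]
  refine av_congr fun U _ => ?_
  simp only [zero_add, one_mul]

end CollatzOne
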