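import Pool.Agent.CollatzOne.FlatC

set_option autoImplicit false

/-!
Decay of the norms for trees with many branching levels.
-/

namespace CollatzOne

/-- Statement of `chunk_uniform`. -/
def ChunkUniform (l k : ℕ) : Prop :=
    ∃ n₀ : ℕ, ∀ n ≥ n₀, ∀ (σ : Fin n → ℤ), (∀ i, σ i = 1 ∨ σ i = -1) → ∀ (Λ : ℕ → Bool) (D : List Bool → ℤ),
      Aligned (3 ^ l) Λ D → ∀ V : List (Fin n → Bool), Λ V.length = true →
      ∀ φ : ℤ → ℝ, (∀ x, 0 ≤ φ x) → Per ((3 ^ l) ^ k) φ → ∀ c : ℤ,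
      av k (fun U => φ (c + tv (3 ^ l) (fun u => comb σ D (V ++ u)) U)) ≤
        2 * 3 ^ l / ((3 ^ l) ^ k) * S ((3 ^ l) ^ k) φ

/-- flags of the chunks -/
def fl (Λ : ℕ → Bool) (k : ℕ) : ℕ → ℕ → List Bool
  | _, 0 => []
  | t, c + 1 => Λ t :: fl Λ k (t + k) c

lemma fl_length (Λ : ℕ → Bool) (k t c : ℕ) : (fl Λ k t c).length = c := by
  induction c generalizing t with
  | zero => rfl
  | succ c ih => simp [fl, ih]

lemma fl_count (Λ : ℕ → Bool) (k t c : ℕ) :
    (fl Λ k t c).count true = ∑ i ∈ Finset.range c, if Λ (t + i * k) = true then 1 else 0 := by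
  induction c generalizing t with
  | zero => rfl
  | succ c ih =>
    rw [fl, List.count_cons, ih, Finset.sum_range_succ']
    congr 1
    · refine Finset.sum_congr rfl fun i _ => ?_
      rw [show t + k + i * k = t + (i + 1) * k by ring]
    · simp

/-- pigeonhole for the offset -/
lemma exists_offset {Λ : ℕ → Bool} {k m : ℕ} (hk : 1 ≤ k) (hkm : k ≤ m) {x : ℝ}
    (hx : x ≤ (((Finset.range m).filter (fun i => Λ i = true)).card : ℝ)) :
    ∃ t < k, ∃ c r : ℕ, m = t + (k * c + r) ∧ r < k ∧ x / k - 1 ≤ ((fl Λ k t c).count true : ℝ) := by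
  classical
  have hk0 : (0 : ℝ) < k := by exact_mod_cast hk
  set s := (Finset.range m).filter (fun i => Λ i = true) with hs
  obtain ⟨t, ht, htc⟩ : ∃ t ∈ Finset.range k, x / k ≤ ((s.filter (fun j => j % k = t)).card : ℝ) := by
    by_contra hcon
    push Not at hcon
    have h1 : (s.card : ℝ) = ∑ t ∈ Finset.range k, ((s.filter (fun j => j % k = t)).card : ℝ) := by
      rw [← Nat.cast_sum, ← Finset.card_eq_sum_card_fiberwise]
      intro j _
      simp only [Finset.coe_range, Set.mem_Iio]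
      exact Nat.mod_lt _ hk
    have h2 : ∑ t ∈ Finset.range k, ((s.filter (fun j => j % k = t)).card : ℝ) < ∑ t ∈ Finset.range k, x / k :=
      Finset.sum_lt_sum_of_nonempty ⟨0, Finset.mem_range.2 hk⟩ hcon
    rw [← h1, Finset.sum_const, Finset.card_range, nsmul_eq_mul, mul_div_cancel₀ _ hk0.ne'] at h2
    linarith
  rw [Finset.mem_range] at ht
  refine ⟨t, ht, (m - t) / k, (m - t) % k, ?_, Nat.mod_lt _ hk, ?_⟩
  · have := Nat.div_add_mod (m - t) k
    omega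
  · set c := (m - t) / k with hc
    have h3 : s.filter (fun j => j % k = t) ⊆
        ((Finset.range (c + 1)).filter (fun i => Λ (t + i * k) = true)).image (fun i => t + i * k) := by
      intro j hj
      rw [Finset.mem_filter, hs, Finset.mem_filter, Finset.mem_range] at hj
      obtain ⟨⟨hjm, hΛ⟩, hjt⟩ := hj
      have h4 := Nat.div_add_mod j k
      rw [Finset.mem_image]
      refine ⟨j / k, ?_, by rw [mul_comm]; omega⟩
      rw [Finset.mem_filter, Finset.mem_range]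
      refine ⟨?_, by rw [mul_comm, show t + k * (j / k) = j by omega]; exact hΛ⟩
      have h5 : j / k ≤ c := by
        rw [hc, Nat.le_div_iff_mul_le (by omega), mul_comm]
        omega
      omega
    have h6 := (Finset.card_le_card h3).trans Finset.card_image_le
    have h7 : ((Finset.range (c + 1)).filter (fun i => Λ (t + i * k) = true)).card ≤
        (fl Λ k t c).count true + 1 := by
      rw [fl_count, Finset.card_filter, Finset.sum_range_succ]
      refine Nat.add_le_add_left ?_ _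
      split_ifs <;> simp
    have h8 : ((s.filter (fun j => j % k = t)).card : ℝ) ≤ (fl Λ k t c).count true + 1 := by
      exact_mod_cast h6.trans h7
    linarith

namespace Sys
variable (A : Sys)

lemma cp_comb {k n : ℕ} (hCU : ∀ (σ : Fin n → ℤ), (∀ i, σ i = 1 ∨ σ i = -1) → ∀ (Λ : ℕ → Bool) (D : List Bool → ℤ),
      Aligned (3 ^ A.l) Λ D → ∀ V : List (Fin n → Bool), Λ V.length = true →
      ∀ φ : ℤ → ℝ, (∀ x, 0 ≤ φ x) → Per ((3 ^ A.l) ^ k) φ → ∀ c : ℤ,
      av k (fun U => φ (c + tv (3 ^ A.l) (fun u => comb σ D (V ++ u)) U)) ≤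
        2 * 3 ^ A.l / ((3 ^ A.l) ^ k) * S ((3 ^ A.l) ^ k) φ)
    {σ : Fin n → ℤ} (hσ : ∀ i, σ i = 1 ∨ σ i = -1) {Λ : ℕ → Bool} {D : List Bool → ℤ}
    (hD : Aligned A.q Λ D) (t c : ℕ) (V : List (Fin n → Bool)) (hV : V.length = t) :
    A.CP (2 * 3 ^ A.l) k (fl Λ k t c) (fun u => comb σ D (V ++ u)) := by
  have hq : ((A.q : ℕ) : ℤ) = 3 ^ A.l := by unfold q; push_cast; rfl
  induction c generalizing t V with
  | zero => exact trivial
  | succ c ih =>
    rw [fl, CP]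
    refine ⟨fun hΛ => ?_, fun V' hV' => ?_⟩
    · intro φ hφ hper c
      have h1 := hCU σ hσ Λ D (by rw [← hq]; exact hD) V (by rw [hV]; exact hΛ) φ hφ hper c
      rw [hq]
      refine h1.trans (le_of_eq ?_)
      unfold q
      push_cast
      rfl
    · have h2 := ih (t + k) (V ++ V') (by rw [List.length_append, hV, hV'])
      simpa only [List.append_assoc] using h2

lemma fac_le (γ σ : ℝ) {Cq ρ : ℝ} (hρ : 0 ≤ ρ) (hC : 0 ≤ Cq) (k r : ℕ)
    (hW : Cq / (A.q : ℝ) ^ k * (A.AA γ σ k) ^ 2 ≤ A.AA γ (2 * σ) k * ρ) (cs : List Bool) :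
    A.fac γ σ Cq k r cs ≤ A.AA γ (2 * σ) r * (A.AA γ (2 * σ) k ^ cs.length * ρ ^ cs.count true) := by
  have hk := (A.AA_pos γ (2 * σ) k).le
  have hr := (A.AA_pos γ (2 * σ) r).le
  induction cs with
  | nil => simp [fac]
  | cons c cs ih =>
    unfold fac
    cases c with
    | true =>
      rw [if_pos rfl, List.length_cons, List.count_cons_self, pow_succ, pow_succ]
      calc _ ≤ (A.AA γ (2 * σ) k * ρ) * (A.AA γ (2 * σ) r * (A.AA γ (2 * σ) k ^ cs.length * ρ ^ cs.count true)) :=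
            mul_le_mul hW ih (A.fac_nonneg γ σ hC k r cs) (mul_nonneg hk hρ)
        _ = _ := by ring
    | false =>
      rw [if_neg (by simp), List.length_cons, List.count_cons_of_ne (by simp), pow_succ]
      calc _ ≤ A.AA γ (2 * σ) k * (A.AA γ (2 * σ) r * (A.AA γ (2 * σ) k ^ cs.length * ρ ^ cs.count true)) :=
            mul_le_mul_of_nonneg_left ih hk
        _ = _ := by ring

/-- bound of the norms of high powers -/
lemma nrm_le {k j : ℕ} {γ σ ρ : ℝ} (hσ : 0 ≤ σ) (hρ : 0 ≤ ρ)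
    (hCU : ∀ (σ : Fin (j + j) → ℤ), (∀ i, σ i = 1 ∨ σ i = -1) → ∀ (Λ : ℕ → Bool) (D : List Bool → ℤ),
      Aligned (3 ^ A.l) Λ D → ∀ V : List (Fin (j + j) → Bool), Λ V.length = true →
      ∀ φ : ℤ → ℝ, (∀ x, 0 ≤ φ x) → Per ((3 ^ A.l) ^ k) φ → ∀ c : ℤ,
      av k (fun U => φ (c + tv (3 ^ A.l) (fun u => comb σ D (V ++ u)) U)) ≤
        2 * 3 ^ A.l / ((3 ^ A.l) ^ k) * S ((3 ^ A.l) ^ k) φ)
    (hW : 2 * 3 ^ A.l / (A.q : ℝ) ^ k * (A.AA γ σ k) ^ 2 ≤ A.AA γ (2 * σ) k * ρ)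
    {Λ : ℕ → Bool} {D : List Bool → ℤ} (hD : Aligned A.q Λ D) (t c r : ℕ) :
    nrm A.q (t + (k * c + r)) D (A.q ^ (t + (k * c + r))) (A.g γ σ (t + (k * c + r))) j ≤
      A.AA γ (2 * σ) t * (A.AA γ (2 * σ) r * (A.AA γ (2 * σ) k ^ c * ρ ^ (fl Λ k t c).count true)) := by
  rw [nrm_eq_bil]
  have hC : (0 : ℝ) ≤ 2 * 3 ^ A.l := by positivity
  have h1 : ∀ V : List (Fin (j + j) → Bool), V.length = t →
      A.Bd γ σ (k * c + r) (fun u => comb (sg j) D (V ++ u)) (A.fac γ σ (2 * 3 ^ A.l) k r (fl Λ k t c)) := by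
    intro V hV
    have h2 := A.bd_chunks γ hσ hC k r (fl Λ k t c) _ (A.cp_comb hCU (sg_cases j) hD t c V hV)
    rwa [fl_length] at h2
  have h3 := A.bd_gap γ hσ t (k * c + r) (comb (sg j) D) (A.fac_nonneg γ σ hC k r (fl Λ k t c)) h1
    0 0 1 1 isCoprime_one_left isCoprime_one_left
  refine h3.trans (mul_le_mul_of_nonneg_left ?_ (A.AA_pos _ _ _).le)
  have h4 := A.fac_le γ σ hρ hC k r hW (fl Λ k t c)
  rwa [fl_length] at h4

/-! ### The exponents -/

/-- crude bound of `T 1` -/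
noncomputable def M0 (γ : ℝ) : ℝ := 1 + ∑ w, ((A.q : ℝ) / 2 ^ A.J w) ^ γ

lemma one_le_M0 (γ : ℝ) : 1 ≤ A.M0 γ := by
  unfold M0
  have hq := A.q_posR
  have : 0 ≤ ∑ w, ((A.q : ℝ) / 2 ^ A.J w) ^ γ := Finset.sum_nonneg fun w _ => by positivity
  linarith

lemma P_le (γ : ℝ) (m : ℕ) (y : ℤ) : A.P γ m y ≤ A.M0 γ ^ m := by
  have hq := A.q_posR
  induction m generalizing y with
  | zero => simp [P_zero]
  | succ m ih =>
    have hM := A.one_le_M0 γ
    unfold P at ih ⊢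
    rw [Function.iterate_succ_apply']
    unfold T
    calc (∑ w, if A.valid w y then ((A.q : ℝ) / 2 ^ A.J w) ^ γ * (A.T γ)^[m] (fun _ => 1) (A.child w y) else 0)
        ≤ ∑ w, ((A.q : ℝ) / 2 ^ A.J w) ^ γ * A.M0 γ ^ m := by
          refine Finset.sum_le_sum fun w _ => ?_
          split_ifs
          · exact mul_le_mul_of_nonneg_left (ih _) (by positivity)
          · positivity
      _ = (∑ w, ((A.q : ℝ) / 2 ^ A.J w) ^ γ) * A.M0 γ ^ m := by rw [Finset.sum_mul]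
      _ ≤ A.M0 γ * A.M0 γ ^ m := by
          refine mul_le_mul_of_nonneg_right ?_ (by positivity)
          unfold M0
          linarith
      _ = A.M0 γ ^ (m + 1) := by ring

lemma log_AA_sub (γ : ℝ) {s : ℝ} (hs : 0 ≤ s) : Subadditive (fun m => Real.log (A.AA γ s m)) := by
  intro k m
  show Real.log _ ≤ Real.log _ + Real.log _
  rw [← Real.log_mul (A.AA_pos _ _ _).ne' (A.AA_pos _ _ _).ne']
  exact Real.log_le_log (A.AA_pos _ _ _) (A.AA_submul γ hs k m)

lemma log_AA_ge (γ : ℝ) {s : ℝ} (hs : 0 ≤ s) (m : ℕ) :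
    -(s * Real.log (A.M0 γ)) * m ≤ Real.log (A.AA γ s m) := by
  have hM := A.one_le_M0 γ
  have h1 : (A.P γ m 0) ^ (-s) ≤ A.AA γ s m := by
    rw [AA_eq]
    unfold S
    have := Finset.single_le_sum (f := fun x : ℕ => (A.P γ m (x : ℤ)) ^ (-s)) (s := Finset.range (A.q ^ m))
      (fun x _ => Real.rpow_nonneg (A.P_pos _ _ _).le _) (Finset.mem_range.2 (pow_pos A.q_pos m))
    simpa using this
  have h2 := Real.log_le_log (Real.rpow_pos_of_pos (A.P_pos γ m 0) _) h1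
  rw [Real.log_rpow (A.P_pos _ _ _)] at h2
  have h3 := Real.log_le_log (A.P_pos γ m 0) (A.P_le γ m 0)
  rw [Real.log_pow] at h3
  nlinarith

lemma exists_lim (γ : ℝ) {s : ℝ} (hs : 0 ≤ s) : ∃ D : ℝ, (∀ m : ℕ, D * m ≤ Real.log (A.AA γ s m)) ∧
    ∀ ε > 0, ∃ m₀ : ℕ, ∀ m ≥ m₀, Real.log (A.AA γ s m) ≤ (D + ε) * m := by
  have hsub := A.log_AA_sub γ hs
  have hbdd : BddBelow (Set.range fun n : ℕ => Real.log (A.AA γ s n) / n) := by
    refine ⟨min 0 (-(s * Real.log (A.M0 γ))), ?_⟩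
    rintro _ ⟨n, rfl⟩
    rcases Nat.eq_zero_or_pos n with rfl | hn
    · simp
    · have hn' : (0 : ℝ) < n := by exact_mod_cast hn
      refine (min_le_right _ _).trans ?_
      show _ ≤ Real.log (A.AA γ s n) / n
      rw [le_div_iff₀ hn']
      exact A.log_AA_ge γ hs n
  refine ⟨hsub.lim, fun m => ?_, fun ε hε => ?_⟩
  · rcases Nat.eq_zero_or_pos m with rfl | hm
    · simp [AA_zero]
    · have hm' : (0 : ℝ) < m := by exact_mod_cast hm
      have := hsub.lim_le_div hbdd hm.ne'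
      rwa [le_div_iff₀ hm'] at this
  · have h1 := hsub.tendsto_lim hbdd
    have h2 := (h1.eventually (gt_mem_nhds (show hsub.lim < hsub.lim + ε by linarith))).and
      (Filter.eventually_ge_atTop 1)
    obtain ⟨m₀, hm₀⟩ := Filter.eventually_atTop.1 h2
    refine ⟨m₀, fun m hm => ?_⟩
    obtain ⟨h3, h4⟩ := hm₀ m hm
    have hm' : (0 : ℝ) < m := by exact_mod_cast h4
    rw [div_lt_iff₀ hm'] at h3
    exact h3.le

/-- The exponent `D(s)`. -/
noncomputable def Dl (γ : ℝ) (s : ℝ) : ℝ :=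
  if hs : 0 ≤ s then Classical.choose (A.exists_lim γ hs) else 0

lemma Dl_le (γ : ℝ) {s : ℝ} (hs : 0 ≤ s) (m : ℕ) : A.Dl γ s * m ≤ Real.log (A.AA γ s m) := by
  unfold Dl
  rw [dif_pos hs]
  exact (Classical.choose_spec (A.exists_lim γ hs)).1 m

lemma Dl_lim (γ : ℝ) {s : ℝ} (hs : 0 ≤ s) {ε : ℝ} (hε : 0 < ε) :
    ∃ m₀ : ℕ, ∀ m ≥ m₀, Real.log (A.AA γ s m) ≤ (A.Dl γ s + ε) * m := by
  unfold Dl
  rw [dif_pos hs]
  exact (Classical.choose_spec (A.exists_lim γ hs)).2 ε hε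

end Sys

end CollatzOne
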