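import Pool.Agent.CollatzOne.FlatD

set_option autoImplicit false

/-!
Exponential decay of the norms for trees with a positive density of branching levels.
-/

namespace CollatzOne

namespace Sys
variable (A : Sys)

lemma one_lt_q : (1 : ℝ) < A.q := by
  have := A.three_le_q
  have h : (3 : ℝ) ≤ A.q := by exact_mod_cast this
  linarith

/-- choice of the chunk length -/
lemma exists_chunk (γ : ℝ) {σ ε Δ : ℝ} (hσ : 0 < σ) (hε : 0 < ε) (hΔ0 : 0 < Δ)
    (hΔ : Δ = A.Dl γ (2 * σ) + Real.log A.q - 2 * A.Dl γ σ) :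
    ∃ k : ℕ, 1 ≤ k ∧ Real.log (A.AA γ (2 * σ) k) ≤ (A.Dl γ (2 * σ) + ε) * k ∧
      2 * 3 ^ A.l / (A.q : ℝ) ^ k * (A.AA γ σ k) ^ 2 ≤ A.AA γ (2 * σ) k * Real.exp (-(Δ / 2 * k)) := by
  obtain ⟨k₁, hk₁⟩ := A.Dl_lim γ (s := 2 * σ) (by linarith) hε
  obtain ⟨k₂, hk₂⟩ := A.Dl_lim γ (s := σ) hσ.le (show 0 < Δ / 16 by linarith)
  obtain ⟨k₃, hk₃⟩ := exists_nat_gt (8 * Real.log (2 * 3 ^ A.l) / (3 * Δ))
  set k := max (max k₁ k₂) (max k₃ 1) with hk
  have h1 : k₁ ≤ k := (le_max_left _ _).trans (le_max_left _ _)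
  have h2 : k₂ ≤ k := (le_max_right _ _).trans (le_max_left _ _)
  have h3 : k₃ ≤ k := (le_max_left _ _).trans (le_max_right _ _)
  have h4 : 1 ≤ k := (le_max_right _ _).trans (le_max_right _ _)
  refine ⟨k, h4, hk₁ k h1, ?_⟩
  have hq := A.q_posR
  have ha := A.AA_pos γ σ k
  have hb := A.AA_pos γ (2 * σ) k
  have h5 := hk₂ k h2
  have h6 := A.Dl_le γ (s := 2 * σ) (by linarith) k
  have h7 : 8 * Real.log (2 * 3 ^ A.l) / (3 * Δ) < k := hk₃.trans_le (by exact_mod_cast h3)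
  rw [div_lt_iff₀ (by linarith)] at h7
  have hl : 0 < 2 * 3 ^ A.l / (A.q : ℝ) ^ k * (A.AA γ σ k) ^ 2 := by positivity
  rw [← Real.log_le_log_iff hl (by positivity), Real.log_mul (by positivity) (by positivity),
    Real.log_div (by positivity) (by positivity), Real.log_pow, Real.log_pow,
    Real.log_mul hb.ne' (Real.exp_pos _).ne', Real.log_exp]
  push_cast
  nlinarith

theorem tree_decay (hCU : ∀ k : ℕ, 1 ≤ k → ChunkUniform A.l k) {γ σ κ : ℝ} (hσ : 0 < σ) (hκ : 0 < κ)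
    (hΔ : 2 * A.Dl γ σ < A.Dl γ (2 * σ) + Real.log A.q) :
    ∃ C : ℝ, 0 < C ∧ ∃ δ : ℝ, 0 < δ ∧ ∃ m₀ : ℕ, ∀ m ≥ m₀, ∀ (Λ : ℕ → Bool) (D : List Bool → ℤ),
      κ * m ≤ (((Finset.range m).filter (fun i => Λ i = true)).card : ℝ) → Aligned A.q Λ D →
      nrm A.q m D (A.q ^ m) (A.g γ σ m) 1 ≤ C * Real.exp (-(δ * m)) * A.AA γ (2 * σ) m := by
  obtain ⟨Δ, hΔe⟩ : ∃ Δ, Δ = A.Dl γ (2 * σ) + Real.log A.q - 2 * A.Dl γ σ := ⟨_, rfl⟩
  have hΔ0 : 0 < Δ := by rw [hΔe]; linarith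
  set D₂ := A.Dl γ (2 * σ) with hD₂
  set ε := Δ * κ / 4 with hε
  have hε0 : 0 < ε := by positivity
  obtain ⟨k, hk1, hk2, hk3⟩ := A.exists_chunk γ hσ hε0 hΔ0 hΔe
  obtain ⟨n₀, hn₀⟩ := hCU k hk1
  have hk0 : (0 : ℝ) < k := by exact_mod_cast hk1
  set j := 2 ^ n₀ with hj
  have hj1 : 1 ≤ j := Nat.one_le_two_pow
  have hjn : n₀ ≤ j + j := by
    have := Nat.lt_two_pow_self (n := n₀)
    omega
  have hCUj := hn₀ (j + j) hjn
  set C₁ : ℝ := 1 + ∑ i ∈ Finset.range k, A.AA γ (2 * σ) i with hC₁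
  have hC₁1 : 1 ≤ C₁ := by
    have : 0 ≤ ∑ i ∈ Finset.range k, A.AA γ (2 * σ) i := Finset.sum_nonneg fun i _ => (A.AA_pos _ _ _).le
    linarith
  have hAA : ∀ t < k, A.AA γ (2 * σ) t ≤ C₁ := by
    intro t ht
    have := Finset.single_le_sum (f := fun i => A.AA γ (2 * σ) i) (s := Finset.range k)
      (fun i _ => (A.AA_pos _ _ _).le) (Finset.mem_range.2 ht)
    linarith
  set C₂ : ℝ := C₁ ^ 2 * Real.exp (|D₂ + ε| * (2 * k) + Δ / 2 * k) with hC₂
  set C : ℝ := max 1 C₂ with hC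
  have hCpos : 0 < C := lt_of_lt_of_le one_pos (le_max_left _ _)
  set δ₁ := Δ * κ / 4 with hδ₁
  have hδ₁0 : 0 < δ₁ := by positivity
  have hj0 : (0 : ℝ) < j := by exact_mod_cast hj1
  refine ⟨C, hCpos, δ₁ / j, by positivity, k, fun m hm Λ D hcard hD => ?_⟩
  obtain ⟨t, ht, c, r, hmt, hr, hcount⟩ := exists_offset hk1 hm hcard
  set N := (fl Λ k t c).count true with hN
  -- bound for the high power
  have h1 : nrm A.q m D (A.q ^ m) (A.g γ σ m) j ≤ C₂ * Real.exp (-(δ₁ * m)) * A.AA γ (2 * σ) m := by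
    have h2 := A.nrm_le (γ := γ) hσ.le (Real.exp_pos _).le hCUj hk3 hD t c r
    rw [← hmt] at h2
    refine h2.trans ?_
    have h3 : A.AA γ (2 * σ) k ^ c ≤ Real.exp ((D₂ + ε) * (k * c)) := by
      have h31 : A.AA γ (2 * σ) k ≤ Real.exp ((D₂ + ε) * k) := by
        rw [← Real.log_le_iff_le_exp (A.AA_pos _ _ _)]
        exact hk2
      refine (pow_le_pow_left₀ (A.AA_pos _ _ _).le h31 c).trans (le_of_eq ?_)
      rw [← Real.exp_nat_mul]
      congr 1
      ring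
    have h4 : Real.exp (-(Δ / 2 * k)) ^ N ≤ Real.exp (-(2 * δ₁ * m) + Δ / 2 * k) := by
      rw [← Real.exp_nat_mul]
      apply Real.exp_le_exp.2
      have h41 : κ * m / k - 1 ≤ (N : ℝ) := hcount
      have h42 : (κ * m / k - 1) * (Δ / 2 * k) ≤ N * (Δ / 2 * k) :=
        mul_le_mul_of_nonneg_right h41 (by positivity)
      have h43 : (κ * m / k - 1) * (Δ / 2 * k) = 2 * δ₁ * m - Δ / 2 * k := by
        rw [hδ₁]; field_simp; ring
      linarith
    have h5 : (D₂ + ε) * (k * c) ≤ (D₂ + ε) * m + |D₂ + ε| * (2 * k) := by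
      have h51 : (m : ℝ) = t + (k * c + r) := by rw [hmt]; push_cast; ring
      have h52 : (t : ℝ) ≤ k := by exact_mod_cast ht.le
      have h53 : (r : ℝ) ≤ k := by exact_mod_cast hr.le
      have h54 : -(D₂ + ε) * (t + r) ≤ |D₂ + ε| * (2 * k) := by
        calc -(D₂ + ε) * (t + r) ≤ |D₂ + ε| * (t + r) :=
              mul_le_mul_of_nonneg_right (neg_le_abs _) (by positivity)
          _ ≤ |D₂ + ε| * (2 * k) := mul_le_mul_of_nonneg_left (by linarith) (abs_nonneg _)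
      rw [h51]
      nlinarith
    have h6 : Real.exp (D₂ * m) ≤ A.AA γ (2 * σ) m := by
      rw [← Real.le_log_iff_exp_le (A.AA_pos _ _ _)]
      exact A.Dl_le γ (by linarith) m
    have hexp := fun x : ℝ => (Real.exp_pos x).le
    calc A.AA γ (2 * σ) t * (A.AA γ (2 * σ) r * (A.AA γ (2 * σ) k ^ c * Real.exp (-(Δ / 2 * k)) ^ N))
        ≤ C₁ * (C₁ * (Real.exp ((D₂ + ε) * (k * c)) * Real.exp (-(2 * δ₁ * m) + Δ / 2 * k))) := by
          have hp := (A.AA_pos γ (2 * σ) k).le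
          have hp' := (A.AA_pos γ (2 * σ) r).le
          refine mul_le_mul (hAA t ht) (mul_le_mul (hAA r hr) (mul_le_mul h3 h4 (by positivity) (hexp _))
            (by positivity) (by positivity)) (by positivity) (by positivity)
      _ ≤ C₁ * (C₁ * (Real.exp ((D₂ + ε) * m + |D₂ + ε| * (2 * k)) * Real.exp (-(2 * δ₁ * m) + Δ / 2 * k))) := by
          have := Real.exp_le_exp.2 h5
          have hC0 : 0 ≤ C₁ := by linarith
          gcongr
      _ = C₂ * Real.exp (-(δ₁ * m)) * Real.exp (D₂ * m) := by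
          rw [hC₂, sq]
          rw [show C₁ * C₁ * Real.exp (|D₂ + ε| * (2 * k) + Δ / 2 * k) * Real.exp (-(δ₁ * m)) * Real.exp (D₂ * m)
            = C₁ * (C₁ * (Real.exp (|D₂ + ε| * (2 * k) + Δ / 2 * k) * Real.exp (-(δ₁ * m)) * Real.exp (D₂ * m))) by ring]
          congr 2
          rw [← Real.exp_add, ← Real.exp_add, ← Real.exp_add]
          congr 1
          rw [hδ₁, hε]
          ring
      _ ≤ _ := mul_le_mul_of_nonneg_left h6 (by positivity)
  have h7 := nrm_pow_le (q := A.q) (m := m) (D := D) (A.g_per γ σ m) n₀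
  rw [← hj] at h7
  have h8 : nrm A.q m D (A.q ^ m) (A.g γ σ m) 0 = A.AA γ (2 * σ) m := A.S_g_sq γ σ m
  rw [h8] at h7
  set a := A.AA γ (2 * σ) m with ha
  have ha0 : 0 < a := A.AA_pos _ _ _
  have h9 : nrm A.q m D (A.q ^ m) (A.g γ σ m) 1 ^ j ≤ (C * Real.exp (-(δ₁ / j * m)) * a) ^ j := by
    refine h7.trans ?_
    have h10 : a ^ (j - 1) * nrm A.q m D (A.q ^ m) (A.g γ σ m) j ≤ a ^ (j - 1) * (C₂ * Real.exp (-(δ₁ * m)) * a) :=
      mul_le_mul_of_nonneg_left h1 (by positivity)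
    refine h10.trans ?_
    have h11 : a ^ (j - 1) * (C₂ * Real.exp (-(δ₁ * m)) * a) = C₂ * Real.exp (-(δ₁ * m)) * a ^ j := by
      have : a ^ j = a ^ (j - 1) * a := by
        rw [← pow_succ]; congr 1; omega
      rw [this]; ring
    have h12 : Real.exp (-(δ₁ / j * m)) ^ j = Real.exp (-(δ₁ * m)) := by
      rw [← Real.exp_nat_mul]
      congr 1
      field_simp
    rw [h11, mul_pow, mul_pow, h12]
    have h13 : C₂ ≤ C ^ j := by
      calc C₂ ≤ C := le_max_right _ _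
        _ = C ^ 1 := (pow_one _).symm
        _ ≤ C ^ j := pow_le_pow_right₀ (le_max_left _ _) hj1
    gcongr
  exact le_of_pow_le_pow_left₀ (by omega) (by positivity) h9

end Sys

end CollatzOne
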