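import Pool.Agent.CollatzOne.Defs

set_option autoImplicit false

/-!
The nodes sorted by their total exponent; heights and distances of nodes.
-/

namespace CollatzOne

namespace Sys
variable (A : Sys)

lemma J_le (w : A.ι) : A.J w ≤ ∑ w, A.J w :=
  Finset.single_le_sum (f := fun w => A.J w) (fun _ _ => Nat.zero_le _) (Finset.mem_univ w)

lemma nodes_fst_le {y : ℤ} (n : ℕ) : ∀ p ∈ A.nodes y n, p.1 ≤ A.Jmax n := by
  induction n with
  | zero =>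
    intro p hp
    simp only [nodes, Finset.mem_singleton] at hp
    subst hp
    exact Nat.zero_le _
  | succ n ih =>
    intro p hp
    obtain ⟨r, hr, w, hw, rfl⟩ := A.mem_nodes_succ.1 hp
    have h1 := ih r hr
    have h2 := A.J_le w
    unfold Jmax at h1 ⊢
    rw [Nat.succ_mul]
    exact Nat.add_le_add h1 h2

lemma mem_lev {y : ℤ} {n J : ℕ} {v : ℤ} : v ∈ A.lev y n J ↔ (J, v) ∈ A.nodes y n := by
  unfold lev
  rw [Finset.mem_image]
  constructor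
  · rintro ⟨p, hp, rfl⟩
    rw [Finset.mem_filter] at hp
    obtain ⟨h1, rfl⟩ := hp
    exact h1
  · intro h
    exact ⟨(J, v), Finset.mem_filter.2 ⟨h, rfl⟩, rfl⟩

lemma sum_lev (y : ℤ) (n : ℕ) (f : ℕ → ℤ → ℝ) :
    ∑ p ∈ A.nodes y n, f p.1 p.2 = ∑ J ∈ Finset.range (A.Jmax n + 1), ∑ v ∈ A.lev y n J, f J v := by
  have hmaps : ∀ p ∈ A.nodes y n, p.1 ∈ Finset.range (A.Jmax n + 1) := by
    intro p hp
    rw [Finset.mem_range]
    have := A.nodes_fst_le n p hp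
    omega
  rw [← Finset.sum_fiberwise_of_maps_to hmaps]
  refine Finset.sum_congr rfl fun J _ => ?_
  unfold lev
  rw [Finset.sum_image]
  · refine Finset.sum_congr rfl fun p hp => ?_
    rw [Finset.mem_filter] at hp
    rw [hp.2]
  · intro p hp r hr h
    simp only [Finset.coe_filter, Set.mem_ofPred_eq] at hp hr
    exact Prod.ext (hp.2.trans hr.2.symm) h

/-- Heights grow: `2 ^ J ≥ 2 ^ n q ^ n`. -/
lemma ht_ge {y : ℤ} (n : ℕ) : ∀ p ∈ A.nodes y n, (2 * A.q) ^ n ≤ 2 ^ p.1 := by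
  induction n with
  | zero =>
    intro p hp
    simp only [nodes, Finset.mem_singleton] at hp
    subst hp
    simp
  | succ n ih =>
    intro p hp
    obtain ⟨r, hr, w, hw, rfl⟩ := A.mem_nodes_succ.1 hp
    have h1 := ih r hr
    have h2 := A.two_le w
    rw [pow_succ, pow_add]
    exact Nat.mul_le_mul h1 h2

lemma ht_geR {y : ℤ} (n : ℕ) {p : ℕ × ℤ} (hp : p ∈ A.nodes y n) : (2 : ℝ) ^ n * (A.q : ℝ) ^ n ≤ 2 ^ p.1 := by
  have := A.ht_ge n p hp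
  rw [← mul_pow]
  exact_mod_cast this

/-- The weights are small. -/
lemma wt_le {γ : ℝ} (hγ : 0 ≤ γ) {y : ℤ} (n : ℕ) {p : ℕ × ℤ} (hp : p ∈ A.nodes y n) :
    A.wt γ n p.1 ≤ ((1 / 2 : ℝ) ^ n) ^ γ := by
  have hq := A.q_posR
  unfold wt
  refine Real.rpow_le_rpow (by positivity) ?_ hγ
  rw [div_le_iff₀ (by positivity)]
  have h1 := A.ht_geR n hp
  have h2 : (1 / 2 : ℝ) ^ n * ((2 : ℝ) ^ n * (A.q : ℝ) ^ n) ≤ (1 / 2 : ℝ) ^ n * 2 ^ p.1 :=
    mul_le_mul_of_nonneg_left h1 (by positivity)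
  rwa [← mul_assoc, ← mul_pow, show (1 / 2 : ℝ) * 2 = 1 by norm_num, one_pow, one_mul] at h2

/-- constant for the translations -/
noncomputable def K0 : ℝ := 1 + ∑ w, |(A.b w : ℝ)|

lemma one_le_K0 : 1 ≤ A.K0 := by
  unfold K0
  have : 0 ≤ ∑ w, |(A.b w : ℝ)| := Finset.sum_nonneg fun _ _ => abs_nonneg _
  linarith

lemma b_le (w : A.ι) : |(A.b w : ℝ)| ≤ A.K0 := by
  unfold K0
  have := Finset.single_le_sum (f := fun w => |(A.b w : ℝ)|) (fun _ _ => abs_nonneg _) (Finset.mem_univ w)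
  linarith

/-- Displacement of a node. -/
lemma rem_le {y : ℤ} (n : ℕ) : ∀ p ∈ A.nodes y n,
    |((2 : ℝ) ^ p.1 * y - (A.q : ℝ) ^ n * p.2)| ≤ A.K0 * (2 - 2 / 2 ^ n) * 2 ^ p.1 := by
  have hq := A.q_posR
  have hK := A.one_le_K0
  induction n with
  | zero =>
    intro p hp
    simp only [nodes, Finset.mem_singleton] at hp
    subst hp
    simp
  | succ n ih =>
    intro p hp
    obtain ⟨r, hr, w, hw, rfl⟩ := A.mem_nodes_succ.1 hp
    have h1 := ih r hr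
    have h2 : (A.q : ℝ) * A.child w r.2 = 2 ^ A.J w * r.2 - A.b w := by
      exact_mod_cast A.q_mul_child hw
    have h3 := A.ht_geR n hr
    have h4 := A.b_le w
    dsimp only
    have h5 : (2 : ℝ) ^ (r.1 + A.J w) * y - (A.q : ℝ) ^ (n + 1) * A.child w r.2 =
        2 ^ A.J w * ((2 : ℝ) ^ r.1 * y - (A.q : ℝ) ^ n * r.2) + (A.q : ℝ) ^ n * A.b w := by
      rw [pow_add, pow_succ]
      linear_combination (-(A.q : ℝ) ^ n) * h2
    rw [h5]
    have h6 : |(2 : ℝ) ^ A.J w * ((2 : ℝ) ^ r.1 * y - (A.q : ℝ) ^ n * r.2)| ≤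
        A.K0 * (2 - 2 / 2 ^ n) * 2 ^ (r.1 + A.J w) := by
      rw [abs_mul, abs_of_pos (by positivity : (0 : ℝ) < 2 ^ A.J w), pow_add]
      calc (2 : ℝ) ^ A.J w * _ ≤ 2 ^ A.J w * (A.K0 * (2 - 2 / 2 ^ n) * 2 ^ r.1) :=
            mul_le_mul_of_nonneg_left h1 (by positivity)
        _ = _ := by ring
    have h7 : |(A.q : ℝ) ^ n * (A.b w : ℝ)| ≤ A.K0 * (1 / 2 ^ n) * 2 ^ (r.1 + A.J w) := by
      rw [abs_mul, abs_of_pos (by positivity : (0 : ℝ) < (A.q : ℝ) ^ n), pow_add]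
      have h8 : (A.q : ℝ) ^ n ≤ 1 / 2 ^ n * 2 ^ r.1 := by
        rw [div_mul_eq_mul_div, one_mul, le_div_iff₀ (by positivity)]
        linarith
      have h9 : (1 : ℝ) ≤ 2 ^ A.J w := one_le_pow₀ (by norm_num)
      calc (A.q : ℝ) ^ n * |(A.b w : ℝ)| ≤ (1 / 2 ^ n * 2 ^ r.1) * A.K0 :=
            mul_le_mul h8 h4 (abs_nonneg _) (by positivity)
        _ ≤ (1 / 2 ^ n * 2 ^ r.1) * A.K0 * 2 ^ A.J w := le_mul_of_one_le_right (by positivity) h9
        _ = _ := by ring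
    refine (abs_add_le _ _).trans ((add_le_add h6 h7).trans (le_of_eq ?_))
    rw [← add_mul, ← mul_add]
    congr 2
    rw [pow_succ]
    field_simp
    ring

/-- Nodes with equal exponents are close to each other. -/
lemma node_dist {y : ℤ} {n J : ℕ} {v v' : ℤ} (hv : v ∈ A.lev y n J) (hv' : v' ∈ A.lev y n J) :
    |(v : ℝ) - v'| * (A.q : ℝ) ^ n ≤ 4 * A.K0 * 2 ^ J := by
  have hq := A.q_posR
  have hK := A.one_le_K0
  have h1 := A.rem_le n _ (A.mem_lev.1 hv)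
  have h2 := A.rem_le n _ (A.mem_lev.1 hv')
  dsimp only at h1 h2
  have h3 : A.K0 * (2 - 2 / 2 ^ n) * 2 ^ J ≤ 2 * A.K0 * 2 ^ J := by
    have : (0 : ℝ) ≤ 2 / 2 ^ n := by positivity
    have h4 : A.K0 * (2 - 2 / 2 ^ n) ≤ 2 * A.K0 := by nlinarith
    exact mul_le_mul_of_nonneg_right h4 (by positivity)
  have h5 : |(v : ℝ) - v'| * (A.q : ℝ) ^ n =
      |((2 : ℝ) ^ J * y - (A.q : ℝ) ^ n * v') - ((2 : ℝ) ^ J * y - (A.q : ℝ) ^ n * v)| := by
    rw [show ((2 : ℝ) ^ J * y - (A.q : ℝ) ^ n * v') - ((2 : ℝ) ^ J * y - (A.q : ℝ) ^ n * v) =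
      ((v : ℝ) - v') * (A.q : ℝ) ^ n by ring, abs_mul, abs_of_pos (by positivity : (0 : ℝ) < (A.q : ℝ) ^ n)]
  rw [h5]
  refine (abs_sub _ _).trans ?_
  linarith

/-- Nodes with equal exponents are incongruent modulo a large power of `q`. -/
lemma lev_sep {y : ℤ} {n J k : ℕ} (h : 4 * A.K0 * 2 ^ J < (A.q : ℝ) ^ k * (A.q : ℝ) ^ n)
    {v v' : ℤ} (hv : v ∈ A.lev y n J) (hv' : v' ∈ A.lev y n J) (hd : ((A.q ^ k : ℕ) : ℤ) ∣ v - v') :
    v = v' := by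
  have hq := A.q_posR
  have h1 := (A.node_dist hv hv').trans_lt h
  have h2 : |(v : ℝ) - v'| < (A.q : ℝ) ^ k := lt_of_mul_lt_mul_right h1 (by positivity)
  have h3 : |v - v'| < ((A.q ^ k : ℕ) : ℤ) := by exact_mod_cast h2
  have h4 := Int.eq_zero_of_abs_lt_dvd hd h3
  omega

end Sys

end CollatzOne
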