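import Pool.Agent.CollatzOne.FlatE
import Pool.Agent.CollatzOne.Lev

set_option autoImplicit false

/-!
The flattening theorem.
-/

namespace CollatzOne

/-- Statement of `greedy_tree`. -/
def GreedyTree : Prop :=
  ∀ {q m K : ℕ} (_ : 2 ≤ q) {t : ℝ} (_ : 0 < t) (_ : t ≤ 1) {g : ℤ → ℝ}
    (_ : Per (q ^ m) g) {M : ℝ} (_ : 0 ≤ M)
    (_ : ∀ (Λ : ℕ → Bool) (D : List Bool → ℤ), K ≤ ((Finset.range m).filter (fun i => Λ i = true)).card →
      Aligned q Λ D → S (q ^ m) (fun u => (av m (fun U => g (u + tv q D U))) ^ 2) ≤ M)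
    (Y : Finset ℤ) (_ : ∀ y ∈ Y, ∀ y' ∈ Y, ((q ^ m : ℕ) : ℤ) ∣ y - y' → y = y'),
    S (q ^ m) (fun u => (∑ y ∈ Y, g (u + y)) ^ 2) ≤
      (Y.card : ℝ) ^ 2 * M + Y.card * (t⁻¹ ^ K * (1 + t * (q - 1)) ^ m) * S (q ^ m) (fun u => g u ^ 2)

namespace Sys
variable (A : Sys)

/-- The contribution of one coarse class. -/
lemma class_bound (hG : GreedyTree) {γ σ : ℝ} (hγ : 0 ≤ γ) {n m K : ℕ} {t M : ℝ} (ht0 : 0 < t) (ht1 : t ≤ 1)
    (hM0 : 0 ≤ M)
    (hM : ∀ (Λ : ℕ → Bool) (D : List Bool → ℤ), K ≤ ((Finset.range m).filter (fun i => Λ i = true)).card →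
      Aligned A.q Λ D → nrm A.q m D (A.q ^ m) (A.g γ σ m) 1 ≤ M)
    (hsep : ∀ J ∈ Finset.range (A.Jmax n + 1), 4 * A.K0 * 2 ^ J < (A.q : ℝ) ^ m * (A.q : ℝ) ^ n) (y : ℤ) :
    S (A.q ^ m) (fun U => (∑ p ∈ A.nodes y n, A.wt γ n p.1 / A.P γ n y * A.g γ σ m (p.2 + 2 ^ p.1 * U)) ^ 2) ≤
      M + (t⁻¹ ^ K * (1 + t * (A.q - 1)) ^ m) * A.AA γ (2 * σ) m *
        ((A.Jmax n + 1) * (((1 / 2 : ℝ) ^ n) ^ γ / A.P γ n y)) := by
  have hP := A.P_pos γ n y
  have hq := A.q_posR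
  have hq3 : (3 : ℝ) ≤ A.q := by exact_mod_cast A.three_le_q
  set V := t⁻¹ ^ K * (1 + t * ((A.q : ℝ) - 1)) ^ m with hV
  have hV0 : 0 ≤ V := by
    have : 0 ≤ 1 + t * ((A.q : ℝ) - 1) := by nlinarith
    positivity
  set a := A.AA γ (2 * σ) m with ha
  have ha0 : 0 < a := A.AA_pos _ _ _
  set w : ℕ → ℝ := fun J => A.wt γ n J / A.P γ n y with hw
  have hw0 : ∀ J, 0 ≤ w J := fun J => div_nonneg (A.wt_pos _ _ _).le hP.le
  set c : ℕ → ℝ := fun J => ((A.lev y n J).card : ℝ) with hc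
  set H : ℕ → ℤ → ℝ := fun J U => ∑ v ∈ A.lev y n J, A.g γ σ m (v + 2 ^ J * U) with hH
  have hsum1 : ∑ J ∈ Finset.range (A.Jmax n + 1), w J * c J = 1 := by
    rw [← A.sum_prob γ n y, A.sum_lev y n (fun J _ => w J)]
    refine Finset.sum_congr rfl fun J _ => ?_
    rw [Finset.sum_const, nsmul_eq_mul, mul_comm]
  have hsplit : ∀ U : ℤ, (∑ p ∈ A.nodes y n, A.wt γ n p.1 / A.P γ n y * A.g γ σ m (p.2 + 2 ^ p.1 * U)) =
      ∑ J ∈ Finset.range (A.Jmax n + 1), w J * H J U := by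
    intro U
    rw [A.sum_lev y n (fun J v => A.wt γ n J / A.P γ n y * A.g γ σ m (v + 2 ^ J * U))]
    refine Finset.sum_congr rfl fun J _ => ?_
    rw [Finset.mul_sum]
  have hsq : ∀ U : ℤ, (∑ p ∈ A.nodes y n, A.wt γ n p.1 / A.P γ n y * A.g γ σ m (p.2 + 2 ^ p.1 * U)) ^ 2 ≤
      ∑ J ∈ Finset.range (A.Jmax n + 1), w J / c J * (H J U) ^ 2 := by
    intro U
    rw [hsplit]
    have h1 := Finset.sum_sq_le_sum_mul_sum_of_sq_le_mul (Finset.range (A.Jmax n + 1))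
      (r := fun J => w J * H J U) (f := fun J => w J * c J) (g := fun J => w J / c J * (H J U) ^ 2)
      (fun J _ => mul_nonneg (hw0 J) (Nat.cast_nonneg _))
      (fun J _ => mul_nonneg (div_nonneg (hw0 J) (Nat.cast_nonneg _)) (sq_nonneg _))
      (fun J _ => by
        by_cases h0 : c J = 0
        · have : (A.lev y n J) = ∅ := by
            rw [← Finset.card_eq_zero]
            exact_mod_cast (show ((A.lev y n J).card : ℝ) = 0 from h0)
          have hH0 : H J U = 0 := by simp only [hH, this, Finset.sum_empty]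
          rw [hH0, h0]; simp
        · apply le_of_eq
          field_simp)
    rw [hsum1, one_mul] at h1
    exact h1
  refine (S_mono hsq).trans ?_
  rw [S_sum]
  have hterm : ∀ J ∈ Finset.range (A.Jmax n + 1), S (A.q ^ m) (fun U => w J / c J * (H J U) ^ 2) ≤
      w J * c J * M + V * a * (((1 / 2 : ℝ) ^ n) ^ γ / A.P γ n y) := by
    intro J hJ
    have hX : 0 ≤ ((1 / 2 : ℝ) ^ n) ^ γ / A.P γ n y := by positivity
    rw [S_mul_left]
    by_cases h0 : c J = 0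
    · rw [h0]
      simp only [div_zero, zero_mul, mul_zero, zero_add]
      positivity
    · have hcpos : 0 < c J := lt_of_le_of_ne (Nat.cast_nonneg _) (Ne.symm h0)
      have h1 : S (A.q ^ m) (fun U => (H J U) ^ 2) = S (A.q ^ m) (fun u => (∑ v ∈ A.lev y n J, A.g γ σ m (u + v)) ^ 2) := by
        have hper : Per (A.q ^ m) (fun u => (∑ v ∈ A.lev y n J, A.g γ σ m (u + v)) ^ 2) := fun u => by
          show (∑ v ∈ A.lev y n J, A.g γ σ m (u + _ + v)) ^ 2 = _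
          congr 1
          refine Finset.sum_congr rfl fun v _ => ?_
          rw [add_right_comm, A.g_per γ σ m]
        rw [← S_affine hper (A.coprime_two_pow J m) 0]
        refine S_congr fun U => ?_
        simp only [hH]
        congr 1
        refine Finset.sum_congr rfl fun v _ => ?_
        rw [add_zero, add_comm]
      have h2 := hG (q := A.q) (m := m) (K := K) (by have := A.three_le_q; omega) ht0 ht1 (A.g_per γ σ m) hM0
        (fun Λ D h3 h4 => by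
          have h5 := hM Λ D h3 h4
          unfold nrm Rop at h5
          simpa using h5) (A.lev y n J) (fun v hv v' hv' h => A.lev_sep (hsep J hJ) hv hv' h)
      rw [h1]
      have h6 : S (A.q ^ m) (fun u => A.g γ σ m u ^ 2) = a := A.S_g_sq γ σ m
      rw [h6] at h2
      have h7 : w J ≤ ((1 / 2 : ℝ) ^ n) ^ γ / A.P γ n y := by
        have hne : (A.lev y n J).Nonempty := by
          rw [← Finset.card_pos]
          exact_mod_cast (show (0 : ℝ) < ((A.lev y n J).card : ℝ) from hcpos)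
        obtain ⟨v, hv⟩ := hne
        have := A.wt_le hγ n (A.mem_lev.1 hv)
        exact div_le_div_of_nonneg_right this hP.le
      calc w J / c J * S (A.q ^ m) (fun u => (∑ v ∈ A.lev y n J, A.g γ σ m (u + v)) ^ 2)
          ≤ w J / c J * (c J ^ 2 * M + c J * V * a) :=
            mul_le_mul_of_nonneg_left h2 (div_nonneg (hw0 J) hcpos.le)
        _ = w J * c J * M + V * a * w J := by field_simp
        _ ≤ _ := by
            have := mul_le_mul_of_nonneg_left h7 (show 0 ≤ V * a by positivity)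
            linarith
  refine (Finset.sum_le_sum hterm).trans (le_of_eq ?_)
  rw [Finset.sum_add_distrib, ← Finset.sum_mul, hsum1, one_mul, Finset.sum_const, Finset.card_range, nsmul_eq_mul]
  push_cast
  ring

/-- The recursive inequality. -/
lemma AA_step (hG : GreedyTree) {γ σ : ℝ} (hγ : 0 ≤ γ) (hσ : 0 ≤ σ) {n m K : ℕ} {t M Pm : ℝ} (ht0 : 0 < t) (ht1 : t ≤ 1)
    (hM0 : 0 ≤ M) (hPm : 0 < Pm) (hPm' : ∀ y, Pm ≤ A.P γ n y)
    (hM : ∀ (Λ : ℕ → Bool) (D : List Bool → ℤ), K ≤ ((Finset.range m).filter (fun i => Λ i = true)).card →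
      Aligned A.q Λ D → nrm A.q m D (A.q ^ m) (A.g γ σ m) 1 ≤ M)
    (hsep : ∀ J ∈ Finset.range (A.Jmax n + 1), 4 * A.K0 * 2 ^ J < (A.q : ℝ) ^ m * (A.q : ℝ) ^ n) :
    A.AA γ (2 * σ) (n + m) ≤ A.AA γ (2 * σ) n * (M + (t⁻¹ ^ K * (1 + t * (A.q - 1)) ^ m) * A.AA γ (2 * σ) m *
        ((A.Jmax n + 1) * (((1 / 2 : ℝ) ^ n) ^ γ / Pm))) := by
  have hq3 : (3 : ℝ) ≤ A.q := by exact_mod_cast A.three_le_q
  have hV0 : 0 ≤ t⁻¹ ^ K * (1 + t * ((A.q : ℝ) - 1)) ^ m := by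
    have : 0 ≤ 1 + t * ((A.q : ℝ) - 1) := by nlinarith
    positivity
  have ha0 := (A.AA_pos γ (2 * σ) m).le
  rw [← A.S_g_sq γ σ (n + m), ← A.S_g_sq γ σ n, pow_add, S_mul, ← S_mul_right]
  refine S_mono fun y => ?_
  have h1 : ∀ U : ℤ, (A.g γ σ (n + m) (y + ((A.q ^ n : ℕ) : ℤ) * U)) ^ 2 ≤ (A.g γ σ n y) ^ 2 *
      (∑ p ∈ A.nodes y n, A.wt γ n p.1 / A.P γ n y * A.g γ σ m (p.2 + 2 ^ p.1 * U)) ^ 2 := by
    intro U
    rw [← mul_pow]
    refine pow_le_pow_left₀ (A.g_nonneg _ _ _ _) ?_ 2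
    have := A.P_neg_le γ hσ n m y U
    push_cast
    exact this
  refine (S_mono h1).trans ?_
  rw [S_mul_left]
  refine mul_le_mul_of_nonneg_left ?_ (sq_nonneg _)
  refine (A.class_bound hG hγ ht0 ht1 hM0 hM hsep y).trans ?_
  have h2 : ((1 / 2 : ℝ) ^ n) ^ γ / A.P γ n y ≤ ((1 / 2 : ℝ) ^ n) ^ γ / Pm :=
    div_le_div_of_nonneg_left (by positivity) hPm (hPm' y)
  gcongr

end Sys

end CollatzOne
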