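import Pool.Agent.CollatzOne.FlatF

set_option autoImplicit false

/-!
The flattening theorem, final form.
-/

namespace CollatzOne

namespace Sys
variable (A : Sys)

lemma exists_L : ∃ L : ℕ, 1 ≤ L ∧ ∀ n : ℕ, 1 ≤ n → ∀ J ∈ Finset.range (A.Jmax n + 1),
    4 * A.K0 * 2 ^ J < (A.q : ℝ) ^ (L * n) * (A.q : ℝ) ^ n := by
  have hq := A.q_posR
  have hq1 := A.one_lt_q
  have hK := A.one_le_K0
  obtain ⟨L, hL⟩ := pow_unbounded_of_one_lt (4 * A.K0 * 2 ^ (∑ w, A.J w)) hq1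
  have hX : 1 ≤ 4 * A.K0 := by linarith
  have hY : (1 : ℝ) ≤ 2 ^ (∑ w, A.J w) := one_le_pow₀ (by norm_num)
  refine ⟨L + 1, by omega, fun n hn J hJ => ?_⟩
  rw [Finset.mem_range] at hJ
  have hJ' : J ≤ n * ∑ w, A.J w := by unfold Jmax at hJ; omega
  have h1 : (4 * A.K0) * 2 ^ J ≤ (4 * A.K0 * 2 ^ (∑ w, A.J w)) ^ n := by
    rw [mul_pow, ← pow_mul]
    refine mul_le_mul ?_ ?_ (by positivity) (by positivity)
    · calc 4 * A.K0 = (4 * A.K0) ^ 1 := (pow_one _).symm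
        _ ≤ (4 * A.K0) ^ n := pow_le_pow_right₀ hX hn
    · refine pow_le_pow_right₀ (by norm_num) ?_
      rw [mul_comm]; exact hJ'
  have h2 : (4 * A.K0 * 2 ^ (∑ w, A.J w)) ^ n < ((A.q : ℝ) ^ L) ^ n :=
    pow_lt_pow_left₀ hL (by positivity) (by omega)
  have h3 : ((A.q : ℝ) ^ L) ^ n ≤ (A.q : ℝ) ^ ((L + 1) * n) * (A.q : ℝ) ^ n := by
    rw [← pow_mul, ← pow_add]
    exact pow_le_pow_right₀ hq1.le (by nlinarith)
  exact h1.trans_lt (h2.trans_le h3)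

lemma term2_aux {V X l₁ G n a B C₃ δ₃ : ℝ} (hX0 : 0 ≤ X) (hG : 0 < G) (hB : 0 < B) (ha : 0 < a)
    (hC : 0 < C₃) (hn : 0 ≤ n) (hδ : δ₃ ≤ G / 2) (hV : V ≤ Real.exp (l₁ + 3 * G / 16 * n))
    (hX : X ≤ C₃ * Real.exp (G / 8 * n)) :
    V * a * (X * (Real.exp (-(G * n)) / (B * Real.exp (-(G / 8 * n))))) ≤
      a * (Real.exp l₁ * C₃ / B * Real.exp (-(δ₃ * n))) := by
  have h1 : Real.exp (-(G * n)) / (B * Real.exp (-(G / 8 * n))) = B⁻¹ * Real.exp (-(7 * G / 8 * n)) := by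
    rw [div_eq_iff (by positivity)]
    rw [show B⁻¹ * Real.exp (-(7 * G / 8 * n)) * (B * Real.exp (-(G / 8 * n))) =
      (B⁻¹ * B) * (Real.exp (-(7 * G / 8 * n)) * Real.exp (-(G / 8 * n))) by ring,
      inv_mul_cancel₀ hB.ne', one_mul, ← Real.exp_add]
    congr 1
    ring
  rw [h1]
  have h2 : V * a * (X * (B⁻¹ * Real.exp (-(7 * G / 8 * n)))) ≤
      Real.exp (l₁ + 3 * G / 16 * n) * a * ((C₃ * Real.exp (G / 8 * n)) * (B⁻¹ * Real.exp (-(7 * G / 8 * n)))) := by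
    gcongr
  refine h2.trans ?_
  have h3 : Real.exp (l₁ + 3 * G / 16 * n) * (Real.exp (G / 8 * n) * Real.exp (-(7 * G / 8 * n))) =
      Real.exp l₁ * Real.exp (3 * G / 16 * n + G / 8 * n - 7 * G / 8 * n) := by
    rw [← Real.exp_add, ← Real.exp_add, ← Real.exp_add]
    congr 1
    ring
  have h4 : Real.exp (3 * G / 16 * n + G / 8 * n - 7 * G / 8 * n) ≤ Real.exp (-(δ₃ * n)) := by
    apply Real.exp_le_exp.2
    nlinarith
  calc Real.exp (l₁ + 3 * G / 16 * n) * a * ((C₃ * Real.exp (G / 8 * n)) * (B⁻¹ * Real.exp (-(7 * G / 8 * n))))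
      = a * (C₃ * B⁻¹) * (Real.exp (l₁ + 3 * G / 16 * n) * (Real.exp (G / 8 * n) * Real.exp (-(7 * G / 8 * n)))) := by
        ring
    _ = a * (C₃ * B⁻¹) * (Real.exp l₁ * Real.exp (3 * G / 16 * n + G / 8 * n - 7 * G / 8 * n)) := by rw [h3]
    _ ≤ a * (C₃ * B⁻¹) * (Real.exp l₁ * Real.exp (-(δ₃ * n))) := by gcongr
    _ = _ := by rw [div_eq_mul_inv]; ring

lemma V_aux {t q κ l₁ G : ℝ} {L n : ℕ} (hq : 1 ≤ q) (ht0 : 0 < t) (hl₁ : l₁ = Real.log t⁻¹) (hl₁0 : 0 ≤ l₁)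
    (hκ0 : 0 ≤ κ) (htL : L * (t * (q - 1)) ≤ G / 8) (hκL : κ * L * l₁ ≤ G / 16) :
    t⁻¹ ^ ⌈κ * ((L * n : ℕ) : ℝ)⌉₊ * (1 + t * (q - 1)) ^ (L * n) ≤ Real.exp (l₁ + 3 * G / 16 * n) := by
  have hn0 : (0 : ℝ) ≤ n := Nat.cast_nonneg _
  have htq : 0 ≤ t * (q - 1) := mul_nonneg ht0.le (by linarith)
  have h1 : t⁻¹ ^ ⌈κ * ((L * n : ℕ) : ℝ)⌉₊ ≤ Real.exp (l₁ * (κ * ((L * n : ℕ) : ℝ) + 1)) := by
    have h11 : t⁻¹ = Real.exp l₁ := by rw [hl₁]; exact (Real.exp_log (by positivity)).symm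
    rw [h11, ← Real.exp_nat_mul]
    apply Real.exp_le_exp.2
    rw [mul_comm]
    refine mul_le_mul_of_nonneg_left ?_ hl₁0
    exact (Nat.ceil_lt_add_one (by positivity)).le
  have h2 : (1 + t * (q - 1)) ^ (L * n) ≤ Real.exp (((L * n : ℕ) : ℝ) * (t * (q - 1))) := by
    rw [Real.exp_nat_mul]
    refine pow_le_pow_left₀ (by positivity) ?_ _
    rw [add_comm]
    exact Real.add_one_le_exp _
  refine (mul_le_mul h1 h2 (by positivity) (Real.exp_pos _).le).trans ?_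
  rw [← Real.exp_add]
  apply Real.exp_le_exp.2
  push_cast
  have h3 : κ * L * l₁ * n ≤ G / 16 * n := mul_le_mul_of_nonneg_right hκL hn0
  have h4 : L * (t * (q - 1)) * n ≤ G / 8 * n := mul_le_mul_of_nonneg_right htL hn0
  nlinarith

lemma J_aux {G Jm n : ℝ} (hG0 : 0 < G) (hJ : 0 ≤ Jm) (hn : 0 ≤ n) :
    n * Jm + 1 ≤ (8 * Jm / G + 1) * Real.exp (G / 8 * n) := by
  have h2 : G / 8 * n ≤ Real.exp (G / 8 * n) := by
    have := Real.add_one_le_exp (G / 8 * n)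
    linarith
  have h3 : (1 : ℝ) ≤ Real.exp (G / 8 * n) := Real.one_le_exp (by positivity)
  have h4 : n * Jm = 8 * Jm / G * (G / 8 * n) := by field_simp
  rw [h4, add_mul, one_mul]
  have h5 : 8 * Jm / G * (G / 8 * n) ≤ 8 * Jm / G * Real.exp (G / 8 * n) :=
    mul_le_mul_of_nonneg_left h2 (by positivity)
  linarith

lemma half_aux (γ : ℝ) (n : ℕ) : ((1 / 2 : ℝ) ^ n) ^ γ = Real.exp (-(γ * Real.log 2 * n)) := by
  rw [Real.rpow_def_of_pos (by positivity), Real.log_pow]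
  congr 1
  rw [one_div, Real.log_inv]
  ring

lemma step_bound (hG : GreedyTree) {γ σ κ t l₁ C δ B : ℝ} {L n : ℕ} (hγ : 0 < γ) (hσ : 0 < σ)
    (ht0 : 0 < t) (ht1 : t ≤ 1) (hl₁ : l₁ = Real.log t⁻¹) (hl₁0 : 0 ≤ l₁)
    (htL : L * (t * (A.q - 1)) ≤ γ * Real.log 2 / 8) (hκ0 : 0 < κ) (hκL : κ * L * l₁ ≤ γ * Real.log 2 / 16)
    (hC : 0 < C) (hB : 0 < B)
    (hdec : ∀ (Λ : ℕ → Bool) (D : List Bool → ℤ),
      κ * ((L * n : ℕ) : ℝ) ≤ (((Finset.range (L * n)).filter (fun i => Λ i = true)).card : ℝ) → Aligned A.q Λ D →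
      nrm A.q (L * n) D (A.q ^ (L * n)) (A.g γ σ (L * n)) 1 ≤
        C * Real.exp (-(δ * ((L * n : ℕ) : ℝ))) * A.AA γ (2 * σ) (L * n))
    (hPB : ∀ y : ℤ, B * Real.exp (-(γ * Real.log 2 / 8 * n)) ≤ A.P γ n y)
    (hsep : ∀ J ∈ Finset.range (A.Jmax n + 1), 4 * A.K0 * 2 ^ J < (A.q : ℝ) ^ (L * n) * (A.q : ℝ) ^ n) :
    A.AA γ (2 * σ) (n + L * n) ≤ A.AA γ (2 * σ) n * (A.AA γ (2 * σ) (L * n) *
        ((C + Real.exp l₁ * (8 * ((∑ w, A.J w : ℕ) : ℝ) / (γ * Real.log 2) + 1) / B) *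
          Real.exp (-(min (δ * L) (γ * Real.log 2 / 2) * n)))) := by
  have hq1 := A.one_lt_q
  have hlog2 : 0 < Real.log 2 := Real.log_pos (by norm_num)
  have hG0 : 0 < γ * Real.log 2 := by positivity
  have hn0 : (0 : ℝ) ≤ n := Nat.cast_nonneg _
  have ha0 : 0 < A.AA γ (2 * σ) (L * n) := A.AA_pos _ _ _
  have hJm0 : (0 : ℝ) ≤ ((∑ w, A.J w : ℕ) : ℝ) := Nat.cast_nonneg _
  have hK : ∀ (Λ : ℕ → Bool) (D : List Bool → ℤ),
      ⌈κ * ((L * n : ℕ) : ℝ)⌉₊ ≤ ((Finset.range (L * n)).filter (fun i => Λ i = true)).card →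
      Aligned A.q Λ D → nrm A.q (L * n) D (A.q ^ (L * n)) (A.g γ σ (L * n)) 1 ≤
        C * Real.exp (-(δ * ((L * n : ℕ) : ℝ))) * A.AA γ (2 * σ) (L * n) := by
    intro Λ D h1 h2
    refine hdec Λ D ?_ h2
    exact (Nat.le_ceil _).trans (by exact_mod_cast h1)
  have hstep := A.AA_step hG hγ.le hσ.le (n := n) (m := L * n) (K := ⌈κ * ((L * n : ℕ) : ℝ)⌉₊) (t := t)
    (M := C * Real.exp (-(δ * ((L * n : ℕ) : ℝ))) * A.AA γ (2 * σ) (L * n))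
    (Pm := B * Real.exp (-(γ * Real.log 2 / 8 * n))) ht0 ht1 (by positivity) (by positivity)
    hPB hK hsep
  refine hstep.trans (mul_le_mul_of_nonneg_left ?_ (A.AA_pos _ _ _).le)
  have h1 : Real.exp (-(δ * ((L * n : ℕ) : ℝ))) ≤ Real.exp (-(min (δ * L) (γ * Real.log 2 / 2) * n)) := by
    apply Real.exp_le_exp.2
    have h11 : min (δ * L) (γ * Real.log 2 / 2) ≤ δ * L := min_le_left _ _
    have h12 := mul_le_mul_of_nonneg_right h11 hn0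
    push_cast
    linarith
  have hV := V_aux (q := (A.q : ℝ)) (n := n) hq1.le ht0 hl₁ hl₁0 hκ0.le htL hκL
  have hJ := J_aux hG0 hJm0 hn0
  have hJe : ((A.Jmax n : ℕ) : ℝ) = n * ((∑ w, A.J w : ℕ) : ℝ) := by unfold Jmax; rw [Nat.cast_mul]
  have h2 := term2_aux (V := t⁻¹ ^ ⌈κ * ((L * n : ℕ) : ℝ)⌉₊ * (1 + t * ((A.q : ℝ) - 1)) ^ (L * n))
    (X := n * ((∑ w, A.J w : ℕ) : ℝ) + 1) (n := (n : ℝ)) (δ₃ := min (δ * L) (γ * Real.log 2 / 2))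
    (a := A.AA γ (2 * σ) (L * n))
    (by positivity) hG0 hB ha0 (by positivity) hn0 (min_le_right _ _) hV hJ
  rw [half_aux, hJe]
  have h3 : C * Real.exp (-(δ * ((L * n : ℕ) : ℝ))) * A.AA γ (2 * σ) (L * n) ≤
      C * Real.exp (-(min (δ * L) (γ * Real.log 2 / 2) * n)) * A.AA γ (2 * σ) (L * n) := by
    gcongr
  refine (add_le_add h3 h2).trans (le_of_eq ?_)
  ring

theorem flatten (hG : GreedyTree) (hCU : ∀ k : ℕ, 1 ≤ k → ChunkUniform A.l k) {γ σ : ℝ} (hγ : 0 < γ)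
    (hσ : 0 < σ)
    (hsub : ∀ η : ℝ, 0 < η → ∃ B : ℝ, 0 < B ∧ ∀ (n : ℕ) (y : ℤ), B * Real.exp (-(η * n)) ≤ A.P γ n y) :
    A.Dl γ (2 * σ) + Real.log A.q ≤ 2 * A.Dl γ σ := by
  by_contra hcon
  push Not at hcon
  have hq := A.q_posR
  have hq1 := A.one_lt_q
  obtain ⟨L, hL1, hsep⟩ := A.exists_L
  have hL0 : (1 : ℝ) ≤ L := by exact_mod_cast hL1
  obtain ⟨G, hGdef⟩ : ∃ G, G = γ * Real.log 2 := ⟨_, rfl⟩
  have hlog2 : 0 < Real.log 2 := Real.log_pos (by norm_num)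
  have hG0 : 0 < G := by rw [hGdef]; positivity
  -- choice of t
  obtain ⟨t, ht⟩ : ∃ t, t = min 1 (G / (8 * L * A.q)) := ⟨_, rfl⟩
  have ht0 : 0 < t := by rw [ht]; exact lt_min one_pos (by positivity)
  have ht1 : t ≤ 1 := by rw [ht]; exact min_le_left _ _
  have htL : L * (t * (A.q - 1)) ≤ G / 8 := by
    have h1 : t ≤ G / (8 * L * A.q) := by rw [ht]; exact min_le_right _ _
    rw [le_div_iff₀ (by positivity)] at h1
    have h2 : 0 ≤ t * L := by positivity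
    nlinarith
  obtain ⟨l₁, hl₁⟩ : ∃ l₁, l₁ = Real.log t⁻¹ := ⟨_, rfl⟩
  have hl₁0 : 0 ≤ l₁ := by rw [hl₁]; exact Real.log_nonneg ((one_le_inv₀ ht0).2 ht1)
  obtain ⟨κ, hκ⟩ : ∃ κ, κ = G / (16 * L * (1 + l₁)) := ⟨_, rfl⟩
  have hκ0 : 0 < κ := by rw [hκ]; positivity
  have hκL : κ * L * l₁ ≤ G / 16 := by
    rw [hκ, div_mul_eq_mul_div, div_mul_eq_mul_div, div_le_div_iff₀ (by positivity) (by norm_num)]
    nlinarith [mul_nonneg hG0.le (by linarith : (0 : ℝ) ≤ L)]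
  obtain ⟨C, hC, δ, hδ, m₀, hdec⟩ := A.tree_decay hCU hσ hκ0 hcon
  obtain ⟨B, hB, hPB⟩ := hsub (G / 8) (by positivity)
  obtain ⟨C₅, hC₅⟩ : ∃ C₅, C₅ = C + Real.exp l₁ * (8 * ((∑ w, A.J w : ℕ) : ℝ) / (γ * Real.log 2) + 1) / B :=
    ⟨_, rfl⟩
  have hC₅0 : 0 < C₅ := by
    rw [hC₅]
    have : (0 : ℝ) ≤ ((∑ w, A.J w : ℕ) : ℝ) := Nat.cast_nonneg _
    positivity
  obtain ⟨δ₃, hδ₃⟩ : ∃ δ₃, δ₃ = min (δ * L) (γ * Real.log 2 / 2) := ⟨_, rfl⟩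
  have hδ₃0 : 0 < δ₃ := by
    rw [hδ₃]
    exact lt_min (by positivity) (by positivity)
  have hmain : ∀ n : ℕ, 1 ≤ n → m₀ ≤ L * n →
      A.AA γ (2 * σ) (n + L * n) ≤ A.AA γ (2 * σ) n * (A.AA γ (2 * σ) (L * n) *
        (C₅ * Real.exp (-(δ₃ * n)))) := by
    intro n hn hm
    rw [hC₅, hδ₃]
    rw [hGdef] at htL hκL hPB
    exact A.step_bound hG hγ hσ ht0 ht1 hl₁ hl₁0 htL hκ0 hκL hC hB (fun Λ D => hdec _ hm Λ D)
      (fun y => hPB n y) (hsep n hn)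
  -- conclusion
  obtain ⟨ε, hε⟩ : ∃ ε, ε = δ₃ / (4 * (1 + L)) := ⟨_, rfl⟩
  have hε0 : 0 < ε := by rw [hε]; positivity
  obtain ⟨n₁, hn₁⟩ := A.Dl_lim γ (s := 2 * σ) (by linarith) hε0
  obtain ⟨n₂, hn₂⟩ := exists_nat_gt (2 * Real.log C₅ / δ₃)
  obtain ⟨n, hn⟩ : ∃ n, n = max (max n₁ n₂) (max m₀ 1) := ⟨_, rfl⟩
  have h1 : n₁ ≤ n := by rw [hn]; exact (le_max_left _ _).trans (le_max_left _ _)
  have h2 : n₂ ≤ n := by rw [hn]; exact (le_max_right _ _).trans (le_max_left _ _)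
  have h3 : m₀ ≤ n := by rw [hn]; exact (le_max_left _ _).trans (le_max_right _ _)
  have h4 : 1 ≤ n := by rw [hn]; exact (le_max_right _ _).trans (le_max_right _ _)
  have hnL : n ≤ L * n := Nat.le_mul_of_pos_left n hL1
  have h5 := hmain n h4 (h3.trans hnL)
  have h6 := Real.log_le_log (A.AA_pos _ _ _) h5
  have hp1 := (A.AA_pos γ (2 * σ) n).ne'
  have hp2 := (A.AA_pos γ (2 * σ) (L * n)).ne'
  have he := (Real.exp_pos (-(δ₃ * n))).ne'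
  rw [Real.log_mul hp1 (mul_ne_zero hp2 (mul_ne_zero hC₅0.ne' he)), Real.log_mul hp2 (mul_ne_zero hC₅0.ne' he),
    Real.log_mul hC₅0.ne' he, Real.log_exp] at h6
  have h7 := A.Dl_le γ (s := 2 * σ) (by linarith) (n + L * n)
  have h8 := hn₁ n h1
  have h9 := hn₁ (L * n) (h1.trans hnL)
  have h10 : 2 * Real.log C₅ / δ₃ < n := hn₂.trans_le (by exact_mod_cast h2)
  rw [div_lt_iff₀ hδ₃0] at h10
  push_cast at h7 h9
  have h11 : ε * (1 + L) = δ₃ / 4 := by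
    rw [hε]; field_simp
  have h12 : ε * (n + L * n) = δ₃ / 4 * n := by rw [← h11]; ring
  have hn0 : (1 : ℝ) ≤ n := by exact_mod_cast h4
  have h13 : 0 < δ₃ * n := by positivity
  have h14 : A.Dl γ (2 * σ) * (n + L * n) ≤ (A.Dl γ (2 * σ) + ε) * n + ((A.Dl γ (2 * σ) + ε) * (L * n) +
    (Real.log C₅ + -(δ₃ * n))) := by linarith
  have h15 : 0 ≤ ε * (n + L * n) + Real.log C₅ - δ₃ * n := by linarith
  rw [h12] at h15
  linarith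

end Sys

end CollatzOne
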