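import Pool.Agent.CollatzOne.FlatG

set_option autoImplicit false

/-!
The abstract theorem: from typical growth to uniform growth.
-/

namespace CollatzOne

namespace Sys
variable (A : Sys)

/-- constant in the dependence on the exponent -/
noncomputable def bb : ℝ := ((∑ w, A.J w : ℕ) : ℝ) * Real.log 2

lemma bb_nonneg : 0 ≤ A.bb := mul_nonneg (Nat.cast_nonneg _) (Real.log_nonneg (by norm_num))

lemma ratio_le {y : ℤ} {n : ℕ} {p : ℕ × ℤ} (hp : p ∈ A.nodes y n) :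
    (A.q : ℝ) ^ n / 2 ^ p.1 ≤ (1 / 2 : ℝ) ^ n := by
  have := A.wt_le (γ := 1) zero_le_one n hp
  unfold wt at this
  simpa using this

lemma ratio_ge {y : ℤ} {n : ℕ} {p : ℕ × ℤ} (hp : p ∈ A.nodes y n) :
    Real.exp (-(A.bb * n)) ≤ (A.q : ℝ) ^ n / 2 ^ p.1 := by
  have hq := A.one_lt_q
  have h1 : (1 : ℝ) ≤ (A.q : ℝ) ^ n := one_le_pow₀ hq.le
  have h2 := A.nodes_fst_le n p hp
  have h3 : (2 : ℝ) ^ p.1 ≤ Real.exp (A.bb * n) := by
    have h4 : (2 : ℝ) ^ p.1 = Real.exp (p.1 * Real.log 2) := by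
      rw [Real.exp_nat_mul, Real.exp_log (by norm_num)]
    rw [h4]
    apply Real.exp_le_exp.2
    unfold bb
    have h5 : (p.1 : ℝ) ≤ n * ((∑ w, A.J w : ℕ) : ℝ) := by
      unfold Jmax at h2
      exact_mod_cast h2
    have h6 : 0 ≤ Real.log 2 := Real.log_nonneg (by norm_num)
    nlinarith
  rw [Real.exp_neg, le_div_iff₀ (by positivity)]
  calc (Real.exp (A.bb * n))⁻¹ * 2 ^ p.1 ≤ (Real.exp (A.bb * n))⁻¹ * Real.exp (A.bb * n) :=
        mul_le_mul_of_nonneg_left h3 (by positivity)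
    _ = 1 := inv_mul_cancel₀ (Real.exp_pos _).ne'
    _ ≤ _ := h1

/-- Comparison with the exponent 1. -/
lemma P_ge_one {γ : ℝ} (hγ : γ ≤ 1) (n : ℕ) (y : ℤ) :
    ((2 : ℝ) ^ (1 - γ)) ^ n * A.P 1 n y ≤ A.P γ n y := by
  rw [P_eq_sum, P_eq_sum, Finset.mul_sum]
  refine Finset.sum_le_sum fun p hp => ?_
  have h1 := A.ratio_le hp
  have hq := A.q_posR
  unfold wt
  set x := (A.q : ℝ) ^ n / 2 ^ p.1 with hx
  have hx0 : 0 < x := by positivity
  have h2 : x ^ γ = x ^ (γ - 1) * x := by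
    rw [← Real.rpow_add_one hx0.ne']
    congr 1; ring
  rw [Real.rpow_one, h2]
  refine mul_le_mul_of_nonneg_right ?_ hx0.le
  have h3 : ((1 / 2 : ℝ) ^ n) ^ (γ - 1) ≤ x ^ (γ - 1) :=
    Real.rpow_le_rpow_of_nonpos hx0 h1 (by linarith)
  refine le_trans (le_of_eq ?_) h3
  rw [one_div, inv_pow, Real.inv_rpow (by positivity), ← Real.rpow_neg (by positivity),
    ← Real.rpow_natCast, ← Real.rpow_natCast, ← Real.rpow_mul (by norm_num), ← Real.rpow_mul (by norm_num)]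
  congr 1
  ring

/-- Lipschitz dependence on the exponent. -/
lemma P_lip {γ γ' : ℝ} (h : γ ≤ γ') (n : ℕ) (y : ℤ) :
    Real.exp (-(A.bb * (γ' - γ) * n)) * A.P γ n y ≤ A.P γ' n y := by
  rw [P_eq_sum, P_eq_sum, Finset.mul_sum]
  refine Finset.sum_le_sum fun p hp => ?_
  have h1 := A.ratio_ge hp
  have hq := A.q_posR
  unfold wt
  set x := (A.q : ℝ) ^ n / 2 ^ p.1 with hx
  have hx0 : 0 < x := by positivity
  have h2 : x ^ γ' = x ^ (γ' - γ) * x ^ γ := by
    rw [← Real.rpow_add hx0]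
    congr 1; ring
  rw [h2]
  refine mul_le_mul_of_nonneg_right ?_ (by positivity)
  have h3 := Real.rpow_le_rpow (Real.exp_pos _).le h1 (show 0 ≤ γ' - γ by linarith)
  refine le_trans (le_of_eq ?_) h3
  rw [← Real.exp_mul]
  congr 1
  ring

/-- crude lower bound -/
lemma P_crude {γ : ℝ} (hγ : 0 ≤ γ) (n : ℕ) (y : ℤ) : Real.exp (-(A.bb * γ * n)) ≤ A.P γ n y := by
  have h1 := A.P_lip hγ n y
  rw [sub_zero] at h1
  refine le_trans ?_ h1
  have h2 : 1 ≤ A.P 0 n y := by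
    have h3 := A.P_pos 0 n y
    rw [P_eq_sum] at h3 ⊢
    simp only [wt, Real.rpow_zero, Finset.sum_const, nsmul_eq_mul, mul_one] at h3 ⊢
    have : 0 < (A.nodes y n).card := by exact_mod_cast h3
    exact_mod_cast this
  exact le_mul_of_one_le_right (Real.exp_pos _).le h2

lemma P_add_ge {γ B : ℝ} (n m : ℕ) (hB : ∀ y, B ≤ A.P γ m y) (hn : ∀ y, 1 ≤ A.P γ n y) (hB0 : 0 ≤ B) (y : ℤ) :
    B ≤ A.P γ (n + m) y := by
  have h1 := A.P_add γ n m y 0
  simp only [mul_zero, add_zero] at h1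
  rw [h1]
  calc B = 1 * B := (one_mul B).symm
    _ ≤ A.P γ n y * B := mul_le_mul_of_nonneg_right (hn y) hB0
    _ = ∑ p ∈ A.nodes y n, A.wt γ n p.1 * B := by rw [P_eq_sum, Finset.sum_mul]
    _ ≤ _ := Finset.sum_le_sum fun p _ => mul_le_mul_of_nonneg_left (hB _) (A.wt_pos _ _ _).le

/-- Uniform lower bound once one iterate is at least one. -/
lemma P_bdd_below {γ : ℝ} (hγ : 0 ≤ γ) {n : ℕ} (hn1 : 1 ≤ n) (hn : ∀ y, 1 ≤ A.P γ n y) (m : ℕ) :
    ∀ y, Real.exp (-(A.bb * γ * n)) ≤ A.P γ m y := by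
  induction m using Nat.strong_induction_on with
  | _ m ih =>
    intro y
    by_cases hm : m < n
    · refine le_trans ?_ (A.P_crude hγ m y)
      apply Real.exp_le_exp.2
      have h1 : (m : ℝ) ≤ n := by exact_mod_cast hm.le
      have h2 := mul_le_mul_of_nonneg_left h1 (mul_nonneg A.bb_nonneg hγ)
      linarith
    · push Not at hm
      obtain ⟨r, rfl⟩ := Nat.exists_eq_add_of_le hm
      exact A.P_add_ge n r (ih r (by omega)) hn (Real.exp_pos _).le y

lemma P_one_ge_two {γ : ℝ} (hγ : 0 ≤ γ) (y : ℤ) : 2 * Real.exp (-(A.bb * γ)) ≤ A.P γ 1 y := by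
  classical
  obtain ⟨w, w', hne, hw, hw'⟩ := A.deg y
  have hq := A.q_posR
  have hv : A.valid w y := by unfold valid q; push_cast; exact hw
  have hv' : A.valid w' y := by unfold valid q; push_cast; exact hw'
  have h1 : ∀ w, A.valid w y → Real.exp (-(A.bb * γ)) ≤
      if A.valid w y then ((A.q : ℝ) / 2 ^ A.J w) ^ γ * 1 else 0 := by
    intro w hv
    rw [if_pos hv, mul_one]
    have hmem : ((0 : ℕ) + A.J w, A.child w y) ∈ A.nodes y 1 := by
      rw [show (1 : ℕ) = 0 + 1 by rfl, mem_nodes_succ]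
      exact ⟨(0, y), by simp [nodes], w, hv, rfl⟩
    have h2 := A.ratio_ge hmem
    simp only [Nat.cast_one, mul_one, pow_one, zero_add] at h2
    have h3 := Real.rpow_le_rpow (Real.exp_pos _).le h2 hγ
    rw [← Real.exp_mul] at h3
    refine le_trans (le_of_eq ?_) h3
    congr 1; ring
  have h4 : A.P γ 1 y = ∑ w, if A.valid w y then ((A.q : ℝ) / 2 ^ A.J w) ^ γ * 1 else 0 := rfl
  rw [h4]
  have h5 := Finset.sum_le_sum_of_subset_of_nonneg (f := fun w => if A.valid w y then ((A.q : ℝ) / 2 ^ A.J w) ^ γ * 1 else 0)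
    (Finset.subset_univ ({w, w'} : Finset A.ι)) (fun i _ _ => by split_ifs <;> positivity)
  rw [Finset.sum_pair hne] at h5
  have h6 := h1 w hv
  have h7 := h1 w' hv'
  linarith

end Sys

end CollatzOne
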