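import Pool.Agent.CollatzOne.FlatH

set_option autoImplicit false

/-!
The abstract theorem: from typical growth to uniform growth (conclusion).
-/

namespace CollatzOne

namespace Sys
variable (A : Sys)

/-- Statement of `nondeg`. -/
def Nondeg : Prop :=
    ∃ c₀ : ℝ, 0 < c₀ ∧ ∃ c₁ : ℝ, 0 < c₁ ∧ ∀ n : ℕ, c₁ * (A.q : ℝ) ^ n ≤
      (((Finset.range (A.q ^ n)).filter (fun y : ℕ => c₀ ≤ A.F n y)).card : ℝ)

lemma Z_pos : 0 < A.Z := by
  unfold Z
  refine div_pos ?_ A.q_posR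
  unfold S
  refine Finset.sum_pos (fun x _ => A.T_pos (fun _ => one_pos) _) ⟨0, ?_⟩
  rw [Finset.mem_range]
  exact A.q_pos

/-- typical growth -/
lemma P_ge_good {γ₀ γ c₀ : ℝ} (hγ : γ ≤ γ₀) (hγ₀ : γ₀ ≤ 1) (hc₀ : 0 < c₀) {n : ℕ} {y : ℤ} (hy : c₀ ≤ A.F n y) :
    c₀ * Real.exp (Real.log (2 ^ (1 - γ₀) * A.Z) * n) ≤ A.P γ n y := by
  have hZ := A.Z_pos
  have h1 := A.P_ge_one (hγ.trans hγ₀) n y
  refine le_trans ?_ h1
  have h2 : A.P 1 n y = A.F n y * A.Z ^ n := by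
    unfold F P
    rw [div_mul_cancel₀]
    positivity
  rw [h2]
  have h3 : Real.exp (Real.log (2 ^ (1 - γ₀) * A.Z) * n) = (2 ^ (1 - γ₀) * A.Z) ^ n := by
    rw [mul_comm, Real.exp_nat_mul, Real.exp_log (by positivity)]
  rw [h3, mul_pow]
  have h4 : ((2 : ℝ) ^ (1 - γ₀)) ^ n ≤ ((2 : ℝ) ^ (1 - γ)) ^ n := by
    refine pow_le_pow_left₀ (by positivity) ?_ n
    exact Real.rpow_le_rpow_of_exponent_le (by norm_num) (by linarith)
  have hF0 : 0 ≤ A.F n y := hc₀.le.trans hy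
  calc c₀ * (((2 : ℝ) ^ (1 - γ₀)) ^ n * A.Z ^ n) ≤ A.F n y * (((2 : ℝ) ^ (1 - γ)) ^ n * A.Z ^ n) := by
        gcongr
    _ = _ := by ring

/-- One negative moment is small. -/
lemma exists_small_moment (hN : A.Nondeg) {γ₀ γ : ℝ} (hγ : γ ≤ γ₀) (hγ₀ : γ₀ ≤ 1)
    (hZ : 1 < 2 ^ (1 - γ₀) * A.Z)
    (hsub : ∀ η : ℝ, 0 < η → ∃ B : ℝ, 0 < B ∧ ∀ (n : ℕ) (y : ℤ), B * Real.exp (-(η * n)) ≤ A.P γ n y) :
    ∃ n : ℕ, 1 ≤ n ∧ A.AA γ (1 / n) n < (A.q : ℝ) ^ n := by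
  obtain ⟨c₀, hc₀, c₁, hc₁, hcard⟩ := hN
  obtain ⟨c, hc⟩ : ∃ c, c = Real.log (2 ^ (1 - γ₀) * A.Z) := ⟨_, rfl⟩
  have hc0 : 0 < c := by rw [hc]; exact Real.log_pos hZ
  have hq := A.q_posR
  have hc₁1 : c₁ ≤ 1 := by
    have h1 := hcard 0
    have h2 : (((Finset.range (A.q ^ 0)).filter (fun y : ℕ => c₀ ≤ A.F 0 y)).card : ℝ) ≤ 1 := by
      have := Finset.card_filter_le (Finset.range (A.q ^ 0)) (fun y : ℕ => c₀ ≤ A.F 0 y)
      rw [pow_zero, Finset.card_range] at this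
      rw [pow_zero]
      exact_mod_cast this
    rw [pow_zero, mul_one] at h1
    exact h1.trans h2
  -- choice of η
  obtain ⟨η, hη, hηc⟩ : ∃ η : ℝ, 0 < η ∧ (1 - c₁) * Real.exp (2 * η) + c₁ * Real.exp (-(c / 2)) < 1 := by
    have hcont : Filter.Tendsto (fun η : ℝ => (1 - c₁) * Real.exp (2 * η) + c₁ * Real.exp (-(c / 2)))
        (nhdsWithin 0 (Set.Ioi 0)) (nhds ((1 - c₁) * Real.exp (2 * 0) + c₁ * Real.exp (-(c / 2)))) := by
      have : Continuous (fun η : ℝ => (1 - c₁) * Real.exp (2 * η) + c₁ * Real.exp (-(c / 2))) := by fun_prop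
      exact (this.tendsto 0).mono_left nhdsWithin_le_nhds
    have hlt : (1 - c₁) * Real.exp (2 * 0) + c₁ * Real.exp (-(c / 2)) < 1 := by
      have h1 : Real.exp (-(c / 2)) < 1 := by
        rw [Real.exp_lt_one_iff]; linarith
      rw [mul_zero, Real.exp_zero]
      nlinarith
    have h2 := (hcont.eventually (gt_mem_nhds hlt)).and self_mem_nhdsWithin
    obtain ⟨η, h3, h4⟩ := h2.exists
    exact ⟨η, h4, h3⟩
  obtain ⟨B, hB, hPB⟩ := hsub η hη
  obtain ⟨n₁, hn₁⟩ := exists_nat_gt (-Real.log B / η)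
  obtain ⟨n₂, hn₂⟩ := exists_nat_gt (-Real.log c₀ / (c / 2))
  obtain ⟨n, hn⟩ : ∃ n, n = max (max n₁ n₂) 1 := ⟨_, rfl⟩
  have hn1 : 1 ≤ n := by rw [hn]; exact le_max_right _ _
  have hn1' : n₁ ≤ n := by rw [hn]; exact (le_max_left _ _).trans (le_max_left _ _)
  have hn2' : n₂ ≤ n := by rw [hn]; exact (le_max_right _ _).trans (le_max_left _ _)
  have hn0 : (0 : ℝ) < n := by exact_mod_cast hn1
  have h1 : -Real.log B < η * n := by
    have : -Real.log B / η < n := hn₁.trans_le (by exact_mod_cast hn1')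
    rw [div_lt_iff₀ hη] at this
    linarith
  have h2 : -Real.log c₀ < c / 2 * n := by
    have : -Real.log c₀ / (c / 2) < n := hn₂.trans_le (by exact_mod_cast hn2')
    rw [div_lt_iff₀ (by linarith)] at this
    linarith
  refine ⟨n, hn1, ?_⟩
  -- pointwise bounds
  have hbad : ∀ y : ℤ, (A.P γ n y) ^ (-(1 / (n : ℝ))) ≤ Real.exp (2 * η) := by
    intro y
    have hP := A.P_pos γ n y
    rw [Real.rpow_def_of_pos hP]
    apply Real.exp_le_exp.2
    have h3 := Real.log_le_log (by positivity) (hPB n y)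
    rw [Real.log_mul hB.ne' (Real.exp_pos _).ne', Real.log_exp] at h3
    have h4 : -(2 * η * n) ≤ Real.log (A.P γ n y) := by linarith
    have h5 : Real.log (A.P γ n y) * -(1 / (n : ℝ)) = -Real.log (A.P γ n y) / n := by ring
    rw [h5, div_le_iff₀ hn0]
    linarith
  have hgood : ∀ y : ℤ, c₀ ≤ A.F n y → (A.P γ n y) ^ (-(1 / (n : ℝ))) ≤ Real.exp (-(c / 2)) := by
    intro y hy
    have hP := A.P_pos γ n y
    rw [Real.rpow_def_of_pos hP]
    apply Real.exp_le_exp.2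
    have h3 := Real.log_le_log (by positivity) (A.P_ge_good hγ hγ₀ hc₀ hy)
    rw [← hc, Real.log_mul hc₀.ne' (Real.exp_pos _).ne', Real.log_exp] at h3
    have h5 : Real.log (A.P γ n y) * -(1 / (n : ℝ)) = -Real.log (A.P γ n y) / n := by ring
    rw [h5, div_le_iff₀ hn0]
    linarith
  have hee : Real.exp (-(c / 2)) ≤ Real.exp (2 * η) := Real.exp_le_exp.2 (by linarith)
  obtain ⟨s, hs⟩ : ∃ s, s = (Finset.range (A.q ^ n)).filter (fun y : ℕ => c₀ ≤ A.F n y) := ⟨_, rfl⟩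
  have hsum : A.AA γ (1 / n) n ≤ ∑ y ∈ Finset.range (A.q ^ n),
      (Real.exp (2 * η) - if c₀ ≤ A.F n (y : ℤ) then (Real.exp (2 * η) - Real.exp (-(c / 2))) else 0) := by
    rw [AA_eq]
    unfold S
    refine Finset.sum_le_sum fun y _ => ?_
    split_ifs with hy
    · rw [sub_sub_cancel]
      exact hgood _ hy
    · rw [sub_zero]
      exact hbad _
  have hval : ∑ y ∈ Finset.range (A.q ^ n),
      (Real.exp (2 * η) - if c₀ ≤ A.F n (y : ℤ) then (Real.exp (2 * η) - Real.exp (-(c / 2))) else 0) =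
      (A.q : ℝ) ^ n * Real.exp (2 * η) - s.card * (Real.exp (2 * η) - Real.exp (-(c / 2))) := by
    rw [Finset.sum_sub_distrib, Finset.sum_const, Finset.card_range, nsmul_eq_mul, ← Finset.sum_filter,
      Finset.sum_const, nsmul_eq_mul, hs]
    push_cast
    rfl
  rw [hval] at hsum
  have h3 := hcard n
  rw [← hs] at h3
  have h4 : c₁ * (A.q : ℝ) ^ n * (Real.exp (2 * η) - Real.exp (-(c / 2))) ≤
      s.card * (Real.exp (2 * η) - Real.exp (-(c / 2))) :=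
    mul_le_mul_of_nonneg_right h3 (by linarith)
  have hqn : 0 < (A.q : ℝ) ^ n := by positivity
  calc A.AA γ (1 / n) n ≤ (A.q : ℝ) ^ n * Real.exp (2 * η) -
        c₁ * (A.q : ℝ) ^ n * (Real.exp (2 * η) - Real.exp (-(c / 2))) := by linarith
    _ = (A.q : ℝ) ^ n * ((1 - c₁) * Real.exp (2 * η) + c₁ * Real.exp (-(c / 2))) := by ring
    _ < (A.q : ℝ) ^ n * 1 := mul_lt_mul_of_pos_left hηc hqn
    _ = _ := mul_one _

/-- Uniform growth at an exponent with subexponential lower bounds. -/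
lemma uniform_growth (hG : GreedyTree) (hCU : ∀ k : ℕ, 1 ≤ k → ChunkUniform A.l k) (hN : A.Nondeg)
    {γ₀ γ : ℝ} (hγ0 : 0 < γ) (hγ : γ ≤ γ₀) (hγ₀ : γ₀ ≤ 1) (hZ : 1 < 2 ^ (1 - γ₀) * A.Z)
    (hsub : ∀ η : ℝ, 0 < η → ∃ B : ℝ, 0 < B ∧ ∀ (n : ℕ) (y : ℤ), B * Real.exp (-(η * n)) ≤ A.P γ n y) :
    ∃ n : ℕ, 1 ≤ n ∧ ∃ x : ℝ, 1 < x ∧ ∀ y : ℤ, x ≤ A.P γ n y := by
  obtain ⟨n, hn1, hn⟩ := A.exists_small_moment hN hγ hγ₀ hZ hsub
  have hq := A.q_posR
  have hn0 : (0 : ℝ) < n := by exact_mod_cast hn1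
  obtain ⟨s, hs⟩ : ∃ s : ℝ, s = 1 / n := ⟨_, rfl⟩
  have hs0 : 0 < s := by rw [hs]; positivity
  rw [← hs] at hn
  have hD : A.Dl γ s < Real.log A.q := by
    have h1 := A.Dl_le γ hs0.le n
    have h2 := Real.log_lt_log (A.AA_pos _ _ _) hn
    rw [Real.log_pow] at h2
    have h3 : A.Dl γ s * n < Real.log A.q * n := by linarith
    exact lt_of_mul_lt_mul_right h3 hn0.le
  -- doubling
  have hdouble : ∀ k : ℕ, 2 ^ k * (Real.log A.q - A.Dl γ s) ≤ Real.log A.q - A.Dl γ (2 ^ k * s) := by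
    intro k
    induction k with
    | zero => simp
    | succ k ih =>
      have h1 := A.flatten hG hCU (σ := 2 ^ k * s) hγ0 (by positivity) hsub
      rw [show (2 : ℝ) * (2 ^ k * s) = 2 ^ (k + 1) * s by ring] at h1
      have h2 : (2 : ℝ) ^ (k + 1) * (Real.log A.q - A.Dl γ s) = 2 * (2 ^ k * (Real.log A.q - A.Dl γ s)) := by ring
      rw [h2]
      linarith
  obtain ⟨k, hk⟩ := pow_unbounded_of_one_lt (Real.log A.q / (Real.log A.q - A.Dl γ s)) (one_lt_two)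
  have hpos : 0 < Real.log A.q - A.Dl γ s := by linarith
  rw [div_lt_iff₀ hpos] at hk
  have hneg : A.Dl γ (2 ^ k * s) < 0 := by
    have := hdouble k
    linarith
  obtain ⟨s', hs'⟩ : ∃ s' : ℝ, s' = 2 ^ k * s := ⟨_, rfl⟩
  have hs'0 : 0 < s' := by rw [hs']; positivity
  rw [← hs'] at hneg
  obtain ⟨m₀, hm₀⟩ := A.Dl_lim γ hs'0.le (ε := -A.Dl γ s' / 2) (by linarith)
  obtain ⟨m, hm⟩ : ∃ m, m = max m₀ 1 := ⟨_, rfl⟩
  have hm1 : 1 ≤ m := by rw [hm]; exact le_max_right _ _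
  have hmm : m₀ ≤ m := by rw [hm]; exact le_max_left _ _
  have hm0 : (0 : ℝ) < m := by exact_mod_cast hm1
  have h1 := hm₀ m hmm
  have h2 : Real.log (A.AA γ s' m) < 0 := by
    have h3 : (A.Dl γ s' + -A.Dl γ s' / 2) * m < 0 := by
      have : A.Dl γ s' + -A.Dl γ s' / 2 < 0 := by linarith
      exact mul_neg_of_neg_of_pos this hm0
    linarith
  have hA0 := A.AA_pos γ s' m
  have hA1 : A.AA γ s' m < 1 := by
    by_contra hcon
    push Not at hcon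
    have := Real.log_nonneg hcon
    linarith
  refine ⟨m, hm1, (A.AA γ s' m) ^ (-(1 / s')), ?_, fun y => ?_⟩
  · exact Real.one_lt_rpow_of_pos_of_lt_one_of_neg hA0 hA1 (by
      rw [neg_lt_zero]; positivity)
  · -- reduce to a residue
    have hqm : (0 : ℤ) < ((A.q ^ m : ℕ) : ℤ) := by exact_mod_cast pow_pos A.q_pos m
    obtain ⟨z, hz⟩ : ∃ z : ℕ, (z : ℤ) = y % ((A.q ^ m : ℕ) : ℤ) :=
      ⟨(y % ((A.q ^ m : ℕ) : ℤ)).toNat, Int.toNat_of_nonneg (Int.emod_nonneg _ hqm.ne')⟩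
    have hz1 : z < A.q ^ m := by
      have := Int.emod_lt_of_pos y hqm
      rw [← hz] at this
      exact_mod_cast this
    have hPz : A.P γ m y = A.P γ m (z : ℤ) := by
      apply (A.P_per γ m).congr
      rw [hz]
      exact Int.dvd_self_sub_emod
    have hP := A.P_pos γ m (z : ℤ)
    rw [hPz]
    have h3 : (A.P γ m (z : ℤ)) ^ (-s') ≤ A.AA γ s' m := by
      rw [AA_eq]
      unfold S
      exact Finset.single_le_sum (f := fun x : ℕ => (A.P γ m (x : ℤ)) ^ (-s')) (s := Finset.range (A.q ^ m))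
        (fun x _ => Real.rpow_nonneg (A.P_pos _ _ _).le _) (Finset.mem_range.2 hz1)
    have h4 := Real.rpow_le_rpow_of_nonpos (Real.rpow_pos_of_pos hP (-s')) h3
      (show -(1 / s') ≤ 0 by rw [neg_nonpos]; positivity)
    rw [← Real.rpow_mul hP.le, show -s' * -(1 / s') = 1 by field_simp, Real.rpow_one] at h4
    exact h4

/-- The abstract theorem. -/
theorem main_of_nondeg (hG : GreedyTree) (hCU : ∀ k : ℕ, 1 ≤ k → ChunkUniform A.l k) (hN : A.Nondeg)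
    {γ₀ : ℝ} (h0 : 0 < γ₀) (h1 : γ₀ ≤ 1) (hZ : 1 < 2 ^ (1 - γ₀) * A.Z) :
    ∃ n : ℕ, 1 ≤ n ∧ ∀ y : ℤ, 1 ≤ A.P γ₀ n y := by
  obtain ⟨G, hG'⟩ : ∃ G : Set ℝ, G = {γ : ℝ | 0 < γ ∧ γ ≤ γ₀ ∧ ∃ n : ℕ, 1 ≤ n ∧ ∀ y : ℤ, 1 ≤ A.P γ n y} :=
    ⟨_, rfl⟩
  have hmem : ∀ γ, γ ∈ G ↔ 0 < γ ∧ γ ≤ γ₀ ∧ ∃ n : ℕ, 1 ≤ n ∧ ∀ y : ℤ, 1 ≤ A.P γ n y := by
    intro γ; rw [hG']; rfl
  have hb := A.bb_nonneg
  -- a starting exponent
  have hstart : ∃ γ, γ ∈ G := by
    refine ⟨min γ₀ (Real.log 2 / (A.bb + 1)), (hmem _).2 ⟨?_, min_le_left _ _, 1, le_rfl, fun y => ?_⟩⟩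
    · exact lt_min h0 (div_pos (Real.log_pos (by norm_num)) (by linarith))
    · have hl2 : 0 < Real.log 2 := Real.log_pos (by norm_num)
      have hge : 0 ≤ min γ₀ (Real.log 2 / (A.bb + 1)) := le_min h0.le (by positivity)
      refine le_trans ?_ (A.P_one_ge_two hge y)
      have h2 : A.bb * min γ₀ (Real.log 2 / (A.bb + 1)) ≤ Real.log 2 := by
        calc A.bb * min γ₀ (Real.log 2 / (A.bb + 1)) ≤ A.bb * (Real.log 2 / (A.bb + 1)) :=
              mul_le_mul_of_nonneg_left (min_le_right _ _) hb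
          _ ≤ (A.bb + 1) * (Real.log 2 / (A.bb + 1)) := by
              refine mul_le_mul_of_nonneg_right (by linarith) (by positivity)
          _ = Real.log 2 := by field_simp
      have h3 : Real.exp (-Real.log 2) ≤ Real.exp (-(A.bb * min γ₀ (Real.log 2 / (A.bb + 1)))) :=
        Real.exp_le_exp.2 (by linarith)
      rw [Real.exp_neg, Real.exp_log (by norm_num)] at h3
      linarith
  have hbdd : BddAbove G := ⟨γ₀, fun γ hγ => ((hmem γ).1 hγ).2.1⟩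
  obtain ⟨γ₁, hγ₁⟩ := hstart
  obtain ⟨γs, hγs⟩ : ∃ γs, γs = sSup G := ⟨_, rfl⟩
  have hle : ∀ γ ∈ G, γ ≤ γs := fun γ hγ => by rw [hγs]; exact le_csSup hbdd hγ
  have hγs0 : 0 < γs := lt_of_lt_of_le ((hmem γ₁).1 hγ₁).1 (hle _ hγ₁)
  have hγsle : γs ≤ γ₀ := by
    rw [hγs]
    exact csSup_le ⟨γ₁, hγ₁⟩ fun γ hγ => ((hmem γ).1 hγ).2.1
  -- subexponential lower bounds at the supremum
  have hsub : ∀ η : ℝ, 0 < η → ∃ B : ℝ, 0 < B ∧ ∀ (n : ℕ) (y : ℤ), B * Real.exp (-(η * n)) ≤ A.P γs n y := by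
    intro η hη
    have hlt : γs - η / (A.bb + 1) < sSup G := by
      rw [← hγs]
      have : 0 < η / (A.bb + 1) := by positivity
      linarith
    obtain ⟨γ, hγG, hγlt⟩ := exists_lt_of_lt_csSup ⟨γ₁, hγ₁⟩ hlt
    obtain ⟨hγpos, -, n₀, hn₀, hP⟩ := (hmem γ).1 hγG
    refine ⟨Real.exp (-(A.bb * γ * n₀)), Real.exp_pos _, fun n y => ?_⟩
    have h2 := A.P_bdd_below hγpos.le hn₀ hP n y
    have h3 := A.P_lip (hle γ hγG) n y
    refine le_trans ?_ h3
    rw [mul_comm]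
    refine mul_le_mul ?_ h2 (Real.exp_pos _).le (Real.exp_pos _).le
    apply Real.exp_le_exp.2
    have h4 : A.bb * (γs - γ) ≤ η := by
      have h5 : γs - γ ≤ η / (A.bb + 1) := by linarith
      calc A.bb * (γs - γ) ≤ A.bb * (η / (A.bb + 1)) := mul_le_mul_of_nonneg_left h5 hb
        _ ≤ (A.bb + 1) * (η / (A.bb + 1)) := by
            refine mul_le_mul_of_nonneg_right (by linarith) (by positivity)
        _ = η := by field_simp
    have h6 := mul_le_mul_of_nonneg_right h4 (Nat.cast_nonneg (α := ℝ) n)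
    linarith
  obtain ⟨n, hn, x, hx, hP⟩ := A.uniform_growth hG hCU hN hγs0 hγsle h1 hZ hsub
  rcases eq_or_lt_of_le hγsle with heq | hlt
  · rw [← heq]
    exact ⟨n, hn, fun y => hx.le.trans (hP y)⟩
  · exfalso
    -- a slightly larger exponent
    have hn0 : (0 : ℝ) < n := by exact_mod_cast hn
    have hlx : 0 < Real.log x := Real.log_pos hx
    obtain ⟨d, hd⟩ : ∃ d, d = min (γ₀ - γs) (Real.log x / ((A.bb + 1) * n)) := ⟨_, rfl⟩
    have hd0 : 0 < d := by rw [hd]; exact lt_min (by linarith) (by positivity)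
    have hd1 : d ≤ γ₀ - γs := by rw [hd]; exact min_le_left _ _
    have hd2 : A.bb * d * n ≤ Real.log x := by
      have h2 : d ≤ Real.log x / ((A.bb + 1) * n) := by rw [hd]; exact min_le_right _ _
      rw [le_div_iff₀ (by positivity)] at h2
      have h3 : 0 ≤ d * n := by positivity
      nlinarith
    have hmem' : γs + d ∈ G := by
      refine (hmem _).2 ⟨by linarith, by linarith, n, hn, fun y => ?_⟩
      have h2 := A.P_lip (show γs ≤ γs + d by linarith) n y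
      refine le_trans ?_ h2
      rw [add_sub_cancel_left]
      have h3 : Real.exp (-Real.log x) ≤ Real.exp (-(A.bb * d * n)) := Real.exp_le_exp.2 (by linarith)
      rw [Real.exp_neg, Real.exp_log (by linarith)] at h3
      calc (1 : ℝ) = x⁻¹ * x := (inv_mul_cancel₀ (by linarith)).symm
        _ ≤ Real.exp (-(A.bb * d * n)) * A.P γs n y :=
            mul_le_mul h3 (hP y) (by linarith) (Real.exp_pos _).le
    have := hle _ hmem'
    linarith

end Sys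

end CollatzOne
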