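import Pool.Agent.CollatzOne.Av

set_option autoImplicit false

/-!
Aligned subtrees of finite sets of integers: the pattern lemma and the greedy decomposition.
-/

namespace CollatzOne

open Finset

/-- `T` is a tree with pattern `Λ` (two children with digits different modulo `q` at the levels
`true`, one child at the levels `false`). -/
inductive IsTree (q : ℕ) : List Bool → Finset ℤ → Prop
  | nil (y : ℤ) : IsTree q [] {y}
  | one (Λ : List Bool) (T : Finset ℤ) (a : ℤ) (h : IsTree q Λ T) :
      IsTree q (false :: Λ) (T.image (fun z => a + q * z))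
  | two (Λ : List Bool) (T T' : Finset ℤ) (a a' : ℤ) (haa : ¬ (q : ℤ) ∣ a - a')
      (h : IsTree q Λ T) (h' : IsTree q Λ T') :
      IsTree q (true :: Λ) (T.image (fun z => a + q * z) ∪ T'.image (fun z => a' + q * z))

lemma tv_congr {B : Type} (q : ℤ) {D D' : List B → ℤ} (h : ∀ u, u ≠ [] → D u = D' u) (U : List B) :
    tv q D U = tv q D' U := by
  induction U generalizing D D' with
  | nil => rfl
  | cons β U ih =>
    rw [tv_cons, tv_cons, h [β] (by simp), ih (fun u _ => h (β :: u) (by simp))]

/-- Gluing two digit trees. -/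
def glue (a : Bool → ℤ) (D : Bool → List Bool → ℤ) : List Bool → ℤ
  | [] => 0
  | [β] => a β
  | β :: u => D β u

lemma glue_cons (a : Bool → ℤ) (D : Bool → List Bool → ℤ) (β : Bool) {u : List Bool} (hu : u ≠ []) :
    glue a D (β :: u) = D β u := by
  cases u with
  | nil => exact absurd rfl hu
  | cons γ u => rfl

lemma tv_glue (q : ℤ) (a : Bool → ℤ) (D : Bool → List Bool → ℤ) (β : Bool) (U : List Bool) :
    tv q (glue a D) (β :: U) = a β + q * tv q (D β) U := by
  rw [tv_cons]
  congr 2
  exact tv_congr q (fun u hu => glue_cons a D β hu) U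

lemma aligned_glue {q : ℕ} {a : Bool → ℤ} {D : Bool → List Bool → ℤ} {b : Bool} {Λ : List Bool}
    (h0 : b = true → ¬ (q : ℤ) ∣ a true - a false)
    (h : ∀ β, Aligned q (fun i => Λ.getD i false) (D β)) :
    Aligned q (fun i => (b :: Λ).getD i false) (glue a D) := by
  intro u hu
  cases u with
  | nil =>
    simp only [List.length_nil, List.getD_cons_zero] at hu
    exact h0 hu
  | cons β u =>
    simp only [List.length_cons, List.getD_cons_succ] at hu
    have := h β u hu
    rwa [List.cons_append, List.cons_append, glue_cons _ _ _ (by simp), glue_cons _ _ _ (by simp)]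

lemma IsTree.card_pos {q : ℕ} {Λ : List Bool} {T : Finset ℤ} (h : IsTree q Λ T) : T.Nonempty := by
  induction h with
  | nil y => exact singleton_nonempty y
  | one Λ T a h ih => exact ih.image _
  | two Λ T T' a a' haa h h' ih ih' => exact (ih.image _).inl

lemma inj_aff {q : ℕ} (hq : 2 ≤ q) (a : ℤ) : Function.Injective (fun z : ℤ => a + q * z) := by
  intro z z' h
  have h1 : (q : ℤ) * z = q * z' := by
    have : a + (q : ℤ) * z = a + q * z' := h
    linarith
  exact mul_left_cancel₀ (by positivity) h1

lemma IsTree.card {q : ℕ} (hq : 2 ≤ q) {Λ : List Bool} {T : Finset ℤ} (h : IsTree q Λ T) :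
    T.card = 2 ^ Λ.count true := by
  induction h with
  | nil y => simp
  | one Λ T a h ih => rw [card_image_of_injective _ (inj_aff hq a), ih]; simp
  | two Λ T T' a a' haa h h' ih ih' =>
    rw [card_union_of_disjoint, card_image_of_injective _ (inj_aff hq a),
      card_image_of_injective _ (inj_aff hq a'), ih, ih', List.count_cons_self, pow_succ]
    · ring
    · rw [disjoint_left]
      intro x hx hx'
      rw [mem_image] at hx hx'
      obtain ⟨z, -, rfl⟩ := hx
      obtain ⟨z', -, h2⟩ := hx'
      exact haa ⟨z' - z, by linarith⟩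

/-- Realisation of a tree by a digit tree. -/
lemma IsTree.real {q : ℕ} (hq : 2 ≤ q) {Λ : List Bool} {T : Finset ℤ} (h : IsTree q Λ T) :
    ∃ D : List Bool → ℤ, Aligned q (fun i => Λ.getD i false) D ∧
      ∀ F : ℤ → ℝ, Per (q ^ Λ.length) F →
        (T.card : ℝ) * av Λ.length (fun U => F (tv q D U)) = ∑ y ∈ T, F y := by
  induction h with
  | nil y =>
    refine ⟨fun _ => 0, fun u hu => ?_, fun F hF => ?_⟩
    · simp at hu
    · have h1 : F 0 = F y := hF.congr (by simp)
      simp [av_zero, tv_nil, h1]
  | one Λ T a h ih =>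
    obtain ⟨D, hD, hav⟩ := ih
    refine ⟨glue (fun _ => a) (fun _ => D), aligned_glue (by simp) (fun _ => hD), fun F hF => ?_⟩
    have hper : Per (q ^ Λ.length) (fun z => F (a + q * z)) := by
      intro z
      have := hF (a + q * z)
      rw [List.length_cons, pow_succ] at this
      dsimp only
      rw [← this]
      congr 1
      push_cast
      ring
    have h1 := hav _ hper
    rw [card_image_of_injective _ (inj_aff hq a), sum_image fun x _ y _ h => inj_aff hq a h,
      ← h1, List.length_cons, av_succ]
    congr 1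
    have h2 : ∀ β : Bool, av Λ.length (fun u => F (tv q (glue (fun _ => a) (fun _ => D)) (β :: u)))
        = av Λ.length (fun U => F (a + q * tv q D U)) := fun β =>
      av_congr fun U _ => by rw [tv_glue]
    rw [sum_congr rfl fun β _ => h2 β, sum_const, card_univ, Fintype.card_bool, nsmul_eq_mul]
    push_cast
    field_simp
  | two Λ T T' a a' haa h h' ih ih' =>
    obtain ⟨D, hD, hav⟩ := ih
    obtain ⟨D', hD', hav'⟩ := ih'
    have hcT := h.card hq
    have hcT' := h'.card hq
    have hdis : Disjoint (T.image (fun z => a + q * z)) (T'.image (fun z => a' + q * z)) := by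
      rw [disjoint_left]
      intro x hx hx'
      rw [mem_image] at hx hx'
      obtain ⟨z, -, rfl⟩ := hx
      obtain ⟨z', -, h2⟩ := hx'
      exact haa ⟨z' - z, by linarith⟩
    refine ⟨glue (fun β => if β then a else a') (fun β => if β then D else D'),
      aligned_glue (fun _ => by simpa using haa) (fun β => ?_), fun F hF => ?_⟩
    · cases β
      · simpa using hD'
      · simpa using hD
    · have hper : ∀ c : ℤ, Per (q ^ Λ.length) (fun z => F (c + q * z)) := by
        intro c z
        have := hF (c + q * z)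
        rw [List.length_cons, pow_succ] at this
        dsimp only
        rw [← this]
        congr 1
        push_cast
        ring
      have h1 := hav _ (hper a)
      have h1' := hav' _ (hper a')
      rw [card_union_of_disjoint hdis, sum_union hdis, card_image_of_injective _ (inj_aff hq a),
        card_image_of_injective _ (inj_aff hq a'), sum_image fun x _ y _ h => inj_aff hq a h,
        sum_image fun x _ y _ h => inj_aff hq a' h, ← h1, ← h1', List.length_cons, av_succ,
        Fintype.sum_bool, Fintype.card_bool, hcT, hcT']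
      simp only [tv_glue, if_true, Bool.false_eq_true, if_false]
      push_cast
      ring

/-! ### The pattern lemma -/

/-- Sum over all lists of length `m`. -/
def sm : ℕ → (List Bool → ℝ) → ℝ
  | 0, F => F []
  | m + 1, F => sm m (fun u => F (true :: u)) + sm m (fun u => F (false :: u))

lemma sm_mono {m : ℕ} {F G : List Bool → ℝ} (h : ∀ U : List Bool, U.length = m → F U ≤ G U) :
    sm m F ≤ sm m G := by
  induction m generalizing F G with
  | zero => exact h [] rfl
  | succ m ih =>
    exact add_le_add (ih fun U hU => h _ (by simp [hU])) (ih fun U hU => h _ (by simp [hU]))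

lemma sm_add (m : ℕ) (F G : List Bool → ℝ) : sm m (fun u => F u + G u) = sm m F + sm m G := by
  induction m generalizing F G with
  | zero => rfl
  | succ m ih =>
    simp only [sm]
    rw [ih, ih]; ring

lemma sm_mul (m : ℕ) (c : ℝ) (F : List Bool → ℝ) : sm m (fun u => c * F u) = c * sm m F := by
  induction m generalizing F with
  | zero => rfl
  | succ m ih =>
    simp only [sm]
    rw [ih, ih]; ring

lemma sm_sum {κ : Type*} (s : Finset κ) (m : ℕ) (F : κ → List Bool → ℝ) :
    sm m (fun u => ∑ i ∈ s, F i u) = ∑ i ∈ s, sm m (F i) := by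
  induction m generalizing F with
  | zero => rfl
  | succ m ih =>
    simp only [sm]
    rw [ih, ih, sum_add_distrib]

lemma sm_pow (m : ℕ) (x : ℝ) : sm m (fun u => x ^ u.count true) = (1 + x) ^ m := by
  induction m with
  | zero => simp [sm]
  | succ m ih =>
    simp only [sm, List.count_cons_self, List.count_cons_of_ne (show (false : Bool) ≠ true by simp)]
    rw [ih, show (fun u : List Bool => x ^ (u.count true + 1)) = fun u => x * x ^ u.count true by
      funext u; rw [pow_succ]; ring, sm_mul, ih, pow_succ]
    ring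

/-- `Y` contains a tree with pattern `Λ`. -/
def Sh (q : ℕ) (Λ : List Bool) (Y : Finset ℤ) : Prop := ∃ T ⊆ Y, IsTree q Λ T

/-- The upper parts of the elements of `Y` with lowest digit `a`. -/
def fib (q : ℕ) (Y : Finset ℤ) (a : ℕ) : Finset ℤ :=
  (Y.filter (fun y : ℤ => y % (q : ℤ) = (a : ℤ))).image (fun y : ℤ => y / (q : ℤ))

lemma mem_fib {q : ℕ} {Y : Finset ℤ} {a : ℕ} {z : ℤ} (h : z ∈ fib q Y a) : (a : ℤ) + q * z ∈ Y := by
  unfold fib at h
  rw [mem_image] at h
  obtain ⟨y, hy, rfl⟩ := h
  rw [mem_filter] at hy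
  rw [← hy.2, add_comm, Int.mul_ediv_add_emod]
  exact hy.1

lemma card_fib {q : ℕ} (Y : Finset ℤ) (a : ℕ) :
    (fib q Y a).card = (Y.filter (fun y : ℤ => y % (q : ℤ) = (a : ℤ))).card := by
  unfold fib
  refine card_image_of_injOn ?_
  intro y hy y' hy' h
  rw [mem_coe, mem_filter] at hy hy'
  have h1 := Int.mul_ediv_add_emod y q
  have h2 := Int.mul_ediv_add_emod y' q
  dsimp only at h
  rw [← h1, ← h2, h, hy.2, hy'.2]

open Classical in
theorem pattern_card {q : ℕ} (hq : 2 ≤ q) (m : ℕ) : ∀ Y : Finset ℤ,
    (∀ y ∈ Y, ∀ y' ∈ Y, ((q ^ m : ℕ) : ℤ) ∣ y - y' → y = y') →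
    (Y.card : ℝ) ≤ sm m (fun Λ => if Sh q Λ Y then ((q : ℝ) - 1) ^ Λ.count true else 0) := by
  have hq1 : (1 : ℝ) ≤ q - 1 := by
    have : (2 : ℝ) ≤ q := by exact_mod_cast hq
    linarith
  induction m with
  | zero =>
    intro Y hY
    have h1 : Y.card ≤ 1 := by
      rw [card_le_one]
      intro a ha b hb
      exact hY a ha b hb (by simp)
    simp only [sm]
    rcases Nat.eq_zero_or_pos Y.card with h0 | h0
    · rw [h0]
      split_ifs <;> simp
    · have h2 : Y.card = 1 := by omega
      obtain ⟨y, rfl⟩ := card_eq_one.1 h2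
      rw [if_pos ⟨{y}, subset_rfl, IsTree.nil y⟩]
      simp
  | succ m ih =>
    intro Y hY
    have hsum : Y.card = ∑ a ∈ range q, (fib q Y a).card := by
      have h := card_eq_sum_card_fiberwise (f := fun y : ℤ => (y % (q : ℤ)).toNat) (s := Y)
        (t := range q) (fun y _ => by
          have h1 := Int.emod_lt_of_pos y (show (0 : ℤ) < q by positivity)
          have h2 := Int.emod_nonneg y (show (q : ℤ) ≠ 0 by positivity)
          simp only [coe_range, Set.mem_Iio]
          omega)
      rw [h]
      refine sum_congr rfl fun a _ => ?_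
      rw [card_fib]
      congr 1
      refine filter_congr fun y _ => ?_
      have h2 := Int.emod_nonneg y (show (q : ℤ) ≠ 0 by positivity)
      omega
    have hfib : ∀ a : ℕ, ∀ y ∈ fib q Y a, ∀ y' ∈ fib q Y a, ((q ^ m : ℕ) : ℤ) ∣ y - y' → y = y' := by
      intro a y hy y' hy' hd
      have h1 := hY _ (mem_fib hy) _ (mem_fib hy') (by
        obtain ⟨k, hk⟩ := hd
        refine ⟨k, ?_⟩
        rw [pow_succ]
        push_cast at hk ⊢
        linear_combination (q : ℤ) * hk)
      exact inj_aff hq (a : ℤ) h1
    rw [hsum]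
    push_cast
    calc ∑ a ∈ range q, ((fib q Y a).card : ℝ)
        ≤ ∑ a ∈ range q, sm m (fun Λ => if Sh q Λ (fib q Y a) then ((q : ℝ) - 1) ^ Λ.count true else 0) :=
          sum_le_sum fun a _ => ih _ (hfib a)
      _ = sm m (fun Λ => ∑ a ∈ range q, if Sh q Λ (fib q Y a) then ((q : ℝ) - 1) ^ Λ.count true else 0) :=
          (sm_sum _ _ _).symm
      _ ≤ sm m (fun Λ => (if Sh q (true :: Λ) Y then ((q : ℝ) - 1) ^ (Λ.count true + 1) else 0)
          + (if Sh q (false :: Λ) Y then ((q : ℝ) - 1) ^ Λ.count true else 0)) := by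
          refine sm_mono fun Λ _ => ?_
          set w : ℝ := ((q : ℝ) - 1) ^ Λ.count true with hw
          have hw0 : 0 < w := by positivity
          rw [← sum_filter, sum_const, nsmul_eq_mul, pow_succ, ← hw]
          set N : Finset ℕ := (range q).filter (fun a : ℕ => Sh q Λ (fib q Y a)) with hN
          have hNq : N.card ≤ q := (card_filter_le _ _).trans (by rw [card_range])
          have hNq' : (N.card : ℝ) ≤ q := by exact_mod_cast hNq
          have himg : ∀ a, ∀ T ⊆ fib q Y a, T.image (fun z => (a : ℤ) + q * z) ⊆ Y := by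
            intro a T hT x hx
            rw [mem_image] at hx
            obtain ⟨z, hz, rfl⟩ := hx
            exact mem_fib (hT hz)
          rcases Nat.lt_or_ge 1 N.card with h2 | h2
          · -- two digits
            obtain ⟨a, ha, b, hb, hab⟩ := one_lt_card.1 h2
            rw [hN, mem_filter, mem_range] at ha hb
            obtain ⟨T, hT, hTt⟩ := ha.2
            obtain ⟨T', hT', hTt'⟩ := hb.2
            have hs1 : Sh q (true :: Λ) Y := by
              refine ⟨_, union_subset (himg a T hT) (himg b T' hT'), IsTree.two Λ T T' a b ?_ hTt hTt'⟩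
              intro hd
              have h3 : |(a : ℤ) - b| < q := by rw [abs_lt]; constructor <;> omega
              have := Int.eq_zero_of_abs_lt_dvd hd h3
              omega
            have hs2 : Sh q (false :: Λ) Y := ⟨_, himg a T hT, IsTree.one Λ T a hTt⟩
            rw [if_pos hs1, if_pos hs2]
            nlinarith
          · rcases Nat.eq_zero_or_pos N.card with h0 | h0
            · rw [h0]
              push_cast
              rw [zero_mul]
              have : 0 ≤ w * ((q : ℝ) - 1) := by positivity
              split_ifs <;> linarith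
            · have h1 : N.card = 1 := by omega
              obtain ⟨a, ha⟩ := card_pos.1 h0
              rw [hN, mem_filter, mem_range] at ha
              obtain ⟨T, hT, hTt⟩ := ha.2
              have hs2 : Sh q (false :: Λ) Y := ⟨_, himg a T hT, IsTree.one Λ T a hTt⟩
              rw [h1, if_pos hs2]
              push_cast
              have : 0 ≤ w * ((q : ℝ) - 1) := by positivity
              split_ifs <;> linarith
      _ = _ := by
          rw [sm_add]
          simp only [sm, List.count_cons_self,
            List.count_cons_of_ne (show (false : Bool) ≠ true by simp)]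

theorem exists_tree {q m K : ℕ} (hq : 2 ≤ q) {t : ℝ} (ht0 : 0 < t) (ht1 : t ≤ 1) (Y : Finset ℤ)
    (hY : ∀ y ∈ Y, ∀ y' ∈ Y, ((q ^ m : ℕ) : ℤ) ∣ y - y' → y = y')
    (hcard : t⁻¹ ^ K * (1 + t * (q - 1)) ^ m < Y.card) :
    ∃ Λ : List Bool, Λ.length = m ∧ K ≤ Λ.count true ∧ Sh q Λ Y := by
  classical
  by_contra hcon
  push Not at hcon
  have hq1 : (1 : ℝ) ≤ q - 1 := by
    have : (2 : ℝ) ≤ q := by exact_mod_cast hq
    linarith
  have h1 := pattern_card hq m Y hY
  have h2 : sm m (fun Λ => if Sh q Λ Y then ((q : ℝ) - 1) ^ Λ.count true else 0)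
      ≤ sm m (fun Λ => t⁻¹ ^ K * (t * (q - 1)) ^ Λ.count true) := by
    refine sm_mono fun Λ hΛ => ?_
    split_ifs with hs
    · have h3 : Λ.count true < K := by
        by_contra h
        exact hcon Λ hΛ (by omega) hs
      have h4 : t ^ K ≤ t ^ Λ.count true := pow_le_pow_of_le_one ht0.le ht1 h3.le
      rw [mul_pow, inv_pow, ← mul_assoc]
      have h5 : 1 ≤ (t ^ K)⁻¹ * t ^ Λ.count true := by
        rw [inv_mul_eq_div, le_div_iff₀ (by positivity), one_mul]; exact h4
      calc ((q : ℝ) - 1) ^ Λ.count true = 1 * ((q : ℝ) - 1) ^ Λ.count true := (one_mul _).symm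
        _ ≤ _ := by gcongr
    · have : 0 ≤ t * ((q : ℝ) - 1) := by positivity
      positivity
  rw [sm_mul, sm_pow] at h2
  linarith

/-! ### The greedy decomposition -/

lemma S_sq_sum_le {N : ℕ} {g : ℤ → ℝ} (hg : Per N g) (Y : Finset ℤ) :
    S N (fun u => (∑ y ∈ Y, g (u + y)) ^ 2) ≤ (Y.card : ℝ) ^ 2 * S N (fun u => g u ^ 2) := by
  have h1 : ∀ u : ℤ, (∑ y ∈ Y, g (u + y)) ^ 2 ≤ Y.card * ∑ y ∈ Y, g (u + y) ^ 2 := fun u =>
    sq_sum_le_card_mul_sum_sq
  have hper : Per N (fun u => g u ^ 2) := fun u => by dsimp only; rw [hg]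
  calc S N (fun u => (∑ y ∈ Y, g (u + y)) ^ 2) ≤ S N (fun u => Y.card * ∑ y ∈ Y, g (u + y) ^ 2) :=
        S_mono h1
    _ = Y.card * ∑ y ∈ Y, S N (fun u => g (u + y) ^ 2) := by rw [S_mul_left, S_sum]
    _ = Y.card * ∑ y ∈ Y, S N (fun u => g u ^ 2) := by
        congr 1
        refine sum_congr rfl fun y _ => ?_
        exact S_shift hper y
    _ = _ := by rw [sum_const, nsmul_eq_mul]; ring

lemma count_getD (Λ : List Bool) :
    ((range Λ.length).filter (fun i => Λ.getD i false = true)).card = Λ.count true := by
  induction Λ with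
  | nil => simp
  | cons b Λ ih =>
    rw [List.length_cons, card_filter, sum_range_succ']
    simp only [List.getD_cons_succ, List.getD_cons_zero]
    rw [← card_filter, ih, List.count_cons]
    cases b <;> simp

theorem greedy_tree {q m K : ℕ} (hq : 2 ≤ q) {t : ℝ} (ht0 : 0 < t) (ht1 : t ≤ 1) {g : ℤ → ℝ}
    (hg : Per (q ^ m) g) {M : ℝ} (hM0 : 0 ≤ M)
    (hM : ∀ (Λ : ℕ → Bool) (D : List Bool → ℤ), K ≤ ((Finset.range m).filter (fun i => Λ i = true)).card →
      Aligned q Λ D → S (q ^ m) (fun u => (av m (fun U => g (u + tv q D U))) ^ 2) ≤ M)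
    (Y : Finset ℤ) (hY : ∀ y ∈ Y, ∀ y' ∈ Y, ((q ^ m : ℕ) : ℤ) ∣ y - y' → y = y') :
    S (q ^ m) (fun u => (∑ y ∈ Y, g (u + y)) ^ 2) ≤
      (Y.card : ℝ) ^ 2 * M + Y.card * (t⁻¹ ^ K * (1 + t * (q - 1)) ^ m) * S (q ^ m) (fun u => g u ^ 2) := by
  set V : ℝ := t⁻¹ ^ K * (1 + t * (q - 1)) ^ m with hV
  set G : ℝ := S (q ^ m) (fun u => g u ^ 2) with hG
  have hG0 : 0 ≤ G := S_nonneg fun u => by positivity
  have hq1 : (1 : ℝ) ≤ q - 1 := by
    have : (2 : ℝ) ≤ q := by exact_mod_cast hq
    linarith
  have hV0 : 0 < V := by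
    have : 0 < t * ((q : ℝ) - 1) := by positivity
    positivity
  -- strong induction on the cardinality
  obtain ⟨n, hn⟩ : ∃ n, Y.card = n := ⟨_, rfl⟩
  induction n using Nat.strong_induction_on generalizing Y with
  | _ n ih =>
    by_cases hcard : (Y.card : ℝ) ≤ V
    · calc _ ≤ (Y.card : ℝ) ^ 2 * G := S_sq_sum_le hg Y
        _ = Y.card * Y.card * G := by ring
        _ ≤ Y.card * V * G := by gcongr
        _ ≤ _ := by
            have : 0 ≤ (Y.card : ℝ) ^ 2 * M := by positivity
            linarith
    · push Not at hcard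
      obtain ⟨Λ, hΛm, hΛK, T, hTY, hT⟩ := exists_tree hq ht0 ht1 Y hY hcard
      have hTpos : 0 < T.card := card_pos.2 hT.card_pos
      obtain ⟨D, hD, hav⟩ := hT.real hq
      rw [hΛm] at hav
      have hcnt : K ≤ ((Finset.range m).filter (fun i => Λ.getD i false = true)).card := by
        refine hΛK.trans (le_of_eq ?_)
        rw [← hΛm, count_getD]
      have hST : S (q ^ m) (fun u => (∑ y ∈ T, g (u + y)) ^ 2) ≤ (T.card : ℝ) ^ 2 * M := by
        have h1 := hM _ D hcnt hD
        have h2 : ∀ u : ℤ, (∑ y ∈ T, g (u + y)) ^ 2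
            = (T.card : ℝ) ^ 2 * (av m (fun U => g (u + tv q D U))) ^ 2 := by
          intro u
          have hper : Per (q ^ m) (fun z => g (u + z)) := fun z => by
            dsimp only
            rw [← add_assoc, hg]
          rw [← hav (fun z => g (u + z)) hper]
          ring
        rw [S_congr h2, S_mul_left]
        gcongr
      set R := Y \ T with hR
      have hRcard : R.card + T.card = Y.card := card_sdiff_add_card_eq_card hTY
      have hsplit : ∀ u : ℤ, ∑ y ∈ Y, g (u + y) = ∑ y ∈ T, g (u + y) + ∑ y ∈ R, g (u + y) := by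
        intro u
        rw [hR, add_comm]
        exact (sum_sdiff hTY).symm
      have hIH := ih R.card (by omega) R (fun y hy y' hy' => hY y (sdiff_subset hy) y' (sdiff_subset hy'))
        rfl
      rcases Nat.eq_zero_or_pos R.card with h0 | h0
      · have hR0 : R = ∅ := card_eq_zero.1 h0
        have hYT : (Y.card : ℝ) = T.card := by
          have : Y.card = T.card := by omega
          exact_mod_cast this
        have h3 : S (q ^ m) (fun u => (∑ y ∈ Y, g (u + y)) ^ 2)
            = S (q ^ m) (fun u => (∑ y ∈ T, g (u + y)) ^ 2) := by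
          refine S_congr fun u => ?_
          rw [hsplit, hR0]; simp
        rw [h3, hYT]
        have : 0 ≤ (T.card : ℝ) * V * G := by positivity
        linarith
      · have hT0 : (0 : ℝ) < T.card := by exact_mod_cast hTpos
        have hR0 : (0 : ℝ) < R.card := by exact_mod_cast h0
        have hYR : (Y.card : ℝ) = R.card + T.card := by exact_mod_cast hRcard.symm
        have hpt : ∀ a b : ℝ, (a + b) ^ 2 ≤ ((R.card : ℝ) + T.card) * (a ^ 2 / T.card + b ^ 2 / R.card) := by
          intro a b
          have h4 : ((R.card : ℝ) + T.card) * (a ^ 2 / T.card + b ^ 2 / R.card) - (a + b) ^ 2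
              = (R.card * a - T.card * b) ^ 2 / (R.card * T.card) := by
            field_simp
            ring
          have h5 : 0 ≤ (R.card * a - T.card * b) ^ 2 / ((R.card : ℝ) * T.card) := by positivity
          linarith
        calc S (q ^ m) (fun u => (∑ y ∈ Y, g (u + y)) ^ 2)
            ≤ S (q ^ m) (fun u => ((R.card : ℝ) + T.card) *
                ((∑ y ∈ T, g (u + y)) ^ 2 / T.card + (∑ y ∈ R, g (u + y)) ^ 2 / R.card)) := by
              refine S_mono fun u => ?_
              rw [hsplit]
              exact hpt _ _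
          _ = ((R.card : ℝ) + T.card) * (S (q ^ m) (fun u => (∑ y ∈ T, g (u + y)) ^ 2) / T.card
              + S (q ^ m) (fun u => (∑ y ∈ R, g (u + y)) ^ 2) / R.card) := by
              rw [S_mul_left, S_add]
              simp only [div_eq_mul_inv]
              rw [S_mul_right, S_mul_right]
          _ ≤ ((R.card : ℝ) + T.card) * (((T.card : ℝ) ^ 2 * M) / T.card
              + ((R.card : ℝ) ^ 2 * M + R.card * V * G) / R.card) := by gcongr
          _ = ((R.card : ℝ) + T.card) * (T.card * M + (R.card * M + V * G)) := by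
              congr 2
              · field_simp
              · field_simp
          _ = _ := by rw [hYR]; ring

end CollatzOne
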