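import Pool.Agent.CollatzOne.Av

set_option autoImplicit false

/-!
Near uniformity modulo a power of 3 of signed sums of independent fair coins.
-/

namespace CollatzOne

open Finset

/-- Averaging over one fair coin. -/
noncomputable def coin (u : ℤ) (φ : ℤ → ℝ) (x : ℤ) : ℝ := (φ x + φ (x + u)) / 2

lemma coin_iter_mono {u : ℤ} {φ ψ : ℤ → ℝ} (h : ∀ x, φ x ≤ ψ x) (n : ℕ) :
    ∀ x, (coin u)^[n] φ x ≤ (coin u)^[n] ψ x := by
  induction n with
  | zero => exact h
  | succ n ih =>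
    intro x
    rw [Function.iterate_succ_apply', Function.iterate_succ_apply']
    unfold coin at *
    have h1 := ih x
    have h2 := ih (x + u)
    linarith

lemma coin_iter_per {u : ℤ} {φ : ℤ → ℝ} {Q : ℕ} (h : Per Q φ) (n : ℕ) : Per Q ((coin u)^[n] φ) := by
  induction n with
  | zero => exact h
  | succ n ih =>
    intro x
    rw [Function.iterate_succ_apply']
    unfold coin at *
    rw [ih x, show x + (Q : ℤ) + u = x + u + Q by ring, ih (x + u)]

lemma coin_iter_shift (u : ℤ) (φ : ℤ → ℝ) (n : ℕ) (y : ℤ) :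
    ∀ x, (coin u)^[n] (fun z => φ (z + y)) x = (coin u)^[n] φ (x + y) := by
  induction n with
  | zero => intro x; rfl
  | succ n ih =>
    intro x
    rw [Function.iterate_succ_apply', Function.iterate_succ_apply']
    unfold coin at *
    rw [ih x, ih (x + u), show x + u + y = x + y + u by ring]

lemma coin_iter_le {u : ℤ} {φ : ℤ → ℝ} {b : ℝ} (h : ∀ x, φ x ≤ b) (n : ℕ) :
    ∀ x, (coin u)^[n] φ x ≤ b := by
  induction n with
  | zero => exact h
  | succ n ih =>
    intro x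
    rw [Function.iterate_succ_apply']
    unfold coin at *
    have h1 := ih x
    have h2 := ih (x + u)
    linarith

/-- Lower bound by the sum over the orbit. -/
lemma coin_iter_ge {u : ℤ} {ψ : ℤ → ℝ} (h : ∀ x, 0 ≤ ψ x) (n : ℕ) :
    ∀ x, (∑ j ∈ range (n + 1), ψ (x + j * u)) / 2 ^ n ≤ (coin u)^[n] ψ x := by
  induction n with
  | zero => intro x; simp
  | succ n ih =>
    intro x
    rw [Function.iterate_succ_apply']
    have h1 := ih x
    have h2 := ih (x + u)
    show _ ≤ ((coin u)^[n] ψ x + (coin u)^[n] ψ (x + u)) / 2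
    have h3 : ∑ j ∈ range (n + 1 + 1), ψ (x + j * u)
        ≤ ∑ j ∈ range (n + 1), ψ (x + j * u) + ∑ j ∈ range (n + 1), ψ (x + u + j * u) := by
      rw [sum_range_succ (fun j : ℕ => ψ (x + j * u)) (n + 1),
        sum_range_succ (fun j : ℕ => ψ (x + u + j * u)) n]
      have h4 : ψ (x + ((n + 1 : ℕ) : ℤ) * u) = ψ (x + u + n * u) := by congr 1; push_cast; ring
      rw [h4]
      have h5 : 0 ≤ ∑ j ∈ range n, ψ (x + u + j * u) := sum_nonneg fun _ _ => h _
      linarith
    rw [div_le_iff₀ (by positivity)] at h1 h2 ⊢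
    rw [pow_succ]
    linarith

/-- The mean over the orbit of the translation by `u`. -/
noncomputable def omean (Q : ℕ) (u : ℤ) (φ : ℤ → ℝ) (x : ℤ) : ℝ := S Q (fun j => φ (x + j * u)) / Q

lemma omean_shift {Q : ℕ} {u : ℤ} {φ : ℤ → ℝ} (h : Per Q φ) (x : ℤ) :
    omean Q u φ (x + u) = omean Q u φ x := by
  have hp : Per Q (fun j => φ (x + j * u)) := by
    intro j
    dsimp only
    rw [show x + (j + (Q : ℤ)) * u = x + j * u + Q * u by ring, h.add_mul]
  unfold omean
  have h1 := S_shift hp 1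
  rw [← h1]
  congr 1
  refine S_congr fun j => ?_
  congr 1
  ring

lemma coin_omean {Q : ℕ} {u : ℤ} {φ : ℤ → ℝ} (h : Per Q φ) (x : ℤ) :
    omean Q u (coin u φ) x = omean Q u φ x := by
  have h1 := omean_shift h (u := u) x
  unfold omean coin at *
  have h2 : S Q (fun j => (φ (x + j * u) + φ (x + j * u + u)) / 2)
      = (S Q (fun j => φ (x + j * u)) + S Q (fun j => φ (x + u + j * u))) / 2 := by
    rw [← S_add, div_eq_mul_inv, ← S_mul_right]
    refine S_congr fun j => ?_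
    rw [show x + j * u + u = x + u + j * u by ring]
    ring
  rw [h2]
  have h3 : ∀ a b : ℝ, (a + b) / 2 / (Q : ℝ) = (a / Q + b / Q) / 2 := fun a b => by ring
  rw [h3, h1]
  ring

lemma coin_iter_omean {Q : ℕ} {u : ℤ} {φ : ℤ → ℝ} (h : Per Q φ) (n : ℕ) (x : ℤ) :
    omean Q u ((coin u)^[n] φ) x = omean Q u φ x := by
  induction n with
  | zero => rfl
  | succ n ih => rw [Function.iterate_succ_apply', coin_omean (coin_iter_per h n), ih]

/-- Linearity: `A^n (m + b - φ) = m + b - A^n φ` for `u`-invariant `m`. -/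
lemma coin_iter_sub {u : ℤ} {m φ : ℤ → ℝ} (hm : ∀ x, m (x + u) = m x) (b : ℝ) (n : ℕ) :
    ∀ x, (coin u)^[n] (fun x => m x + b - φ x) x = m x + b - (coin u)^[n] φ x := by
  induction n with
  | zero => intro x; rfl
  | succ n ih =>
    intro x
    rw [Function.iterate_succ_apply', Function.iterate_succ_apply']
    unfold coin at *
    rw [ih x, ih (x + u), hm]
    ring

/-- One round of contraction. -/
lemma coin_contract {Q : ℕ} (hQ : 0 < Q) {u : ℤ} {φ : ℤ → ℝ} (h : Per Q φ) {b : ℝ}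
    (hb : ∀ x, φ x ≤ omean Q u φ x + b) (x : ℤ) :
    (coin u)^[Q] φ x ≤ omean Q u φ x + b * (1 - Q / 2 ^ Q) := by
  have h1 := coin_iter_sub (fun x => omean_shift h (u := u) x) b (φ := φ) Q x
  have h2 := coin_iter_ge (u := u) (ψ := fun x => omean Q u φ x + b - φ x)
    (fun x => by have := hb x; linarith) Q x
  rw [h1] at h2
  have hQr : (0 : ℝ) < Q := by exact_mod_cast hQ
  have hmj : ∀ j : ℕ, omean Q u φ (x + j * u) = omean Q u φ x := by
    intro j
    induction j with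
    | zero => simp
    | succ j ih =>
      rw [← ih, ← omean_shift h (x + j * u)]
      congr 1
      push_cast; ring
  have h3 : (Q : ℝ) * b ≤ ∑ j ∈ range (Q + 1), (omean Q u φ (x + j * u) + b - φ (x + j * u)) := by
    rw [sum_range_succ]
    have h4 : ∑ j ∈ range Q, (omean Q u φ (x + j * u) + b - φ (x + j * u)) = Q * b := by
      rw [sum_sub_distrib, sum_congr rfl fun j _ => by rw [hmj j], sum_const, card_range, nsmul_eq_mul]
      have h5 : ∑ j ∈ range Q, φ (x + j * u) = Q * omean Q u φ x := by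
        unfold omean S
        field_simp
      rw [h5]; ring
    have h6 := hb (x + (Q : ℕ) * u)
    rw [h4]
    linarith
  have h7 : (Q : ℝ) * b / 2 ^ Q ≤ omean Q u φ x + b - (coin u)^[Q] φ x :=
    (div_le_div_of_nonneg_right h3 (by positivity)).trans h2
  have h8 : (Q : ℝ) * b / 2 ^ Q = b * (Q / 2 ^ Q) := by ring
  rw [h8] at h7
  linarith

lemma coin_contract_iter {Q : ℕ} (hQ : 0 < Q) {u : ℤ} {φ : ℤ → ℝ} (h : Per Q φ) {b : ℝ}
    (hb : ∀ x, φ x ≤ omean Q u φ x + b) (k : ℕ) : ∀ x,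
    (coin u)^[Q * k] φ x ≤ omean Q u φ x + b * (1 - Q / 2 ^ Q) ^ k := by
  induction k with
  | zero => intro x; simpa using hb x
  | succ k ih =>
    intro x
    rw [Nat.mul_succ, Nat.add_comm, Function.iterate_add_apply]
    have hper := coin_iter_per (u := u) h (Q * k)
    have h1 := coin_contract hQ (u := u) hper (b := b * (1 - Q / 2 ^ Q) ^ k) (fun y => by
      rw [coin_iter_omean h]; exact ih y) x
    rw [coin_iter_omean h] at h1
    rw [pow_succ]
    linarith

lemma exists_val {u : ℤ} (l : ℕ) (h : ¬ (3 : ℤ) ^ l ∣ u) :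
    ∃ v < l, ∃ u' : ℤ, u = 3 ^ v * u' ∧ ¬ (3 : ℤ) ∣ u' := by
  induction l with
  | zero => simp at h
  | succ l ih =>
    by_cases h1 : (3 : ℤ) ^ l ∣ u
    · obtain ⟨u', hu'⟩ := h1
      refine ⟨l, Nat.lt_succ_self l, u', hu', fun h3 => h ?_⟩
      rw [hu', pow_succ]
      exact mul_dvd_mul_left _ h3
    · obtain ⟨v, hv, u', h2, h3⟩ := ih h1
      exact ⟨v, by omega, u', h2, h3⟩

/-- The mean over an orbit is at most `3 ^ l / Q` times the total. -/
lemma omean_le {l k : ℕ} (hk : 1 ≤ k) {u : ℤ} (hu : ¬ (3 : ℤ) ^ l ∣ u) {φ : ℤ → ℝ}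
    (hφ : ∀ x, 0 ≤ φ x) (h : Per ((3 ^ l) ^ k) φ) (x : ℤ) :
    omean ((3 ^ l) ^ k) u φ x ≤ 3 ^ l / ((3 ^ l) ^ k) * S ((3 ^ l) ^ k) φ := by
  obtain ⟨v, hv, u', rfl, hu'⟩ := exists_val l hu
  set Q : ℕ := (3 ^ l) ^ k with hQ
  obtain ⟨Q', hQ'⟩ : ∃ Q', Q = 3 ^ v * Q' := by
    refine ⟨3 ^ (l * k - v), ?_⟩
    rw [hQ, ← pow_mul, ← pow_add]
    congr 1
    have : l ≤ l * k := Nat.le_mul_of_pos_right l hk
    omega
  have hQpos : 0 < Q := by rw [hQ]; positivity
  have hcop : IsCoprime u' (Q : ℤ) := by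
    have h3 : IsCoprime u' (3 : ℤ) := by
      rw [isCoprime_comm]
      exact (Prime.coprime_iff_not_dvd Int.prime_three).2 hu'
    rw [hQ]
    push_cast
    exact (h3.pow_right).pow_right
  set f : ℤ → ℝ := fun j => φ (x + 3 ^ v * j) with hf
  have hfper : Per Q f := by
    intro j
    simp only [hf]
    rw [show x + 3 ^ v * (j + (Q : ℤ)) = x + 3 ^ v * j + Q * 3 ^ v by ring, h.add_mul]
  have h1 : S Q (fun j => φ (x + j * (3 ^ v * u'))) = S Q f := by
    rw [← S_affine hfper hcop 0]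
    refine S_congr fun j => ?_
    simp only [hf]
    congr 1
    ring
  have h2 : S Q f = 3 ^ v * S Q' (fun a => φ (x + 3 ^ v * a)) := by
    rw [hQ', mul_comm (3 ^ v) Q', S_mul, ← S_mul_left]
    refine S_congr fun a => ?_
    have h3 : ∀ b : ℤ, f (a + Q' * b) = φ (x + 3 ^ v * a) := by
      intro b
      simp only [hf]
      rw [show x + 3 ^ v * (a + (Q' : ℤ) * b) = x + 3 ^ v * a + (Q : ℤ) * b by
        rw [hQ']; push_cast; ring, h.add_mul]
    rw [S_congr h3, S_const]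
    push_cast
    ring
  have h4 : S Q' (fun a => φ (x + 3 ^ v * a)) ≤ S Q φ := by
    rw [← S_shift h x, hQ', S_mul]
    have h5 : S Q' (fun a => φ (x + 3 ^ v * a))
        = S Q' (fun u => φ (((0 : ℕ) : ℤ) + ((3 ^ v : ℕ) : ℤ) * u + x)) := by
      refine S_congr fun a => ?_
      congr 1
      push_cast; ring
    rw [h5]
    exact single_le_sum (f := fun a : ℕ => S Q' (fun u => φ ((a : ℤ) + ((3 ^ v : ℕ) : ℤ) * u + x)))
      (fun a _ => S_nonneg fun u => hφ _) (mem_range.2 (by positivity))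
  have hS0 : 0 ≤ S Q φ := S_nonneg hφ
  unfold omean
  rw [h1, h2]
  have h6 : ((Q : ℕ) : ℝ) = (3 ^ l) ^ k := by rw [hQ]; push_cast; ring
  rw [h6, div_mul_eq_mul_div]
  refine div_le_div_of_nonneg_right ?_ (by positivity)
  have h7 : (3 : ℝ) ^ v ≤ 3 ^ l := pow_le_pow_right₀ (by norm_num) hv.le
  exact mul_le_mul h7 h4 (S_nonneg fun _ => hφ _) (by positivity)

lemma le_S {Q : ℕ} (hQ : 0 < Q) {φ : ℤ → ℝ} (hφ : ∀ x, 0 ≤ φ x) (h : Per Q φ) (x : ℤ) :
    φ x ≤ S Q φ := by
  have h1 := S_shift h x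
  rw [← h1]
  have := single_le_sum (f := fun a : ℕ => φ ((a : ℤ) + x)) (s := range Q) (fun a _ => hφ _)
    (mem_range.2 hQ)
  simpa [S] using this

/-- Uniform number of coins. -/
lemma exists_rounds (l k : ℕ) (hk : 1 ≤ k) : ∃ M : ℕ, ∀ n ≥ M, ∀ u : ℤ, ¬ (3 : ℤ) ^ l ∣ u →
    ∀ φ : ℤ → ℝ, (∀ x, 0 ≤ φ x) → Per ((3 ^ l) ^ k) φ → ∀ x,
      (coin u)^[n] φ x ≤ 2 * 3 ^ l / ((3 ^ l) ^ k) * S ((3 ^ l) ^ k) φ := by
  set Q : ℕ := (3 ^ l) ^ k with hQ
  have hQpos : 0 < Q := by rw [hQ]; positivity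
  have hQr : (0 : ℝ) < Q := by exact_mod_cast hQpos
  have hlt : (Q : ℝ) < 2 ^ Q := by exact_mod_cast Q.lt_two_pow_self
  obtain ⟨r, hr⟩ : ∃ r : ℕ, (1 - (Q : ℝ) / 2 ^ Q) ^ r < 1 / Q := by
    refine exists_pow_lt_of_lt_one (by positivity) ?_
    have : 0 < (Q : ℝ) / 2 ^ Q := by positivity
    linarith
  refine ⟨Q * r, fun n hn u hu φ hφ h x => ?_⟩
  have hs0 : 0 ≤ S Q φ := S_nonneg hφ
  have h6 : ((Q : ℕ) : ℝ) = (3 ^ l) ^ k := by rw [hQ]; push_cast; ring
  have hb : ∀ x, φ x ≤ omean Q u φ x + S Q φ := fun x => by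
    have h1 := le_S hQpos hφ h x
    have h2 : 0 ≤ omean Q u φ x := by
      unfold omean
      exact div_nonneg (S_nonneg fun _ => hφ _) hQr.le
    linarith
  have h1 : ∀ x, (coin u)^[Q * r] φ x ≤ 2 * 3 ^ l / ((3 ^ l) ^ k) * S Q φ := by
    intro x
    have h2 := coin_contract_iter hQpos h hb r x
    have h3 := omean_le hk hu hφ h x
    rw [← hQ] at h3
    have h4 : S Q φ * (1 - (Q : ℝ) / 2 ^ Q) ^ r ≤ S Q φ * (1 / Q) := by gcongr
    have h5 : S Q φ * (1 / (Q : ℝ)) ≤ 3 ^ l / ((3 ^ l) ^ k) * S Q φ := by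
      rw [h6, mul_comm]
      gcongr
      exact one_le_pow₀ (by norm_num)
    calc _ ≤ omean Q u φ x + S Q φ * (1 - (Q : ℝ) / 2 ^ Q) ^ r := h2
      _ ≤ 3 ^ l / ((3 ^ l) ^ k) * S Q φ + 3 ^ l / ((3 ^ l) ^ k) * S Q φ := by linarith
      _ = _ := by ring
  obtain ⟨n', rfl⟩ : ∃ n', n = n' + Q * r := ⟨n - Q * r, by omega⟩
  rw [Function.iterate_add_apply]
  exact coin_iter_le h1 n' x

/-! ### Sums over subsets -/

/-- Sum over the subsets of `s`. -/
noncomputable def psum {κ : Type} [DecidableEq κ] (u : κ → ℤ) (φ : ℤ → ℝ) (s : Finset κ) (c : ℤ) : ℝ :=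
  ∑ B ∈ s.powerset, φ (c + ∑ i ∈ B, u i)

lemma psum_insert {κ : Type} [DecidableEq κ] (u : κ → ℤ) (φ : ℤ → ℝ) {s : Finset κ} {i : κ}
    (hi : i ∉ s) (c : ℤ) : psum u φ (insert i s) c = psum u φ s c + psum u φ s (c + u i) := by
  unfold psum
  rw [sum_powerset_insert hi]
  congr 1
  refine sum_congr rfl fun B hB => ?_
  rw [sum_insert (fun h => hi (mem_powerset.1 hB h)), add_assoc]

lemma psum_eq_coin {κ : Type} [DecidableEq κ] {u : κ → ℤ} {φ : ℤ → ℝ} {Q : ℕ} (h : Per Q φ)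
    {u₀ : ℤ} {s : Finset κ} (hs : ∀ i ∈ s, (Q : ℤ) ∣ u i - u₀) :
    ∀ c, psum u φ s c = 2 ^ s.card * (coin u₀)^[s.card] φ c := by
  induction s using Finset.induction_on with
  | empty => intro c; simp [psum]
  | insert i s hi ih =>
    intro c
    have ih' := ih (fun j hj => hs j (mem_insert_of_mem hj))
    rw [psum_insert u φ hi, ih', ih', card_insert_of_notMem hi, Function.iterate_succ_apply']
    have h1 : (coin u₀)^[s.card] φ (c + u i) = (coin u₀)^[s.card] φ (c + u₀) := by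
      apply (coin_iter_per h _).congr
      rw [add_sub_add_left_eq_sub]
      exact hs i (mem_insert_self _ _)
    rw [h1]
    show _ = 2 ^ (s.card + 1) * (((coin u₀)^[s.card] φ c + (coin u₀)^[s.card] φ (c + u₀)) / 2)
    rw [pow_succ]
    ring

lemma psum_le {κ : Type} [DecidableEq κ] {u : κ → ℤ} {φ : ℤ → ℝ} {b : ℝ} {t : Finset κ}
    (ht : ∀ c, psum u φ t c ≤ 2 ^ t.card * b) (s : Finset κ) (hs : Disjoint s t) :
    ∀ c, psum u φ (s ∪ t) c ≤ 2 ^ (s ∪ t).card * b := by
  induction s using Finset.induction_on with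
  | empty => simpa using ht
  | insert i s hi ih =>
    intro c
    rw [disjoint_insert_left] at hs
    have ih' := ih hs.2
    have hi' : i ∉ s ∪ t := by rw [mem_union]; tauto
    rw [insert_union, psum_insert u φ hi', card_insert_of_notMem hi', pow_succ]
    have h1 := ih' c
    have h2 := ih' (c + u i)
    linarith

theorem near_uniform (l k : ℕ) (_hl : 1 ≤ l) (hk : 1 ≤ k) :
    ∃ n₀ : ℕ, ∀ n ≥ n₀, ∀ u : Fin n → ℤ, (∀ i, ¬ ((3 : ℤ) ^ l) ∣ u i) → ∀ φ : ℤ → ℝ, (∀ x, 0 ≤ φ x) →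
      Per ((3 ^ l) ^ k) φ → ∀ c : ℤ,
      (∑ β : Fin n → Bool, φ (c + ∑ i, if β i = true then u i else 0)) / 2 ^ n ≤
        2 * 3 ^ l / ((3 ^ l) ^ k) * S ((3 ^ l) ^ k) φ := by
  obtain ⟨M, hM⟩ := exists_rounds l k hk
  set Q : ℕ := (3 ^ l) ^ k with hQ
  have hQpos : 0 < Q := by rw [hQ]; positivity
  refine ⟨Q * (M + 1), fun n hn u hu φ hφ h c => ?_⟩
  set b : ℝ := 2 * 3 ^ l / ((3 ^ l) ^ k) * S Q φ with hb
  -- pigeonhole
  obtain ⟨r, -, hr⟩ := exists_le_card_fiber_of_mul_le_card_of_maps_to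
    (f := fun i : Fin n => (u i % (Q : ℤ)).toNat) (s := univ) (t := range Q) (n := M + 1)
    (fun i _ => by
      have h1 := Int.emod_lt_of_pos (u i) (show (0 : ℤ) < Q by exact_mod_cast hQpos)
      have h2 := Int.emod_nonneg (u i) (show (Q : ℤ) ≠ 0 by exact_mod_cast hQpos.ne')
      rw [mem_range]; omega)
    ⟨0, mem_range.2 hQpos⟩ (by rw [card_range, card_univ, Fintype.card_fin]; exact hn)
  set t := univ.filter (fun i : Fin n => (u i % (Q : ℤ)).toNat = r) with ht
  have htne : t.Nonempty := by rw [← card_pos]; omega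
  obtain ⟨i₀, hi₀⟩ := htne
  have hmod : ∀ i ∈ t, (Q : ℤ) ∣ u i - u i₀ := by
    intro i hi
    rw [ht, mem_filter] at hi hi₀
    have h2 := Int.emod_nonneg (u i) (show (Q : ℤ) ≠ 0 by exact_mod_cast hQpos.ne')
    have h3 := Int.emod_nonneg (u i₀) (show (Q : ℤ) ≠ 0 by exact_mod_cast hQpos.ne')
    have h4 : u i₀ % (Q : ℤ) = u i % (Q : ℤ) := by
      have := hi.2
      have := hi₀.2
      omega
    exact Int.ModEq.dvd h4
  have h1 : ∀ c, psum u φ t c ≤ 2 ^ t.card * b := by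
    intro c
    rw [psum_eq_coin h hmod]
    gcongr
    exact hM _ (by omega) _ (hu i₀) φ hφ h c
  have h2 := psum_le h1 tᶜ disjoint_compl_left c
  rw [union_comm, union_compl, card_univ, Fintype.card_fin] at h2
  rw [div_le_iff₀ (by positivity)]
  have h3 : ∑ β : Fin n → Bool, φ (c + ∑ i, if β i = true then u i else 0) = psum u φ univ c := by
    unfold psum
    refine sum_nbij' (fun β => univ.filter (fun i => β i = true)) (fun B i => decide (i ∈ B))
      ?_ ?_ ?_ ?_ ?_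
    · intro β _; simp
    · intro B _; simp
    · intro β _; funext i; simp
    · intro B _; ext i; simp
    · intro β _
      rw [← sum_filter]
  rw [h3]
  linarith

/-- Near uniformity of a chunk starting with a branching level. -/
theorem chunk_uniform (l k : ℕ) (hl : 1 ≤ l) (hk : 1 ≤ k) :
    ∃ n₀ : ℕ, ∀ n ≥ n₀, ∀ (σ : Fin n → ℤ), (∀ i, σ i = 1 ∨ σ i = -1) → ∀ (Λ : ℕ → Bool) (D : List Bool → ℤ),
      Aligned (3 ^ l) Λ D → ∀ V : List (Fin n → Bool), Λ V.length = true →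
      ∀ φ : ℤ → ℝ, (∀ x, 0 ≤ φ x) → Per ((3 ^ l) ^ k) φ → ∀ c : ℤ,
      av k (fun U => φ (c + tv (3 ^ l) (fun u => comb σ D (V ++ u)) U)) ≤
        2 * 3 ^ l / ((3 ^ l) ^ k) * S ((3 ^ l) ^ k) φ := by
  obtain ⟨n₀, hn₀⟩ := near_uniform l k hl hk
  refine ⟨n₀, fun n hn σ hσ Λ D hD V hV φ hφ h c => ?_⟩
  set b : ℝ := 2 * 3 ^ l / ((3 ^ l) ^ k) * S ((3 ^ l) ^ k) φ with hb
  obtain ⟨k', rfl⟩ : ∃ k', k = k' + 1 := ⟨k - 1, by omega⟩
  -- the trees of the single copies
  have htv : ∀ U : List (Fin n → Bool), tv (3 ^ l) (fun u => comb σ D (V ++ u)) U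
      = ∑ i, σ i * tv (3 ^ l) (fun u => D (V.map (fun β => β i) ++ u)) (U.map (fun β => β i)) := by
    intro U
    have : ∀ (V U : List (Fin n → Bool)), tv (3 ^ l) (fun u => comb σ D (V ++ u)) U
      = ∑ i, σ i * tv (3 ^ l) (fun u => D (V.map (fun β => β i) ++ u)) (U.map (fun β => β i)) := by
      intro V U
      induction U generalizing V with
      | nil => simp [tv_nil]
      | cons β U ih =>
        have h1 := ih (V ++ [β])
        simp only [List.append_assoc, List.cons_append, List.nil_append, List.map_append,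
          List.map_cons, List.map_nil] at h1
        rw [tv_cons, h1]
        simp only [List.map_cons, tv_cons]
        unfold comb
        simp only [List.map_append, List.map_cons, List.map_nil]
        rw [mul_sum, ← sum_add_distrib]
        refine sum_congr rfl fun i _ => ?_
        ring
    exact this V U
  have hcard : ((Fintype.card (Fin n → Bool) : ℕ) : ℝ) = 2 ^ n := by simp
  rw [av_succ, ← av_sum, hcard]
  have hstep : ∀ U : List (Fin n → Bool), (∑ β : Fin n → Bool,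
      φ (c + tv (3 ^ l) (fun u => comb σ D (V ++ u)) (β :: U))) ≤ b * 2 ^ n := by
    intro U
    set X : Fin n → Bool → ℤ := fun i e =>
      tv (3 ^ l) (fun u => D (V.map (fun β => β i) ++ u)) (e :: U.map (fun β => β i)) with hX
    have h1 : ∀ β : Fin n → Bool, c + tv (3 ^ l) (fun u => comb σ D (V ++ u)) (β :: U)
        = (c + ∑ i, σ i * X i false)
          + ∑ i, if β i = true then σ i * (X i true - X i false) else 0 := by
      intro β
      rw [htv, add_assoc, ← sum_add_distrib]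
      congr 1
      refine sum_congr rfl fun i _ => ?_
      rw [List.map_cons]
      cases hβ : β i
      · simp [hX]
      · simp only [hX, if_true]; ring
    rw [sum_congr rfl fun β _ => by rw [h1 β]]
    have h2 := hn₀ n hn (fun i => σ i * (X i true - X i false)) (fun i => ?_) φ hφ h
      (c + ∑ i, σ i * X i false)
    · rwa [div_le_iff₀ (by positivity)] at h2
    · intro hd
      have h3 : (3 : ℤ) ^ l ∣ X i true - X i false := by
        have hd' : (3 : ℤ) ^ l ∣ σ i * (X i true - X i false) := hd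
        rcases hσ i with h4 | h4
        · rwa [h4, one_mul] at hd'
        · rwa [h4, neg_one_mul, dvd_neg] at hd'
      apply hD (V.map (fun β => β i)) (by rw [List.length_map]; exact hV)
      simp only [hX, tv_cons] at h3
      rw [add_sub_add_comm, ← mul_sub] at h3
      exact (dvd_add_left (dvd_mul_right _ _)).1 h3
  calc _ ≤ av k' (fun _ : List (Fin n → Bool) => b * 2 ^ n) / 2 ^ n := by
        refine div_le_div_of_nonneg_right (av_mono fun U _ => hstep U) (by positivity)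
    _ = b := by rw [av_const]; field_simp

end CollatzOne
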