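import Pool.Agent.CollatzOne.FlatI
import Pool.Agent.CollatzOne.Greedy
import Pool.Agent.CollatzOne.Near
import Pool.Agent.CollatzOne.EntRec4
import Pool.Agent.CollatzOne.Exists

set_option autoImplicit false

/-!
Every exponent smaller than one is good.
-/

namespace CollatzOne

lemma greedyTree : GreedyTree := fun hq _ ht0 ht1 _ hg _ hM0 hM Y hY =>
  greedy_tree hq ht0 ht1 hg hM0 hM Y hY

lemma chunkUniform (l k : ℕ) (hl : 1 ≤ l) (hk : 1 ≤ k) : ChunkUniform l k := chunk_uniform l k hl hk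

theorem Sys.main_abstract (A : Sys) {γ : ℝ} (h0 : 0 < γ) (h1 : γ < 1) (hZ1 : 1 < 2 ^ (1 - γ) * A.Z)
    (hZ2 : 256 * (A.l : ℝ) * (4 * A.l + 3) * (-Real.log A.Z) < 1) :
    ∃ n : ℕ, 1 ≤ n ∧ ∀ y : ℤ, 1 ≤ (A.T γ)^[n] (fun _ => 1) y :=
  A.main_of_nondeg greedyTree (fun k hk => chunkUniform A.l k A.hl hk) (A.nondeg hZ2) h0 h1.le hZ1

theorem good_all {γ : ℝ} (h0 : 0 < γ) (h1 : γ < 1) : CollatzExp.Good γ := by
  obtain ⟨A, E, h2, h3, h4⟩ := exists_sys h1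
  obtain ⟨n, hn, h5⟩ := A.main_abstract h0 h1 h2 h3
  refine good_of_iter (E := E) (n := A.l * n) (Nat.mul_pos A.hl hn) fun a ha => ?_
  have h6 := (h5 ((a + 1) / 3)).trans (h4 n _)
  rwa [show 3 * ((a + 1) / 3) - 1 = a by omega] at h6

theorem collatz_count (a : ℤ) (ha : ¬ (3 : ℤ) ∣ a) (ε : ℝ) (hε : 0 < ε) :
    ∃ c : ℝ, 0 < c ∧ ∀ x : ℝ, |(a : ℝ)| ≤ x →
      c * x ^ (1 - ε) ≤ ({n : ℤ | |(n : ℝ)| ≤ x ∧ ∃ k : ℕ, CollatzExp.C^[k] n = a}.ncard : ℝ) :=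
  collatz_count_of (fun _ h0 h1 => good_all h0 h1) a ha ε hε

end CollatzOne
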