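import Mathlib

set_option autoImplicit false

/-!
Sums over a period of periodic functions on the integers.
-/

namespace CollatzOne

/-- The sum of `f` over `0, ..., N - 1`. -/
noncomputable def S (N : ℕ) (f : ℤ → ℝ) : ℝ := ∑ x ∈ Finset.range N, f (x : ℤ)

/-- `f` has period `N`. -/
def Per (N : ℕ) (f : ℤ → ℝ) : Prop := ∀ x : ℤ, f (x + N) = f x

lemma Per.add_mul {N : ℕ} {f : ℤ → ℝ} (h : Per N f) (x k : ℤ) : f (x + N * k) = f x := by
  induction k using Int.induction_on generalizing x with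
  | zero => simp
  | succ i ih =>
    have := h (x + N * i)
    rw [show x + (N : ℤ) * (i + 1) = x + N * i + N by ring, this, ih]
  | pred i ih =>
    have := h (x + N * (-i - 1))
    rw [← this, show x + (N : ℤ) * (-i - 1) + N = x + N * -i by ring, ih]

lemma Per.congr {N : ℕ} {f : ℤ → ℝ} (h : Per N f) {x y : ℤ} (hxy : (N : ℤ) ∣ x - y) : f x = f y := by
  obtain ⟨k, hk⟩ := hxy
  rw [show x = y + N * k by linarith, h.add_mul]

lemma Per.mul_right {N M : ℕ} {f : ℤ → ℝ} (h : Per N f) : Per (N * M) f := fun x => by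
  have := h.add_mul x M
  push_cast
  exact this

lemma Per.comp_affine {N : ℕ} {f : ℤ → ℝ} (h : Per N f) (α β : ℤ) :
    Per N (fun x => f (α * x + β)) := fun x => by
  show f (α * (x + N) + β) = f (α * x + β)
  rw [show α * (x + N) + β = α * x + β + N * α by ring, h.add_mul]

lemma Per.comp_add {N : ℕ} {f : ℤ → ℝ} (h : Per N f) (β : ℤ) :
    Per N (fun x => f (x + β)) := fun x => by
  show f (x + N + β) = f (x + β)
  rw [show x + (N : ℤ) + β = x + β + N by ring, h]

lemma S_nonneg {N : ℕ} {f : ℤ → ℝ} (h : ∀ x, 0 ≤ f x) : 0 ≤ S N f :=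
  Finset.sum_nonneg fun x _ => h x

lemma S_mono {N : ℕ} {f g : ℤ → ℝ} (h : ∀ x, f x ≤ g x) : S N f ≤ S N g :=
  Finset.sum_le_sum fun x _ => h x

lemma S_congr {N : ℕ} {f g : ℤ → ℝ} (h : ∀ x, f x = g x) : S N f = S N g :=
  Finset.sum_congr rfl fun x _ => h x

lemma S_const (N : ℕ) (c : ℝ) : S N (fun _ => c) = N * c := by
  simp [S]

lemma S_add (N : ℕ) (f g : ℤ → ℝ) : S N (fun x => f x + g x) = S N f + S N g :=
  Finset.sum_add_distrib

lemma S_sub (N : ℕ) (f g : ℤ → ℝ) : S N (fun x => f x - g x) = S N f - S N g :=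
  Finset.sum_sub_distrib _ _

lemma S_mul_left (N : ℕ) (c : ℝ) (f : ℤ → ℝ) : S N (fun x => c * f x) = c * S N f :=
  (Finset.mul_sum _ _ _).symm

lemma S_mul_right (N : ℕ) (c : ℝ) (f : ℤ → ℝ) : S N (fun x => f x * c) = S N f * c :=
  (Finset.sum_mul _ _ _).symm

lemma S_sum {ι : Type*} (N : ℕ) (s : Finset ι) (f : ι → ℤ → ℝ) :
    S N (fun x => ∑ i ∈ s, f i x) = ∑ i ∈ s, S N (f i) :=
  Finset.sum_comm

lemma S_S_comm (N M : ℕ) (f : ℤ → ℤ → ℝ) :
    S N (fun x => S M (fun y => f x y)) = S M (fun y => S N (fun x => f x y)) :=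
  Finset.sum_comm

/-- Splitting off the lower part. -/
lemma S_mul (N M : ℕ) (f : ℤ → ℝ) : S (N * M) f = S N (fun a => S M (fun u => f (a + N * u))) := by
  unfold S
  induction M with
  | zero => simp
  | succ M ih =>
    rw [Nat.mul_succ, Finset.sum_range_add, ih, ← Finset.sum_add_distrib]
    refine Finset.sum_congr rfl fun a _ => ?_
    dsimp only
    rw [Finset.sum_range_succ]
    congr 2
    push_cast
    ring

/-- The sum over a period is invariant under affine bijections. -/
lemma S_affine {N : ℕ} {f : ℤ → ℝ} (h : Per N f) {α : ℤ} (hα : IsCoprime α (N : ℤ)) (β : ℤ) :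
    S N (fun x => f (α * x + β)) = S N f := by
  rcases Nat.eq_zero_or_pos N with rfl | hN
  · simp [S]
  have hN' : (0 : ℤ) < N := by exact_mod_cast hN
  unfold S
  have hmem : ∀ x : ℕ, ((α * x + β) % N).toNat < N := by
    intro x
    have h1 := Int.emod_nonneg (α * x + β) hN'.ne'
    have h2 := Int.emod_lt_of_pos (α * x + β) hN'
    omega
  have hinj : Set.InjOn (fun x : ℕ => ((α * x + β) % N).toNat) (Finset.range N : Set ℕ) := by
    intro x hx y hy hxy
    simp only [Finset.coe_range, Set.mem_Iio] at hx hy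
    have h1 := Int.emod_nonneg (α * x + β) hN'.ne'
    have h2 := Int.emod_nonneg (α * y + β) hN'.ne'
    have h3 : (α * x + β) % N = (α * y + β) % N := by
      have : ((α * x + β) % N).toNat = ((α * y + β) % N).toNat := hxy
      omega
    have h4 : (N : ℤ) ∣ (α * x + β) - (α * y + β) := Int.ModEq.dvd (Eq.symm h3)
    have h5 : (N : ℤ) ∣ α * ((x : ℤ) - y) := by
      rw [show α * ((x : ℤ) - y) = (α * x + β) - (α * y + β) by ring]; exact h4
    have h6 : (N : ℤ) ∣ (x : ℤ) - y := (hα.symm).dvd_of_dvd_mul_left h5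
    have h7 : |(x : ℤ) - y| < N := by
      rw [abs_lt]; constructor <;> omega
    have h8 := Int.eq_zero_of_abs_lt_dvd h6 h7
    omega
  have hsurj : Set.SurjOn (fun x : ℕ => ((α * x + β) % N).toNat) (Finset.range N : Set ℕ)
      (Finset.range N : Set ℕ) := by
    apply Finset.surjOn_of_injOn_of_card_le
    · intro x _
      simpa using hmem x
    · exact hinj
    · exact le_rfl
  refine Finset.sum_nbij (fun x : ℕ => ((α * x + β) % N).toNat) ?_ hinj hsurj ?_
  · intro x _
    simpa using hmem x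
  · intro x _
    apply h.congr
    have h1 := Int.emod_nonneg (α * x + β) hN'.ne'
    rw [Int.toNat_of_nonneg h1]
    exact Int.dvd_self_sub_emod

lemma S_shift {N : ℕ} {f : ℤ → ℝ} (h : Per N f) (β : ℤ) : S N (fun x => f (x + β)) = S N f := by
  have := S_affine h (α := 1) isCoprime_one_left β
  simpa using this

end CollatzOne
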