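import Pool.Agent.CollatzOne.Per

set_option autoImplicit false

/-!
Block systems: a finite set of affine inverse branches `y ↦ (2 ^ J w * y - b w) / 3 ^ l`,
the transfer operator and the descendants of a point.
-/

namespace CollatzOne

/-- Total exponent of a list of letters. -/
def jsum {ι : Type} (J : ι → ℕ) (Ω : List ι) : ℕ := (Ω.map J).sum

/-- Translation part of a list of letters: `y = (q ^ n * y' + bsum) / 2 ^ jsum`. -/
def bsum {ι : Type} (q : ℤ) (J : ι → ℕ) (b : ι → ℤ) : List ι → ℤ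
  | [] => 0
  | w :: Ω => q * bsum q J b Ω + 2 ^ jsum J Ω * b w

/-- A block system. -/
structure Sys where
  /-- length of the blocks -/
  l : ℕ
  hl : 1 ≤ l
  /-- the letters -/
  ι : Type
  fin : Fintype ι
  /-- exponent of 2 of a letter -/
  J : ι → ℕ
  /-- translation of a letter -/
  b : ι → ℤ
  two_le : ∀ w, 2 * 3 ^ l ≤ 2 ^ J w
  inj : ∀ Ω Ω' : List ι, Ω.length = Ω'.length → jsum J Ω = jsum J Ω' →
    bsum (3 ^ l) J b Ω = bsum (3 ^ l) J b Ω' → Ω = Ω'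
  deg : ∀ y : ℤ, ∃ w w' : ι, w ≠ w' ∧ (3 : ℤ) ^ l ∣ 2 ^ J w * y - b w ∧
    (3 : ℤ) ^ l ∣ 2 ^ J w' * y - b w'

attribute [instance] Sys.fin

namespace Sys

variable (A : Sys)

/-- The modulus of a block system. -/
def q : ℕ := 3 ^ A.l

/-- The letter `w` is valid at `y`. -/
def valid (w : A.ι) (y : ℤ) : Prop := (A.q : ℤ) ∣ 2 ^ A.J w * y - A.b w

instance (w : A.ι) (y : ℤ) : Decidable (A.valid w y) := by unfold valid; infer_instance

/-- The child of `y` along `w`. -/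
def child (w : A.ι) (y : ℤ) : ℤ := (2 ^ A.J w * y - A.b w) / A.q

/-- The transfer operator. -/
noncomputable def T (γ : ℝ) (φ : ℤ → ℝ) (y : ℤ) : ℝ :=
  ∑ w, if A.valid w y then ((A.q : ℝ) / 2 ^ A.J w) ^ γ * φ (A.child w y) else 0

/-- Nodes reached from `y` by `n` block moves, with their total exponent. -/
def nodes (y : ℤ) : ℕ → Finset (ℕ × ℤ)
  | 0 => {(0, y)}
  | n + 1 => ((nodes y n ×ˢ Finset.univ).filter (fun p => A.valid p.2 p.1.2)).image
      (fun p => (p.1.1 + A.J p.2, A.child p.2 p.1.2))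

/-- The weight `h ^ (-γ)` where `h = 2 ^ J / q ^ n` is the height. -/
noncomputable def wt (γ : ℝ) (n J : ℕ) : ℝ := ((A.q : ℝ) ^ n / 2 ^ J) ^ γ

lemma q_pos : 0 < A.q := by unfold q; positivity

lemma q_pos' : (0 : ℤ) < A.q := by exact_mod_cast A.q_pos

lemma q_posR : (0 : ℝ) < A.q := by exact_mod_cast A.q_pos

lemma three_le_q : 3 ≤ A.q := by
  unfold q
  calc 3 = 3 ^ 1 := by norm_num
    _ ≤ 3 ^ A.l := Nat.pow_le_pow_right (by norm_num) A.hl

lemma q_mul_child {w : A.ι} {y : ℤ} (h : A.valid w y) :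
    (A.q : ℤ) * A.child w y = 2 ^ A.J w * y - A.b w := Int.mul_ediv_cancel' h

lemma coprime_two_pow (J n : ℕ) : IsCoprime ((2 : ℤ) ^ J) ((A.q ^ n : ℕ) : ℤ) := by
  unfold q
  push_cast
  exact IsCoprime.pow (IsCoprime.pow_right (by norm_num : IsCoprime (2 : ℤ) 3))

lemma valid_add (w : A.ι) (y u : ℤ) : A.valid w (y + A.q * u) ↔ A.valid w y := by
  unfold valid
  rw [show 2 ^ A.J w * (y + A.q * u) - A.b w = (2 ^ A.J w * y - A.b w) + A.q * (2 ^ A.J w * u) by ring]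
  constructor
  · intro h
    have := dvd_sub h (Dvd.intro (2 ^ A.J w * u) rfl : (A.q : ℤ) ∣ A.q * (2 ^ A.J w * u))
    simpa using this
  · intro h
    exact dvd_add h (Dvd.intro _ rfl)

lemma child_add {w : A.ι} {y : ℤ} (h : A.valid w y) (u : ℤ) :
    A.child w (y + A.q * u) = A.child w y + 2 ^ A.J w * u := by
  have h1 := A.q_mul_child h
  have h2 := A.q_mul_child ((A.valid_add w y u).2 h)
  have h3 : (A.q : ℤ) ≠ 0 := A.q_pos'.ne'
  apply mul_left_cancel₀ h3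
  rw [h2]
  linear_combination -h1

/-! ### Nodes -/

lemma mem_nodes_succ {y : ℤ} {n : ℕ} {p : ℕ × ℤ} :
    p ∈ A.nodes y (n + 1) ↔ ∃ r ∈ A.nodes y n, ∃ w, A.valid w r.2 ∧
      p = (r.1 + A.J w, A.child w r.2) := by
  simp only [nodes, Finset.mem_image, Finset.mem_filter, Finset.mem_product, Finset.mem_univ, and_true]
  constructor
  · rintro ⟨⟨r, w⟩, ⟨h1, h2⟩, rfl⟩
    exact ⟨r, h1, w, h2, rfl⟩
  · rintro ⟨r, h1, w, h2, rfl⟩
    exact ⟨(r, w), ⟨h1, h2⟩, rfl⟩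

lemma jsum_append {ι : Type} (J : ι → ℕ) (Ω Ω' : List ι) :
    jsum J (Ω ++ Ω') = jsum J Ω + jsum J Ω' := by
  simp [jsum]

lemma bsum_append {ι : Type} (q : ℤ) (J : ι → ℕ) (b : ι → ℤ) (Ω Ω' : List ι) :
    bsum q J b (Ω ++ Ω') = q ^ Ω.length * bsum q J b Ω' + 2 ^ jsum J Ω' * bsum q J b Ω := by
  induction Ω with
  | nil => simp [bsum]
  | cons w Ω ih =>
    rw [List.cons_append, bsum, ih, bsum, jsum_append, List.length_cons]
    ring

lemma exists_word {y : ℤ} (n : ℕ) : ∀ p ∈ A.nodes y n, ∃ Ω : List A.ι, Ω.length = n ∧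
    jsum A.J Ω = p.1 ∧ bsum (3 ^ A.l) A.J A.b Ω = 2 ^ p.1 * y - (A.q : ℤ) ^ n * p.2 := by
  induction n with
  | zero =>
    intro p hp
    simp only [nodes, Finset.mem_singleton] at hp
    subst hp
    exact ⟨[], rfl, rfl, by simp [bsum]⟩
  | succ n ih =>
    intro p hp
    obtain ⟨r, hr, w, hw, rfl⟩ := A.mem_nodes_succ.1 hp
    obtain ⟨Ω, h1, h2, h3⟩ := ih r hr
    refine ⟨Ω ++ [w], by simp [h1], by rw [jsum_append, h2]; simp [jsum], ?_⟩
    rw [bsum_append, h3, h1]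
    have h4 := A.q_mul_child hw
    have h5 : (3 : ℤ) ^ A.l = A.q := by unfold q; push_cast; rfl
    simp only [bsum, jsum, List.map_cons, List.map_nil, List.sum_cons, List.sum_nil, h5]
    rw [pow_add, pow_succ]
    linear_combination ((A.q : ℤ) ^ n) * h4

lemma nodes_inj {y : ℤ} {n : ℕ} {p r : ℕ × ℤ} {w w' : A.ι} (hp : p ∈ A.nodes y n)
    (hr : r ∈ A.nodes y n) (hw : A.valid w p.2) (hw' : A.valid w' r.2)
    (h : (p.1 + A.J w, A.child w p.2) = (r.1 + A.J w', A.child w' r.2)) : w = w' ∧ p = r := by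
  obtain ⟨Ω, h1, h2, h3⟩ := A.exists_word n p hp
  obtain ⟨Ω', h1', h2', h3'⟩ := A.exists_word n r hr
  simp only [Prod.mk.injEq] at h
  have h5 : (3 : ℤ) ^ A.l = A.q := by unfold q; push_cast; rfl
  have h4 := A.q_mul_child hw
  have h4' := A.q_mul_child hw'
  have key : Ω ++ [w] = Ω' ++ [w'] := by
    apply A.inj
    · simp [h1, h1']
    · rw [jsum_append, jsum_append, h2, h2']
      simpa [jsum] using h.1
    · rw [bsum_append, bsum_append, h3, h3', h1, h1']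
      simp only [bsum, jsum, List.map_cons, List.map_nil, List.sum_cons, List.sum_nil, h5]
      have e1 : (2 : ℤ) ^ (p.1 + A.J w) = 2 ^ (r.1 + A.J w') := by rw [h.1]
      rw [pow_add, pow_add] at e1
      have e2 := h.2
      simp only [mul_zero, pow_zero, one_mul, zero_add, add_zero]
      rw [e2] at h4
      linear_combination ((A.q : ℤ) ^ n) * h4 + y * e1 - ((A.q : ℤ) ^ n) * h4'
  have hw2 : w = w' ∧ Ω = Ω' := by
    have := List.append_inj' key rfl
    exact ⟨by simpa using this.2, this.1⟩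
  obtain ⟨rfl, rfl⟩ := hw2
  refine ⟨rfl, ?_⟩
  rw [h2] at h2'
  have e3 : (2 : ℤ) ^ A.J w * p.2 = 2 ^ A.J w * r.2 := by
    rw [h.2] at h4
    linear_combination h4' - h4
  exact Prod.ext h2' (mul_left_cancel₀ (by positivity) e3)

lemma sum_nodes_succ {y : ℤ} (n : ℕ) (F : ℕ × ℤ → ℝ) :
    ∑ p ∈ A.nodes y (n + 1), F p = ∑ r ∈ A.nodes y n, ∑ w,
      if A.valid w r.2 then F (r.1 + A.J w, A.child w r.2) else 0 := by
  rw [← Finset.sum_product', ← Finset.sum_filter (s := A.nodes y n ×ˢ Finset.univ)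
    (p := fun x : (ℕ × ℤ) × A.ι => A.valid x.2 x.1.2)
    (f := fun x : (ℕ × ℤ) × A.ι => F (x.1.1 + A.J x.2, A.child x.2 x.1.2))]
  rw [nodes, Finset.sum_image]
  intro x hx z hz hxz
  simp only [Finset.coe_filter, Finset.mem_product, Finset.mem_univ, and_true,
    Set.mem_ofPred_eq] at hx hz
  obtain ⟨h1, h2⟩ := A.nodes_inj hx.1 hz.1 hx.2 hz.2 hxz
  exact Prod.ext h2 h1

lemma wt_pos (γ : ℝ) (n J : ℕ) : 0 < A.wt γ n J := by
  have := A.q_posR
  unfold wt
  positivity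

lemma wt_zero (γ : ℝ) : A.wt γ 0 0 = 1 := by simp [wt]

lemma wt_succ (γ : ℝ) (n J J' : ℕ) :
    A.wt γ (n + 1) (J + J') = A.wt γ n J * ((A.q : ℝ) / 2 ^ J') ^ γ := by
  have := A.q_posR
  unfold wt
  rw [← Real.mul_rpow (by positivity) (by positivity)]
  congr 1
  rw [pow_add (2 : ℝ), pow_succ, div_mul_div_comm]

/-- Expansion of the iterates of the transfer operator. -/
lemma iter_eq (γ : ℝ) (y : ℤ) (n : ℕ) (U : ℤ) (φ : ℤ → ℝ) :
    (A.T γ)^[n] φ (y + (A.q : ℤ) ^ n * U) =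
      ∑ p ∈ A.nodes y n, A.wt γ n p.1 * φ (p.2 + 2 ^ p.1 * U) := by
  induction n generalizing φ U with
  | zero => simp [nodes, wt]
  | succ n ih =>
    rw [Function.iterate_succ_apply, show y + (A.q : ℤ) ^ (n + 1) * U = y + (A.q : ℤ) ^ n * (A.q * U) by ring,
      ih, sum_nodes_succ]
    refine Finset.sum_congr rfl fun p _ => ?_
    unfold T
    rw [Finset.mul_sum]
    refine Finset.sum_congr rfl fun w _ => ?_
    rw [show p.2 + 2 ^ p.1 * ((A.q : ℤ) * U) = p.2 + A.q * (2 ^ p.1 * U) by ring]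
    by_cases h : A.valid w p.2
    · rw [if_pos ((A.valid_add _ _ _).2 h), if_pos h, A.child_add h, wt_succ]
      dsimp only
      rw [pow_add, mul_assoc]
      congr 3
      ring_nf
    · rw [if_neg (fun h' => h ((A.valid_add _ _ _).1 h')), if_neg h, mul_zero]

lemma iter_eq' (γ : ℝ) (y : ℤ) (n : ℕ) (φ : ℤ → ℝ) :
    (A.T γ)^[n] φ y = ∑ p ∈ A.nodes y n, A.wt γ n p.1 * φ p.2 := by
  have := A.iter_eq γ y n 0 φ
  simpa using this

/-- Iterates of periodic functions are periodic. -/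
lemma iter_per (γ : ℝ) (n k : ℕ) {φ : ℤ → ℝ} (h : Per (A.q ^ k) φ) :
    Per (A.q ^ (n + k)) ((A.T γ)^[n] φ) := by
  intro y
  have h1 := A.iter_eq γ y n ((A.q : ℤ) ^ k) φ
  rw [show y + ((A.q ^ (n + k) : ℕ) : ℤ) = y + (A.q : ℤ) ^ n * (A.q : ℤ) ^ k by push_cast; ring, h1, iter_eq']
  refine Finset.sum_congr rfl fun p _ => ?_
  congr 1
  have := h.add_mul p.2 (2 ^ p.1)
  push_cast at this
  rw [mul_comm]
  exact this

lemma per_one : Per (A.q ^ 0) (fun _ => (1 : ℝ)) := fun _ => rfl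

lemma iter_one_per (γ : ℝ) (n : ℕ) : Per (A.q ^ n) ((A.T γ)^[n] (fun _ => 1)) :=
  A.iter_per γ n 0 A.per_one

/-- Sum over a period of the iterates. -/
lemma S_iter (γ : ℝ) (n k : ℕ) {φ : ℤ → ℝ} (h : Per (A.q ^ k) φ) :
    S (A.q ^ (n + k)) ((A.T γ)^[n] φ) = S (A.q ^ n) ((A.T γ)^[n] (fun _ => 1)) * S (A.q ^ k) φ := by
  rw [pow_add, S_mul, ← S_mul_right]
  refine S_congr fun a => ?_
  have h1 : ∀ u : ℤ, (A.T γ)^[n] φ (a + ((A.q ^ n : ℕ) : ℤ) * u) =
      ∑ p ∈ A.nodes a n, A.wt γ n p.1 * φ (2 ^ p.1 * u + p.2) := by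
    intro u
    have := A.iter_eq γ a n u φ
    push_cast
    rw [this]
    refine Finset.sum_congr rfl fun p _ => ?_
    rw [add_comm]
  rw [S_congr h1, S_sum, iter_eq', Finset.sum_mul]
  refine Finset.sum_congr rfl fun p _ => ?_
  rw [S_mul_left, mul_one, S_affine h (A.coprime_two_pow _ _)]

end Sys

end CollatzOne
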