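import Pool.Agent.CollatzOne.Defs
import Pool.Agent.CollatzExp.T1

set_option autoImplicit false

/-!
Words of moves of the Collatz inverse branches, in the coordinate `y` with `x = 3 y - 1`.
-/

namespace CollatzOne

open Finset

/-- The translation of a single move. -/
def cc (e : ℕ) : ℤ := 2 ^ e / 3

lemma two_pow_mod_three (e : ℕ) : (2 : ℤ) ^ e % 3 = if e % 2 = 1 then 2 else 1 := by
  induction e with
  | zero => simp
  | succ e ih =>
    rw [pow_succ, Int.mul_emod, ih]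
    split_ifs <;> omega

lemma three_cc (e : ℕ) : 3 * cc e + 3 = 2 ^ e + CollatzExp.eps e := by
  unfold cc CollatzExp.eps
  have := two_pow_mod_three e
  split_ifs at this ⊢ <;> omega

/-- Total exponent of a word of moves. -/
abbrev js (W : List ℕ) : ℕ := jsum id W

/-- Translation of a word of moves. -/
abbrev bs (W : List ℕ) : ℤ := bsum 3 id cc W

lemma js_nil : js [] = 0 := rfl

lemma js_cons (e : ℕ) (W : List ℕ) : js (e :: W) = e + js W := by simp [js, jsum]

lemma js_append (W W' : List ℕ) : js (W ++ W') = js W + js W' := Sys.jsum_append _ _ _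

lemma bs_nil : bs [] = 0 := rfl

lemma bs_cons (e : ℕ) (W : List ℕ) : bs (e :: W) = 3 * bs W + 2 ^ js W * cc e := rfl

lemma bs_append (W W' : List ℕ) : bs (W ++ W') = 3 ^ W.length * bs W' + 2 ^ js W' * bs W :=
  Sys.bsum_append _ _ _ _ _

/-- The invariant `r = 3 b - 2 ^ J + 3 ^ n`. -/
def rr (W : List ℕ) : ℤ := 3 * bs W - 2 ^ js W + 3 ^ W.length

lemma rr_append (W : List ℕ) (e : ℕ) :
    rr (W ++ [e]) = 2 ^ e * rr W + 3 ^ W.length * CollatzExp.eps e := by
  have h := three_cc e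
  unfold rr
  rw [bs_append, js_append, List.length_append, js_cons, js_nil, bs_cons, bs_nil, js_nil]
  simp only [List.length_cons, List.length_nil, add_zero, pow_zero, one_mul, mul_zero, zero_add]
  rw [pow_add, pow_add]
  linear_combination (3 : ℤ) ^ W.length * h

lemma eps_eq (e : ℕ) : CollatzExp.eps e = 1 ∧ e % 2 = 1 ∨ CollatzExp.eps e = 2 ∧ e % 2 = 0 := by
  unfold CollatzExp.eps
  split_ifs with h <;> omega

lemma three_pow_odd (n : ℕ) : (3 : ℤ) ^ n % 2 = 1 := by
  induction n with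
  | zero => norm_num
  | succ n ih => rw [pow_succ]; omega

lemma rr_mod {W : List ℕ} (hW : ∀ e ∈ W, 1 ≤ e) (hne : W ≠ []) : rr W % 4 ≠ 0 := by
  obtain ⟨V, e, rfl⟩ : ∃ V e, W = V ++ [e] := by
    rcases List.eq_nil_or_concat W with h | ⟨V, e, h⟩
    · exact absurd h hne
    · exact ⟨V, e, by rw [h, List.concat_eq_append]⟩
  have he : 1 ≤ e := hW e (by simp)
  rw [rr_append]
  have h3 := three_pow_odd V.length
  rcases eps_eq e with ⟨h1, h2⟩ | ⟨h1, h2⟩
  · rw [h1]
    obtain ⟨k, rfl⟩ : ∃ k, e = k + 1 := ⟨e - 1, by omega⟩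
    rw [pow_succ]
    have : (2 ^ k * 2 * rr V : ℤ) = 2 * (2 ^ k * rr V) := by ring
    rw [this]
    omega
  · rw [h1]
    obtain ⟨k, rfl⟩ : ∃ k, e = k + 2 := ⟨e - 2, by omega⟩
    rw [pow_add]
    have : (2 ^ k * 2 ^ 2 * rr V : ℤ) = 4 * (2 ^ k * rr V) := by ring
    rw [this]
    omega

lemma rr_parity (W : List ℕ) {e : ℕ} (he : 1 ≤ e) : rr (W ++ [e]) % 2 = e % 2 := by
  rw [rr_append]
  have h3 := three_pow_odd W.length
  obtain ⟨k, rfl⟩ : ∃ k, e = k + 1 := ⟨e - 1, by omega⟩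
  have : (2 ^ (k + 1) * rr W : ℤ) = 2 * (2 ^ k * rr W) := by rw [pow_succ]; ring
  rw [this]
  rcases eps_eq (k + 1) with ⟨h1, h2⟩ | ⟨h1, h2⟩ <;> rw [h1] <;> omega

lemma last_aux {V V' : List ℕ} {e e' : ℕ} (hV : ∀ e ∈ V, 1 ≤ e) (he : 1 ≤ e)
    (hlen : V.length = V'.length) (hjs : js V + e = js V' + e')
    (hrr : rr (V ++ [e]) = rr (V' ++ [e'])) (hlt : e < e') : False := by
  have he' : 1 ≤ e' := by omega
  have hpar : (e : ℤ) % 2 = e' % 2 := by
    rw [← rr_parity V he, ← rr_parity V' he', hrr]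
  have heps : CollatzExp.eps e = CollatzExp.eps e' := by
    rcases eps_eq e with ⟨h1, h2⟩ | ⟨h1, h2⟩ <;> rcases eps_eq e' with ⟨h3, h4⟩ | ⟨h3, h4⟩ <;>
      rw [h1, h3] <;> omega
  rw [rr_append, rr_append, hlen, heps] at hrr
  by_cases hnil : V = []
  · subst hnil
    have hnil' : V' = [] := by
      rw [← List.length_eq_zero_iff, ← hlen]; rfl
    subst hnil'
    simp [js_nil] at hjs
    omega
  · -- `2 ^ e * rr V = 2 ^ e' * rr V'`
    obtain ⟨k, rfl⟩ : ∃ k, e' = e + (k + 2) := ⟨e' - e - 2, by omega⟩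
    have h1 : (2 : ℤ) ^ e * rr V = 2 ^ e * (4 * (2 ^ k * rr V')) := by
      have : (2 : ℤ) ^ (e + (k + 2)) * rr V' = 2 ^ e * (4 * (2 ^ k * rr V')) := by
        rw [pow_add, pow_add]; ring
      linarith
    have h2 := mul_left_cancel₀ (by positivity : (2 : ℤ) ^ e ≠ 0) h1
    have h3 := rr_mod hV hnil
    omega

/-- A word is determined by its length, total exponent and translation. -/
theorem word_unique (W : List ℕ) : ∀ W' : List ℕ, (∀ e ∈ W, 1 ≤ e) → (∀ e ∈ W', 1 ≤ e) →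
    W.length = W'.length → js W = js W' → bs W = bs W' → W = W' := by
  induction W using List.reverseRecOn with
  | nil =>
    intro W' _ _ hlen _ _
    exact (List.length_eq_zero_iff.1 hlen.symm).symm
  | append_singleton V e ih =>
    intro W' hW hW' hlen hjs hbs
    obtain ⟨V', e', rfl⟩ : ∃ V' e', W' = V' ++ [e'] := by
      rcases List.eq_nil_or_concat W' with h | ⟨V', e', h⟩
      · subst h; simp at hlen
      · exact ⟨V', e', by rw [h, List.concat_eq_append]⟩
    have hlen' : V.length = V'.length := by simpa using hlen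
    have hV : ∀ e ∈ V, 1 ≤ e := fun x hx => hW x (by simp [hx])
    have hV' : ∀ e ∈ V', 1 ≤ e := fun x hx => hW' x (by simp [hx])
    have he : 1 ≤ e := hW e (by simp)
    have he' : 1 ≤ e' := hW' e' (by simp)
    have hrr : rr (V ++ [e]) = rr (V' ++ [e']) := by
      unfold rr; rw [hbs, hjs, hlen]
    have hjs' : js V + e = js V' + e' := by
      have := hjs
      rw [js_append, js_append, js_cons, js_cons, js_nil] at this
      omega
    have hee : e = e' := by
      rcases lt_trichotomy e e' with h | h | h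
      · exact (last_aux hV he hlen' hjs' hrr h).elim
      · exact h
      · exact (last_aux hV' he' hlen'.symm hjs'.symm hrr.symm h).elim
    subst hee
    have hjs2 : js V = js V' := by omega
    rw [rr_append, rr_append, hlen'] at hrr
    have h1 : (2 : ℤ) ^ e * rr V = 2 ^ e * rr V' := by linarith
    have h2 := mul_left_cancel₀ (by positivity : (2 : ℤ) ^ e ≠ 0) h1
    have hbs2 : bs V = bs V' := by
      unfold rr at h2
      rw [hjs2, hlen'] at h2
      linarith
    rw [ih V' hV hV' hlen' hjs2 hbs2]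

/-! ### Validity -/

/-- The word `W` is valid at `y`. -/
def vd (W : List ℕ) (y : ℤ) : Prop := (3 : ℤ) ^ W.length ∣ 2 ^ js W * y - bs W

instance (W : List ℕ) (y : ℤ) : Decidable (vd W y) := by unfold vd; infer_instance

/-- The child of `y` along the word `W`. -/
def ch (W : List ℕ) (y : ℤ) : ℤ := (2 ^ js W * y - bs W) / 3 ^ W.length

/-- The move `e` is valid at `y`. -/
def v1 (e : ℕ) (y : ℤ) : Prop := (3 : ℤ) ∣ 2 ^ e * y - cc e

instance (e : ℕ) (y : ℤ) : Decidable (v1 e y) := by unfold v1; infer_instance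

/-- The child of `y` along the move `e`. -/
def c1 (e : ℕ) (y : ℤ) : ℤ := (2 ^ e * y - cc e) / 3

lemma three_c1 {e : ℕ} {y : ℤ} (h : v1 e y) : 3 * c1 e y = 2 ^ e * y - cc e :=
  Int.mul_ediv_cancel' h

lemma pow_ch {W : List ℕ} {y : ℤ} (h : vd W y) : 3 ^ W.length * ch W y = 2 ^ js W * y - bs W :=
  Int.mul_ediv_cancel' h

lemma vd_nil (y : ℤ) : vd [] y := by simp [vd]

lemma ch_nil (y : ℤ) : ch [] y = y := by simp [ch, js_nil, bs_nil]

lemma vd_cons {e : ℕ} {W : List ℕ} {y : ℤ} : vd (e :: W) y ↔ v1 e y ∧ vd W (c1 e y) := by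
  have key : 2 ^ js (e :: W) * y - bs (e :: W) = 2 ^ js W * (2 ^ e * y - cc e) - 3 * bs W := by
    rw [js_cons, bs_cons, pow_add]; ring
  unfold vd
  rw [key, List.length_cons]
  constructor
  · intro h
    have h1 : (3 : ℤ) ∣ 2 ^ js W * (2 ^ e * y - cc e) - 3 * bs W :=
      (dvd_pow_self 3 (by omega)).trans h
    have h2 : (3 : ℤ) ∣ 2 ^ js W * (2 ^ e * y - cc e) := by
      have := dvd_add h1 (dvd_mul_right (3 : ℤ) (bs W))
      simpa using this
    have h3 : v1 e y := (IsCoprime.pow_right (by norm_num : IsCoprime (3 : ℤ) 2)).dvd_of_dvd_mul_left h2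
    refine ⟨h3, ?_⟩
    rw [← three_c1 h3, pow_succ] at h
    have h4 : (3 : ℤ) ^ W.length * 3 ∣ (2 ^ js W * c1 e y - bs W) * 3 := by
      rw [show (2 ^ js W * c1 e y - bs W) * 3 = 2 ^ js W * (3 * c1 e y) - 3 * bs W by ring]
      exact h
    exact Int.dvd_of_mul_dvd_mul_right (by norm_num) h4
  · rintro ⟨h3, h4⟩
    rw [← three_c1 h3, pow_succ,
      show 2 ^ js W * (3 * c1 e y) - 3 * bs W = (2 ^ js W * c1 e y - bs W) * 3 by ring]
    exact mul_dvd_mul_right h4 3

lemma ch_cons {e : ℕ} {W : List ℕ} {y : ℤ} (h : vd (e :: W) y) :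
    ch (e :: W) y = ch W (c1 e y) := by
  obtain ⟨h1, h2⟩ := vd_cons.1 h
  have e1 := pow_ch h
  have e2 := pow_ch h2
  have e3 := three_c1 h1
  have h3 : (3 : ℤ) ^ (W.length + 1) ≠ 0 := by positivity
  apply mul_left_cancel₀ h3
  rw [List.length_cons] at e1
  rw [e1, js_cons, bs_cons, pow_add, pow_succ]
  linear_combination -3 * e2 - 2 ^ js W * e3

/-- Two moves among `5, …, 10` are valid at every point. -/
lemma two_moves (y : ℤ) : ∃ e e' : ℕ, e ≠ e' ∧ 5 ≤ e ∧ e ≤ 10 ∧ 5 ≤ e' ∧ e' ≤ 10 ∧ v1 e y ∧ v1 e' y := by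
  have h : y % 3 = 0 ∨ y % 3 = 1 ∨ y % 3 = 2 := by omega
  rcases h with h | h | h
  · refine ⟨6, 7, by norm_num, by norm_num, by norm_num, by norm_num, by norm_num, ?_, ?_⟩ <;>
      · unfold v1 cc; norm_num; omega
  · refine ⟨8, 9, by norm_num, by norm_num, by norm_num, by norm_num, by norm_num, ?_, ?_⟩ <;>
      · unfold v1 cc; norm_num; omega
  · refine ⟨5, 10, by norm_num, by norm_num, by norm_num, by norm_num, by norm_num, ?_, ?_⟩ <;>
      · unfold v1 cc; norm_num; omega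

lemma exists_valid (n : ℕ) : ∀ y : ℤ, ∃ W : List ℕ, W.length = n ∧ (∀ e ∈ W, 5 ≤ e ∧ e ≤ 10) ∧
    vd W y := by
  induction n with
  | zero => exact fun y => ⟨[], rfl, by simp, vd_nil y⟩
  | succ n ih =>
    intro y
    obtain ⟨e, -, -, h1, h2, -, -, h3, -⟩ := two_moves y
    obtain ⟨W, h4, h5, h6⟩ := ih (c1 e y)
    refine ⟨e :: W, by simp [h4], ?_, vd_cons.2 ⟨h3, h6⟩⟩
    intro x hx
    rcases List.mem_cons.1 hx with rfl | hx
    · exact ⟨h1, h2⟩
    · exact h5 x hx

lemma exists_two_valid {n : ℕ} (hn : 1 ≤ n) (y : ℤ) : ∃ W W' : List ℕ, W ≠ W' ∧ W.length = n ∧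
    W'.length = n ∧ (∀ e ∈ W, 5 ≤ e ∧ e ≤ 10) ∧ (∀ e ∈ W', 5 ≤ e ∧ e ≤ 10) ∧ vd W y ∧ vd W' y := by
  obtain ⟨m, rfl⟩ : ∃ m, n = m + 1 := ⟨n - 1, by omega⟩
  obtain ⟨e, e', h0, h1, h2, h1', h2', h3, h3'⟩ := two_moves y
  obtain ⟨W, h4, h5, h6⟩ := exists_valid m (c1 e y)
  obtain ⟨W', h4', h5', h6'⟩ := exists_valid m (c1 e' y)
  refine ⟨e :: W, e' :: W', fun h => h0 (List.cons.inj h).1, by simp [h4], by simp [h4'], ?_, ?_,
    vd_cons.2 ⟨h3, h6⟩, vd_cons.2 ⟨h3', h6'⟩⟩
  · intro x hx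
    rcases List.mem_cons.1 hx with rfl | hx
    · exact ⟨h1, h2⟩
    · exact h5 x hx
  · intro x hx
    rcases List.mem_cons.1 hx with rfl | hx
    · exact ⟨h1', h2'⟩
    · exact h5' x hx

lemma js_ge {k : ℕ} {W : List ℕ} (h : ∀ e ∈ W, k ≤ e) : k * W.length ≤ js W := by
  induction W with
  | nil => simp [js_nil]
  | cons e W ih =>
    rw [js_cons, List.length_cons]
    have h1 := h e (by simp)
    have h2 := ih (fun x hx => h x (by simp [hx]))
    rw [Nat.mul_succ]; omega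

/-! ### The finite sets of words -/

/-- Words of length `l` with letters in `1, …, E`. -/
def words (E : ℕ) : ℕ → Finset (List ℕ)
  | 0 => {[]}
  | l + 1 => (Icc 1 E ×ˢ words E l).image (fun p => p.1 :: p.2)

lemma mem_words {E l : ℕ} {W : List ℕ} :
    W ∈ words E l ↔ W.length = l ∧ ∀ e ∈ W, 1 ≤ e ∧ e ≤ E := by
  induction l generalizing W with
  | zero =>
    simp only [words, mem_singleton]
    constructor
    · rintro rfl; simp
    · rintro ⟨h, -⟩; exact List.length_eq_zero_iff.1 h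
  | succ l ih =>
    simp only [words, mem_image, mem_product, Prod.exists, mem_Icc]
    constructor
    · rintro ⟨e, V, ⟨h1, h2⟩, rfl⟩
      obtain ⟨h3, h4⟩ := ih.1 h2
      refine ⟨by simp [h3], ?_⟩
      intro x hx
      rcases List.mem_cons.1 hx with rfl | hx
      · exact h1
      · exact h4 x hx
    · rintro ⟨h1, h2⟩
      cases W with
      | nil => simp at h1
      | cons e V =>
        refine ⟨e, V, ⟨h2 e (by simp), ih.2 ⟨by simpa using h1, fun x hx => h2 x (by simp [hx])⟩⟩, rfl⟩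

lemma sum_words_succ {M : Type*} [AddCommMonoid M] (E l : ℕ) (F : List ℕ → M) :
    ∑ W ∈ words E (l + 1), F W = ∑ e ∈ Icc 1 E, ∑ W ∈ words E l, F (e :: W) := by
  rw [words, sum_image, sum_product]
  rintro ⟨e, V⟩ _ ⟨e', V'⟩ _ h
  obtain ⟨h1, h2⟩ := List.cons.inj h
  exact Prod.ext h1 h2

/-- Sums of multiplicative functions. -/
lemma sum_words_prod (E l : ℕ) (f : ℕ → ℝ) :
    ∑ W ∈ words E l, (W.map f).prod = (∑ e ∈ Icc 1 E, f e) ^ l := by
  induction l with
  | zero => simp [words]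
  | succ l ih =>
    rw [sum_words_succ, pow_succ', ← ih, sum_mul_sum]
    simp only [List.map_cons, List.prod_cons]

end CollatzOne
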